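import Pool.Agent.Lib.CO.SpecV

/-!
# THEOREM COS, part V, module Abl: from `Λ` to primes, with the maximum over `Y` inside
-/

set_option autoImplicit false

namespace Pool.Agent.Lib.CO

open Finset Pool.Agent.Lib.BV Pool.Agent.Results.MP_00e23e_nt

/-- the sum of `log p * χ p` over the primes up to `Y` -/
private noncomputable def Abl_TH {q : ℕ} (χ : DirichletCharacter ℂ q) (Y : ℕ) : ℂ :=
  ∑ p ∈ (Icc 1 Y).filter Nat.Prime, ((Real.log p : ℝ) : ℂ) * χ (p : ZMod q)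

/-- the weights of the Abel summation -/
private noncomputable def Abl_dl (n : ℕ) : ℝ := 1 / Real.log n - 1 / Real.log ((n + 1 : ℕ) : ℝ)

private theorem Abl_TH_zero {q : ℕ} (χ : DirichletCharacter ℂ q) : Abl_TH χ 0 = 0 := by
  simp [Abl_TH]

private theorem Abl_PS_sub {q : ℕ} (χ : DirichletCharacter ℂ q) (Y : ℕ) :
    ‖PS χ Y - Abl_TH χ Y‖ ≤ Chebyshev.psi Y - Chebyshev.theta Y := by
  have h1 : PS χ Y - Abl_TH χ Y =
      ∑ n ∈ (Icc 1 Y).filter (fun n => ¬ n.Prime),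
        ((ArithmeticFunction.vonMangoldt n : ℝ) : ℂ) * χ (n : ZMod q) := by
    rw [PS, Abl_TH, ← Finset.sum_filter_add_sum_filter_not (Icc 1 Y) Nat.Prime
      (fun n => ((ArithmeticFunction.vonMangoldt n : ℝ) : ℂ) * χ (n : ZMod q))]
    have h2 : ∑ n ∈ (Icc 1 Y).filter Nat.Prime,
        ((ArithmeticFunction.vonMangoldt n : ℝ) : ℂ) * χ (n : ZMod q) =
        ∑ p ∈ (Icc 1 Y).filter Nat.Prime, ((Real.log p : ℝ) : ℂ) * χ (p : ZMod q) := by
      refine Finset.sum_congr rfl fun p hp => ?_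
      rw [ArithmeticFunction.vonMangoldt_apply_prime (Finset.mem_filter.1 hp).2]
    rw [h2]
    ring
  have h3 : Chebyshev.psi Y - Chebyshev.theta Y =
      ∑ n ∈ (Icc 1 Y).filter (fun n => ¬ n.Prime), ArithmeticFunction.vonMangoldt n := by
    rw [Chebyshev.psi_sub_theta_eq_sum_not_prime, Nat.floor_natCast]
    have h4 : Ioc 0 Y = Icc 1 Y := by
      ext n
      simp only [Finset.mem_Ioc, Finset.mem_Icc]
      omega
    rw [h4]
  rw [h1, h3]
  refine (norm_sum_le _ _).trans (Finset.sum_le_sum fun n _ => ?_)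
  rw [norm_mul, Complex.norm_real, Real.norm_eq_abs,
    abs_of_nonneg ArithmeticFunction.vonMangoldt_nonneg]
  calc ArithmeticFunction.vonMangoldt n * ‖χ (n : ZMod q)‖
      ≤ ArithmeticFunction.vonMangoldt n * 1 :=
        mul_le_mul_of_nonneg_left (DirichletCharacter.norm_le_one χ _)
          ArithmeticFunction.vonMangoldt_nonneg
    _ = ArithmeticFunction.vonMangoldt n := mul_one _

private theorem Abl_nn (Xm : ℕ) : 0 ≤ Real.sqrt Xm * Real.log Xm :=
  mul_nonneg (Real.sqrt_nonneg _) (Real.log_natCast_nonneg _)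

private theorem Abl_TH_le {q : ℕ} (χ : DirichletCharacter ℂ q) (Y Xm : ℕ) (hY : Y ≤ Xm) :
    ‖Abl_TH χ Y‖ ≤ ‖PS χ Y‖ + 2 * (Real.sqrt Xm * Real.log Xm) := by
  rcases Nat.eq_zero_or_pos Y with h0 | h0
  · rw [h0, Abl_TH_zero, norm_zero]
    have := Abl_nn Xm
    have := norm_nonneg (PS χ 0)
    linarith
  · have h1 : (1 : ℝ) ≤ Y := by exact_mod_cast h0
    have h2 := Abl_PS_sub χ Y
    have h3 := Chebyshev.psi_sub_theta_le h1
    have h4 : Real.sqrt Y * Real.log Y ≤ Real.sqrt Xm * Real.log Xm := by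
      have h5 : (Y : ℝ) ≤ Xm := by exact_mod_cast hY
      exact mul_le_mul (Real.sqrt_le_sqrt h5) (Real.log_le_log (by linarith) h5)
        (Real.log_natCast_nonneg _) (Real.sqrt_nonneg _)
    have h6 : ‖Abl_TH χ Y‖ ≤ ‖PS χ Y‖ + ‖PS χ Y - Abl_TH χ Y‖ := by
      have h7 : Abl_TH χ Y = PS χ Y - (PS χ Y - Abl_TH χ Y) := by ring
      calc ‖Abl_TH χ Y‖ = ‖PS χ Y - (PS χ Y - Abl_TH χ Y)‖ := by rw [← h7]
        _ ≤ _ := norm_sub_le _ _
    have h8 : 2 * Real.sqrt Y * Real.log Y = 2 * (Real.sqrt Y * Real.log Y) := by ring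
    linarith

private theorem Abl_dl_nonneg (n : ℕ) (hn : 2 ≤ n) : 0 ≤ Abl_dl n := by
  have h1 : (1 : ℝ) < n := by exact_mod_cast (by omega : 1 < n)
  have h2 : 0 < Real.log n := Real.log_pos h1
  have h3 : Real.log n ≤ Real.log ((n + 1 : ℕ) : ℝ) :=
    Real.log_le_log (by linarith) (by push_cast; linarith)
  have h4 := one_div_le_one_div_of_le h2 h3
  unfold Abl_dl
  linarith

private theorem Abl_dl_sum (N : ℕ) (hN : 2 ≤ N) :
    ∑ n ∈ Ico 2 N, Abl_dl n = 1 / Real.log 2 - 1 / Real.log N := by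
  induction N, hN using Nat.le_induction with
  | base => simp
  | succ N hN ih =>
    rw [Finset.sum_Ico_succ_top hN, ih, Abl_dl]
    ring

private theorem Abl_dl_sum_le (N : ℕ) : ∑ n ∈ Ico 2 N, Abl_dl n ≤ 1 / Real.log 2 := by
  rcases Nat.lt_or_ge N 2 with h | h
  · rw [Finset.Ico_eq_empty (by omega), Finset.sum_empty]
    have := Real.log_pos (by norm_num : (1 : ℝ) < 2)
    positivity
  · rw [Abl_dl_sum N h]
    have h1 : 0 ≤ 1 / Real.log (N : ℝ) := div_nonneg zero_le_one (Real.log_natCast_nonneg _)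
    linarith

private theorem Abl_filter_succ (Y : ℕ) :
    (Icc 1 (Y + 1)).filter Nat.Prime =
      if (Y + 1).Prime then insert (Y + 1) ((Icc 1 Y).filter Nat.Prime)
      else (Icc 1 Y).filter Nat.Prime := by
  have h1 : Icc 1 (Y + 1) = insert (Y + 1) (Icc 1 Y) := by
    ext n
    simp only [Finset.mem_insert, Finset.mem_Icc]
    omega
  rw [h1, Finset.filter_insert]

private theorem Abl_sum_succ (g : ℕ → ℂ) (Y : ℕ) :
    ∑ p ∈ (Icc 1 (Y + 1)).filter Nat.Prime, g p =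
      ∑ p ∈ (Icc 1 Y).filter Nat.Prime, g p + (if (Y + 1).Prime then g (Y + 1) else 0) := by
  rw [Abl_filter_succ]
  split_ifs with h
  · rw [Finset.sum_insert, add_comm]
    simp
  · rw [add_zero]

private theorem Abl_abel {q : ℕ} (χ : DirichletCharacter ℂ q) (Y : ℕ) (hY : 2 ≤ Y) :
    PC χ Y = ((1 / Real.log Y : ℝ) : ℂ) * Abl_TH χ Y +
      ∑ n ∈ Ico 2 Y, ((Abl_dl n : ℝ) : ℂ) * Abl_TH χ n := by
  induction Y, hY using Nat.le_induction with
  | base =>
    have h1 : (Icc 1 2).filter Nat.Prime = {2} := by decide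
    have h2 : ((Real.log 2 : ℝ) : ℂ) ≠ 0 := by
      have := Real.log_pos (by norm_num : (1 : ℝ) < 2)
      exact_mod_cast this.ne'
    rw [PC, Abl_TH, h1, Finset.sum_singleton, Finset.sum_singleton, Finset.Ico_self,
      Finset.sum_empty, add_zero]
    push_cast
    field_simp
  | succ Y hY ih =>
    have h1 : (1 : ℝ) < ((Y + 1 : ℕ) : ℝ) := by exact_mod_cast (by omega : 1 < Y + 1)
    have h2 : ((Real.log ((Y + 1 : ℕ) : ℝ) : ℝ) : ℂ) ≠ 0 := by
      have := Real.log_pos h1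
      exact_mod_cast this.ne'
    have h3 : PC χ (Y + 1) = PC χ Y + (if (Y + 1).Prime then χ ((Y + 1 : ℕ) : ZMod q) else 0) := by
      rw [PC, PC, Abl_sum_succ]
    have h4 : Abl_TH χ (Y + 1) = Abl_TH χ Y +
        (if (Y + 1).Prime then
          ((Real.log ((Y + 1 : ℕ) : ℝ) : ℝ) : ℂ) * χ ((Y + 1 : ℕ) : ZMod q) else 0) := by
      rw [Abl_TH, Abl_TH, Abl_sum_succ]
    rw [Finset.sum_Ico_succ_top hY, h3, ih, h4, Abl_dl]
    generalize ((Y + 1 : ℕ) : ℝ) = y at *
    generalize χ ((Y + 1 : ℕ) : ZMod q) = c at *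
    rw [Complex.ofReal_sub, Complex.ofReal_div 1 (Real.log y), Complex.ofReal_one]
    split_ifs with h5
    · field_simp
      ring
    · ring

private theorem Abl_pt {q : ℕ} (χ : DirichletCharacter ℂ q) (Y Xm : ℕ) (hY : Y ≤ Xm) :
    ‖PC χ Y‖ ≤ 1 / Real.log 2 * ‖Abl_TH χ Y‖ +
      ∑ n ∈ Ico 2 Xm, Abl_dl n * ‖Abl_TH χ (if n < Y then n else 0)‖ := by
  have hl := Real.log_pos (by norm_num : (1 : ℝ) < 2)
  have h0 : ∀ n ∈ Ico 2 Xm, 0 ≤ Abl_dl n * ‖Abl_TH χ (if n < Y then n else 0)‖ := fun n hn =>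
    mul_nonneg (Abl_dl_nonneg n (Finset.mem_Ico.1 hn).1) (norm_nonneg _)
  rcases Nat.lt_or_ge Y 2 with h | h
  · have h1 : (Icc 1 Y).filter Nat.Prime = ∅ := by
      rw [Finset.filter_eq_empty_iff]
      intro p hp hpp
      have := hpp.two_le
      have := (Finset.mem_Icc.1 hp).2
      omega
    rw [PC, h1, Finset.sum_empty, norm_zero]
    exact add_nonneg (by positivity) (Finset.sum_nonneg h0)
  · rw [Abl_abel χ Y h]
    refine (norm_add_le _ _).trans (add_le_add ?_ ?_)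
    · rw [norm_mul, Complex.norm_real, Real.norm_eq_abs]
      refine mul_le_mul_of_nonneg_right ?_ (norm_nonneg _)
      have h2 : Real.log 2 ≤ Real.log Y := Real.log_le_log (by norm_num) (by exact_mod_cast h)
      rw [abs_of_nonneg (div_nonneg zero_le_one (by linarith))]
      exact one_div_le_one_div_of_le hl h2
    · refine (norm_sum_le _ _).trans ?_
      calc ∑ n ∈ Ico 2 Y, ‖((Abl_dl n : ℝ) : ℂ) * Abl_TH χ n‖
          = ∑ n ∈ Ico 2 Y, Abl_dl n * ‖Abl_TH χ (if n < Y then n else 0)‖ := by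
            refine Finset.sum_congr rfl fun n hn => ?_
            have hn' := Finset.mem_Ico.1 hn
            rw [norm_mul, Complex.norm_real, Real.norm_eq_abs,
              abs_of_nonneg (Abl_dl_nonneg n hn'.1), if_pos hn'.2]
        _ ≤ ∑ n ∈ Ico 2 Xm, Abl_dl n * ‖Abl_TH χ (if n < Y then n else 0)‖ :=
            Finset.sum_le_sum_of_subset_of_nonneg (Finset.Ico_subset_Ico_right hY)
              (fun n hn _ => h0 n hn)

/-- Module Abl: from `Λ` to primes, with the maximum over `Y` inside. -/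
theorem tAbl : AblStmt := by
  refine ⟨2, by norm_num, ?_⟩
  intro S X G Xm Y hY hG
  have hl := Real.log_pos (by norm_num : (1 : ℝ) < 2)
  set W : ℝ := ∑ d ∈ S, (1 / (d.totient : ℝ)) * ((X d).card : ℝ) with hW
  set G' : ℝ := G + 2 * (Real.sqrt Xm * Real.log Xm) * W with hG'
  have hw : ∀ d : ℕ, 0 ≤ 1 / (d.totient : ℝ) := fun d => by positivity
  -- the bound for theta
  have hT : ∀ Y' : ℕ → ℕ, (∀ d ∈ S, Y' d ≤ Xm) →
      ∑ d ∈ S, (1 / (d.totient : ℝ)) * ∑ χ ∈ X d, ‖Abl_TH χ.primitiveCharacter (Y' d)‖ ≤ G' := by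
    intro Y' hY'
    calc ∑ d ∈ S, (1 / (d.totient : ℝ)) * ∑ χ ∈ X d, ‖Abl_TH χ.primitiveCharacter (Y' d)‖
        ≤ ∑ d ∈ S, ((1 / (d.totient : ℝ)) * ∑ χ ∈ X d, ‖PS χ.primitiveCharacter (Y' d)‖ +
            2 * (Real.sqrt Xm * Real.log Xm) * ((1 / (d.totient : ℝ)) * ((X d).card : ℝ))) := by
          refine Finset.sum_le_sum fun d hd => ?_
          have h1 : ∑ χ ∈ X d, ‖Abl_TH χ.primitiveCharacter (Y' d)‖ ≤
              ∑ χ ∈ X d, ‖PS χ.primitiveCharacter (Y' d)‖ +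
                ((X d).card : ℝ) * (2 * (Real.sqrt Xm * Real.log Xm)) := by
            calc ∑ χ ∈ X d, ‖Abl_TH χ.primitiveCharacter (Y' d)‖
                ≤ ∑ χ ∈ X d, (‖PS χ.primitiveCharacter (Y' d)‖ +
                    2 * (Real.sqrt Xm * Real.log Xm)) :=
                  Finset.sum_le_sum fun χ _ => Abl_TH_le _ _ _ (hY' d hd)
              _ = _ := by rw [Finset.sum_add_distrib, Finset.sum_const, nsmul_eq_mul]
          have h2 := mul_le_mul_of_nonneg_left h1 (hw d)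
          calc _ ≤ _ := h2
            _ = _ := by ring
      _ = ∑ d ∈ S, (1 / (d.totient : ℝ)) * ∑ χ ∈ X d, ‖PS χ.primitiveCharacter (Y' d)‖ +
            2 * (Real.sqrt Xm * Real.log Xm) * W := by
          rw [Finset.sum_add_distrib, ← Finset.mul_sum, hW]
      _ ≤ G' := by
          rw [hG']
          have := hG Y' hY'
          linarith
  have hG0 : 0 ≤ G' := by
    refine le_trans ?_ (hT (fun _ => 0) fun _ _ => Nat.zero_le _)
    exact Finset.sum_nonneg fun d _ =>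
      mul_nonneg (hw d) (Finset.sum_nonneg fun χ _ => norm_nonneg _)
  -- the main estimate
  have hM : ∑ d ∈ S, (1 / (d.totient : ℝ)) * ∑ χ ∈ X d, ‖PC χ.primitiveCharacter (Y d)‖ ≤
      1 / Real.log 2 * ∑ d ∈ S, (1 / (d.totient : ℝ)) *
          ∑ χ ∈ X d, ‖Abl_TH χ.primitiveCharacter (Y d)‖ +
        ∑ n ∈ Ico 2 Xm, Abl_dl n * ∑ d ∈ S, (1 / (d.totient : ℝ)) *
          ∑ χ ∈ X d, ‖Abl_TH χ.primitiveCharacter (if n < Y d then n else 0)‖ := by
    have h1 : ∀ d ∈ S, (1 / (d.totient : ℝ)) * ∑ χ ∈ X d, ‖PC χ.primitiveCharacter (Y d)‖ ≤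
        1 / Real.log 2 * ((1 / (d.totient : ℝ)) *
          ∑ χ ∈ X d, ‖Abl_TH χ.primitiveCharacter (Y d)‖) +
        ∑ n ∈ Ico 2 Xm, Abl_dl n * ((1 / (d.totient : ℝ)) *
          ∑ χ ∈ X d, ‖Abl_TH χ.primitiveCharacter (if n < Y d then n else 0)‖) := by
      intro d hd
      have h2 : ∑ χ ∈ X d, ‖PC χ.primitiveCharacter (Y d)‖ ≤
          1 / Real.log 2 * ∑ χ ∈ X d, ‖Abl_TH χ.primitiveCharacter (Y d)‖ +
          ∑ n ∈ Ico 2 Xm, Abl_dl n *
            ∑ χ ∈ X d, ‖Abl_TH χ.primitiveCharacter (if n < Y d then n else 0)‖ := by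
        calc ∑ χ ∈ X d, ‖PC χ.primitiveCharacter (Y d)‖
            ≤ ∑ χ ∈ X d, (1 / Real.log 2 * ‖Abl_TH χ.primitiveCharacter (Y d)‖ +
                ∑ n ∈ Ico 2 Xm, Abl_dl n *
                  ‖Abl_TH χ.primitiveCharacter (if n < Y d then n else 0)‖) :=
              Finset.sum_le_sum fun χ _ => Abl_pt _ _ _ (hY d hd)
          _ = _ := by
              rw [Finset.sum_add_distrib, ← Finset.mul_sum, Finset.sum_comm]
              refine (add_right_inj _).2 (Finset.sum_congr rfl fun n _ => ?_)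
              rw [Finset.mul_sum]
      calc (1 / (d.totient : ℝ)) * ∑ χ ∈ X d, ‖PC χ.primitiveCharacter (Y d)‖
          ≤ (1 / (d.totient : ℝ)) *
            (1 / Real.log 2 * ∑ χ ∈ X d, ‖Abl_TH χ.primitiveCharacter (Y d)‖ +
            ∑ n ∈ Ico 2 Xm, Abl_dl n *
              ∑ χ ∈ X d, ‖Abl_TH χ.primitiveCharacter (if n < Y d then n else 0)‖) :=
            mul_le_mul_of_nonneg_left h2 (hw d)
        _ = _ := by
            rw [mul_add, Finset.mul_sum (Ico 2 Xm)]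
            refine congrArg₂ (· + ·) (by ring) (Finset.sum_congr rfl fun n _ => by ring)
    refine (Finset.sum_le_sum h1).trans (le_of_eq ?_)
    rw [Finset.sum_add_distrib, ← Finset.mul_sum, Finset.sum_comm]
    refine (add_right_inj _).2 (Finset.sum_congr rfl fun n _ => ?_)
    rw [Finset.mul_sum]
  have hA : 1 / Real.log 2 * ∑ d ∈ S, (1 / (d.totient : ℝ)) *
          ∑ χ ∈ X d, ‖Abl_TH χ.primitiveCharacter (Y d)‖ ≤ 1 / Real.log 2 * G' :=
    mul_le_mul_of_nonneg_left (hT Y hY) (by positivity)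
  have hB : ∑ n ∈ Ico 2 Xm, Abl_dl n * ∑ d ∈ S, (1 / (d.totient : ℝ)) *
          ∑ χ ∈ X d, ‖Abl_TH χ.primitiveCharacter (if n < Y d then n else 0)‖ ≤
      1 / Real.log 2 * G' := by
    calc ∑ n ∈ Ico 2 Xm, Abl_dl n * ∑ d ∈ S, (1 / (d.totient : ℝ)) *
          ∑ χ ∈ X d, ‖Abl_TH χ.primitiveCharacter (if n < Y d then n else 0)‖
        ≤ ∑ n ∈ Ico 2 Xm, Abl_dl n * G' := by
          refine Finset.sum_le_sum fun n hn => ?_
          refine mul_le_mul_of_nonneg_left ?_ (Abl_dl_nonneg n (Finset.mem_Ico.1 hn).1)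
          refine hT (fun d => if n < Y d then n else 0) fun d hd => ?_
          have := (Finset.mem_Ico.1 hn).2
          split_ifs
          · omega
          · exact Nat.zero_le _
      _ = (∑ n ∈ Ico 2 Xm, Abl_dl n) * G' := by rw [Finset.sum_mul]
      _ ≤ 1 / Real.log 2 * G' := mul_le_mul_of_nonneg_right (Abl_dl_sum_le Xm) hG0
  have hC : 1 / Real.log 2 ≤ 3 / 2 := by
    rw [div_le_div_iff₀ hl (by norm_num)]
    have := Real.log_two_gt_d9
    linarith
  have hD : 1 / Real.log 2 * G' ≤ 3 / 2 * G' := mul_le_mul_of_nonneg_right hC hG0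
  linarith

end Pool.Agent.Lib.CO
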