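import Pool.Agent.Lib.CO.SpecW

namespace Pool.Agent.Lib.CO

open Finset Pool.Agent.Lib.BV Pool.Agent.Results.MP_00e23e_nt

/-- the sum of log p χ(p) over the primes up to Y -/
private noncomputable def Abw_TH {q : ℕ} (χ : DirichletCharacter ℂ q) (Y : ℕ) : ℂ :=
  ∑ p ∈ (Icc 1 Y).filter Nat.Prime, ((Real.log p : ℝ) : ℂ) * χ (p : ZMod q)

private noncomputable def Abw_dl (n : ℕ) : ℝ := 1 / Real.log n - 1 / Real.log ((n + 1 : ℕ) : ℝ)

private lemma Abw_dl_nonneg {n : ℕ} (hn : 2 ≤ n) : 0 ≤ Abw_dl n := by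
  unfold Abw_dl
  have h1 : 0 < Real.log n := Real.log_pos (by exact_mod_cast hn)
  have h2 : Real.log n ≤ Real.log ((n + 1 : ℕ) : ℝ) :=
    Real.log_le_log (by positivity) (by exact_mod_cast Nat.le_succ n)
  exact sub_nonneg.2 (one_div_le_one_div_of_le h1 h2)

private lemma Abw_dl_sum (X : ℕ) : ∑ n ∈ Ico 2 X, Abw_dl n ≤ 1 / Real.log 2 := by
  have hl2 : 0 < Real.log 2 := Real.log_pos (by norm_num)
  rcases Nat.lt_or_ge X 2 with h | h
  · rw [Finset.Ico_eq_empty (by omega), Finset.sum_empty]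
    positivity
  · have key : ∀ Y : ℕ, 2 ≤ Y → ∑ n ∈ Ico 2 Y, Abw_dl n = 1 / Real.log 2 - 1 / Real.log Y := by
      intro Y hY
      induction Y, hY using Nat.le_induction with
      | base => simp
      | succ Y hY ih =>
        rw [Finset.sum_Ico_succ_top hY, ih]
        unfold Abw_dl
        ring
    rw [key X h]
    have h1 : 0 < Real.log X := Real.log_pos (by exact_mod_cast h)
    have h2 : 0 ≤ 1 / Real.log X := by positivity
    linarith

private lemma Abw_PC_succ {q : ℕ} (χ : DirichletCharacter ℂ q) (Y : ℕ) :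
    PC χ (Y + 1) = PC χ Y + if (Y + 1).Prime then χ ((Y + 1 : ℕ) : ZMod q) else 0 := by
  unfold PC
  rw [Finset.sum_filter, Finset.sum_filter, Finset.sum_Icc_succ_top (by omega)]

private lemma Abw_TH_succ {q : ℕ} (χ : DirichletCharacter ℂ q) (Y : ℕ) :
    Abw_TH χ (Y + 1) = Abw_TH χ Y + if (Y + 1).Prime then
      ((Real.log ((Y + 1 : ℕ) : ℝ) : ℝ) : ℂ) * χ ((Y + 1 : ℕ) : ZMod q) else 0 := by
  unfold Abw_TH
  rw [Finset.sum_filter, Finset.sum_filter, Finset.sum_Icc_succ_top (by omega)]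

private lemma Abw_TH_zero {q : ℕ} (χ : DirichletCharacter ℂ q) : Abw_TH χ 0 = 0 := by
  unfold Abw_TH
  simp

private lemma Abw_abel {q : ℕ} (χ : DirichletCharacter ℂ q) (Y : ℕ) (hY : 2 ≤ Y) :
    PC χ Y = ((1 / Real.log Y : ℝ) : ℂ) * Abw_TH χ Y +
      ∑ n ∈ Ico 2 Y, ((Abw_dl n : ℝ) : ℂ) * Abw_TH χ n := by
  induction Y, hY using Nat.le_induction with
  | base =>
    have h2 : (Icc 1 2).filter Nat.Prime = {2} := by decide
    have hl2 : ((Real.log 2 : ℝ) : ℂ) ≠ 0 := by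
      have : Real.log 2 ≠ 0 := (Real.log_pos (by norm_num)).ne'
      exact_mod_cast this
    unfold PC Abw_TH
    rw [h2, Finset.sum_singleton, Finset.sum_singleton, Finset.Ico_self, Finset.sum_empty, add_zero]
    push_cast
    field_simp
  | succ Y hY ih =>
    rw [Abw_PC_succ, ih, Finset.sum_Ico_succ_top hY, Abw_TH_succ]
    have h1 : ((Real.log ((Y + 1 : ℕ) : ℝ) : ℝ) : ℂ) ≠ 0 := by
      have : Real.log ((Y + 1 : ℕ) : ℝ) ≠ 0 :=
        (Real.log_pos (by exact_mod_cast (by omega : 1 < Y + 1))).ne'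
      exact_mod_cast this
    unfold Abw_dl
    split_ifs with hp
    · rw [Complex.ofReal_sub, Complex.ofReal_div, Complex.ofReal_div, Complex.ofReal_one]
      field_simp
      ring
    · rw [Complex.ofReal_sub]
      ring

private lemma Abw_point {q : ℕ} (χ : DirichletCharacter ℂ q) (Xm Y : ℕ) (hY : Y ≤ Xm) :
    ‖PC χ Y‖ ≤ 1 / Real.log 2 * ‖Abw_TH χ Y‖ +
      ∑ n ∈ Ico 2 Xm, Abw_dl n * ‖Abw_TH χ (if n < Y then n else 0)‖ := by
  have hl2 : 0 < Real.log 2 := Real.log_pos (by norm_num)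
  rcases Nat.lt_or_ge Y 2 with h | h
  · have h0 : PC χ Y = 0 := by
      unfold PC
      refine Finset.sum_eq_zero fun p hp => ?_
      have h1 := Finset.mem_filter.1 hp
      have h2 := (Finset.mem_Icc.1 h1.1).2
      have h3 := h1.2.two_le
      omega
    rw [h0, norm_zero]
    refine add_nonneg (by positivity) (Finset.sum_nonneg fun n hn => ?_)
    exact mul_nonneg (Abw_dl_nonneg (Finset.mem_Ico.1 hn).1) (norm_nonneg _)
  · rw [Abw_abel χ Y h]
    refine (norm_add_le _ _).trans (add_le_add ?_ ?_)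
    · rw [norm_mul, Complex.norm_real, Real.norm_eq_abs]
      refine mul_le_mul_of_nonneg_right ?_ (norm_nonneg _)
      have h1 : Real.log 2 ≤ Real.log Y := Real.log_le_log (by norm_num) (by exact_mod_cast h)
      rw [abs_of_nonneg (by positivity)]
      exact one_div_le_one_div_of_le hl2 h1
    · refine (norm_sum_le _ _).trans ?_
      have h1 : ∀ n ∈ Ico 2 Y, ‖((Abw_dl n : ℝ) : ℂ) * Abw_TH χ n‖ =
          Abw_dl n * ‖Abw_TH χ (if n < Y then n else 0)‖ := by
        intro n hn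
        have h2 := Finset.mem_Ico.1 hn
        rw [norm_mul, Complex.norm_real, Real.norm_eq_abs, abs_of_nonneg (Abw_dl_nonneg h2.1),
          if_pos h2.2]
      rw [Finset.sum_congr rfl h1]
      refine Finset.sum_le_sum_of_subset_of_nonneg (Finset.Ico_subset_Ico_right hY) ?_
      intro n hn _
      exact mul_nonneg (Abw_dl_nonneg (Finset.mem_Ico.1 hn).1) (norm_nonneg _)

/-- the contribution of the prime powers -/
private lemma Abw_diff {q : ℕ} (χ : DirichletCharacter ℂ q) (Xm Y : ℕ) (hY : Y ≤ Xm) :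
    ‖Abw_TH χ Y‖ ≤ ‖PS χ Y‖ + 2 * (Real.sqrt Xm * Real.log Xm) := by
  have hE : 0 ≤ 2 * (Real.sqrt Xm * Real.log Xm) := by
    have := Real.log_natCast_nonneg Xm
    positivity
  rcases Nat.eq_zero_or_pos Y with h0 | h0
  · subst h0
    rw [Abw_TH_zero, norm_zero]
    exact add_nonneg (norm_nonneg _) hE
  have h1 : PS χ Y - Abw_TH χ Y = ∑ n ∈ Icc 1 Y, if n.Prime then 0 else
      ((ArithmeticFunction.vonMangoldt n : ℝ) : ℂ) * χ (n : ZMod q) := by
    unfold PS Abw_TH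
    rw [Finset.sum_filter, ← Finset.sum_sub_distrib]
    refine Finset.sum_congr rfl fun n _ => ?_
    split_ifs with hp
    · rw [ArithmeticFunction.vonMangoldt_apply_prime hp, sub_self]
    · rw [sub_zero]
  have h2 : Chebyshev.psi (Y : ℝ) - Chebyshev.theta (Y : ℝ) = ∑ n ∈ Icc 1 Y,
      if n.Prime then 0 else ArithmeticFunction.vonMangoldt n := by
    unfold Chebyshev.psi Chebyshev.theta
    rw [Nat.floor_natCast, Finset.sum_filter, ← Finset.sum_sub_distrib]
    have h3 : Ioc 0 Y = Icc 1 Y := by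
      ext n
      simp only [Finset.mem_Ioc, Finset.mem_Icc]
      omega
    rw [h3]
    refine Finset.sum_congr rfl fun n _ => ?_
    split_ifs with hp
    · rw [ArithmeticFunction.vonMangoldt_apply_prime hp, sub_self]
    · rw [sub_zero]
  have h3 : ‖PS χ Y - Abw_TH χ Y‖ ≤ 2 * (Real.sqrt Xm * Real.log Xm) := by
    have h4 : ‖PS χ Y - Abw_TH χ Y‖ ≤ Chebyshev.psi (Y : ℝ) - Chebyshev.theta (Y : ℝ) := by
      rw [h1, h2]
      refine (norm_sum_le _ _).trans (Finset.sum_le_sum fun n _ => ?_)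
      split_ifs with hp
      · rw [norm_zero]
      · rw [norm_mul, Complex.norm_real, Real.norm_eq_abs,
          abs_of_nonneg ArithmeticFunction.vonMangoldt_nonneg]
        exact mul_le_of_le_one_right ArithmeticFunction.vonMangoldt_nonneg (χ.norm_le_one _)
    have hY1 : (1 : ℝ) ≤ (Y : ℝ) := by exact_mod_cast h0
    have h5 := (le_abs_self _).trans (Chebyshev.abs_psi_sub_theta_le_sqrt_mul_log hY1)
    have h6 : 2 * Real.sqrt Y * Real.log Y ≤ 2 * (Real.sqrt Xm * Real.log Xm) := by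
      rw [mul_assoc]
      have hYX : (Y : ℝ) ≤ (Xm : ℝ) := by exact_mod_cast hY
      have h7 : Real.sqrt Y ≤ Real.sqrt Xm := Real.sqrt_le_sqrt hYX
      have h8 : Real.log Y ≤ Real.log Xm := Real.log_le_log (by linarith) hYX
      have h9 := Real.log_natCast_nonneg Y
      exact mul_le_mul_of_nonneg_left (mul_le_mul h7 h8 h9 (Real.sqrt_nonneg _)) (by norm_num)
    exact h4.trans (h5.trans h6)
  have h4 : Abw_TH χ Y = PS χ Y - (PS χ Y - Abw_TH χ Y) := by ring
  rw [h4]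
  exact (norm_sub_le _ _).trans (add_le_add le_rfl h3)

/-- From the von Mangoldt function to primes, with weights. -/
theorem tAbw : AbwStmt := by
  refine ⟨2, by norm_num, ?_⟩
  intro S X f G Xm Y hf hY hG
  set W : ℝ := ∑ d ∈ S, (1 / (d.totient : ℝ)) * ∑ χ ∈ X d, f d χ with hW
  set E : ℝ := Real.sqrt Xm * Real.log Xm with hE
  have hw : ∀ d : ℕ, 0 ≤ (1 / (d.totient : ℝ)) := fun d => by positivity
  have hl2 : 0 < Real.log 2 := Real.log_pos (by norm_num)
  have hE0 : 0 ≤ E := mul_nonneg (Real.sqrt_nonneg _) (Real.log_natCast_nonneg Xm)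
  have hW0 : 0 ≤ W := Finset.sum_nonneg fun d _ =>
    mul_nonneg (hw d) (Finset.sum_nonneg fun χ _ => hf d χ)
  -- the sums of log p χ(p)
  have hT : ∀ Y' : ℕ → ℕ, (∀ d ∈ S, Y' d ≤ Xm) →
      ∑ d ∈ S, (1 / (d.totient : ℝ)) * ∑ χ ∈ X d, f d χ *
        ‖Abw_TH χ.primitiveCharacter (Y' d)‖ ≤ G + 2 * E * W := by
    intro Y' hY'
    have h1 : ∑ d ∈ S, (1 / (d.totient : ℝ)) * ∑ χ ∈ X d, f d χ *
        ‖Abw_TH χ.primitiveCharacter (Y' d)‖ ≤
        ∑ d ∈ S, ((1 / (d.totient : ℝ)) * ∑ χ ∈ X d, f d χ *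
          ‖PS χ.primitiveCharacter (Y' d)‖ + 2 * E * ((1 / (d.totient : ℝ)) * ∑ χ ∈ X d, f d χ)) := by
      refine Finset.sum_le_sum fun d hd => ?_
      have h2 : ∑ χ ∈ X d, f d χ * ‖Abw_TH χ.primitiveCharacter (Y' d)‖ ≤
          ∑ χ ∈ X d, f d χ * ‖PS χ.primitiveCharacter (Y' d)‖ + 2 * E * ∑ χ ∈ X d, f d χ := by
        rw [Finset.mul_sum, ← Finset.sum_add_distrib]
        refine Finset.sum_le_sum fun χ _ => ?_
        have h3 := mul_le_mul_of_nonneg_left
          (Abw_diff χ.primitiveCharacter Xm (Y' d) (hY' d hd)) (hf d χ)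
        refine h3.trans (le_of_eq ?_)
        rw [hE]
        ring
      refine (mul_le_mul_of_nonneg_left h2 (hw d)).trans (le_of_eq ?_)
      ring
    rw [Finset.sum_add_distrib, ← Finset.mul_sum] at h1
    exact h1.trans (add_le_add (hG Y' hY') le_rfl)
  have hG0 : 0 ≤ G + 2 * E * W := by
    refine le_trans ?_ (hT (fun _ => 0) fun _ _ => Nat.zero_le _)
    exact Finset.sum_nonneg fun d _ => mul_nonneg (hw d)
      (Finset.sum_nonneg fun χ _ => mul_nonneg (hf d χ) (norm_nonneg _))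
  -- Abel summation
  have hmain : ∑ d ∈ S, (1 / (d.totient : ℝ)) * ∑ χ ∈ X d, f d χ *
      ‖PC χ.primitiveCharacter (Y d)‖ ≤
      1 / Real.log 2 * (∑ d ∈ S, (1 / (d.totient : ℝ)) * ∑ χ ∈ X d, f d χ *
        ‖Abw_TH χ.primitiveCharacter (Y d)‖) +
      ∑ n ∈ Ico 2 Xm, Abw_dl n * (∑ d ∈ S, (1 / (d.totient : ℝ)) * ∑ χ ∈ X d, f d χ *
        ‖Abw_TH χ.primitiveCharacter (if n < Y d then n else 0)‖) := by
    have e1 : ∑ n ∈ Ico 2 Xm, Abw_dl n * (∑ d ∈ S, (1 / (d.totient : ℝ)) * ∑ χ ∈ X d, f d χ *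
        ‖Abw_TH χ.primitiveCharacter (if n < Y d then n else 0)‖) =
        ∑ d ∈ S, (1 / (d.totient : ℝ)) * ∑ χ ∈ X d, f d χ * ∑ n ∈ Ico 2 Xm, Abw_dl n *
        ‖Abw_TH χ.primitiveCharacter (if n < Y d then n else 0)‖ := by
      simp only [Finset.mul_sum]
      rw [Finset.sum_comm]
      refine Finset.sum_congr rfl fun d _ => ?_
      rw [Finset.sum_comm]
      refine Finset.sum_congr rfl fun χ _ => Finset.sum_congr rfl fun n _ => ?_
      ring
    rw [e1, Finset.mul_sum, ← Finset.sum_add_distrib]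
    refine Finset.sum_le_sum fun d hd => ?_
    have h2 : ∑ χ ∈ X d, f d χ * ‖PC χ.primitiveCharacter (Y d)‖ ≤
        1 / Real.log 2 * (∑ χ ∈ X d, f d χ * ‖Abw_TH χ.primitiveCharacter (Y d)‖) +
        ∑ χ ∈ X d, f d χ * ∑ n ∈ Ico 2 Xm, Abw_dl n *
          ‖Abw_TH χ.primitiveCharacter (if n < Y d then n else 0)‖ := by
      rw [Finset.mul_sum, ← Finset.sum_add_distrib]
      refine Finset.sum_le_sum fun χ _ => ?_
      have h3 := mul_le_mul_of_nonneg_left
        (Abw_point χ.primitiveCharacter Xm (Y d) (hY d hd)) (hf d χ)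
      refine h3.trans (le_of_eq ?_)
      ring
    refine (mul_le_mul_of_nonneg_left h2 (hw d)).trans (le_of_eq ?_)
    ring
  have h1 : ∑ n ∈ Ico 2 Xm, Abw_dl n * (∑ d ∈ S, (1 / (d.totient : ℝ)) * ∑ χ ∈ X d, f d χ *
      ‖Abw_TH χ.primitiveCharacter (if n < Y d then n else 0)‖) ≤
      1 / Real.log 2 * (G + 2 * E * W) := by
    refine le_trans (Finset.sum_le_sum fun n hn => mul_le_mul_of_nonneg_left
      (hT (fun d => if n < Y d then n else 0) ?_) (Abw_dl_nonneg (Finset.mem_Ico.1 hn).1)) ?_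
    · intro d hd
      have h2 := hY d hd
      split_ifs with h3
      · omega
      · exact Nat.zero_le _
    · rw [← Finset.sum_mul]
      exact mul_le_mul_of_nonneg_right (Abw_dl_sum Xm) hG0
  have h2 := mul_le_mul_of_nonneg_left (hT Y hY) (by positivity : (0 : ℝ) ≤ 1 / Real.log 2)
  have h3 : 1 / Real.log 2 ≤ 3 / 2 := by
    have h4 := Real.log_two_gt_d9
    rw [div_le_div_iff₀ hl2 (by norm_num)]
    linarith
  have h4 : 1 / Real.log 2 * (G + 2 * E * W) ≤ 3 / 2 * (G + 2 * E * W) :=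
    mul_le_mul_of_nonneg_right h3 hG0
  linarith

end Pool.Agent.Lib.CO
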