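import Pool.Agent.Lib.CO.Spec
import Pool.Agent.Lib.EH.Basic

/-!
MP_00e23e_nt, module Ae: the sum over the characters whose conductor divides e.
-/

set_option autoImplicit false

namespace Pool.Agent.Lib.CO

open Finset Pool.Agent.Lib.BV Pool.Agent.Results.MP_00e23e_nt

private theorem Ae_unit {d e : ℕ} (h : e ∣ d) (ψ : DirichletCharacter ℂ e) (u : (ZMod d)ˣ) :
    DirichletCharacter.changeLevel h ψ (u : ZMod d) = ψ ((ZMod.unitsMap h u : (ZMod e)ˣ) : ZMod e) := by
  rw [DirichletCharacter.changeLevel_eq_cast_of_dvd, ZMod.unitsMap_val]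

/-- the primes up to Y which do not divide d -/
private def Ae_P (d Y : ℕ) : Finset ℕ := ((Icc 1 Y).filter Nat.Prime).filter (fun p => p.Coprime d)

private theorem Ae_PC {d e : ℕ} (h : e ∣ d) (ψ : DirichletCharacter ℂ e) (Y : ℕ) :
    PC (DirichletCharacter.changeLevel h ψ) Y = ∑ p ∈ Ae_P d Y, ψ (p : ZMod e) := by
  unfold PC Ae_P
  rw [Finset.sum_filter (fun p : ℕ => p.Coprime d)]
  refine Finset.sum_congr rfl fun p _ => ?_
  split_ifs with hp
  · have h1 := Ae_unit h ψ (ZMod.unitOfCoprime p hp)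
    rw [ZMod.coe_unitOfCoprime] at h1
    rw [h1, ZMod.unitsMap_val, ZMod.coe_unitOfCoprime, ZMod.cast_natCast h]
  · refine MulChar.map_nonunit _ ?_
    rwa [ZMod.isUnit_iff_coprime]

theorem tAe (h1 : OrhStmt) (h2 : MapStmt) (h3 : ClsStmt) : AeStmt := by
  classical
  intro y d e H l hy hd hed
  have hd0 : d ≠ 0 := by omega
  have he0 : e ≠ 0 := fun hc => hd0 (by rw [hc, zero_dvd_iff] at hed; exact hed)
  have he1 : 1 ≤ e := Nat.one_le_iff_ne_zero.2 he0
  have : NeZero d := ⟨hd0⟩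
  have : NeZero e := ⟨he0⟩
  set K : Subgroup (ZMod e)ˣ := H.map (ZMod.unitsMap hed) with hK
  set l' : (ZMod e)ˣ := ZMod.unitsMap hed l with hl'
  set Y : ℕ := ⌊y⌋₊ with hY
  -- the primes in the coset
  set N : Finset ℕ := (Ae_P d Y).filter (fun p => ∃ h ∈ K, (p : ZMod e) = ((l' * h : (ZMod e)ˣ) : ZMod e))
    with hN
  have hsum : ∑ χ ∈ (XX d H).filter (fun χ => χ.conductor ∣ e),
      χ ((l⁻¹ : (ZMod d)ˣ) : ZMod d) * PC χ Y = ((K.index : ℝ) * (N.card : ℝ) : ℝ) := by
    rw [h2 d e hed H (fun χ => χ ((l⁻¹ : (ZMod d)ˣ) : ZMod d) * PC χ Y) hd]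
    have h4 : ∀ ψ ∈ XX e K, DirichletCharacter.changeLevel hed ψ ((l⁻¹ : (ZMod d)ˣ) : ZMod d) *
        PC (DirichletCharacter.changeLevel hed ψ) Y =
        ∑ p ∈ Ae_P d Y, ψ ((l'⁻¹ : (ZMod e)ˣ) : ZMod e) * ψ (p : ZMod e) := by
      intro ψ _
      rw [Ae_PC, Ae_unit, map_inv, ← hl', Finset.mul_sum]
    rw [Finset.sum_congr rfl h4, Finset.sum_comm]
    have h5 : ∀ p ∈ Ae_P d Y, ∑ ψ ∈ XX e K, ψ ((l'⁻¹ : (ZMod e)ˣ) : ZMod e) * ψ (p : ZMod e) =
        if (∃ h ∈ K, (p : ZMod e) = ((l' * h : (ZMod e)ˣ) : ZMod e)) then (K.index : ℂ) else 0 := by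
      intro p _
      split_ifs with h6
      · exact ((h1 e K he1).2 l' p).1 h6
      · exact ((h1 e K he1).2 l' p).2 h6
    rw [Finset.sum_congr rfl h5, ← Finset.sum_filter, ← hN, Finset.sum_const, nsmul_eq_mul]
    push_cast
    ring
  -- comparison with the coset count
  have hcc : cosetCount y e K l' = ((Icc 1 Y).filter (fun p : ℕ => p.Prime ∧
    ∃ h ∈ K, (p : ZMod e) = ((l' * h : (ZMod e)ˣ) : ZMod e))).card := by
    unfold cosetCount
    refine congrArg Finset.card (Finset.ext fun p => ?_)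
    simp only [Finset.mem_filter, hY]
  have hNle : N.card ≤ cosetCount y e K l' := by
    rw [hcc]
    refine Finset.card_le_card fun p hp => ?_
    rw [hN, Finset.mem_filter, Ae_P, Finset.mem_filter, Finset.mem_filter] at hp
    rw [Finset.mem_filter]
    exact ⟨hp.1.1.1, hp.1.1.2, hp.2⟩
  have hNge : cosetCount y e K l' ≤ N.card + d.primeFactors.card := by
    rw [hcc]
    refine le_trans (Finset.card_le_card (t := N ∪ d.primeFactors) fun p hp => ?_)
      (Finset.card_union_le _ _)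
    rw [Finset.mem_filter] at hp
    rw [Finset.mem_union]
    by_cases hpd : p.Coprime d
    · left
      rw [hN, Finset.mem_filter, Ae_P, Finset.mem_filter, Finset.mem_filter]
      exact ⟨⟨⟨hp.1, hp.2.1⟩, hpd⟩, hp.2.2⟩
    · right
      rw [Nat.mem_primeFactors]
      refine ⟨hp.2.1, ?_, hd0⟩
      by_contra hc
      exact hpd ((Nat.Prime.coprime_iff_not_dvd hp.2.1).2 hc)
  have hNge' : (cosetCount y e K l' : ℝ) ≤ N.card + d.primeFactors.card := by exact_mod_cast hNge
  have hNle' : (N.card : ℝ) ≤ cosetCount y e K l' := by exact_mod_cast hNle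
  have hpf := Pool.Agent.Lib.EH.card_primeFactors_le hd
  have hlog : 0 ≤ 2 * Real.log d := by
    have := Real.log_nonneg (x := (d : ℝ)) (by exact_mod_cast hd)
    linarith
  -- the index
  have hidx : K.index ≤ H.index := by
    refine Nat.le_of_dvd (Nat.pos_of_ne_zero Subgroup.index_ne_zero_of_finite) ?_
    exact Subgroup.index_map_dvd H (ZMod.unitsMap_surjective hed)
  have hidx' : (K.index : ℝ) ≤ H.index := by exact_mod_cast hidx
  have hidx0 : (0 : ℝ) ≤ K.index := Nat.cast_nonneg _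
  have hcard : (K.index : ℝ) * (Nat.card K : ℝ) = (e.totient : ℝ) := by
    have h7 := Subgroup.index_mul_card K
    rw [Nat.card_eq_fintype_card (α := (ZMod e)ˣ), ZMod.card_units_eq_totient] at h7
    exact_mod_cast h7
  have hK0 : (0 : ℝ) < Nat.card K := by exact_mod_cast Nat.card_pos
  have htot : (0 : ℝ) < e.totient := by exact_mod_cast Nat.totient_pos.2 he1
  have hmain : (K.index : ℝ) * (cosetCount y e K l' : ℝ) - li y =
      (e.totient : ℝ) * cosetErr y e K l' := by
    unfold cosetErr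
    rw [mul_sub, mul_div_cancel₀ _ htot.ne', ← hcard]
    field_simp
  have hC := h3 y e K l' he1
  have hfin : |(K.index : ℝ) * (N.card : ℝ) - li y| ≤
      (e.totient : ℝ) * maxErr y e + (H.index : ℝ) * (2 * Real.log d) := by
    have h8 : (K.index : ℝ) * (N.card : ℝ) - li y =
        (e.totient : ℝ) * cosetErr y e K l' -
          (K.index : ℝ) * ((cosetCount y e K l' : ℝ) - N.card) := by
      rw [← hmain]
      ring
    rw [h8]
    have h9 : |(e.totient : ℝ) * cosetErr y e K l'| ≤ (e.totient : ℝ) * maxErr y e := by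
      rw [abs_mul, abs_of_pos htot]
      exact mul_le_mul_of_nonneg_left hC htot.le
    have h10 : |(K.index : ℝ) * ((cosetCount y e K l' : ℝ) - N.card)| ≤
        (H.index : ℝ) * (2 * Real.log d) := by
      rw [abs_of_nonneg (mul_nonneg hidx0 (by linarith))]
      exact mul_le_mul hidx' (by linarith) (by linarith) (by linarith)
    calc |(e.totient : ℝ) * cosetErr y e K l' -
          (K.index : ℝ) * ((cosetCount y e K l' : ℝ) - N.card)|
        ≤ |(e.totient : ℝ) * cosetErr y e K l'| +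
          |(K.index : ℝ) * ((cosetCount y e K l' : ℝ) - N.card)| := abs_sub _ _
      _ ≤ _ := add_le_add h9 h10
  rw [hsum, ← Complex.ofReal_sub, Complex.norm_real, Real.norm_eq_abs]
  exact hfin

end Pool.Agent.Lib.CO
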