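import Pool.Agent.Lib.CO.SpecW
import Pool.Agent.Lib.EH.Basic

/-! MP_00e23e_nt, Lib/CO, module Asw: the final theorem for invariant sets of residue classes. -/

namespace Pool.Agent.Lib.CO

open Finset Pool.Agent.Lib.BV Pool.Agent.Results.MP_00e23e_nt

private lemma Asw_bet0 {d : ℕ} (B : Finset (ZMod d)ˣ) (χ : DirichletCharacter ℂ d) :
    0 ≤ bet B χ := by
  unfold bet
  positivity

private lemma Asw_pt (h1 : OrhStmt) (h2 : PrvStmt) (h3 : PwwStmt) (h4 : LpcStmt) (y R : ℝ) (d : ℕ)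
    (H : Subgroup (ZMod d)ˣ) (B : Finset (ZMod d)ˣ) (hy : 2 ≤ y) (hd : 1 ≤ d)
    (hB0 : B.Nonempty) (hBH : ∀ b ∈ B, ∀ h ∈ H, b * h ∈ B) :
    |setErr y d B| ≤ (1 / (d.totient : ℝ)) * (|npr y - li y| + 2 * Real.log d) +
      (1 / (d.totient : ℝ)) *
        ∑ e ∈ d.divisors.filter (fun e : ℕ => 1 < e ∧ (e : ℝ) ≤ R), ∑ b ∈ e.divisors,
          (b.totient : ℝ) * maxErr y b +
      2 * ((1 / (d.totient : ℝ)) *
        ((d.divisors.card : ℝ) ^ 2 * ((H.index : ℝ) * (2 * Real.log d)))) +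
      (1 / (d.totient : ℝ)) *
        ∑ χ ∈ (XX d H).filter (fun χ => 1 < χ.conductor ∧ R < (χ.conductor : ℝ)),
          bet B χ * ‖PC χ.primitiveCharacter ⌊y⌋₊‖ := by
  have hlog : (0 : ℝ) ≤ Real.log d := Real.log_natCast_nonneg d
  have hidx : (0 : ℝ) ≤ (H.index : ℝ) * (2 * Real.log d) := by positivity
  have hτ1 : (1 : ℝ) ≤ (d.divisors.card : ℝ) := by
    have : 0 < d.divisors.card := Finset.card_pos.mpr ⟨1, Nat.one_mem_divisors.mpr (by omega)⟩
    exact_mod_cast this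
  have hA := h3 y R d H B hy hd hB0 hBH
  -- the double sum
  have hB : ∑ e ∈ d.divisors.filter (fun e : ℕ => 1 < e ∧ (e : ℝ) ≤ R), ∑ b ∈ e.divisors,
        ((b.totient : ℝ) * maxErr y b + (H.index : ℝ) * (2 * Real.log d)) ≤
      ∑ e ∈ d.divisors.filter (fun e : ℕ => 1 < e ∧ (e : ℝ) ≤ R), ∑ b ∈ e.divisors,
          (b.totient : ℝ) * maxErr y b +
      (d.divisors.card : ℝ) ^ 2 * ((H.index : ℝ) * (2 * Real.log d)) := by
    simp only [Finset.sum_add_distrib]
    gcongr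
    calc ∑ e ∈ d.divisors.filter (fun e : ℕ => 1 < e ∧ (e : ℝ) ≤ R), ∑ _b ∈ e.divisors,
          (H.index : ℝ) * (2 * Real.log d)
        ≤ ∑ e ∈ d.divisors.filter (fun e : ℕ => 1 < e ∧ (e : ℝ) ≤ R),
          (d.divisors.card : ℝ) * ((H.index : ℝ) * (2 * Real.log d)) := by
          refine Finset.sum_le_sum fun e he => ?_
          rw [Finset.sum_const, nsmul_eq_mul]
          refine mul_le_mul_of_nonneg_right ?_ hidx
          have h5 := (Nat.mem_divisors.mp (Finset.mem_filter.mp he).1)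
          exact_mod_cast Finset.card_le_card (Nat.divisors_subset_of_dvd h5.2 h5.1)
      _ ≤ _ := by
          rw [Finset.sum_const, nsmul_eq_mul, pow_two, mul_assoc]
          refine mul_le_mul_of_nonneg_right ?_ (by positivity)
          exact_mod_cast Finset.card_filter_le _ _
  -- the characters
  have hC : ∑ χ ∈ (XX d H).filter (fun χ => 1 < χ.conductor ∧ R < (χ.conductor : ℝ)),
        bet B χ * ‖PC χ ⌊y⌋₊‖ ≤
      ∑ χ ∈ (XX d H).filter (fun χ => 1 < χ.conductor ∧ R < (χ.conductor : ℝ)),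
          bet B χ * ‖PC χ.primitiveCharacter ⌊y⌋₊‖ +
      (d.divisors.card : ℝ) ^ 2 * ((H.index : ℝ) * (2 * Real.log d)) := by
    calc ∑ χ ∈ (XX d H).filter (fun χ => 1 < χ.conductor ∧ R < (χ.conductor : ℝ)),
          bet B χ * ‖PC χ ⌊y⌋₊‖
        ≤ ∑ χ ∈ (XX d H).filter (fun χ => 1 < χ.conductor ∧ R < (χ.conductor : ℝ)),
          (bet B χ * ‖PC χ.primitiveCharacter ⌊y⌋₊‖ + 2 * Real.log d) := by
          refine Finset.sum_le_sum fun χ _ => ?_
          have h5 := h4 d ⌊y⌋₊ χ hd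
          have h6 : ‖PC χ ⌊y⌋₊ - PC χ.primitiveCharacter ⌊y⌋₊‖ ≤ 2 * Real.log d := h5
          have h7 := norm_le_norm_add_norm_sub' (PC χ ⌊y⌋₊) (PC χ.primitiveCharacter ⌊y⌋₊)
          have hb0 := Asw_bet0 B χ
          have hb1 := (h2 d H B hd hB0).1 χ
          have h8 : bet B χ * ‖PC χ ⌊y⌋₊‖ ≤
              bet B χ * (‖PC χ.primitiveCharacter ⌊y⌋₊‖ + 2 * Real.log d) :=
            mul_le_mul_of_nonneg_left (by linarith) hb0
          have h9 : bet B χ * (2 * Real.log d) ≤ 1 * (2 * Real.log d) :=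
            mul_le_mul_of_nonneg_right hb1 (by positivity)
          rw [mul_add] at h8
          linarith
      _ ≤ _ := by
          rw [Finset.sum_add_distrib, Finset.sum_const, nsmul_eq_mul]
          refine add_le_add le_rfl ?_
          have h8 : ((((XX d H).filter
              (fun χ => 1 < χ.conductor ∧ R < (χ.conductor : ℝ))).card : ℕ) : ℝ) ≤
              (H.index : ℝ) := by
            rw [← (h1 d H hd).1]
            exact_mod_cast Finset.card_filter_le _ _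
          calc _ ≤ (H.index : ℝ) * (2 * Real.log d) :=
                mul_le_mul_of_nonneg_right h8 (by positivity)
            _ = 1 ^ 2 * ((H.index : ℝ) * (2 * Real.log d)) := by ring
            _ ≤ _ := by gcongr
  have hφ : (0 : ℝ) ≤ 1 / (d.totient : ℝ) := by positivity
  refine hA.trans ?_
  have hD := mul_le_mul_of_nonneg_left hB hφ
  have hE := mul_le_mul_of_nonneg_left hC hφ
  rw [mul_add] at hD hE
  rw [mul_add, mul_add]
  linarith

private lemma Asw_card (x A : ℝ) (S : Finset ℕ) (hx : 3 ≤ x)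
    (hS : ∀ d ∈ S, 1 ≤ d ∧ (d : ℝ) ≤ x ^ A) : (S.card : ℝ) ≤ x ^ A := by
  have h0 : (0 : ℝ) ≤ x ^ A := Real.rpow_nonneg (by linarith) A
  have h1 : S ⊆ Icc 1 ⌊x ^ A⌋₊ := by
    intro d hd
    rw [Finset.mem_Icc]
    exact ⟨(hS d hd).1, Nat.le_floor (hS d hd).2⟩
  have h2 := Finset.card_le_card h1
  rw [Nat.card_Icc, Nat.add_sub_cancel] at h2
  calc (S.card : ℝ) ≤ (⌊x ^ A⌋₊ : ℝ) := by exact_mod_cast h2
    _ ≤ x ^ A := Nat.floor_le h0

/-- the trivial bound -/
private lemma Asw_triv (y : ℝ) (d : ℕ) (B : Finset (ZMod d)ˣ) (hy : 2 ≤ y) (hd : 1 ≤ d)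
    (hB0 : B.Nonempty) : |setErr y d B| ≤ 2 * y := by
  classical
  have h2 := EH.li_nonneg hy
  have h3 := EH.li_le hy
  have h4 : (1 : ℝ) ≤ d.totient := by exact_mod_cast Nat.totient_pos.mpr hd
  have h5 : li y / d.totient ≤ li y := div_le_self h2 h4
  have h6 : 0 ≤ li y / d.totient := by positivity
  have h7 : (1 : ℝ) ≤ B.card := by exact_mod_cast Finset.card_pos.mpr hB0
  have h8 : (setCount y d B : ℝ) ≤ y := by
    have a1 : setCount y d B ≤ ⌊y⌋₊ := by
      unfold setCount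
      refine (Finset.card_filter_le _ _).trans ?_
      rw [Nat.card_Icc, Nat.add_sub_cancel]
    calc (setCount y d B : ℝ) ≤ (⌊y⌋₊ : ℝ) := by exact_mod_cast a1
      _ ≤ y := Nat.floor_le (by linarith)
  have h9 : (0 : ℝ) ≤ setCount y d B := Nat.cast_nonneg _
  have h10 : (setCount y d B : ℝ) / B.card ≤ setCount y d B := div_le_self h9 h7
  have h11 : 0 ≤ (setCount y d B : ℝ) / B.card := by positivity
  unfold setErr
  rw [abs_le]
  constructor
  · linarith
  · linarith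

/-- the group theory -/
private lemma Asw_grp (d : ℕ) (H : Subgroup (ZMod d)ˣ) (B : Finset (ZMod d)ˣ) (hd : 1 ≤ d)
    (hB0 : B.Nonempty) (hBH : ∀ b ∈ B, ∀ h ∈ H, b * h ∈ B) :
    1 ≤ (d.totient : ℝ) / (B.card : ℝ) ∧ (d.totient : ℝ) / (B.card : ℝ) ≤ (H.index : ℝ) ∧
      (1 : ℝ) ≤ (H.index : ℝ) ∧ (H.index : ℝ) ≤ (d.totient : ℝ) := by
  classical
  have hne : NeZero d := ⟨by omega⟩
  have hcard : Nat.card (ZMod d)ˣ = d.totient := by
    rw [Nat.card_eq_fintype_card, ZMod.card_units_eq_totient]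
  have hB1 : (0 : ℝ) < B.card := by exact_mod_cast Finset.card_pos.mpr hB0
  have hBφ : B.card ≤ d.totient := by
    rw [← ZMod.card_units_eq_totient d]
    exact Finset.card_le_univ B
  have hmul : H.index * Nat.card H = d.totient := by
    rw [← hcard]
    exact H.index_mul_card
  have hφ0 : 0 < d.totient := Nat.totient_pos.mpr hd
  have hi0 : 0 < H.index := by
    rcases Nat.eq_zero_or_pos H.index with h | h
    · rw [h, zero_mul] at hmul
      omega
    · exact h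
  have hH0 : 0 < Nat.card H := by
    rcases Nat.eq_zero_or_pos (Nat.card H) with h | h
    · rw [h, mul_zero] at hmul
      omega
    · exact h
  have hHB : Nat.card H ≤ B.card := by
    obtain ⟨b, hb⟩ := hB0
    have h1 : Nat.card H ≤ Nat.card B := by
      refine Nat.card_le_card_of_injective (fun h : H => (⟨b * h.1, hBH b hb h.1 h.2⟩ : B)) ?_
      intro h h' hh
      have h2 := congrArg Subtype.val hh
      exact Subtype.ext (mul_left_cancel h2)
    have h3 : Nat.card B = B.card := by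
      rw [Nat.card_eq_fintype_card, Fintype.card_coe]
    rwa [h3] at h1
  refine ⟨?_, ?_, ?_, ?_⟩
  · rw [le_div_iff₀ hB1, one_mul]
    exact_mod_cast hBφ
  · rw [div_le_iff₀ hB1, ← hmul]
    exact_mod_cast Nat.mul_le_mul_left _ hHB
  · exact_mod_cast hi0
  · rw [← hmul]
    exact_mod_cast Nat.le_mul_of_pos_right _ hH0

/-- monotonicity of the condition -/
private lemma Asw_adm {x L L' e m D : ℝ} (hL : L' ≤ L) (he : 0 ≤ e) (hm : 0 ≤ m) (hD : 0 ≤ D)
    (h : Adm x L e m D) : Adm x L' e m D := by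
  rcases h with ⟨k, hk, h1⟩ | ⟨h1, h2⟩
  · refine Or.inl ⟨k, hk, le_trans ?_ h1⟩
    exact mul_le_mul_of_nonneg_left hL (by positivity)
  · refine Or.inr ⟨le_trans ?_ h1, le_trans ?_ h2⟩
    · exact mul_le_mul_of_nonneg_left hL (by positivity)
    · exact mul_le_mul_of_nonneg_left hL (by positivity)

theorem tAsw (h1 : OrhStmt) (h2 : PrvStmt) (h3 : PwwStmt) (h4 : LpcStmt) (h5 : LgwStmt)
    (h6 : SmlStmt) (h7 : DvwStmt) (h8 : TrcStmt) : AswStmt := by
  intro A U hA hU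
  obtain ⟨B, C1, x1, hB, hC1, hx1, hsml⟩ := h6 A U hA hU
  obtain ⟨C2, x2, hC2, hx2, hlrg⟩ := h5 A B U hA hB hU
  obtain ⟨C3, hC3, hdvs⟩ := h7 A U hA hU
  obtain ⟨C4, hC4, htrc⟩ := h8 A U hA hU
  set x0 := max x1 x2 with hx0
  have hx016 : 16 ≤ x0 := hx1.trans (le_max_left _ _)
  have hlog0 : 0 ≤ Real.log x0 := Real.log_nonneg (by linarith)
  set C5 := 2 * x0 ^ A * (Real.log x0) ^ U with hC5
  have hC5n : 0 ≤ C5 := by
    have : 0 ≤ x0 ^ A := Real.rpow_nonneg (by linarith) A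
    have : 0 ≤ (Real.log x0) ^ U := Real.rpow_nonneg hlog0 U
    positivity
  refine ⟨C1 + C2 + 2 * C3 + C4 + C5, ?_⟩
  intro x S H Bd y hx hS
  have hlog1 : 1 ≤ Real.log x := by
    rw [Real.le_log_iff_exp_le (by linarith)]
    exact (Real.exp_one_lt_three.le).trans hx
  have hlU : 0 < (Real.log x) ^ U := Real.rpow_pos_of_pos (by linarith) U
  have hXU : 0 ≤ x / (Real.log x) ^ U := by
    have : 0 ≤ x := by linarith
    positivity
  rcases lt_or_ge x x0 with hlt | hge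
  · -- small x
    have hterm : ∀ d ∈ S, |setErr (y d) d (Bd d)| ≤ 2 * x := by
      intro d hd
      obtain ⟨ha, -, hc, he, hb, -⟩ := hS d hd
      have h9 := Asw_triv (y d) d (Bd d) hc ha hb
      linarith
    have hcard := Asw_card x A S hx (fun d hd => ⟨(hS d hd).1, (hS d hd).2.1⟩)
    have h11 : ∑ d ∈ S, |setErr (y d) d (Bd d)| ≤ x ^ A * (2 * x) := by
      refine (Finset.sum_le_sum hterm).trans ?_
      rw [Finset.sum_const, nsmul_eq_mul]
      exact mul_le_mul_of_nonneg_right hcard (by linarith)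
    have h12 : x ^ A * (2 * x) ≤ C5 * (x / (Real.log x) ^ U) := by
      have h13 : x ^ A ≤ x0 ^ A := Real.rpow_le_rpow (by linarith) hlt.le hA.le
      have h14 : (Real.log x) ^ U ≤ (Real.log x0) ^ U :=
        Real.rpow_le_rpow (by linarith) (Real.log_le_log (by linarith) hlt.le) hU.le
      rw [hC5, mul_div_assoc', le_div_iff₀ hlU]
      have h15 : 0 ≤ x ^ A := Real.rpow_nonneg (by linarith) A
      calc x ^ A * (2 * x) * (Real.log x) ^ U = 2 * (x ^ A) * ((Real.log x) ^ U) * x := by ring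
        _ ≤ 2 * x0 ^ A * (Real.log x0) ^ U * x := by gcongr
    refine h11.trans (h12.trans ?_)
    refine mul_le_mul_of_nonneg_right ?_ hXU
    linarith
  · -- large x
    have hx1' : x1 ≤ x := (le_max_left _ _).trans hge
    have hx2' : x2 ≤ x := (le_max_right _ _).trans hge
    have hx16 : 16 ≤ x := hx016.trans hge
    have hgrp : ∀ d ∈ S, 1 ≤ (d.totient : ℝ) / ((Bd d).card : ℝ) ∧
        (d.totient : ℝ) / ((Bd d).card : ℝ) ≤ ((H d).index : ℝ) ∧
        (1 : ℝ) ≤ ((H d).index : ℝ) ∧ ((H d).index : ℝ) ≤ (d.totient : ℝ) := by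
      intro d hd
      obtain ⟨ha, -, -, -, hb, hc, -⟩ := hS d hd
      exact Asw_grp d (H d) (Bd d) ha hb hc
    have hmono : ∀ C : ℝ, C ≤ C1 + C2 + 2 * C3 + C4 + C5 → ∀ d ∈ S, ∀ e : ℕ, e ∣ d →
        Real.sqrt x < (e : ℝ) * (Real.log x) ^ C →
        Adm x ((Real.log x) ^ C) e ((H d).index : ℝ) ((d.totient : ℝ) / ((Bd d).card : ℝ)) := by
      intro C hC d hd e he hsq
      have hCC := Real.rpow_le_rpow_of_exponent_le hlog1 hC
      have he0 : (0 : ℝ) ≤ (e : ℝ) := Nat.cast_nonneg _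
      refine Asw_adm hCC he0 (Nat.cast_nonneg _) (by positivity)
        ((hS d hd).2.2.2.2.2.2 e he (lt_of_lt_of_le hsq ?_))
      exact mul_le_mul_of_nonneg_left hCC he0
    have hS1 : ∀ d ∈ S, 1 ≤ d ∧ (d : ℝ) ≤ x ^ A ∧ 2 ≤ y d ∧ y d ≤ x := fun d hd =>
      ⟨(hS d hd).1, (hS d hd).2.1, (hS d hd).2.2.1, (hS d hd).2.2.2.1⟩
    have e1 := htrc x S y hx16 hS1
    have e2 := hsml x S y hx1' hS1
    have e3 := hdvs x S (fun d => ((H d).index : ℝ))
      (fun d => (d.totient : ℝ) / ((Bd d).card : ℝ)) hx (fun d hd =>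
      ⟨(hS d hd).1, (hS d hd).2.1, (hgrp d hd).2.2.1, (hgrp d hd).2.2.2, (hgrp d hd).1,
        hmono C3 (by linarith) d hd d dvd_rfl⟩)
    have e4 := hlrg x S H (fun d => (d.totient : ℝ) / ((Bd d).card : ℝ))
      (fun d χ => bet (Bd d) χ) y hx2' (fun d χ => Asw_bet0 (Bd d) χ) (fun d hd =>
      ⟨(hS d hd).1, (hS d hd).2.1, (hS d hd).2.2.1, (hS d hd).2.2.2.1, (hgrp d hd).1,
        (hgrp d hd).2.1, (h2 d (H d) (Bd d) (hS d hd).1 (hS d hd).2.2.2.2.1).2,
        hmono C2 (by linarith) d hd⟩)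
    have hsum : ∑ d ∈ S, |setErr (y d) d (Bd d)| ≤
        C4 * (x / (Real.log x) ^ U) + C1 * (x / (Real.log x) ^ U) +
          2 * (C3 * (x / (Real.log x) ^ U)) + C2 * (x / (Real.log x) ^ U) := by
      refine (Finset.sum_le_sum fun d hd => Asw_pt h1 h2 h3 h4 (y d)
        (Real.sqrt x / (Real.log x) ^ B) d (H d) (Bd d) (hS d hd).2.2.1 (hS d hd).1
        (hS d hd).2.2.2.2.1 (hS d hd).2.2.2.2.2.1).trans ?_
      rw [Finset.sum_add_distrib, Finset.sum_add_distrib, Finset.sum_add_distrib,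
        ← Finset.mul_sum]
      gcongr
    refine hsum.trans ?_
    have h16 : 0 ≤ C5 * (x / (Real.log x) ^ U) := mul_nonneg hC5n hXU
    linarith

end Pool.Agent.Lib.CO
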