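import Pool.Agent.Lib.CO.SpecW
import Pool.Agent.Lib.BV.Tot

/-!
MP_00e23e_nt, Lib/CO, module Blw: one dyadic block of conductors with weights.
-/

namespace Pool.Agent.Lib.CO

open Finset Pool.Agent.Lib.BV Pool.Agent.Results.MP_00e23e_nt

private lemma Blw_ZZ_nonneg (J k : ℕ) {q : ℕ} (χ : DirichletCharacter ℂ q) : 0 ≤ ZZ J k χ := by
  unfold ZZ
  exact Finset.sum_nonneg fun j _ => Finset.sum_nonneg fun i _ => pow_nonneg (norm_nonneg _) _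

private lemma Blw_weights (D : ℕ) (S : Finset ℕ) (hD : 1 ≤ D) (hS : S ⊆ Icc 1 D) :
    ∑ d ∈ S, (1 / (d.totient : ℝ)) ≤ (1 + Real.log D) ^ 2 :=
  (Finset.sum_le_sum_of_subset_of_nonneg hS fun d _ _ => by positivity).trans (tTot.1 D hD)

private lemma Blw_prim (h2 : LskStmt) (J k E : ℕ) (hk : 1 ≤ k) (hE : 1 ≤ E) (s : Finset ℕ)
    (hs : ∀ e ∈ s, E < e ∧ e ≤ 2 * E) :
    ∑ e ∈ s, (1 / (e.totient : ℝ)) * ∑ ψ ∈ prim e, ZZ J k ψ ≤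
      (1 / (E : ℝ)) * (20 * (((2 : ℝ) ^ J) ^ k + ((2 * E : ℕ) : ℝ) ^ 2) *
        ((k.factorial : ℝ) * (J * ((2 : ℝ) ^ J) ^ k))) := by
  have hE0 : (0 : ℝ) < E := by exact_mod_cast hE
  have hZ : ∀ e : ℕ, 0 ≤ ∑ ψ ∈ prim e, ZZ J k ψ := fun e =>
    Finset.sum_nonneg fun ψ _ => Blw_ZZ_nonneg J k ψ
  have h1 : ∑ e ∈ s, (1 / (e.totient : ℝ)) * ∑ ψ ∈ prim e, ZZ J k ψ ≤
      ∑ e ∈ s, (1 / (E : ℝ)) * ((e : ℝ) / (e.totient : ℝ) * ∑ ψ ∈ prim e, ZZ J k ψ) := by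
    refine Finset.sum_le_sum fun e he => ?_
    rw [← mul_assoc]
    refine mul_le_mul_of_nonneg_right ?_ (hZ e)
    have h3 : (1 : ℝ) ≤ (1 / (E : ℝ)) * (e : ℝ) := by
      rw [one_div, inv_mul_eq_div, one_le_div hE0]
      exact_mod_cast (hs e he).1.le
    calc (1 / (e.totient : ℝ)) = 1 * (1 / (e.totient : ℝ)) := (one_mul _).symm
      _ ≤ ((1 / (E : ℝ)) * (e : ℝ)) * (1 / (e.totient : ℝ)) :=
          mul_le_mul_of_nonneg_right h3 (by positivity)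
      _ = (1 / (E : ℝ)) * ((e : ℝ) / (e.totient : ℝ)) := by ring
  have h3 : ∑ e ∈ s, (1 / (E : ℝ)) * ((e : ℝ) / (e.totient : ℝ) * ∑ ψ ∈ prim e, ZZ J k ψ) ≤
      ∑ e ∈ Icc 2 (2 * E), (1 / (E : ℝ)) * ((e : ℝ) / (e.totient : ℝ) * ∑ ψ ∈ prim e, ZZ J k ψ) := by
    refine Finset.sum_le_sum_of_subset_of_nonneg ?_ fun e _ _ => ?_
    · intro e he
      obtain ⟨ha, hb⟩ := hs e he
      rw [Finset.mem_Icc]
      omega
    · exact mul_nonneg (by positivity) (mul_nonneg (by positivity) (hZ e))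
  refine h1.trans (h3.trans ?_)
  rw [← Finset.mul_sum]
  exact mul_le_mul_of_nonneg_left (h2 (2 * E) J k (by omega) hk) (by positivity)

private lemma Blw_moment (h1 : ChnStmt) (h2 : LskStmt) (h3 : TrsStmt) (D J k E : ℕ) (S : Finset ℕ)
    (X : (d : ℕ) → Finset (DirichletCharacter ℂ d)) (Y : ℕ → ℕ) (hD : 1 ≤ D) (hS : S ⊆ Icc 1 D)
    (hk : 1 ≤ k) (hE : 1 ≤ E) (hY : ∀ d ∈ S, Y d < 2 ^ J)
    (hX : ∀ d ∈ S, ∀ χ ∈ X d, E < χ.conductor ∧ χ.conductor ≤ 2 * E) :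
    ∑ d ∈ S, ∑ χ ∈ X d, (1 / (d.totient : ℝ)) * ‖PC χ.primitiveCharacter (Y d)‖ ^ (2 * k) ≤
      (J : ℝ) ^ (2 * k - 1) * ((1 + Real.log D) ^ 2 *
        ((1 / (E : ℝ)) * (20 * (((2 : ℝ) ^ J) ^ k + ((2 * E : ℕ) : ℝ) ^ 2) *
        ((k.factorial : ℝ) * (J * ((2 : ℝ) ^ J) ^ k))))) := by
  classical
  have a1 : ∑ d ∈ S, ∑ χ ∈ X d, (1 / (d.totient : ℝ)) * ‖PC χ.primitiveCharacter (Y d)‖ ^ (2 * k) ≤
      ∑ d ∈ S, (J : ℝ) ^ (2 * k - 1) * ((1 / (d.totient : ℝ)) *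
        ∑ χ ∈ X d, ZZ J k χ.primitiveCharacter) := by
    refine Finset.sum_le_sum fun d hd => ?_
    rw [Finset.mul_sum, Finset.mul_sum]
    refine Finset.sum_le_sum fun χ _ => ?_
    calc (1 / (d.totient : ℝ)) * ‖PC χ.primitiveCharacter (Y d)‖ ^ (2 * k)
        ≤ (1 / (d.totient : ℝ)) * ((J : ℝ) ^ (2 * k - 1) * ZZ J k χ.primitiveCharacter) :=
          mul_le_mul_of_nonneg_left (h1 _ χ.primitiveCharacter J k (Y d) hk (hY d hd)) (by positivity)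
      _ = (J : ℝ) ^ (2 * k - 1) * ((1 / (d.totient : ℝ)) * ZZ J k χ.primitiveCharacter) := by ring
  refine a1.trans ?_
  rw [← Finset.mul_sum]
  refine mul_le_mul_of_nonneg_left ?_ (by positivity)
  have a2 := h3 D (fun e => E < e ∧ e ≤ 2 * E) (fun e χ => ZZ J k χ) hD
    (fun e χ => Blw_ZZ_nonneg J k χ)
  have a3 : ∑ d ∈ S, (1 / (d.totient : ℝ)) * ∑ χ ∈ X d, ZZ J k χ.primitiveCharacter ≤
      ∑ d ∈ Icc 1 D, (1 / (d.totient : ℝ)) *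
        ∑ χ ∈ univ.filter (fun χ : DirichletCharacter ℂ d => E < χ.conductor ∧ χ.conductor ≤ 2 * E),
          ZZ J k χ.primitiveCharacter := by
    have b1 : ∑ d ∈ S, (1 / (d.totient : ℝ)) * ∑ χ ∈ X d, ZZ J k χ.primitiveCharacter ≤
      ∑ d ∈ S, (1 / (d.totient : ℝ)) *
        ∑ χ ∈ univ.filter (fun χ : DirichletCharacter ℂ d => E < χ.conductor ∧ χ.conductor ≤ 2 * E),
          ZZ J k χ.primitiveCharacter := by
      refine Finset.sum_le_sum fun d hd => ?_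
      refine mul_le_mul_of_nonneg_left ?_ (by positivity)
      refine Finset.sum_le_sum_of_subset_of_nonneg ?_ fun χ _ _ => Blw_ZZ_nonneg J k _
      intro χ hχ
      exact Finset.mem_filter.2 ⟨Finset.mem_univ _, hX d hd χ hχ⟩
    refine b1.trans (Finset.sum_le_sum_of_subset_of_nonneg hS fun d _ _ => ?_)
    exact mul_nonneg (by positivity) (Finset.sum_nonneg fun χ _ => Blw_ZZ_nonneg J k _)
  refine a3.trans (le_trans (le_of_eq ?_) (a2.trans ?_))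
  · refine Finset.sum_congr rfl fun d _ => ?_
    refine congrArg _ (Finset.sum_congr ?_ fun χ _ => rfl)
    ext χ
    simp only [Finset.mem_filter]
  · refine mul_le_mul_of_nonneg_left ?_ (by positivity)
    refine Blw_prim h2 J k E hk hE _ ?_
    intro e he
    simp only [Finset.mem_filter] at he
    exact he.2

private lemma Blw_term (h4 : HolStmt) {ι : Type} (s : Finset ι) (f a : ι → ℝ) (k : ℕ) (R : ℝ)
    (hk : 1 ≤ k) (hf : ∀ i ∈ s, 0 ≤ f i) (ha : ∀ i ∈ s, 0 ≤ a i)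
    (hR : (∑ i ∈ s, f i ^ 2) ^ k * (s.card : ℝ) ^ (k - 1) ≤ R) :
    (∑ i ∈ s, f i * a i) ^ (2 * k) ≤ R * ∑ i ∈ s, a i ^ (2 * k) := by
  have a1 : (∑ i ∈ s, f i * a i) ^ 2 ≤ (∑ i ∈ s, f i ^ 2) * ∑ i ∈ s, a i ^ 2 :=
    Finset.sum_mul_sq_le_sq_mul_sq s f a
  have a2 := h4 ι s (fun _ => 1) (fun i => a i ^ 2) k hk (fun i _ => zero_le_one)
    (fun i _ => sq_nonneg _)
  simp only [one_mul, Finset.sum_const, nsmul_eq_mul, mul_one] at a2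
  have a3 : ∑ i ∈ s, (a i ^ 2) ^ k = ∑ i ∈ s, a i ^ (2 * k) :=
    Finset.sum_congr rfl fun i _ => (pow_mul _ _ _).symm
  rw [a3] at a2
  have a4 : (0 : ℝ) ≤ ∑ i ∈ s, f i ^ 2 := Finset.sum_nonneg fun i _ => sq_nonneg _
  have a5 : (0 : ℝ) ≤ ∑ i ∈ s, a i ^ (2 * k) := Finset.sum_nonneg fun i hi => pow_nonneg (ha i hi) _
  calc (∑ i ∈ s, f i * a i) ^ (2 * k) = ((∑ i ∈ s, f i * a i) ^ 2) ^ k := pow_mul _ _ _
    _ ≤ ((∑ i ∈ s, f i ^ 2) * ∑ i ∈ s, a i ^ 2) ^ k := pow_le_pow_left₀ (sq_nonneg _) a1 k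
    _ = (∑ i ∈ s, f i ^ 2) ^ k * (∑ i ∈ s, a i ^ 2) ^ k := mul_pow _ _ _
    _ ≤ (∑ i ∈ s, f i ^ 2) ^ k * ((s.card : ℝ) ^ (k - 1) * ∑ i ∈ s, a i ^ (2 * k)) :=
        mul_le_mul_of_nonneg_left a2 (pow_nonneg a4 _)
    _ = ((∑ i ∈ s, f i ^ 2) ^ k * (s.card : ℝ) ^ (k - 1)) * ∑ i ∈ s, a i ^ (2 * k) := by ring
    _ ≤ R * ∑ i ∈ s, a i ^ (2 * k) := mul_le_mul_of_nonneg_right hR a5

private lemma Blw_alg (R L J : ℝ) (E : ℕ) (P F : ℝ) (m : ℕ) :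
    (L ^ 2) ^ (2 * m + 1) * (R * (J ^ (2 * m + 1) * (L ^ 2 * ((1 / (E : ℝ)) *
      (20 * (P + ((2 * E : ℕ) : ℝ) ^ 2) * (F * (J * P))))))) =
    R * L ^ (4 * (m + 1)) * J ^ (2 * (m + 1)) * (20 * F * P) * ((P + 4 * (E : ℝ) ^ 2) / E) := by
  push_cast
  rw [← pow_mul, one_div, div_eq_mul_inv]
  ring

theorem tBlw (h1 : ChnStmt) (h2 : LskStmt) (h3 : TrsStmt) (h4 : HolStmt) : BlwStmt := by
  intro D J k E R S X Y f hD hS hk hE hR hY hf hX hC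
  have t0 : ∀ d, 0 ≤ ∑ χ ∈ X d, f d χ * ‖PC χ.primitiveCharacter (Y d)‖ := fun d =>
    Finset.sum_nonneg fun χ _ => mul_nonneg (hf d χ) (norm_nonneg _)
  have e1 := h4 ℕ S (fun d => 1 / (d.totient : ℝ))
    (fun d => ∑ χ ∈ X d, f d χ * ‖PC χ.primitiveCharacter (Y d)‖) (2 * k) (by omega)
    (fun d _ => by positivity) (fun d _ => t0 d)
  refine e1.trans ?_
  have e3 := Blw_weights D S hD hS
  have e4 := Blw_moment h1 h2 h3 D J k E S X Y hD hS hk hE hY hX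
  have e5 : (0 : ℝ) ≤ ∑ d ∈ S, (1 / (d.totient : ℝ)) := Finset.sum_nonneg fun d _ => by positivity
  have e6 : ∑ d ∈ S, (1 / (d.totient : ℝ)) *
      (∑ χ ∈ X d, f d χ * ‖PC χ.primitiveCharacter (Y d)‖) ^ (2 * k) ≤
      R * ∑ d ∈ S, ∑ χ ∈ X d, (1 / (d.totient : ℝ)) * ‖PC χ.primitiveCharacter (Y d)‖ ^ (2 * k) := by
    rw [Finset.mul_sum]
    refine Finset.sum_le_sum fun d hd => ?_
    rw [← Finset.mul_sum]
    have b1 := Blw_term h4 (X d) (fun χ => f d χ) (fun χ => ‖PC χ.primitiveCharacter (Y d)‖) k R hk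
      (fun χ _ => hf d χ) (fun χ _ => norm_nonneg _) (hC d hd)
    calc _ ≤ (1 / (d.totient : ℝ)) * (R * ∑ χ ∈ X d, ‖PC χ.primitiveCharacter (Y d)‖ ^ (2 * k)) :=
          mul_le_mul_of_nonneg_left b1 (by positivity)
      _ = _ := by ring
  have e7 : (0 : ℝ) ≤ ∑ d ∈ S, (1 / (d.totient : ℝ)) *
      (∑ χ ∈ X d, f d χ * ‖PC χ.primitiveCharacter (Y d)‖) ^ (2 * k) :=
    Finset.sum_nonneg fun d _ => mul_nonneg (by positivity) (pow_nonneg (t0 d) _)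
  have e8 := e6.trans (mul_le_mul_of_nonneg_left e4 hR)
  refine (mul_le_mul (pow_le_pow_left₀ e5 e3 (2 * k - 1)) e8 e7 (by positivity)).trans (le_of_eq ?_)
  obtain ⟨m, rfl⟩ : ∃ m, k = m + 1 := ⟨k - 1, by omega⟩
  have e9 : 2 * (m + 1) - 1 = 2 * m + 1 := by omega
  rw [e9]
  exact Blw_alg R (1 + Real.log D) J E _ _ m

end Pool.Agent.Lib.CO
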