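import Pool.Agent.Lib.CO.SpecW
import Pool.Agent.Lib.BV.Tot

/-! MP_00e23e_nt, Lib/CO, module Bxw: one box of the bilinear sums with weights. -/

namespace Pool.Agent.Lib.CO

open Finset Pool.Agent.Lib.BV Pool.Agent.Results.MP_00e23e_nt

private theorem Bxw_log {x : ℝ} (hx : 3 ≤ x) : 1 ≤ Real.log x := by
  rw [Real.le_log_iff_exp_le (by linarith)]
  have := Real.exp_one_lt_d9
  linarith

/-- The dyadic exponent. -/
private theorem Bxw_J {x : ℝ} (hx : 3 ≤ x) : ∃ J : ℕ, (∀ M : ℕ, (M : ℝ) ≤ x → 2 * M ≤ 2 ^ J) ∧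
    ((J : ℝ) + 1) ≤ 6 * Real.log x := by
  have hL1 := Bxw_log hx
  have hfl : ⌊x⌋₊ ≠ 0 := (Nat.floor_pos.2 (by linarith)).ne'
  have h1 : (2 : ℝ) ^ (Nat.log 2 ⌊x⌋₊) ≤ x := by
    have h2 : ((2 ^ (Nat.log 2 ⌊x⌋₊) : ℕ) : ℝ) ≤ (⌊x⌋₊ : ℝ) := by
      exact_mod_cast Nat.pow_log_le_self 2 hfl
    have h3 : (⌊x⌋₊ : ℝ) ≤ x := Nat.floor_le (by linarith)
    push_cast at h2
    linarith
  refine ⟨Nat.log 2 ⌊x⌋₊ + 2, ?_, ?_⟩
  · intro M hM
    have h4 : M ≤ ⌊x⌋₊ := Nat.le_floor hM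
    have h5 : ⌊x⌋₊ < 2 ^ (Nat.log 2 ⌊x⌋₊ + 1) := Nat.lt_pow_succ_log_self (by norm_num) _
    have h6 : 2 ^ (Nat.log 2 ⌊x⌋₊ + 2) = 2 * 2 ^ (Nat.log 2 ⌊x⌋₊ + 1) := by
      rw [pow_succ _ (Nat.log 2 ⌊x⌋₊ + 1)]
      ring
    omega
  · have h2 := Real.log_le_log (by positivity) h1
    rw [Real.log_pow] at h2
    have h3 : (1 / 2 : ℝ) ≤ Real.log 2 := by
      have := Real.log_two_gt_d9
      linarith
    have h4 : (Nat.log 2 ⌊x⌋₊ : ℝ) * (1 / 2) ≤ (Nat.log 2 ⌊x⌋₊ : ℝ) * Real.log 2 :=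
      mul_le_mul_of_nonneg_left h3 (Nat.cast_nonneg _)
    push_cast
    linarith

/-- The restriction to the box. -/
private def Bxw_cut (a : ℕ → ℂ) (M m : ℕ) : ℂ := if m ∈ Ico M (2 * M) then a m else 0

private theorem Bxw_tw (a : ℕ → ℂ) (M m : ℕ) {q : ℕ} (χ : DirichletCharacter ℂ q) :
    tw (Bxw_cut a M) χ m = if m ∈ Ico M (2 * M) then tw a χ m else 0 := by
  unfold tw Bxw_cut
  split_ifs
  · rfl
  · rw [zero_mul]

private theorem Bxw_BL (a b : ℕ → ℂ) (M N Y J : ℕ) {q : ℕ} (χ : DirichletCharacter ℂ q)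
    (_ : 1 ≤ M) (_ : 1 ≤ N) (hMJ : 2 * M ≤ 2 ^ J) (hNJ : 2 * N ≤ 2 ^ J) :
    BL a b M N Y χ = ∑ m ∈ Icc 1 (2 ^ J), ∑ n ∈ (Icc 1 (2 ^ J)).filter (fun n => m * n ≤ Y),
      tw (Bxw_cut a M) χ m * tw (Bxw_cut b N) χ n := by
  unfold BL
  have hM' : Ico M (2 * M) ⊆ Icc 1 (2 ^ J) := by
    intro m hm
    rw [mem_Ico] at hm
    rw [mem_Icc]
    omega
  have hN' : Ico N (2 * N) ⊆ Icc 1 (2 ^ J) := by
    intro m hm
    rw [mem_Ico] at hm
    rw [mem_Icc]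
    omega
  rw [← sum_subset hM' (f := fun m => ∑ n ∈ (Icc 1 (2 ^ J)).filter (fun n => m * n ≤ Y),
      tw (Bxw_cut a M) χ m * tw (Bxw_cut b N) χ n)]
  · refine sum_congr rfl fun m hm => ?_
    rw [← sum_subset (filter_subset_filter (fun n => m * n ≤ Y) hN')]
    · refine sum_congr rfl fun n hn => ?_
      rw [Bxw_tw, Bxw_tw, if_pos hm, if_pos (mem_filter.1 hn).1]
    · intro n hn hn'
      have h1 : n ∉ Ico N (2 * N) := fun h => hn' (mem_filter.2 ⟨h, (mem_filter.1 hn).2⟩)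
      rw [Bxw_tw b, if_neg h1, mul_zero]
  · intro m _ hm'
    refine sum_eq_zero fun n _ => ?_
    rw [Bxw_tw a, if_neg hm', zero_mul]

/-- From the characters mod d to the primitive characters with conductor in (E, 2E]. -/
private theorem Bxw_prim (h3 : TrsStmt) (D E : ℕ) (S : Finset ℕ)
    (X : (d : ℕ) → Finset (DirichletCharacter ℂ d))
    (F : (e : ℕ) → DirichletCharacter ℂ e → ℝ) (hF : ∀ e χ, 0 ≤ F e χ) (hD : 1 ≤ D)
    (hS : S ⊆ Icc 1 D) (hE : 1 ≤ E)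
    (hX : ∀ d ∈ S, ∀ χ ∈ X d, E < χ.conductor ∧ χ.conductor ≤ 2 * E) :
    ∑ d ∈ S, (1 / (d.totient : ℝ)) * ∑ χ ∈ X d, F χ.conductor χ.primitiveCharacter ≤
      (1 + Real.log D) ^ 2 * ((1 / (E : ℝ)) *
        ∑ q ∈ Icc 2 (2 * E), (q : ℝ) / (q.totient : ℝ) * ∑ ψ ∈ prim q, F q ψ) := by
  classical
  have hE0 : (0 : ℝ) < E := by exact_mod_cast hE
  have hZ : ∀ e : ℕ, 0 ≤ ∑ ψ ∈ prim e, F e ψ := fun e => sum_nonneg fun ψ _ => hF e ψ
  have a2 := h3 D (fun e => E < e ∧ e ≤ 2 * E) F hD hF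
  have a3 : ∑ d ∈ S, (1 / (d.totient : ℝ)) * ∑ χ ∈ X d, F χ.conductor χ.primitiveCharacter ≤
      ∑ d ∈ Icc 1 D, (1 / (d.totient : ℝ)) *
        ∑ χ ∈ univ.filter (fun χ : DirichletCharacter ℂ d => E < χ.conductor ∧ χ.conductor ≤ 2 * E),
          F χ.conductor χ.primitiveCharacter := by
    have b1 : ∑ d ∈ S, (1 / (d.totient : ℝ)) * ∑ χ ∈ X d, F χ.conductor χ.primitiveCharacter ≤
      ∑ d ∈ S, (1 / (d.totient : ℝ)) *
        ∑ χ ∈ univ.filter (fun χ : DirichletCharacter ℂ d => E < χ.conductor ∧ χ.conductor ≤ 2 * E),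
          F χ.conductor χ.primitiveCharacter := by
      refine sum_le_sum fun d hd => ?_
      refine mul_le_mul_of_nonneg_left ?_ (by positivity)
      refine sum_le_sum_of_subset_of_nonneg ?_ fun χ _ _ => hF _ _
      intro χ hχ
      exact mem_filter.2 ⟨mem_univ _, hX d hd χ hχ⟩
    refine b1.trans (sum_le_sum_of_subset_of_nonneg hS fun d _ _ => ?_)
    exact mul_nonneg (by positivity) (sum_nonneg fun χ _ => hF _ _)
  refine a3.trans (le_trans (le_of_eq ?_) (a2.trans ?_))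
  · refine sum_congr rfl fun d _ => ?_
    refine congrArg _ (sum_congr ?_ fun χ _ => rfl)
    ext χ
    simp only [mem_filter]
  · refine mul_le_mul_of_nonneg_left ?_ (by positivity)
    have h1 : ∀ e ∈ (Icc 1 D).filter (fun e => E < e ∧ e ≤ 2 * E),
        (1 / (e.totient : ℝ)) * ∑ ψ ∈ prim e, F e ψ ≤
        (1 / (E : ℝ)) * ((e : ℝ) / (e.totient : ℝ) * ∑ ψ ∈ prim e, F e ψ) := by
      intro e he
      rw [← mul_assoc]
      refine mul_le_mul_of_nonneg_right ?_ (hZ e)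
      have h3 : (1 : ℝ) ≤ (1 / (E : ℝ)) * (e : ℝ) := by
        rw [one_div, inv_mul_eq_div, one_le_div hE0]
        exact_mod_cast (mem_filter.1 he).2.1.le
      calc (1 / (e.totient : ℝ)) = 1 * (1 / (e.totient : ℝ)) := (one_mul _).symm
        _ ≤ ((1 / (E : ℝ)) * (e : ℝ)) * (1 / (e.totient : ℝ)) :=
            mul_le_mul_of_nonneg_right h3 (by positivity)
        _ = (1 / (E : ℝ)) * ((e : ℝ) / (e.totient : ℝ)) := by ring
    rw [mul_sum]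
    have h2 : ∑ e ∈ (Icc 1 D).filter (fun e => E < e ∧ e ≤ 2 * E),
        (1 / (E : ℝ)) * ((e : ℝ) / (e.totient : ℝ) * ∑ ψ ∈ prim e, F e ψ) ≤
        ∑ e ∈ Icc 2 (2 * E), (1 / (E : ℝ)) * ((e : ℝ) / (e.totient : ℝ) * ∑ ψ ∈ prim e, F e ψ) := by
      refine sum_le_sum_of_subset_of_nonneg ?_ fun e _ _ => ?_
      · intro e he
        obtain ⟨ha, hb⟩ := (mem_filter.1 he).2
        rw [mem_Icc]
        omega
      · exact mul_nonneg (by positivity) (mul_nonneg (by positivity) (hZ e))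
    refine le_trans (le_of_eq ?_) ((sum_le_sum h1).trans h2)
    refine sum_congr ?_ fun e _ => rfl
    ext e
    simp only [mem_filter]

private theorem Bxw_VV (a : ℕ → ℂ) (J j : ℕ) : 0 ≤ VV a J j :=
  sum_nonneg fun _ _ => by positivity

/-- The third moments on the characters of the X d. -/
private theorem Bxw_cub (h1 : TrsStmt) (h3 : CubStmt) (D E M N J j k : ℕ) (L : ℝ) (S : Finset ℕ)
    (X : (d : ℕ) → Finset (DirichletCharacter ℂ d)) (a b : ℕ → ℂ) (hD : 1 ≤ D)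
    (hS : S ⊆ Icc 1 D) (hE : 1 ≤ E) (hM : 1 ≤ M) (hN : 1 ≤ N) (hL : 0 ≤ L)
    (ha : ∀ m ∈ Ico M (2 * M), ‖a m‖ ≤ 2 * L * (m.divisors.card : ℝ))
    (hb : ∀ n ∈ Ico N (2 * N), ‖b n‖ ≤ 2 * L * (n.divisors.card : ℝ))
    (hX : ∀ d ∈ S, ∀ χ ∈ X d, E < χ.conductor ∧ χ.conductor ≤ 2 * E) :
    ∑ d ∈ S, (1 / (d.totient : ℝ)) * ∑ χ ∈ X d,
        (VV (tw (Bxw_cut a M) χ.primitiveCharacter) J j) ^ 2 *
          VV (tw (Bxw_cut b N) χ.primitiveCharacter) J k ≤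
      (1 + Real.log D) ^ 2 * ((1 / (E : ℝ)) *
        (20 * (8 * (M : ℝ) ^ 2 * N + (2 * (E : ℝ)) ^ 2) *
        ((2 * L) ^ 6 * (8 * (M : ℝ) ^ 2 * N *
          (1 + Real.log (8 * (M : ℝ) ^ 2 * N)) ^ 1024)))) := by
  have e1 := Bxw_prim h1 D E S X
    (fun e χ => (VV (tw (Bxw_cut a M) χ) J j) ^ 2 * VV (tw (Bxw_cut b N) χ) J k)
    (fun e χ => mul_nonneg (sq_nonneg _) (Bxw_VV _ _ _)) hD hS hE hX
  refine e1.trans ?_
  refine mul_le_mul_of_nonneg_left ?_ (sq_nonneg _)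
  refine mul_le_mul_of_nonneg_left ?_ (by positivity)
  have hcut : ∀ (a : ℕ → ℂ) (M : ℕ), 1 ≤ M →
      (∀ m ∈ Ico M (2 * M), ‖a m‖ ≤ 2 * L * (m.divisors.card : ℝ)) →
      (∀ m, Bxw_cut a M m ≠ 0 → 1 ≤ m ∧ m ≤ 2 * M) ∧
      ∀ m, ‖Bxw_cut a M m‖ ≤ 2 * L * (m.divisors.card : ℝ) := by
    intro a M hM ha
    refine ⟨fun m hm => ?_, fun m => ?_⟩
    · have h : m ∈ Ico M (2 * M) := by
        by_contra h
        exact hm (if_neg h)
      rw [mem_Ico] at h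
      omega
    · unfold Bxw_cut
      split_ifs with h
      · exact ha m h
      · rw [norm_zero]
        positivity
  have e2 := h3 (2 * E) J j k M N (Bxw_cut a M) (Bxw_cut b N) (2 * L) (by omega) hM hN
    (by positivity) (hcut a M hM ha).1 (hcut b N hN hb).1 (hcut a M hM ha).2 (hcut b N hN hb).2
  push_cast at e2
  exact e2

/-- The inequality for one pair of levels. -/
private theorem Bxw_pair (h1 : TrsStmt) (h3 : CubStmt) (h4 : HlwStmt) (D E M N J j k : ℕ)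
    (L R : ℝ) (S : Finset ℕ)
    (X : (d : ℕ) → Finset (DirichletCharacter ℂ d)) (a b : ℕ → ℂ)
    (f : (d : ℕ) → DirichletCharacter ℂ d → ℝ) (hD : 1 ≤ D)
    (hS : S ⊆ Icc 1 D) (hE : 1 ≤ E) (hM : 1 ≤ M) (hN : 1 ≤ N) (hL : 0 ≤ L) (hR : 0 ≤ R)
    (ha : ∀ m ∈ Ico M (2 * M), ‖a m‖ ≤ 2 * L * (m.divisors.card : ℝ))
    (hb : ∀ n ∈ Ico N (2 * N), ‖b n‖ ≤ 2 * L * (n.divisors.card : ℝ))
    (hf : ∀ d χ, 0 ≤ f d χ)
    (hX : ∀ d ∈ S, ∀ χ ∈ X d, E < χ.conductor ∧ χ.conductor ≤ 2 * E)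
    (hfR : ∀ d ∈ S, (∑ χ ∈ X d, f d χ ^ 2) ^ 3 * ((X d).card : ℝ) ≤ R) :
    (∑ d ∈ S, (1 / (d.totient : ℝ)) * ∑ χ ∈ X d, f d χ *
        (Real.sqrt (VV (tw (Bxw_cut a M) χ.primitiveCharacter) J k) *
          Real.sqrt (VV (tw (Bxw_cut b N) χ.primitiveCharacter) J j))) ^ 6 ≤
      R * ((1 + Real.log D) ^ 2) ^ 4 * (((1 + Real.log D) ^ 2 * ((1 / (E : ℝ)) *
        (20 * (8 * (M : ℝ) ^ 2 * N + (2 * (E : ℝ)) ^ 2) *
        ((2 * L) ^ 6 * (8 * (M : ℝ) ^ 2 * N *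
          (1 + Real.log (8 * (M : ℝ) ^ 2 * N)) ^ 1024))))) *
        ((1 + Real.log D) ^ 2 * ((1 / (E : ℝ)) *
        (20 * (8 * (N : ℝ) ^ 2 * M + (2 * (E : ℝ)) ^ 2) *
        ((2 * L) ^ 6 * (8 * (N : ℝ) ^ 2 * M *
          (1 + Real.log (8 * (N : ℝ) ^ 2 * M)) ^ 1024)))))) := by
  have hu : ∀ (d : ℕ) (χ : DirichletCharacter ℂ d),
      0 ≤ VV (tw (Bxw_cut a M) χ.primitiveCharacter) J k := fun d χ => Bxw_VV _ _ _
  have hv : ∀ (d : ℕ) (χ : DirichletCharacter ℂ d),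
      0 ≤ VV (tw (Bxw_cut b N) χ.primitiveCharacter) J j := fun d χ => Bxw_VV _ _ _
  have hA0 : ∀ d : ℕ, 0 ≤ ∑ χ ∈ X d, (VV (tw (Bxw_cut a M) χ.primitiveCharacter) J k) ^ 2 *
      VV (tw (Bxw_cut b N) χ.primitiveCharacter) J j := fun d =>
    sum_nonneg fun χ _ => mul_nonneg (sq_nonneg _) (hv d χ)
  have hB0 : ∀ d : ℕ, 0 ≤ ∑ χ ∈ X d, (VV (tw (Bxw_cut b N) χ.primitiveCharacter) J j) ^ 2 *
      VV (tw (Bxw_cut a M) χ.primitiveCharacter) J k := fun d =>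
    sum_nonneg fun χ _ => mul_nonneg (sq_nonneg _) (hu d χ)
  have e1 := h4.2 ℕ S (fun d => 1 / (d.totient : ℝ))
    (fun d => ∑ χ ∈ X d, f d χ *
        (Real.sqrt (VV (tw (Bxw_cut a M) χ.primitiveCharacter) J k) *
          Real.sqrt (VV (tw (Bxw_cut b N) χ.primitiveCharacter) J j)))
    (fun d => ∑ χ ∈ X d, (VV (tw (Bxw_cut a M) χ.primitiveCharacter) J k) ^ 2 *
      VV (tw (Bxw_cut b N) χ.primitiveCharacter) J j)
    (fun d => ∑ χ ∈ X d, (VV (tw (Bxw_cut b N) χ.primitiveCharacter) J j) ^ 2 *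
      VV (tw (Bxw_cut a M) χ.primitiveCharacter) J k) R hR
    (fun d _ => by positivity)
    (fun d _ => sum_nonneg fun χ _ => mul_nonneg (hf d χ)
      (mul_nonneg (Real.sqrt_nonneg _) (Real.sqrt_nonneg _)))
    (fun d _ => hA0 d) (fun d _ => hB0 d)
    (fun d hd => by
      refine (h4.1 (DirichletCharacter ℂ d) (X d) (f d)
        (fun χ => VV (tw (Bxw_cut a M) χ.primitiveCharacter) J k)
        (fun χ => VV (tw (Bxw_cut b N) χ.primitiveCharacter) J j)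
        (fun χ _ => hf d χ) (fun χ _ => hu d χ) (fun χ _ => hv d χ)).trans ?_
      exact mul_le_mul_of_nonneg_right (hfR d hd) (mul_nonneg (hA0 d) (hB0 d)))
  refine e1.trans ?_
  have w1 : ∑ d ∈ S, (1 / (d.totient : ℝ)) ≤ (1 + Real.log D) ^ 2 :=
    (sum_le_sum_of_subset_of_nonneg hS fun d _ _ => by positivity).trans (tTot.1 D hD)
  have w0 : (0 : ℝ) ≤ ∑ d ∈ S, (1 / (d.totient : ℝ)) := sum_nonneg fun d _ => by positivity
  have c1 := Bxw_cub h1 h3 D E M N J k j L S X a b hD hS hE hM hN hL ha hb hX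
  have c2 := Bxw_cub h1 h3 D E N M J j k L S X b a hD hS hE hN hM hL hb ha hX
  have c10 : 0 ≤ ∑ d ∈ S, (1 / (d.totient : ℝ)) * ∑ χ ∈ X d,
      (VV (tw (Bxw_cut a M) χ.primitiveCharacter) J k) ^ 2 *
      VV (tw (Bxw_cut b N) χ.primitiveCharacter) J j :=
    sum_nonneg fun d _ => mul_nonneg (by positivity) (hA0 d)
  have c20 : 0 ≤ ∑ d ∈ S, (1 / (d.totient : ℝ)) * ∑ χ ∈ X d,
      (VV (tw (Bxw_cut b N) χ.primitiveCharacter) J j) ^ 2 *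
      VV (tw (Bxw_cut a M) χ.primitiveCharacter) J k :=
    sum_nonneg fun d _ => mul_nonneg (by positivity) (hB0 d)
  refine mul_le_mul (mul_le_mul_of_nonneg_left (pow_le_pow_left₀ w0 w1 4) hR)
    (mul_le_mul c1 c2 c20 (c10.trans c1)) (mul_nonneg c10 c20)
    (mul_nonneg hR (by positivity))

/-- The computation. -/
private theorem Bxw_num (A L R x m n e P U V G : ℝ) (hL : 1 ≤ L) (hR : 0 ≤ R)
    (hx : 3 ≤ x) (hm : 0 ≤ m) (hn : 0 ≤ n) (he : 0 < e) (hP : 0 ≤ P) (hA : 0 < A)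
    (hmx : m ≤ x ^ ((4 : ℝ) / 5)) (hnx : n ≤ x ^ ((4 : ℝ) / 5)) (hmn : m * n ≤ x)
    (hU0 : 0 ≤ U) (hV0 : 0 ≤ V)
    (hU : U ≤ P * L ^ 1024) (hV : V ≤ P * L ^ 1024)
    (hG : G = x ^ 3 / e ^ 2 + x ^ ((9 : ℝ) / 5) + e ^ 2) (W : ℝ) (hW0 : 0 ≤ W)
    (hW : W ≤ (1 + A) * L) :
    R * (W ^ 2) ^ 4 * ((W ^ 2 * ((1 / e) * (20 * (8 * m ^ 2 * n + (2 * e) ^ 2) *
        ((2 * L) ^ 6 * (8 * m ^ 2 * n * U))))) *
      (W ^ 2 * ((1 / e) * (20 * (8 * n ^ 2 * m + (2 * e) ^ 2) *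
        ((2 * L) ^ 6 * (8 * n ^ 2 * m * V)))))) ≤
    (400 * 4096 * 4096 * (1 + A) ^ 12 * P ^ 2) * (L ^ 2072 * (R * x ^ 3 * G)) := by
  have hx0 : 0 < x := by linarith
  have hL0 : 0 < L := by linarith
  have e1 : R * (W ^ 2) ^ 4 * ((W ^ 2 * ((1 / e) * (20 * (8 * m ^ 2 * n + (2 * e) ^ 2) *
        ((2 * L) ^ 6 * (8 * m ^ 2 * n * U))))) *
      (W ^ 2 * ((1 / e) * (20 * (8 * n ^ 2 * m + (2 * e) ^ 2) *
        ((2 * L) ^ 6 * (8 * n ^ 2 * m * V)))))) =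
      400 * 4096 * 64 * (R * W ^ 12 * L ^ 12 * (m * n) ^ 3 *
        ((64 * (m * n) ^ 3 + 32 * e ^ 2 * (m * n * (m + n)) + 16 * e ^ 4) / e ^ 2) * (U * V)) := by
    field_simp
    ring
  rw [e1]
  have q0 : x ^ ((9 : ℝ) / 5) = x * x ^ ((4 : ℝ) / 5) := by
    rw [show (9 : ℝ) / 5 = 1 + 4 / 5 by norm_num, Real.rpow_add hx0, Real.rpow_one]
  have q1 : m * n * (m + n) ≤ 2 * x ^ ((9 : ℝ) / 5) := by
    have : m * n * (m + n) ≤ x * (x ^ ((4 : ℝ) / 5) + x ^ ((4 : ℝ) / 5)) :=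
      mul_le_mul hmn (add_le_add hmx hnx) (by positivity) hx0.le
    rw [q0]
    linarith
  have q2 : (m * n) ^ 3 ≤ x ^ 3 := pow_le_pow_left₀ (by positivity) hmn 3
  have q3 : (64 * (m * n) ^ 3 + 32 * e ^ 2 * (m * n * (m + n)) + 16 * e ^ 4) / e ^ 2 ≤ 64 * G := by
    rw [div_le_iff₀ (by positivity), hG]
    have s1 : 64 * (x ^ 3 / e ^ 2 + x ^ ((9 : ℝ) / 5) + e ^ 2) * e ^ 2 =
        64 * x ^ 3 + 64 * (e ^ 2 * x ^ ((9 : ℝ) / 5)) + 64 * e ^ 4 := by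
      field_simp
    rw [s1]
    have s2 : e ^ 2 * (m * n * (m + n)) ≤ e ^ 2 * (2 * x ^ ((9 : ℝ) / 5)) :=
      mul_le_mul_of_nonneg_left q1 (by positivity)
    have s3 : 0 ≤ e ^ 4 := by positivity
    nlinarith
  have q4 : W ^ 12 ≤ (1 + A) ^ 12 * L ^ 12 := by
    rw [← mul_pow]
    exact pow_le_pow_left₀ hW0 hW 12
  have q5 : U * V ≤ P ^ 2 * L ^ 2048 := by
    have : U * V ≤ (P * L ^ 1024) * (P * L ^ 1024) := mul_le_mul hU hV hV0 (by positivity)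
    refine this.trans (le_of_eq ?_)
    rw [show (2048 : ℕ) = 1024 + 1024 by norm_num, pow_add]
    ring
  have hG0 : 0 ≤ G := by
    rw [hG]
    positivity
  have q6 : R * W ^ 12 * L ^ 12 * (m * n) ^ 3 *
        ((64 * (m * n) ^ 3 + 32 * e ^ 2 * (m * n * (m + n)) + 16 * e ^ 4) / e ^ 2) * (U * V) ≤
      R * ((1 + A) ^ 12 * L ^ 12) * L ^ 12 * x ^ 3 * (64 * G) * (P ^ 2 * L ^ 2048) := by
    refine mul_le_mul ?_ q5 (mul_nonneg hU0 hV0) (by positivity)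
    refine mul_le_mul ?_ q3 (by positivity) (by positivity)
    refine mul_le_mul ?_ q2 (by positivity) (by positivity)
    refine mul_le_mul_of_nonneg_right ?_ (by positivity)
    exact mul_le_mul_of_nonneg_left q4 hR
  refine (mul_le_mul_of_nonneg_left q6 (by norm_num)).trans (le_of_eq ?_)
  rw [show (2072 : ℕ) = 12 + 12 + 2048 by norm_num, pow_add, pow_add]
  ring

/-- The sixth root. -/
private theorem Bxw_root (T K L R x G : ℝ) (hT : 0 ≤ T) (hK : 1 ≤ K) (hL : 1 ≤ L) (hR : 0 ≤ R)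
    (hx : 0 < x) (hG : 0 ≤ G) (h : T ^ 6 ≤ K * (L ^ 2072 * (R * x ^ 3 * G))) :
    T ≤ K * (L ^ 346 * (R ^ ((1 : ℝ) / 6) * x ^ ((1 : ℝ) / 2) * G ^ ((1 : ℝ) / 6))) := by
  have hL0 : 0 < L := by linarith
  have hK0 : 0 < K := by linarith
  have r1 : ∀ z : ℝ, 0 ≤ z → (z ^ ((1 : ℝ) / 6)) ^ 6 = z := by
    intro z hz
    rw [← Real.rpow_natCast, ← Real.rpow_mul hz]
    norm_num
  have r2 : (x ^ ((1 : ℝ) / 2)) ^ 6 = x ^ 3 := by
    rw [← Real.rpow_natCast, ← Real.rpow_mul hx.le, ← Real.rpow_natCast]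
    norm_num
  have z0 : 0 ≤ K * (L ^ 346 * (R ^ ((1 : ℝ) / 6) * x ^ ((1 : ℝ) / 2) * G ^ ((1 : ℝ) / 6))) :=
    mul_nonneg hK0.le (mul_nonneg (pow_nonneg hL0.le _) (by positivity))
  rw [← pow_le_pow_iff_left₀ hT z0 (by norm_num : (6 : ℕ) ≠ 0)]
  refine h.trans ?_
  have e1 : (K * (L ^ 346 * (R ^ ((1 : ℝ) / 6) * x ^ ((1 : ℝ) / 2) * G ^ ((1 : ℝ) / 6)))) ^ 6 =
      K ^ 6 * (L ^ 2076 * (R * x ^ 3 * G)) := by
    rw [mul_pow, mul_pow, mul_pow, mul_pow, r1 R hR, r1 G hG, r2, ← pow_mul]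
  rw [e1]
  have e2 : K ≤ K ^ 6 := by
    calc K = K ^ 1 := (pow_one K).symm
      _ ≤ K ^ 6 := pow_le_pow_right₀ hK (by norm_num)
  have e3 : L ^ 2072 ≤ L ^ 2076 := pow_le_pow_right₀ hL (by norm_num)
  have e4 : 0 ≤ R * x ^ 3 * G := by positivity
  exact mul_le_mul e2 (mul_le_mul_of_nonneg_right e3 e4) (mul_nonneg (pow_nonneg hL0.le _) e4)
    (pow_nonneg hK0.le _)

/-- The logarithm of the length. -/
private theorem Bxw_len {x m n : ℝ} (hx : 3 ≤ x) (hm : 1 ≤ m) (hn : 1 ≤ n) (hmn : m * n ≤ x) :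
    0 ≤ 1 + Real.log (8 * m ^ 2 * n) ∧ 1 + Real.log (8 * m ^ 2 * n) ≤ 6 * Real.log x := by
  have hL := Bxw_log hx
  have hx0 : 0 < x := by linarith
  have hmx : m ≤ x := by nlinarith
  have h1 : 1 ≤ 8 * m ^ 2 * n := by
    have : 1 ≤ m ^ 2 := one_le_pow₀ hm
    nlinarith
  have h2 : 8 * m ^ 2 * n ≤ 8 * x ^ 2 := by
    have : m * (m * n) ≤ x * x := mul_le_mul hmx hmn (by positivity) hx0.le
    nlinarith
  have h3 := Real.log_le_log (by linarith) h2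
  rw [Real.log_mul (x := 8) (y := x ^ 2) (by norm_num) (pow_pos hx0 2).ne', Real.log_pow] at h3
  have h4 : Real.log 8 ≤ 2.1 := by
    have h5 : (8 : ℝ) = 2 ^ 3 := by norm_num
    rw [h5, Real.log_pow]
    have := Real.log_two_lt_d9
    push_cast
    linarith
  push_cast at h3
  have h6 := Real.log_nonneg h1
  exact ⟨by linarith, by linarith⟩

theorem tBxw (h1 : TrsStmt) (h2 : SepStmt) (h3 : CubStmt) (h4 : HlwStmt) : BxwStmt := by
  intro A hA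
  obtain ⟨P, hP⟩ : ∃ P : ℝ, P = (6 : ℝ) ^ 1024 := ⟨_, rfl⟩
  have hP1 : 1 ≤ P := by
    rw [hP]
    exact one_le_pow₀ (by norm_num)
  have hP0 : 0 ≤ P := zero_le_one.trans hP1
  have hK1 : 1 ≤ 400 * 4096 * 4096 * (1 + A) ^ 12 * P ^ 2 := by
    have a1 : 1 ≤ (1 + A) ^ 12 := one_le_pow₀ (by linarith)
    have a2 : 1 ≤ P ^ 2 := one_le_pow₀ hP1
    have a3 : (1 : ℝ) ≤ 400 * 4096 * 4096 := by norm_num
    exact one_le_mul_of_one_le_of_one_le (one_le_mul_of_one_le_of_one_le a3 a1) a2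
  refine ⟨((348 : ℕ) : ℝ), 72 * (400 * 4096 * 4096 * (1 + A) ^ 12 * P ^ 2), by norm_num,
    mul_pos (by norm_num) (lt_of_lt_of_le one_pos hK1), ?_⟩
  intro x R E M N S X Y a b f hx hR hE hM hN hMx hNx hMN ha hb hf hS hX hfR
  have hL1 := Bxw_log hx
  obtain ⟨J, hJ1, hJ2⟩ := Bxw_J hx
  set L := Real.log x with hL
  set K := 400 * 4096 * 4096 * (1 + A) ^ 12 * P ^ 2 with hK
  have hL0 : 0 < L := by linarith
  have hx0 : 0 < x := by linarith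
  have hE0 : (0 : ℝ) < E := by exact_mod_cast hE
  have hM1 : (1 : ℝ) ≤ M := by exact_mod_cast hM
  have hN1 : (1 : ℝ) ≤ N := by exact_mod_cast hN
  have hMx' : (M : ℝ) ≤ x := by nlinarith
  have hNx' : (N : ℝ) ≤ x := by nlinarith
  have hMJ := hJ1 M hMx'
  have hNJ := hJ1 N hNx'
  have hD1 : 1 ≤ ⌊x ^ A⌋₊ := by
    rw [Nat.one_le_floor_iff]
    exact Real.one_le_rpow (by linarith) hA.le
  have hSD : S ⊆ Icc 1 ⌊x ^ A⌋₊ := by
    intro d hd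
    rw [mem_Icc]
    exact ⟨(hS d hd).1, Nat.le_floor (hS d hd).2⟩
  have hlogD : 1 + Real.log (⌊x ^ A⌋₊ : ℝ) ≤ (1 + A) * L := by
    have a1 : Real.log (⌊x ^ A⌋₊ : ℝ) ≤ Real.log (x ^ A) :=
      Real.log_le_log (by exact_mod_cast hD1) (Nat.floor_le (by positivity))
    rw [Real.log_rpow hx0] at a1
    rw [← hL] at a1
    nlinarith
  have hlogD0 : 0 ≤ 1 + Real.log (⌊x ^ A⌋₊ : ℝ) := by
    have := Real.log_nonneg (by exact_mod_cast hD1 : (1 : ℝ) ≤ (⌊x ^ A⌋₊ : ℝ))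
    linarith
  obtain ⟨G, hG⟩ : ∃ G : ℝ, G = x ^ 3 / (E : ℝ) ^ 2 + x ^ ((9 : ℝ) / 5) + (E : ℝ) ^ 2 := ⟨_, rfl⟩
  have hG0 : 0 ≤ G := by
    rw [hG]
    positivity
  -- one pair of levels
  have hpair : ∀ j k : ℕ, ∑ d ∈ S, (1 / (d.totient : ℝ)) * ∑ χ ∈ X d, f d χ *
        (Real.sqrt (VV (tw (Bxw_cut a M) χ.primitiveCharacter) J k) *
          Real.sqrt (VV (tw (Bxw_cut b N) χ.primitiveCharacter) J j)) ≤
      K * (L ^ 346 * (R ^ ((1 : ℝ) / 6) * x ^ ((1 : ℝ) / 2) * G ^ ((1 : ℝ) / 6))) := by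
    intro j k
    refine Bxw_root _ K L R x G ?_ hK1 hL1 hR hx0 hG0 ?_
    · exact sum_nonneg fun d _ => mul_nonneg (by positivity) (sum_nonneg fun χ _ =>
        mul_nonneg (hf d χ) (mul_nonneg (Real.sqrt_nonneg _) (Real.sqrt_nonneg _)))
    · refine (Bxw_pair h1 h3 h4 ⌊x ^ A⌋₊ E M N J j k L R S X a b f hD1 hSD hE hM hN hL0.le hR
        ha hb hf hX hfR).trans ?_
      obtain ⟨u1, u2⟩ := Bxw_len hx hM1 hN1 hMN
      obtain ⟨v1, v2⟩ := Bxw_len hx hN1 hM1 (by rw [mul_comm]; exact hMN)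
      refine Bxw_num A L R x M N E P _ _ G hL1 hR hx (by positivity) (by positivity) hE0 hP0 hA
        hMx hNx hMN (pow_nonneg u1 _) (pow_nonneg v1 _) ?_ ?_ hG _ hlogD0 hlogD
      · rw [hP, ← mul_pow]
        exact pow_le_pow_left₀ u1 u2 _
      · rw [hP, ← mul_pow]
        exact pow_le_pow_left₀ v1 v2 _
  -- separation of the variables
  have hsep : ∀ (d : ℕ) (χ : DirichletCharacter ℂ d),
      ‖BL a b M N (Y d) χ.primitiveCharacter‖ ≤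
      2 * ∑ j ∈ range (J + 1), ∑ k ∈ range (J + 1),
        (Real.sqrt (VV (tw (Bxw_cut a M) χ.primitiveCharacter) J k) *
          Real.sqrt (VV (tw (Bxw_cut b N) χ.primitiveCharacter) J j)) := by
    intro d χ
    rw [Bxw_BL a b M N (Y d) J χ.primitiveCharacter hM hN hMJ hNJ]
    exact h2 J (Y d) (tw (Bxw_cut a M) χ.primitiveCharacter) (tw (Bxw_cut b N) χ.primitiveCharacter)
  have hsum : ∑ d ∈ S, (1 / (d.totient : ℝ)) *
      ∑ χ ∈ X d, f d χ * ‖BL a b M N (Y d) χ.primitiveCharacter‖ ≤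
      2 * ∑ j ∈ range (J + 1), ∑ k ∈ range (J + 1),
        ∑ d ∈ S, (1 / (d.totient : ℝ)) * ∑ χ ∈ X d, f d χ *
        (Real.sqrt (VV (tw (Bxw_cut a M) χ.primitiveCharacter) J k) *
          Real.sqrt (VV (tw (Bxw_cut b N) χ.primitiveCharacter) J j)) := by
    have a1 : ∑ d ∈ S, (1 / (d.totient : ℝ)) *
      ∑ χ ∈ X d, f d χ * ‖BL a b M N (Y d) χ.primitiveCharacter‖ ≤
      ∑ d ∈ S, ∑ j ∈ range (J + 1), ∑ k ∈ range (J + 1),
        2 * ((1 / (d.totient : ℝ)) * ∑ χ ∈ X d, f d χ *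
        (Real.sqrt (VV (tw (Bxw_cut a M) χ.primitiveCharacter) J k) *
          Real.sqrt (VV (tw (Bxw_cut b N) χ.primitiveCharacter) J j))) := by
      refine sum_le_sum fun d _ => ?_
      have b1 : ∑ χ ∈ X d, f d χ * ‖BL a b M N (Y d) χ.primitiveCharacter‖ ≤
          ∑ χ ∈ X d, f d χ * (2 * ∑ j ∈ range (J + 1), ∑ k ∈ range (J + 1),
        (Real.sqrt (VV (tw (Bxw_cut a M) χ.primitiveCharacter) J k) *
          Real.sqrt (VV (tw (Bxw_cut b N) χ.primitiveCharacter) J j))) :=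
        sum_le_sum fun χ _ => mul_le_mul_of_nonneg_left (hsep d χ) (hf d χ)
      refine (mul_le_mul_of_nonneg_left b1 (by positivity)).trans (le_of_eq ?_)
      simp only [mul_sum]
      rw [sum_comm]
      refine sum_congr rfl fun j _ => ?_
      rw [sum_comm]
      refine sum_congr rfl fun k _ => ?_
      refine sum_congr rfl fun χ _ => ?_
      ring
    refine a1.trans (le_of_eq ?_)
    rw [sum_comm]
    simp only [mul_sum]
    refine sum_congr rfl fun j _ => ?_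
    rw [sum_comm]
  refine hsum.trans ?_
  have hcount : ∑ j ∈ range (J + 1), ∑ k ∈ range (J + 1),
        ∑ d ∈ S, (1 / (d.totient : ℝ)) * ∑ χ ∈ X d, f d χ *
        (Real.sqrt (VV (tw (Bxw_cut a M) χ.primitiveCharacter) J k) *
          Real.sqrt (VV (tw (Bxw_cut b N) χ.primitiveCharacter) J j)) ≤
      ((J : ℝ) + 1) ^ 2 *
        (K * (L ^ 346 * (R ^ ((1 : ℝ) / 6) * x ^ ((1 : ℝ) / 2) * G ^ ((1 : ℝ) / 6)))) := by
    refine (sum_le_sum fun j _ => sum_le_sum fun k _ => hpair j k).trans (le_of_eq ?_)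
    rw [sum_const, sum_const, card_range, nsmul_eq_mul, nsmul_eq_mul]
    push_cast
    ring
  have hJ3 : ((J : ℝ) + 1) ^ 2 ≤ 36 * L ^ 2 := by
    have := pow_le_pow_left₀ (by positivity) hJ2 2
    rw [mul_pow] at this
    norm_num at this ⊢
    exact this
  have hZ0 : 0 ≤ K * (L ^ 346 * (R ^ ((1 : ℝ) / 6) * x ^ ((1 : ℝ) / 2) * G ^ ((1 : ℝ) / 6))) := by
    exact mul_nonneg (zero_le_one.trans hK1) (mul_nonneg (pow_nonneg hL0.le _) (by positivity))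
  have hfin : 2 * ∑ j ∈ range (J + 1), ∑ k ∈ range (J + 1),
        ∑ d ∈ S, (1 / (d.totient : ℝ)) * ∑ χ ∈ X d, f d χ *
        (Real.sqrt (VV (tw (Bxw_cut a M) χ.primitiveCharacter) J k) *
          Real.sqrt (VV (tw (Bxw_cut b N) χ.primitiveCharacter) J j)) ≤
      2 * (36 * L ^ 2 *
        (K * (L ^ 346 * (R ^ ((1 : ℝ) / 6) * x ^ ((1 : ℝ) / 2) * G ^ ((1 : ℝ) / 6))))) :=
    mul_le_mul_of_nonneg_left (hcount.trans (mul_le_mul_of_nonneg_right hJ3 hZ0)) (by norm_num)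
  refine hfin.trans (le_of_eq ?_)
  rw [Real.rpow_natCast, ← hG, show (348 : ℕ) = 2 + 346 by norm_num, pow_add]
  ring

end Pool.Agent.Lib.CO
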