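import Pool.Agent.Lib.CO.Spec

/-! MP_00e23e_nt, Lib/CO: chaining over dyadic blocks. -/

namespace Pool.Agent.Lib.CO

open Finset Pool.Agent.Lib.BV Pool.Agent.Results.MP_00e23e_nt

private lemma Chn_split {q : ℕ} (χ : DirichletCharacter ℂ q) {m n : ℕ} (h : m ≤ n) :
    PC χ n = PC χ m + ∑ p ∈ (Ioc m n).filter Nat.Prime, χ (p : ZMod q) := by
  have e : ∀ Y : ℕ, PC χ Y = ∑ p ∈ Ioc 0 Y, if Nat.Prime p then χ (p : ZMod q) else 0 := by
    intro Y
    have h1 : Icc 1 Y = Ioc 0 Y := by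
      ext x
      simp only [mem_Icc, mem_Ioc]
      omega
    rw [PC, sum_filter, h1]
  rw [e, e, sum_filter, sum_Ioc_consecutive _ (Nat.zero_le m) h]

private lemma Chn_step {q : ℕ} (χ : DirichletCharacter ℂ q) (J Y j : ℕ) (hY : Y < 2 ^ J) (hj : j < J) :
    ∃ i ∈ range (2 ^ (J - j)), ‖PC χ (Y / 2 ^ j * 2 ^ j) - PC χ (Y / 2 ^ (j + 1) * 2 ^ (j + 1))‖ ≤
      ‖PB χ j i‖ := by
  have hpos : 0 < 2 ^ j := Nat.two_pow_pos j
  have hd : Y / 2 ^ (j + 1) = Y / 2 ^ j / 2 := by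
    rw [pow_succ, Nat.div_div_eq_div_mul]
  have h2 : Y / 2 ^ (j + 1) * 2 ^ (j + 1) = (2 * (Y / 2 ^ j / 2)) * 2 ^ j := by
    rw [hd, pow_succ]
    ring
  rcases Nat.mod_two_eq_zero_or_one (Y / 2 ^ j) with h0 | h1
  · refine ⟨0, mem_range.2 (Nat.two_pow_pos _), ?_⟩
    have h3 : 2 * (Y / 2 ^ j / 2) = Y / 2 ^ j := by omega
    rw [h2, h3, sub_self, norm_zero]
    exact norm_nonneg _
  · have h3 : Y / 2 ^ j = 2 * (Y / 2 ^ j / 2) + 1 := by omega
    refine ⟨2 * (Y / 2 ^ j / 2), ?_, ?_⟩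
    · rw [mem_range]
      have h4 : Y / 2 ^ j < 2 ^ (J - j) := by
        rw [Nat.div_lt_iff_lt_mul hpos, ← pow_add, Nat.sub_add_cancel hj.le]
        exact hY
      omega
    · rw [h2]
      have h5 : (2 * (Y / 2 ^ j / 2)) * 2 ^ j ≤ Y / 2 ^ j * 2 ^ j := Nat.mul_le_mul_right _ (by omega)
      rw [Chn_split χ h5, add_sub_cancel_left, PB, ← h3]

theorem tChn : ChnStmt := by
  intro q χ J k Y hk hY
  rcases Nat.eq_zero_or_pos J with hJ | hJ
  · subst hJ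
    have h1 : Y = 0 := by simpa using hY
    subst h1
    have h2 : PC χ 0 = 0 := by simp [PC]
    rw [h2, norm_zero, zero_pow (by omega), ZZ]
    simp
  · have hst := fun j (hj : j < J) => Chn_step χ J Y j hY hj
    classical
    have hst' : ∀ j : ℕ, ∃ i, j < J → i ∈ range (2 ^ (J - j)) ∧
        ‖PC χ (Y / 2 ^ j * 2 ^ j) - PC χ (Y / 2 ^ (j + 1) * 2 ^ (j + 1))‖ ≤ ‖PB χ j i‖ := by
      intro j
      by_cases hj : j < J
      · obtain ⟨i, hi, h⟩ := hst j hj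
        exact ⟨i, fun _ => ⟨hi, h⟩⟩
      · exact ⟨0, fun h => absurd h hj⟩
    choose i hi using hst'
    have htel : PC χ Y = ∑ j ∈ range J,
        (PC χ (Y / 2 ^ j * 2 ^ j) - PC χ (Y / 2 ^ (j + 1) * 2 ^ (j + 1))) := by
      rw [sum_range_sub' (fun j => PC χ (Y / 2 ^ j * 2 ^ j)) J]
      have h1 : Y / 2 ^ J = 0 := Nat.div_eq_of_lt hY
      have h2 : PC χ 0 = 0 := by simp [PC]
      rw [h1, Nat.zero_mul, h2, sub_zero, pow_zero, Nat.div_one, Nat.mul_one]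
    have hle : ‖PC χ Y‖ ≤ ∑ j ∈ range J, ‖PB χ j (i j)‖ := by
      rw [htel]
      refine (norm_sum_le _ _).trans (sum_le_sum fun j hj => ?_)
      exact (hi j (mem_range.1 hj)).2
    have hJ' : (0 : ℝ) < J := by exact_mod_cast hJ
    obtain ⟨n, hn⟩ : ∃ n, 2 * k = n + 1 := ⟨2 * k - 1, by omega⟩
    have hpm := pow_sum_div_card_le_sum_pow (s := range J) (f := fun j => ‖PB χ j (i j)‖)
      (fun _ _ => norm_nonneg _) n
    rw [card_range, div_le_iff₀ (pow_pos hJ' n)] at hpm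
    have hn' : 2 * k - 1 = n := by omega
    rw [hn', hn]
    calc ‖PC χ Y‖ ^ (n + 1) ≤ (∑ j ∈ range J, ‖PB χ j (i j)‖) ^ (n + 1) :=
          pow_le_pow_left₀ (norm_nonneg _) hle _
      _ ≤ (∑ j ∈ range J, ‖PB χ j (i j)‖ ^ (n + 1)) * (J : ℝ) ^ n := hpm
      _ ≤ ZZ J k χ * (J : ℝ) ^ n := by
          refine mul_le_mul_of_nonneg_right ?_ (pow_nonneg hJ'.le n)
          rw [ZZ]
          refine sum_le_sum fun j hj => ?_
          rw [← hn]
          exact single_le_sum (f := fun i => ‖PB χ j i‖ ^ (2 * k))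
            (fun _ _ => pow_nonneg (norm_nonneg _) _) (hi j (mem_range.1 hj)).1
      _ = (J : ℝ) ^ n * ZZ J k χ := mul_comm _ _

end Pool.Agent.Lib.CO
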