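import Pool.Agent.Lib.CO.Spec
import Pool.Agent.Lib.EH.Basic

namespace Pool.Agent.Lib.CO

open Finset Pool.Agent.Lib.BV Pool.Agent.Results.MP_00e23e_nt

/-- a representative in [1, e] -/
private noncomputable def Cls_rep (e : ℕ) (u : (ZMod e)ˣ) : ℕ :=
  if (u : ZMod e).val = 0 then e else (u : ZMod e).val

private theorem Cls_rep_spec (e : ℕ) (he : 1 ≤ e) (u : (ZMod e)ˣ) :
    1 ≤ Cls_rep e u ∧ Cls_rep e u ≤ e ∧ (Cls_rep e u).Coprime e ∧ ((Cls_rep e u : ℕ) : ZMod e) = u := by
  have : NeZero e := ⟨by omega⟩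
  have hc := ZMod.val_coe_unit_coprime u
  unfold Cls_rep
  by_cases h : (u : ZMod e).val = 0
  · rw [if_pos h]
    rw [h, Nat.coprime_zero_left] at hc
    refine ⟨he, le_rfl, by rw [hc]; decide, ?_⟩
    rw [ZMod.natCast_self]
    exact ((ZMod.val_eq_zero _).1 h).symm
  · rw [if_neg h]
    exact ⟨Nat.one_le_iff_ne_zero.2 h, (ZMod.val_lt _).le, hc, ZMod.natCast_zmod_val _⟩

theorem tCls : ClsStmt := by
  classical
  intro y e K l he
  have : NeZero e := ⟨by omega⟩
  set T : Finset (ZMod e)ˣ := univ.filter (fun h => h ∈ K) with hT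
  have hcard : Nat.card K = T.card := by
    rw [Nat.card_eq_fintype_card, Fintype.card_subtype]
  have hpos : 0 < T.card := Finset.card_pos.2 ⟨1, by rw [hT, mem_filter]; exact ⟨mem_univ _, K.one_mem⟩⟩
  have hcount : cosetCount y e K l = ∑ h ∈ T, primeCount y e (Cls_rep e (l * h)) := by
    unfold cosetCount primeCount
    rw [← Finset.card_biUnion]
    · refine congrArg Finset.card ?_
      ext p
      simp only [mem_filter, mem_biUnion, hT, mem_univ, true_and]
      constructor
      · rintro ⟨h1, h2, h, h3, h4⟩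
        refine ⟨h, h3, h1, h2, ?_⟩
        rw [← ZMod.natCast_eq_natCast_iff, (Cls_rep_spec e he (l * h)).2.2.2]
        exact h4
      · rintro ⟨h, h3, h1, h2, h4⟩
        refine ⟨h1, h2, h, h3, ?_⟩
        rw [← ZMod.natCast_eq_natCast_iff, (Cls_rep_spec e he (l * h)).2.2.2] at h4
        exact h4
    · intro h _ h' _ hne
      rw [Function.onFun, Finset.disjoint_left]
      intro p hp hp'
      rw [mem_filter] at hp hp'
      have h1 := hp.2.2
      have h2 := hp'.2.2
      rw [← ZMod.natCast_eq_natCast_iff, (Cls_rep_spec e he (l * h)).2.2.2] at h1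
      rw [← ZMod.natCast_eq_natCast_iff, (Cls_rep_spec e he (l * h')).2.2.2] at h2
      exact hne (mul_left_cancel (Units.ext (h1.symm.trans h2)))
  have herr : cosetErr y e K l = (∑ h ∈ T, err y e (Cls_rep e (l * h))) / (T.card : ℝ) := by
    unfold cosetErr err
    rw [hcount, hcard, Finset.sum_sub_distrib, Finset.sum_const, nsmul_eq_mul, sub_div,
      mul_div_cancel_left₀ _ (by positivity : (T.card : ℝ) ≠ 0)]
    push_cast
    rfl
  rw [herr, abs_div, abs_of_pos (by exact_mod_cast hpos : (0 : ℝ) < T.card),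
    div_le_iff₀ (by exact_mod_cast hpos)]
  refine (Finset.abs_sum_le_sum_abs _ _).trans ?_
  have h1 : ∀ h ∈ T, |err y e (Cls_rep e (l * h))| ≤ maxErr y e := fun h _ =>
    Pool.Agent.Lib.EH.le_maxErr y e _ (Cls_rep_spec e he _).1 (Cls_rep_spec e he _).2.1
      (Cls_rep_spec e he _).2.2.1
  refine (Finset.sum_le_sum h1).trans ?_
  rw [Finset.sum_const, nsmul_eq_mul, mul_comm]

end Pool.Agent.Lib.CO
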