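import Pool.Agent.Lib.CO.SpecV

namespace Pool.Agent.Lib.CO

open Finset Pool.Agent.Lib.BV Pool.Agent.Results.MP_00e23e_nt

private theorem Cub_tri {R : Type} [CommSemiring R] (s t u : Finset ℕ) (f g h : ℕ → R) :
    (∑ x ∈ s, f x) * (∑ y ∈ t, g y) * (∑ z ∈ u, h z) =
      ∑ p ∈ s ×ˢ t ×ˢ u, f p.1 * g p.2.1 * h p.2.2 := by
  rw [sum_product, sum_mul_sum, sum_mul]
  refine sum_congr rfl fun x _ => ?_
  rw [sum_product, sum_mul]
  refine sum_congr rfl fun y _ => ?_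
  rw [mul_sum]

/-- the restriction of a to a block -/
private noncomputable def Cub_d (a : ℕ → ℂ) (j i m : ℕ) : ℂ :=
  if m ∈ Ioc (i * 2 ^ j) ((i + 1) * 2 ^ j) then a m else 0

private theorem Cub_BS (a : ℕ → ℂ) (K j i : ℕ) (ha : ∀ m, a m ≠ 0 → 1 ≤ m ∧ m ≤ K) {q : ℕ}
    (χ : DirichletCharacter ℂ q) :
    BS (tw a χ) j i = ∑ m ∈ Icc 1 K, Cub_d a j i m * χ (m : ZMod q) := by
  have h1 : ∑ m ∈ Icc 1 K, Cub_d a j i m * χ (m : ZMod q) =
      ∑ m ∈ (Icc 1 K).filter (fun m => m ∈ Ioc (i * 2 ^ j) ((i + 1) * 2 ^ j)), tw a χ m := by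
    rw [sum_filter]
    refine sum_congr rfl fun m _ => ?_
    unfold Cub_d tw
    split_ifs
    · rfl
    · rw [zero_mul]
  rw [h1]
  unfold BS
  symm
  refine sum_subset (fun m hm => (mem_filter.1 hm).2) ?_
  intro m hm hm'
  by_cases h0 : a m = 0
  · unfold tw
    rw [h0, zero_mul]
  · exact absurd (mem_filter.2 ⟨mem_Icc.2 (ha m h0), hm⟩) hm'

/-- the index set -/
private noncomputable def Cub_P (M N : ℕ) : Finset (ℕ × ℕ × ℕ) :=
  Icc 1 (2 * M) ×ˢ Icc 1 (2 * M) ×ˢ Icc 1 (2 * N)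

/-- the coefficients of the product -/
private noncomputable def Cub_c (a b : ℕ → ℂ) (M N j k : ℕ) (i : ℕ × ℕ × ℕ) (n : ℕ) : ℂ :=
  ∑ p ∈ (Cub_P M N).filter (fun p => p.1 * p.2.1 * p.2.2 = n),
    Cub_d a j i.1 p.1 * Cub_d a j i.2.1 p.2.1 * Cub_d b k i.2.2 p.2.2

private theorem Cub_prod (a b : ℕ → ℂ) (M N j k : ℕ)
    (ha : ∀ m, a m ≠ 0 → 1 ≤ m ∧ m ≤ 2 * M) (hb : ∀ n, b n ≠ 0 → 1 ≤ n ∧ n ≤ 2 * N)
    (i : ℕ × ℕ × ℕ) {q : ℕ} (χ : DirichletCharacter ℂ q) :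
    BS (tw a χ) j i.1 * BS (tw a χ) j i.2.1 * BS (tw b χ) k i.2.2 =
      ∑ n ∈ Icc 1 (8 * M ^ 2 * N), Cub_c a b M N j k i n * χ (n : ZMod q) := by
  rw [Cub_BS a (2 * M) j _ ha, Cub_BS a (2 * M) j _ ha, Cub_BS b (2 * N) k _ hb, Cub_tri]
  have h1 : ∀ p ∈ Icc 1 (2 * M) ×ˢ Icc 1 (2 * M) ×ˢ Icc 1 (2 * N),
      p.1 * p.2.1 * p.2.2 ∈ Icc 1 (8 * M ^ 2 * N) := by
    intro p hp
    rw [mem_product, mem_product, mem_Icc, mem_Icc, mem_Icc] at hp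
    obtain ⟨⟨h1, h2⟩, ⟨h3, h4⟩, h5, h6⟩ := hp
    rw [mem_Icc]
    constructor
    · exact Nat.mul_pos (Nat.mul_pos h1 h3) h5
    · calc p.1 * p.2.1 * p.2.2 ≤ (2 * M) * (2 * M) * (2 * N) :=
          Nat.mul_le_mul (Nat.mul_le_mul h2 h4) h6
        _ = 8 * M ^ 2 * N := by ring
  rw [← sum_fiberwise_of_maps_to h1]
  refine sum_congr rfl fun n _ => ?_
  unfold Cub_c Cub_P
  rw [sum_mul]
  refine sum_congr rfl fun p hp => ?_
  have hn := (mem_filter.1 hp).2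
  rw [← hn]
  push_cast
  rw [map_mul, map_mul]
  ring

private theorem Cub_one (a : ℕ → ℂ) (j R m : ℕ) :
    ∑ i ∈ range R, ‖Cub_d a j i m‖ ≤ ‖a m‖ := by
  have h1 : ∀ i ∈ range R, ‖Cub_d a j i m‖ ≤ if i = (m - 1) / 2 ^ j then ‖a m‖ else 0 := by
    intro i _
    unfold Cub_d
    split_ifs with h h' h'
    · exact le_rfl
    · exfalso
      apply h'
      rw [mem_Ioc] at h
      symm
      refine Nat.div_eq_of_lt_le ?_ ?_
      · omega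
      · omega
    · rw [norm_zero]
      exact norm_nonneg _
    · rw [norm_zero]
  refine (sum_le_sum h1).trans ?_
  rw [sum_ite_eq']
  split_ifs
  · exact le_rfl
  · exact norm_nonneg _

private theorem Cub_tau {m n : ℕ} (hn : n ≠ 0) (h : m ∣ n) :
    (m.divisors.card : ℝ) ≤ (n.divisors.card : ℝ) := by
  exact_mod_cast card_le_card (Nat.divisors_subset_of_dvd hn h)

private theorem Cub_card (M N n : ℕ) (hn : 1 ≤ n) :
    (((Cub_P M N).filter (fun p => p.1 * p.2.1 * p.2.2 = n)).card : ℝ) ≤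
      (n.divisors.card : ℝ) ^ 2 := by
  have h1 : ((Cub_P M N).filter (fun p => p.1 * p.2.1 * p.2.2 = n)).card ≤
      (n.divisors ×ˢ n.divisors).card := by
    refine card_le_card_of_injOn (fun p => (p.1, p.2.1)) ?_ ?_
    · intro p hp
      have hp' := (mem_filter.1 (mem_coe.1 hp)).2
      refine mem_coe.2 (mem_product.2 ⟨?_, ?_⟩)
      · rw [Nat.mem_divisors]
        exact ⟨⟨p.2.1 * p.2.2, by rw [← hp', mul_assoc]⟩, by omega⟩
      · rw [Nat.mem_divisors]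
        exact ⟨⟨p.1 * p.2.2, by rw [← hp']; ring⟩, by omega⟩
    · intro p hp p' hp' h
      obtain ⟨x, y, z⟩ := p
      obtain ⟨x', y', z'⟩ := p'
      have e1 := (mem_filter.1 (mem_coe.1 hp)).2
      have e2 := (mem_filter.1 (mem_coe.1 hp')).2
      simp only [Prod.mk.injEq] at h
      obtain ⟨rfl, rfl⟩ := h
      simp only at e1 e2
      have hxy : 0 < x * y := by
        rcases Nat.eq_zero_or_pos (x * y) with h0 | h0
        · rw [h0, zero_mul] at e1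
          omega
        · exact h0
      have hz : z = z' := Nat.eq_of_mul_eq_mul_left hxy (e1.trans e2.symm)
      rw [hz]
  rw [card_product] at h1
  calc (((Cub_P M N).filter (fun p => p.1 * p.2.1 * p.2.2 = n)).card : ℝ)
      ≤ ((n.divisors.card * n.divisors.card : ℕ) : ℝ) := by exact_mod_cast h1
    _ = (n.divisors.card : ℝ) ^ 2 := by push_cast; ring

private theorem Cub_sum (a b : ℕ → ℂ) (M N j k R S n : ℕ) (Lc : ℝ) (hLc : 0 ≤ Lc) (hn : 1 ≤ n)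
    (hA : ∀ m, ‖a m‖ ≤ Lc * (m.divisors.card : ℝ)) (hB : ∀ n, ‖b n‖ ≤ Lc * (n.divisors.card : ℝ)) :
    ∑ i ∈ range R ×ˢ range R ×ˢ range S, ‖Cub_c a b M N j k i n‖ ≤
      Lc ^ 3 * (n.divisors.card : ℝ) ^ 5 := by
  have hn0 : n ≠ 0 := by omega
  calc ∑ i ∈ range R ×ˢ range R ×ˢ range S, ‖Cub_c a b M N j k i n‖
      ≤ ∑ i ∈ range R ×ˢ range R ×ˢ range S,
          ∑ p ∈ (Cub_P M N).filter (fun p => p.1 * p.2.1 * p.2.2 = n),
            ‖Cub_d a j i.1 p.1‖ * ‖Cub_d a j i.2.1 p.2.1‖ * ‖Cub_d b k i.2.2 p.2.2‖ := by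
        refine sum_le_sum fun i _ => ?_
        refine (norm_sum_le _ _).trans (le_of_eq ?_)
        refine sum_congr rfl fun p _ => ?_
        rw [norm_mul, norm_mul]
    _ = ∑ p ∈ (Cub_P M N).filter (fun p => p.1 * p.2.1 * p.2.2 = n),
          (∑ i ∈ range R, ‖Cub_d a j i p.1‖) * (∑ i ∈ range R, ‖Cub_d a j i p.2.1‖) *
            (∑ i ∈ range S, ‖Cub_d b k i p.2.2‖) := by
        rw [sum_comm]
        refine sum_congr rfl fun p _ => ?_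
        exact (Cub_tri (range R) (range R) (range S) (fun i => ‖Cub_d a j i p.1‖)
          (fun i => ‖Cub_d a j i p.2.1‖) (fun i => ‖Cub_d b k i p.2.2‖)).symm
    _ ≤ ∑ p ∈ (Cub_P M N).filter (fun p => p.1 * p.2.1 * p.2.2 = n),
          Lc ^ 3 * (n.divisors.card : ℝ) ^ 3 := by
        refine sum_le_sum fun p hp => ?_
        have hp' := (mem_filter.1 hp).2
        have t1 : (p.1.divisors.card : ℝ) ≤ (n.divisors.card : ℝ) :=
          Cub_tau hn0 ⟨p.2.1 * p.2.2, by rw [← hp', mul_assoc]⟩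
        have t2 : (p.2.1.divisors.card : ℝ) ≤ (n.divisors.card : ℝ) :=
          Cub_tau hn0 ⟨p.1 * p.2.2, by rw [← hp']; ring⟩
        have t3 : (p.2.2.divisors.card : ℝ) ≤ (n.divisors.card : ℝ) :=
          Cub_tau hn0 ⟨p.1 * p.2.1, by rw [← hp']; ring⟩
        have s1 : ∑ i ∈ range R, ‖Cub_d a j i p.1‖ ≤ Lc * (n.divisors.card : ℝ) :=
          (Cub_one a j R p.1).trans ((hA _).trans (mul_le_mul_of_nonneg_left t1 hLc))
        have s2 : ∑ i ∈ range R, ‖Cub_d a j i p.2.1‖ ≤ Lc * (n.divisors.card : ℝ) :=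
          (Cub_one a j R p.2.1).trans ((hA _).trans (mul_le_mul_of_nonneg_left t2 hLc))
        have s3 : ∑ i ∈ range S, ‖Cub_d b k i p.2.2‖ ≤ Lc * (n.divisors.card : ℝ) :=
          (Cub_one b k S p.2.2).trans ((hB _).trans (mul_le_mul_of_nonneg_left t3 hLc))
        have n1 : 0 ≤ ∑ i ∈ range R, ‖Cub_d a j i p.1‖ := sum_nonneg fun _ _ => norm_nonneg _
        have n2 : 0 ≤ ∑ i ∈ range R, ‖Cub_d a j i p.2.1‖ := sum_nonneg fun _ _ => norm_nonneg _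
        have n3 : 0 ≤ ∑ i ∈ range S, ‖Cub_d b k i p.2.2‖ := sum_nonneg fun _ _ => norm_nonneg _
        have n0 : 0 ≤ Lc * (n.divisors.card : ℝ) := mul_nonneg hLc (Nat.cast_nonneg _)
        calc (∑ i ∈ range R, ‖Cub_d a j i p.1‖) * (∑ i ∈ range R, ‖Cub_d a j i p.2.1‖) *
            (∑ i ∈ range S, ‖Cub_d b k i p.2.2‖)
            ≤ (Lc * (n.divisors.card : ℝ)) * (Lc * (n.divisors.card : ℝ)) *
              (Lc * (n.divisors.card : ℝ)) :=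
              mul_le_mul (mul_le_mul s1 s2 n2 n0) s3 n3 (mul_nonneg n0 n0)
          _ = Lc ^ 3 * (n.divisors.card : ℝ) ^ 3 := by ring
    _ = (((Cub_P M N).filter (fun p => p.1 * p.2.1 * p.2.2 = n)).card : ℝ) *
          (Lc ^ 3 * (n.divisors.card : ℝ) ^ 3) := by
        rw [sum_const, nsmul_eq_mul]
    _ ≤ (n.divisors.card : ℝ) ^ 2 * (Lc ^ 3 * (n.divisors.card : ℝ) ^ 3) :=
        mul_le_mul_of_nonneg_right (Cub_card M N n hn) (by positivity)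
    _ = Lc ^ 3 * (n.divisors.card : ℝ) ^ 5 := by ring

private theorem Cub_sq {ι : Type} (s : Finset ι) (f : ι → ℝ) (hf : ∀ i ∈ s, 0 ≤ f i) :
    ∑ i ∈ s, f i ^ 2 ≤ (∑ i ∈ s, f i) ^ 2 := by
  rw [sq (∑ i ∈ s, f i), sum_mul]
  refine sum_le_sum fun i hi => ?_
  rw [sq]
  exact mul_le_mul_of_nonneg_left (single_le_sum hf hi) (hf i hi)

/-- Module Cub. -/
theorem tCub (h1 : LsmStmt) (h2 : TauStmt) : CubStmt := by
  intro Q J j k M N a b Lc hQ hM hN hLc ha hb hA hB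
  set T : Finset (ℕ × ℕ × ℕ) := range (2 ^ (J - j)) ×ˢ range (2 ^ (J - j)) ×ˢ range (2 ^ (J - k))
    with hT
  set X : ℕ := 8 * M ^ 2 * N with hX
  have hX1 : 1 ≤ X := by
    rw [hX]
    exact Nat.mul_pos (Nat.mul_pos (by norm_num) (pow_pos hM 2)) hN
  have hXr : (X : ℝ) = 8 * (M : ℝ) ^ 2 * N := by
    rw [hX]
    push_cast
    ring
  have e1 : ∀ (q : ℕ) (χ : DirichletCharacter ℂ q), (VV (tw a χ) J j) ^ 2 * VV (tw b χ) J k =
      ∑ i ∈ T, ‖∑ n ∈ Icc 1 X, Cub_c a b M N j k i n * χ (n : ZMod q)‖ ^ 2 := by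
    intro q χ
    unfold VV
    rw [sq, Cub_tri]
    refine sum_congr rfl fun i _ => ?_
    rw [← Cub_prod a b M N j k ha hb i χ, norm_mul, norm_mul, mul_pow, mul_pow]
  rw [← hXr]
  have hA0 : (0 : ℝ) ≤ 20 * ((X : ℝ) + (Q : ℝ) ^ 2) := by positivity
  calc ∑ q ∈ Icc 2 Q, (q : ℝ) / (q.totient : ℝ) *
        ∑ χ ∈ prim q, (VV (tw a χ) J j) ^ 2 * VV (tw b χ) J k
      = ∑ q ∈ Icc 2 Q, ∑ i ∈ T, (q : ℝ) / (q.totient : ℝ) *
          ∑ χ ∈ prim q, ‖∑ n ∈ Icc 1 X, Cub_c a b M N j k i n * χ (n : ZMod q)‖ ^ 2 := by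
        refine sum_congr rfl fun q _ => ?_
        rw [sum_congr rfl fun χ _ => e1 q χ, sum_comm, mul_sum]
    _ = ∑ i ∈ T, ∑ q ∈ Icc 2 Q, (q : ℝ) / (q.totient : ℝ) *
          ∑ χ ∈ prim q, ‖∑ n ∈ Icc 1 X, Cub_c a b M N j k i n * χ (n : ZMod q)‖ ^ 2 := sum_comm
    _ ≤ ∑ i ∈ T, 20 * ((X : ℝ) + (Q : ℝ) ^ 2) * ∑ n ∈ Icc 1 X, ‖Cub_c a b M N j k i n‖ ^ 2 :=
        sum_le_sum fun i _ => h1 Q X (Cub_c a b M N j k i) hQ
    _ = 20 * ((X : ℝ) + (Q : ℝ) ^ 2) * ∑ n ∈ Icc 1 X, ∑ i ∈ T, ‖Cub_c a b M N j k i n‖ ^ 2 := by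
        rw [← mul_sum, sum_comm]
    _ ≤ 20 * ((X : ℝ) + (Q : ℝ) ^ 2) *
          ∑ n ∈ Icc 1 X, Lc ^ 6 * (n.divisors.card : ℝ) ^ 10 := by
        refine mul_le_mul_of_nonneg_left (sum_le_sum fun n hn => ?_) hA0
        have hn1 := (mem_Icc.1 hn).1
        refine (Cub_sq T (fun i => ‖Cub_c a b M N j k i n‖) fun _ _ => norm_nonneg _).trans ?_
        have h3 := Cub_sum a b M N j k (2 ^ (J - j)) (2 ^ (J - k)) n Lc hLc hn1 hA hB
        have h4 : (0 : ℝ) ≤ ∑ i ∈ T, ‖Cub_c a b M N j k i n‖ := sum_nonneg fun _ _ => norm_nonneg _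
        calc (∑ i ∈ T, ‖Cub_c a b M N j k i n‖) ^ 2
            ≤ (Lc ^ 3 * (n.divisors.card : ℝ) ^ 5) ^ 2 := pow_le_pow_left₀ h4 h3 2
          _ = Lc ^ 6 * (n.divisors.card : ℝ) ^ 10 := by ring
    _ ≤ 20 * ((X : ℝ) + (Q : ℝ) ^ 2) *
          (Lc ^ 6 * ((X : ℝ) * (1 + Real.log (X : ℝ)) ^ 1024)) := by
        refine mul_le_mul_of_nonneg_left ?_ hA0
        rw [← mul_sum]
        refine mul_le_mul_of_nonneg_left ?_ (by positivity)
        have h5 := h2 10 X hX1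
        have h6 : (2 : ℕ) ^ 10 = 1024 := by norm_num
        rw [h6] at h5
        exact h5

end Pool.Agent.Lib.CO
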