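import Pool.Agent.Lib.CO.SpecV

/-!
MP_00e23e_nt, Lib/CO, module Dcp: decomposition of the sum of Λ χ into the type I part and boxes.
-/

namespace Pool.Agent.Lib.CO

open Finset Pool.Agent.Lib.BV Pool.Agent.Results.MP_00e23e_nt

/-- dyadic decomposition of a sum -/
private theorem Dcp_dyad (F : ℕ → ℂ) (J : ℕ) :
    ∑ i ∈ range J, ∑ m ∈ Ico (2 ^ i) (2 * 2 ^ i), F m = ∑ m ∈ Ico 1 (2 ^ J), F m := by
  induction J with
  | zero => simp
  | succ J ih =>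
    rw [Finset.sum_range_succ, ih, ← pow_succ']
    exact Finset.sum_Ico_consecutive F Nat.one_le_two_pow (Nat.pow_le_pow_right (by norm_num) (by omega))

/-- the double sum over m n ≤ Y as the sum of the boxes -/
private theorem Dcp_boxes (a b : ℕ → ℂ) (Y J : ℕ) (hY : Y < 2 ^ J) {q : ℕ} (χ : DirichletCharacter ℂ q) :
    ∑ m ∈ Icc 1 Y, ∑ n ∈ Icc 1 (Y / m), tw a χ m * tw b χ n =
      ∑ i ∈ range J, ∑ j ∈ range J, BL a b (2 ^ i) (2 ^ j) Y χ := by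
  have h1 : ∀ i ∈ range J, ∑ j ∈ range J, BL a b (2 ^ i) (2 ^ j) Y χ =
      ∑ m ∈ Ico (2 ^ i) (2 * 2 ^ i), ∑ n ∈ Ico 1 (2 ^ J),
        if m * n ≤ Y then tw a χ m * tw b χ n else 0 := by
    intro i _
    unfold BL
    rw [Finset.sum_comm]
    refine Finset.sum_congr rfl fun m _ => ?_
    rw [← Dcp_dyad]
    refine Finset.sum_congr rfl fun j _ => ?_
    rw [Finset.sum_filter]
  rw [Finset.sum_congr rfl h1, Dcp_dyad (fun m => ∑ n ∈ Ico 1 (2 ^ J),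
    if m * n ≤ Y then tw a χ m * tw b χ n else 0) J]
  have h2 : ∀ m ∈ Ico 1 (2 ^ J), (∑ n ∈ Ico 1 (2 ^ J),
      if m * n ≤ Y then tw a χ m * tw b χ n else 0) =
      ∑ n ∈ Icc 1 (Y / m), tw a χ m * tw b χ n := by
    intro m hm
    rw [Finset.mem_Ico] at hm
    rw [← Finset.sum_filter]
    refine Finset.sum_congr ?_ fun _ _ => rfl
    ext n
    simp only [Finset.mem_filter, Finset.mem_Ico, Finset.mem_Icc]
    rw [Nat.le_div_iff_mul_le (by omega : 0 < m), mul_comm n m]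
    constructor
    · rintro ⟨⟨h3, _⟩, h4⟩
      exact ⟨h3, h4⟩
    · rintro ⟨h3, h4⟩
      refine ⟨⟨h3, ?_⟩, h4⟩
      have : n ≤ m * n := Nat.le_mul_of_pos_left n (by omega)
      omega
  rw [Finset.sum_congr rfl h2]
  symm
  refine (Finset.sum_subset ?_ ?_).symm
  · intro m hm
    rw [Finset.mem_Icc] at hm
    rw [Finset.mem_Ico]
    omega
  · intro m hm hm'
    rw [Finset.mem_Ico] at hm
    rw [Finset.mem_Icc] at hm'
    have : Y / m = 0 := Nat.div_eq_of_lt (by omega)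
    rw [this]
    simp

/-- a box outside the range is empty -/
private theorem Dcp_zero (a b : ℕ → ℂ) (x : ℝ) (Y i j : ℕ) (hY : (Y : ℝ) ≤ x) {q : ℕ}
    (χ : DirichletCharacter ℂ q)
    (hab : ∀ m n : ℕ, 1 ≤ m → 1 ≤ n → a m ≠ 0 → b n ≠ 0 → (m : ℝ) * n ≤ x →
      (m : ℝ) ≤ x ^ ((4 : ℝ) / 5) ∧ (n : ℝ) ≤ x ^ ((4 : ℝ) / 5))
    (hc : ¬ ((2 : ℝ) ^ i ≤ x ^ ((4 : ℝ) / 5) ∧ (2 : ℝ) ^ j ≤ x ^ ((4 : ℝ) / 5) ∧
      (2 : ℝ) ^ i * 2 ^ j ≤ x)) : BL a b (2 ^ i) (2 ^ j) Y χ = 0 := by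
  unfold BL
  refine Finset.sum_eq_zero fun m hm => Finset.sum_eq_zero fun n hn => ?_
  by_contra hne
  apply hc
  rw [Finset.mem_Ico] at hm
  rw [Finset.mem_filter, Finset.mem_Ico] at hn
  have ha : a m ≠ 0 := by
    intro h
    apply hne
    unfold tw
    rw [h]; ring
  have hb : b n ≠ 0 := by
    intro h
    apply hne
    unfold tw
    rw [h]; ring
  have hm1 : 1 ≤ m := le_trans Nat.one_le_two_pow hm.1
  have hn1 : 1 ≤ n := le_trans Nat.one_le_two_pow hn.1.1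
  have hmn : (m : ℝ) * n ≤ x := by
    refine le_trans ?_ hY
    exact_mod_cast hn.2
  have hmi : (2 : ℝ) ^ i ≤ m := by exact_mod_cast hm.1
  have hnj : (2 : ℝ) ^ j ≤ n := by exact_mod_cast hn.1.1
  obtain ⟨h1, h2⟩ := hab m n hm1 hn1 ha hb hmn
  refine ⟨hmi.trans h1, hnj.trans h2, le_trans ?_ hmn⟩
  exact mul_le_mul hmi hnj (by positivity) (by positivity)

/-- if m > x^s and m n ≤ x then n ≤ x^(4/5), s = 1/5 or 1/4 -/
private theorem Dcp_quot (x s m n : ℝ) (hx : 3 ≤ x) (hs : (1 : ℝ) / 5 ≤ s) (hm : x ^ s < m)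
    (hn : 0 ≤ n) (hmn : m * n ≤ x) : n ≤ x ^ ((4 : ℝ) / 5) := by
  have hx0 : 0 < x := by linarith
  have h1 : x ^ ((1 : ℝ) / 5) ≤ x ^ s := Real.rpow_le_rpow_of_exponent_le (by linarith) hs
  have h2 : x ^ ((1 : ℝ) / 5) * n ≤ x := by
    refine le_trans ?_ hmn
    exact mul_le_mul_of_nonneg_right (h1.trans hm.le) hn
  have h3 : x ^ ((1 : ℝ) / 5) * x ^ ((4 : ℝ) / 5) = x := by
    rw [← Real.rpow_add hx0]
    norm_num
  have h4 : 0 < x ^ ((1 : ℝ) / 5) := Real.rpow_pos_of_pos hx0 _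
  have h5 : x ^ ((1 : ℝ) / 5) * n ≤ x ^ ((1 : ℝ) / 5) * x ^ ((4 : ℝ) / 5) := by
    rw [h3]; exact h2
  exact le_of_mul_le_mul_left h5 h4

/-- the boxes bound a bilinear sum -/
private theorem Dcp_bil (a b : ℕ → ℂ) (x : ℝ) (Y J : ℕ) (hY : (Y : ℝ) ≤ x) (hJ : x < (2 : ℝ) ^ J) {q : ℕ}
    (χ : DirichletCharacter ℂ q)
    (hab : ∀ m n : ℕ, 1 ≤ m → 1 ≤ n → a m ≠ 0 → b n ≠ 0 → (m : ℝ) * n ≤ x →
      (m : ℝ) ≤ x ^ ((4 : ℝ) / 5) ∧ (n : ℝ) ≤ x ^ ((4 : ℝ) / 5)) :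
    ‖∑ m ∈ Icc 1 Y, ∑ n ∈ Icc 1 (Y / m), tw a χ m * tw b χ n‖ ≤
      ∑ i ∈ range J, ∑ j ∈ range J,
        if (2 : ℝ) ^ i ≤ x ^ ((4 : ℝ) / 5) ∧ (2 : ℝ) ^ j ≤ x ^ ((4 : ℝ) / 5) ∧ (2 : ℝ) ^ i * 2 ^ j ≤ x then
          ‖BL a b (2 ^ i) (2 ^ j) Y χ‖ else 0 := by
  have hYJ : Y < 2 ^ J := by
    have : (Y : ℝ) < (2 : ℝ) ^ J := lt_of_le_of_lt hY hJ
    exact_mod_cast this
  rw [Dcp_boxes a b Y J hYJ χ]
  refine (norm_sum_le _ _).trans (Finset.sum_le_sum fun i _ => ?_)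
  refine (norm_sum_le _ _).trans (Finset.sum_le_sum fun j _ => ?_)
  split_ifs with hc
  · exact le_rfl
  · rw [Dcp_zero a b x Y i j hY χ hab hc, norm_zero]

private theorem Dcp_chi {q : ℕ} (χ : DirichletCharacter ℂ q) (n : ℕ) : ‖χ (n : ZMod q)‖ ≤ 1 :=
  DirichletCharacter.norm_le_one χ _

theorem tDcp (h1 : VauStmt) (h2 : VgbStmt) (h3 : PvStmt) : DcpStmt := by
  intro x q Y J χ hx hq hχ hY hJ
  have hx0 : 0 < x := by linarith
  have hx1 : 1 ≤ x := by linarith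
  -- parameters
  obtain ⟨z, hz⟩ : ∃ z : ℕ, z = ⌊x ^ ((1 : ℝ) / 5)⌋₊ := ⟨_, rfl⟩
  obtain ⟨w, hw⟩ : ∃ w : ℕ, w = ⌊x ^ ((1 : ℝ) / 4)⌋₊ := ⟨_, rfl⟩
  rw [← hz, ← hw]
  have hz1 : 1 ≤ z := by
    rw [hz, Nat.one_le_floor_iff]
    exact Real.one_le_rpow hx1 (by norm_num)
  have hzx : (z : ℝ) ≤ x ^ ((1 : ℝ) / 5) := by
    rw [hz]; exact Nat.floor_le (Real.rpow_nonneg hx0.le _)
  have hwx : (w : ℝ) ≤ x ^ ((1 : ℝ) / 4) := by
    rw [hw]; exact Nat.floor_le (Real.rpow_nonneg hx0.le _)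
  have h54 : x ^ ((1 : ℝ) / 5) ≤ x ^ ((1 : ℝ) / 4) :=
    Real.rpow_le_rpow_of_exponent_le hx1 (by norm_num)
  have h4x : x ^ ((1 : ℝ) / 4) ≤ x := by
    conv_rhs => rw [← Real.rpow_one x]
    exact Real.rpow_le_rpow_of_exponent_le hx1 (by norm_num)
  have hzlt : ∀ m : ℕ, z < m → x ^ ((1 : ℝ) / 5) < m := by
    intro m hm
    rw [hz] at hm
    exact (Nat.floor_lt (Real.rpow_nonneg hx0.le _)).1 hm
  have hwlt : ∀ m : ℕ, w < m → x ^ ((1 : ℝ) / 4) < m := by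
    intro m hm
    rw [hw] at hm
    exact (Nat.floor_lt (Real.rpow_nonneg hx0.le _)).1 hm
  obtain ⟨L, hL⟩ : ∃ L : ℝ, L = Real.log x := ⟨_, rfl⟩
  rw [← hL]
  have hL0 : 0 ≤ L := by rw [hL]; exact Real.log_nonneg hx1
  obtain ⟨V, hV⟩ : ∃ V : ℝ, V = Real.sqrt q * (1 + Real.log q) := ⟨_, rfl⟩
  rw [← hV]
  have hq1 : (1 : ℝ) ≤ q := by exact_mod_cast (by omega : 1 ≤ q)
  have hV1 : 1 ≤ V := by
    rw [hV]
    have ha : 1 ≤ Real.sqrt q := Real.one_le_sqrt.2 hq1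
    have hb : 0 ≤ Real.log q := Real.log_nonneg hq1
    nlinarith
  obtain ⟨T, hT⟩ : ∃ T : ℝ, T = x ^ ((1 : ℝ) / 4) := ⟨_, rfl⟩
  have hT0 : 0 ≤ T := by rw [hT]; exact Real.rpow_nonneg hx0.le _
  rw [← hT] at hwx h54 h4x ⊢
  have hzT : (z : ℝ) ≤ T := hzx.trans h54
  -- logarithms of integers up to x
  have hlog : ∀ n : ℕ, (n : ℝ) ≤ x → Real.log n ≤ L := by
    intro n hn
    rw [hL]
    rcases Nat.eq_zero_or_pos n with h0 | h0
    · rw [h0]; simp [Real.log_nonneg hx1]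
    · exact Real.log_le_log (by exact_mod_cast h0) hn
  have hlog0 : ∀ n : ℕ, 0 ≤ Real.log (n : ℝ) := fun n => Real.log_natCast_nonneg n
  -- Vaughan
  have hf : ∀ m n : ℕ, χ ((m * n : ℕ) : ZMod q) = χ (m : ZMod q) * χ (n : ZMod q) := by
    intro m n
    rw [Nat.cast_mul, map_mul]
  have hvau := h1 z Y (fun n => χ (n : ZMod q)) hz1 hf
  -- first sum
  have hA : ‖∑ n ∈ (Icc 1 Y).filter (fun n => n ≤ z),
      ((ArithmeticFunction.vonMangoldt n : ℝ) : ℂ) * χ (n : ZMod q)‖ ≤ T * L * V := by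
    have hs1 : ∀ n ∈ (Icc 1 Y).filter (fun n => n ≤ z),
        ‖((ArithmeticFunction.vonMangoldt n : ℝ) : ℂ) * χ (n : ZMod q)‖ ≤ L := by
      intro n hn
      rw [Finset.mem_filter, Finset.mem_Icc] at hn
      rw [norm_mul, Complex.norm_real, Real.norm_eq_abs,
        abs_of_nonneg ArithmeticFunction.vonMangoldt_nonneg]
      have ha : ArithmeticFunction.vonMangoldt n ≤ L := by
        refine (ArithmeticFunction.vonMangoldt_le_log).trans (hlog n ?_)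
        exact le_trans (by exact_mod_cast hn.1.2) hY
      calc ArithmeticFunction.vonMangoldt n * ‖χ (n : ZMod q)‖ ≤ L * 1 :=
            mul_le_mul ha (Dcp_chi χ n) (norm_nonneg _) hL0
        _ = L := mul_one L
    have hs2 : ((Icc 1 Y).filter (fun n => n ≤ z)).card ≤ z := by
      calc ((Icc 1 Y).filter (fun n => n ≤ z)).card ≤ (Icc 1 z).card := by
            refine Finset.card_le_card fun n hn => ?_
            rw [Finset.mem_filter, Finset.mem_Icc] at hn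
            rw [Finset.mem_Icc]
            exact ⟨hn.1.1, hn.2⟩
        _ = z := by simp
    calc ‖∑ n ∈ (Icc 1 Y).filter (fun n => n ≤ z),
          ((ArithmeticFunction.vonMangoldt n : ℝ) : ℂ) * χ (n : ZMod q)‖
        ≤ ∑ n ∈ (Icc 1 Y).filter (fun n => n ≤ z), L :=
          (norm_sum_le _ _).trans (Finset.sum_le_sum hs1)
      _ = (((Icc 1 Y).filter (fun n => n ≤ z)).card : ℝ) * L := by
          rw [Finset.sum_const, nsmul_eq_mul]
      _ ≤ T * L := by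
          refine mul_le_mul_of_nonneg_right ?_ hL0
          exact le_trans (by exact_mod_cast hs2) hzT
      _ ≤ T * L * V := le_mul_of_one_le_right (by positivity) hV1
  -- second sum
  have hB : ‖∑ b ∈ Icc 1 z, ((ArithmeticFunction.moebius b : ℝ) : ℂ) * χ (b : ZMod q) *
      ∑ c ∈ Icc 1 (Y / b), ((Real.log c : ℝ) : ℂ) * χ (c : ZMod q)‖ ≤ 2 * (T * L * V) := by
    have hs1 : ∀ b ∈ Icc 1 z, ‖((ArithmeticFunction.moebius b : ℝ) : ℂ) * χ (b : ZMod q) *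
        ∑ c ∈ Icc 1 (Y / b), ((Real.log c : ℝ) : ℂ) * χ (c : ZMod q)‖ ≤ 2 * L * V := by
      intro b hb
      have ha : ‖((ArithmeticFunction.moebius b : ℝ) : ℂ) * χ (b : ZMod q)‖ ≤ 1 := by
        rw [norm_mul, Complex.norm_real, Real.norm_eq_abs]
        have hmu : |((ArithmeticFunction.moebius b : ℤ) : ℝ)| ≤ 1 := by
          have := ArithmeticFunction.abs_moebius_le_one (n := b)
          exact_mod_cast this
        calc |((ArithmeticFunction.moebius b : ℤ) : ℝ)| * ‖χ (b : ZMod q)‖ ≤ 1 * 1 :=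
              mul_le_mul hmu (Dcp_chi χ b) (norm_nonneg _) zero_le_one
          _ = 1 := one_mul 1
      have hb2 := (h3 q (Y / b) χ hq hχ).2
      rw [← hV] at hb2
      have hYb : ((Y / b : ℕ) : ℝ) ≤ x := by
        refine le_trans ?_ hY
        exact_mod_cast Nat.div_le_self Y b
      rw [norm_mul]
      calc ‖((ArithmeticFunction.moebius b : ℝ) : ℂ) * χ (b : ZMod q)‖ *
            ‖∑ c ∈ Icc 1 (Y / b), ((Real.log c : ℝ) : ℂ) * χ (c : ZMod q)‖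
          ≤ 1 * (2 * Real.log ((Y / b : ℕ) : ℝ) * V) :=
            mul_le_mul ha hb2 (norm_nonneg _) zero_le_one
        _ ≤ 2 * L * V := by
            rw [one_mul]
            have := hlog (Y / b) hYb
            have hV0 : 0 ≤ V := by linarith
            nlinarith
    calc ‖∑ b ∈ Icc 1 z, ((ArithmeticFunction.moebius b : ℝ) : ℂ) * χ (b : ZMod q) *
          ∑ c ∈ Icc 1 (Y / b), ((Real.log c : ℝ) : ℂ) * χ (c : ZMod q)‖
        ≤ ∑ b ∈ Icc 1 z, 2 * L * V := (norm_sum_le _ _).trans (Finset.sum_le_sum hs1)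
      _ = (z : ℝ) * (2 * L * V) := by
          rw [Finset.sum_const, nsmul_eq_mul]; simp
      _ ≤ T * (2 * L * V) := mul_le_mul_of_nonneg_right hzT (by positivity)
      _ = 2 * (T * L * V) := by ring
  -- third sum
  obtain ⟨a2, ha2⟩ : ∃ a2 : ℕ → ℂ, a2 = fun m => if w < m then ((vg z m : ℝ) : ℂ) else 0 := ⟨_, rfl⟩
  have hC2 : ∑ m ∈ Icc 1 Y, ∑ n ∈ Icc 1 (Y / m), tw a2 χ m * tw (fun _ => 1) χ n =
      ∑ b ∈ Icc 1 (z ^ 2), (if w < b then ((vg z b : ℝ) : ℂ) * χ (b : ZMod q) *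
        ∑ c ∈ Icc 1 (Y / b), χ (c : ZMod q) else 0) := by
    obtain ⟨F, hF⟩ : ∃ F : ℕ → ℂ, F = fun b => (if w < b then ((vg z b : ℝ) : ℂ) * χ (b : ZMod q) *
        ∑ c ∈ Icc 1 (Y / b), χ (c : ZMod q) else 0) := ⟨_, rfl⟩
    have hl : ∀ m ∈ Icc 1 Y, ∑ n ∈ Icc 1 (Y / m), tw a2 χ m * tw (fun _ => 1) χ n = F m := by
      intro m _
      rw [hF, ha2]
      simp only [tw, one_mul]
      rw [← Finset.mul_sum]
      split_ifs with h
      · rfl
      · simp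
    have hr : ∀ b ∈ Icc 1 (z ^ 2), (if w < b then ((vg z b : ℝ) : ℂ) * χ (b : ZMod q) *
        ∑ c ∈ Icc 1 (Y / b), χ (c : ZMod q) else 0) = F b := by
      intro b _; rw [hF]
    rw [Finset.sum_congr rfl hl, Finset.sum_congr rfl hr]
    have hY0 : ∀ b, 1 ≤ b → Y < b → F b = 0 := by
      intro b _ hb
      rw [hF]
      simp only
      rw [Nat.div_eq_of_lt hb]
      simp
    have hz0 : ∀ b, 1 ≤ b → z ^ 2 < b → F b = 0 := by
      intro b hb1 hb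
      rw [hF]
      simp only
      rw [(h2 z b hb1).2.1 hb]
      simp
    have e1 : ∑ b ∈ Icc 1 Y, F b = ∑ b ∈ Icc 1 (max Y (z ^ 2)), F b := by
      refine Finset.sum_subset (Finset.Icc_subset_Icc le_rfl (le_max_left _ _)) ?_
      intro b hb hb'
      rw [Finset.mem_Icc] at hb hb'
      exact hY0 b hb.1 (by omega)
    have e2 : ∑ b ∈ Icc 1 (z ^ 2), F b = ∑ b ∈ Icc 1 (max Y (z ^ 2)), F b := by
      refine Finset.sum_subset (Finset.Icc_subset_Icc le_rfl (le_max_right _ _)) ?_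
      intro b hb hb'
      rw [Finset.mem_Icc] at hb hb'
      exact hz0 b hb.1 (by omega)
    rw [e1, e2]
  have hC : ‖∑ b ∈ Icc 1 (z ^ 2), ((vg z b : ℝ) : ℂ) * χ (b : ZMod q) *
      ∑ c ∈ Icc 1 (Y / b), χ (c : ZMod q)‖ ≤ T * L * V +
      ‖∑ m ∈ Icc 1 Y, ∑ n ∈ Icc 1 (Y / m), tw a2 χ m * tw (fun _ => 1) χ n‖ := by
    rw [hC2]
    have hsplit : ∑ b ∈ Icc 1 (z ^ 2), ((vg z b : ℝ) : ℂ) * χ (b : ZMod q) *
        ∑ c ∈ Icc 1 (Y / b), χ (c : ZMod q) =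
        (∑ b ∈ Icc 1 (z ^ 2), (if w < b then 0 else ((vg z b : ℝ) : ℂ) * χ (b : ZMod q) *
          ∑ c ∈ Icc 1 (Y / b), χ (c : ZMod q))) +
        ∑ b ∈ Icc 1 (z ^ 2), (if w < b then ((vg z b : ℝ) : ℂ) * χ (b : ZMod q) *
          ∑ c ∈ Icc 1 (Y / b), χ (c : ZMod q) else 0) := by
      rw [← Finset.sum_add_distrib]
      refine Finset.sum_congr rfl fun b _ => ?_
      split_ifs <;> simp
    rw [hsplit]
    refine (norm_add_le _ _).trans (add_le_add ?_ le_rfl)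
    have hfil : ∑ b ∈ Icc 1 (z ^ 2), (if w < b then 0 else ((vg z b : ℝ) : ℂ) * χ (b : ZMod q) *
        ∑ c ∈ Icc 1 (Y / b), χ (c : ZMod q)) =
        ∑ b ∈ (Icc 1 (z ^ 2)).filter (fun b => ¬ w < b), ((vg z b : ℝ) : ℂ) * χ (b : ZMod q) *
        ∑ c ∈ Icc 1 (Y / b), χ (c : ZMod q) := by
      rw [Finset.sum_filter]
      refine Finset.sum_congr rfl fun b _ => ?_
      by_cases h : w < b
      · rw [if_pos h, if_neg (not_not.2 h)]
      · rw [if_neg h, if_pos h]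
    rw [hfil]
    have hs1 : ∀ b ∈ (Icc 1 (z ^ 2)).filter (fun b => ¬ w < b), ‖((vg z b : ℝ) : ℂ) * χ (b : ZMod q) *
        ∑ c ∈ Icc 1 (Y / b), χ (c : ZMod q)‖ ≤ L * V := by
      intro b hb
      rw [Finset.mem_filter, Finset.mem_Icc] at hb
      have hbw : b ≤ w := by omega
      have hbx : (b : ℝ) ≤ x := by
        refine le_trans ?_ (hwx.trans h4x)
        exact_mod_cast hbw
      have hv := (h2 z b hb.1.1).1
      have hb1 := (h3 q (Y / b) χ hq hχ).1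
      rw [← hV] at hb1
      rw [norm_mul, norm_mul, Complex.norm_real, Real.norm_eq_abs]
      refine mul_le_mul ?_ hb1 (norm_nonneg _) hL0
      calc |vg z b| * ‖χ (b : ZMod q)‖ ≤ L * 1 :=
            mul_le_mul (hv.trans (hlog b hbx)) (Dcp_chi χ b) (norm_nonneg _) hL0
        _ = L := mul_one L
    have hs2 : ((Icc 1 (z ^ 2)).filter (fun b => ¬ w < b)).card ≤ w := by
      calc ((Icc 1 (z ^ 2)).filter (fun b => ¬ w < b)).card ≤ (Icc 1 w).card := by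
            refine Finset.card_le_card fun n hn => ?_
            rw [Finset.mem_filter, Finset.mem_Icc] at hn
            rw [Finset.mem_Icc]
            exact ⟨hn.1.1, by omega⟩
        _ = w := by simp
    calc ‖∑ b ∈ (Icc 1 (z ^ 2)).filter (fun b => ¬ w < b), ((vg z b : ℝ) : ℂ) * χ (b : ZMod q) *
          ∑ c ∈ Icc 1 (Y / b), χ (c : ZMod q)‖
        ≤ ∑ b ∈ (Icc 1 (z ^ 2)).filter (fun b => ¬ w < b), L * V :=
          (norm_sum_le _ _).trans (Finset.sum_le_sum hs1)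
      _ = (((Icc 1 (z ^ 2)).filter (fun b => ¬ w < b)).card : ℝ) * (L * V) := by
          rw [Finset.sum_const, nsmul_eq_mul]
      _ ≤ T * (L * V) := by
          refine mul_le_mul_of_nonneg_right ?_ (by positivity)
          exact le_trans (by exact_mod_cast hs2) hwx
      _ = T * L * V := by ring
  -- the box parts
  have hx45 : x ^ ((2 : ℝ) / 5) ≤ x ^ ((4 : ℝ) / 5) :=
    Real.rpow_le_rpow_of_exponent_le hx1 (by norm_num)
  have hz2 : ((z ^ 2 : ℕ) : ℝ) ≤ x ^ ((2 : ℝ) / 5) := by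
    push_cast
    calc (z : ℝ) ^ 2 ≤ (x ^ ((1 : ℝ) / 5)) ^ 2 := pow_le_pow_left₀ (by positivity) hzx 2
      _ = x ^ ((2 : ℝ) / 5) := by
        rw [← Real.rpow_natCast, ← Real.rpow_mul hx0.le]
        norm_num
  have hbox2 := Dcp_bil a2 (fun _ => 1) x Y J hY hJ χ (by
    intro m n hm hn ha _ hmn
    have hwm : w < m ∧ vg z m ≠ 0 := by
      rw [ha2] at ha
      simp only at ha
      split_ifs at ha with h
      · exact ⟨h, fun h0 => ha (by rw [h0]; simp)⟩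
      · exact absurd rfl ha
    constructor
    · have hmz : m ≤ z ^ 2 := by
        by_contra hlt
        exact hwm.2 ((h2 z m hm).2.1 (by omega))
      exact le_trans (by exact_mod_cast hmz) (hz2.trans hx45)
    · exact Dcp_quot x (1 / 4) m n hx (by norm_num) (hwlt m hwm.1) (by positivity) hmn)
  have hbox1 := Dcp_bil (fun m => ((vh z m : ℝ) : ℂ)) (fun n => ((vl z n : ℝ) : ℂ)) x Y J hY hJ χ (by
    intro m n hm hn ha hb hmn
    have hzm : z < m := by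
      by_contra hle
      apply ha
      rw [(h2 z m hm).2.2.2.1 (by omega)]
      simp
    have hzn : z < n := by
      by_contra hle
      apply hb
      simp only [vl]
      rw [if_neg hle]
      simp
    constructor
    · exact Dcp_quot x (1 / 5) n m hx le_rfl (hzlt n hzn) (by positivity) (by rw [mul_comm]; exact hmn)
    · exact Dcp_quot x (1 / 5) m n hx le_rfl (hzlt m hzm) (by positivity) hmn)
  -- assembly
  have hPS : PS χ Y = ∑ n ∈ (Icc 1 Y).filter (fun n => n ≤ z),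
        ((ArithmeticFunction.vonMangoldt n : ℝ) : ℂ) * χ (n : ZMod q) +
      ∑ b ∈ Icc 1 z, ((ArithmeticFunction.moebius b : ℝ) : ℂ) * χ (b : ZMod q) *
        ∑ c ∈ Icc 1 (Y / b), ((Real.log c : ℝ) : ℂ) * χ (c : ZMod q) -
      ∑ b ∈ Icc 1 (z ^ 2), ((vg z b : ℝ) : ℂ) * χ (b : ZMod q) * ∑ c ∈ Icc 1 (Y / b), χ (c : ZMod q) +
      ∑ m ∈ Icc 1 Y, ∑ n ∈ Icc 1 (Y / m), tw (fun m => ((vh z m : ℝ) : ℂ)) χ m *
        tw (fun n => ((vl z n : ℝ) : ℂ)) χ n := hvau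
  rw [hPS]
  refine (norm_add_le _ _).trans ?_
  refine (add_le_add (norm_sub_le _ _) le_rfl).trans ?_
  refine (add_le_add (add_le_add (norm_add_le _ _) le_rfl) le_rfl).trans ?_
  have hsum : ∑ i ∈ range J, ∑ j ∈ range J,
      (if (2 : ℝ) ^ i ≤ x ^ ((4 : ℝ) / 5) ∧ (2 : ℝ) ^ j ≤ x ^ ((4 : ℝ) / 5) ∧
          (2 : ℝ) ^ i * 2 ^ j ≤ x then
        ‖BL (fun m => ((vh z m : ℝ) : ℂ)) (fun n => ((vl z n : ℝ) : ℂ)) (2 ^ i) (2 ^ j) Y χ‖ +
          ‖BL (fun m => if w < m then ((vg z m : ℝ) : ℂ) else 0) (fun _ => 1) (2 ^ i) (2 ^ j) Y χ‖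
      else 0) =
      (∑ i ∈ range J, ∑ j ∈ range J,
        if (2 : ℝ) ^ i ≤ x ^ ((4 : ℝ) / 5) ∧ (2 : ℝ) ^ j ≤ x ^ ((4 : ℝ) / 5) ∧ (2 : ℝ) ^ i * 2 ^ j ≤ x then
          ‖BL (fun m => ((vh z m : ℝ) : ℂ)) (fun n => ((vl z n : ℝ) : ℂ)) (2 ^ i) (2 ^ j) Y χ‖ else 0) +
      ∑ i ∈ range J, ∑ j ∈ range J,
        if (2 : ℝ) ^ i ≤ x ^ ((4 : ℝ) / 5) ∧ (2 : ℝ) ^ j ≤ x ^ ((4 : ℝ) / 5) ∧ (2 : ℝ) ^ i * 2 ^ j ≤ x then
          ‖BL a2 (fun _ => 1) (2 ^ i) (2 ^ j) Y χ‖ else 0 := by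
    rw [← Finset.sum_add_distrib]
    refine Finset.sum_congr rfl fun i _ => ?_
    rw [← Finset.sum_add_distrib]
    refine Finset.sum_congr rfl fun j _ => ?_
    rw [ha2]
    split_ifs <;> simp
  rw [hsum]
  linarith

end Pool.Agent.Lib.CO
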