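import Pool.Agent.Lib.CO.SpecW

namespace Pool.Agent.Lib.CO

open Finset Pool.Agent.Lib.BV Pool.Agent.Results.MP_00e23e_nt

/-- the bound for the index -/
private lemma Dvw_m (x Λ m D : ℝ) (d : ℕ) (hx : 3 ≤ x) (hd : 1 ≤ d) (hΛ : 1 ≤ Λ) (hm : 1 ≤ m)
    (hmd : m ≤ (d : ℝ)) (hD : 1 ≤ D) (h : Real.sqrt x < (d : ℝ) * Λ → Adm x Λ d m D) :
    m ≤ x / Λ + x ^ ((9 : ℝ) / 10) := by
  have hd' : (1 : ℝ) ≤ d := by exact_mod_cast hd
  have hx0 : 0 < x := by linarith
  have hx1 : (1 : ℝ) ≤ x := by linarith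
  have hΛ0 : 0 < Λ := by linarith
  have hm0 : 0 < m := by linarith
  have hD0 : 0 < D := by linarith
  have hd0 : (0 : ℝ) < d := by linarith
  have hA : 0 ≤ x / Λ := by positivity
  have hB : 0 ≤ x ^ ((9 : ℝ) / 10) := by positivity
  have hy : x ^ ((3 : ℝ) / 4) ≤ x ^ ((9 : ℝ) / 10) :=
    Real.rpow_le_rpow_of_exponent_le hx1 (by norm_num)
  by_cases hc : Real.sqrt x < (d : ℝ) * Λ
  · rcases h hc with ⟨k, hk, hk2⟩ | ⟨_, h2⟩
    · have h3 : D ^ k * m ^ (k - 1) * Λ ≤ (d : ℝ) := hk2.trans (min_le_left _ _)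
      have h4 : D ^ k * m ^ (k - 1) * Λ ≤ x ^ k / d := hk2.trans (min_le_right _ _)
      have hDk : 1 ≤ D ^ k := one_le_pow₀ hD
      have hmk : 1 ≤ m ^ (k - 1) := one_le_pow₀ hm
      rcases Nat.lt_or_ge k 2 with h5 | h5
      · have hk1 : k = 1 := by omega
        subst hk1
        simp only [pow_one, Nat.sub_self, pow_zero, mul_one] at h4
        have h6 : Λ ≤ x / d := le_trans (by nlinarith) h4
        have h7 : (d : ℝ) ≤ x / Λ := by
          rw [le_div_iff₀ hΛ0]
          rw [le_div_iff₀ hd0] at h6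
          linarith
        linarith
      · rcases Nat.lt_or_ge k 3 with h6 | h6
        · have hk1 : k = 2 := by omega
          subst hk1
          have h7 : m * Λ ≤ D ^ 2 * m ^ (2 - 1) * Λ := by
            have : m * Λ ≤ D ^ 2 * (m * Λ) := le_mul_of_one_le_left (by positivity) hDk
            calc m * Λ ≤ D ^ 2 * (m * Λ) := this
              _ = D ^ 2 * m ^ (2 - 1) * Λ := by norm_num; ring
          have h8 : m * Λ ≤ x := by
            by_contra h9
            rw [not_le] at h9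
            have h10 : x < (d : ℝ) := lt_of_lt_of_le h9 (h7.trans h3)
            have h11 : x < x ^ 2 / d := lt_of_lt_of_le h9 (h7.trans h4)
            rw [lt_div_iff₀ hd0] at h11
            nlinarith
          have h9 : m ≤ x / Λ := by
            rw [le_div_iff₀ hΛ0]
            exact h8
          linarith
        · have h7 : m ^ (k - 1) ≤ D ^ k * m ^ (k - 1) * Λ := by
            have e1 : m ^ (k - 1) ≤ D ^ k * m ^ (k - 1) := le_mul_of_one_le_left (by positivity) hDk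
            have e2 : D ^ k * m ^ (k - 1) ≤ D ^ k * m ^ (k - 1) * Λ :=
              le_mul_of_one_le_right (by positivity) hΛ
            exact e1.trans e2
          have h8 : m ^ (k - 1) * m ^ (k - 1) ≤ x ^ k := by
            calc m ^ (k - 1) * m ^ (k - 1) ≤ (d : ℝ) * (x ^ k / d) :=
                  mul_le_mul (h7.trans h3) (h7.trans h4) (by positivity) (by positivity)
              _ = x ^ k := by field_simp
          have h9 : m ≤ x ^ ((3 : ℝ) / 4) := by
            by_contra h10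
            rw [not_le] at h10
            have h11 : (x ^ ((3 : ℝ) / 4)) ^ (k - 1 + (k - 1)) < m ^ (k - 1 + (k - 1)) :=
              pow_lt_pow_left₀ h10 (by positivity) (by omega)
            have h12 : x ^ k ≤ (x ^ ((3 : ℝ) / 4)) ^ (k - 1 + (k - 1)) := by
              rw [← Real.rpow_natCast x k, ← Real.rpow_natCast (x ^ ((3 : ℝ) / 4)),
                ← Real.rpow_mul hx0.le]
              refine Real.rpow_le_rpow_of_exponent_le hx1 ?_
              have h13 : ((k - 1 + (k - 1) : ℕ) : ℝ) = 2 * (k : ℝ) - 2 := by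
                have : k - 1 + (k - 1) + 2 = 2 * k := by omega
                have h' : ((k - 1 + (k - 1) : ℕ) : ℝ) + 2 = 2 * (k : ℝ) := by exact_mod_cast this
                linarith
              have h14 : (3 : ℝ) ≤ k := by exact_mod_cast h6
              rw [h13]
              linarith
            rw [pow_add m] at h11
            linarith
          linarith
    · have h3 : m * m ≤ x ^ ((3 : ℝ) / 2) := by
        refine le_trans ?_ h2
        have e1 : m * m ≤ m * d := mul_le_mul_of_nonneg_left hmd hm0.le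
        have e2 : m * d ≤ D * (m * d) := le_mul_of_one_le_left (by positivity) hD
        have e3 : D * (m * d) ≤ D * (m * d) * Λ := le_mul_of_one_le_right (by positivity) hΛ
        calc m * m ≤ D * (m * d) * Λ := e1.trans (e2.trans e3)
          _ = D * m * d * Λ := by ring
      have h4 : m ≤ x ^ ((3 : ℝ) / 4) := by
        refine abs_le_of_sq_le_sq' ?_ (by positivity) |>.2
        calc m ^ 2 = m * m := by ring
          _ ≤ x ^ ((3 : ℝ) / 2) := h3
          _ = (x ^ ((3 : ℝ) / 4)) ^ 2 := by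
              rw [← Real.rpow_natCast (x ^ ((3 : ℝ) / 4)), ← Real.rpow_mul hx0.le]
              norm_num
      linarith
  · rw [not_lt] at hc
    have h1 : (d : ℝ) ≤ Real.sqrt x := le_trans (le_mul_of_one_le_right hd0.le hΛ) hc
    have h2 : Real.sqrt x ≤ x ^ ((9 : ℝ) / 10) := by
      rw [Real.sqrt_eq_rpow]
      exact Real.rpow_le_rpow_of_exponent_le hx1 (by norm_num)
    linarith

/-- powers of the logarithm -/
private lemma Dvw_log (x U : ℝ) (hx : 3 ≤ x) (hU : 0 < U) :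
    x ^ ((9 : ℝ) / 10) * (Real.log x) ^ (9 : ℕ) ≤
      (10 * (9 + U)) ^ (9 + U) * (x / (Real.log x) ^ U) := by
  have hx0 : 0 < x := by linarith
  have hL1 : 1 ≤ Real.log x := by
    rw [Real.le_log_iff_exp_le hx0]
    have := Real.exp_one_lt_d9
    linarith
  have hL0 : 0 < Real.log x := by linarith
  have hLU : 0 < (Real.log x) ^ U := Real.rpow_pos_of_pos hL0 _
  set ε : ℝ := 1 / (10 * (9 + U)) with hε
  have hε0 : 0 < ε := by positivity
  have h1 : Real.log x ≤ x ^ ε / ε := Real.log_le_rpow_div hx0.le hε0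
  have h2 : (Real.log x) ^ (9 + U) ≤ (x ^ ε / ε) ^ (9 + U) :=
    Real.rpow_le_rpow hL0.le h1 (by positivity)
  have h3 : (x ^ ε / ε) ^ (9 + U) = x ^ ((1 : ℝ) / 10) * (10 * (9 + U)) ^ (9 + U) := by
    have e1 : x ^ ε / ε = x ^ ε * (10 * (9 + U)) := by
      rw [hε]
      field_simp
    rw [e1, Real.mul_rpow (by positivity) (by positivity), ← Real.rpow_mul hx0.le]
    congr 2
    rw [hε]
    field_simp
  have h4 : (Real.log x) ^ (9 + U) = (Real.log x) ^ (9 : ℕ) * (Real.log x) ^ U := by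
    rw [Real.rpow_add hL0, ← Real.rpow_natCast (Real.log x) 9]
    norm_num
  have h5 : x = x ^ ((9 : ℝ) / 10) * x ^ ((1 : ℝ) / 10) := by
    rw [← Real.rpow_add hx0]
    norm_num
  have h6 : x ^ ((9 : ℝ) / 10) * ((Real.log x) ^ (9 : ℕ) * (Real.log x) ^ U) ≤
      (10 * (9 + U)) ^ (9 + U) * x := by
    calc x ^ ((9 : ℝ) / 10) * ((Real.log x) ^ (9 : ℕ) * (Real.log x) ^ U)
        ≤ x ^ ((9 : ℝ) / 10) * (x ^ ((1 : ℝ) / 10) * (10 * (9 + U)) ^ (9 + U)) := by
          rw [← h4, ← h3]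
          exact mul_le_mul_of_nonneg_left h2 (by positivity)
      _ = (10 * (9 + U)) ^ (9 + U) * (x ^ ((9 : ℝ) / 10) * x ^ ((1 : ℝ) / 10)) := by ring
      _ = (10 * (9 + U)) ^ (9 + U) * x := by rw [← h5]
  rw [mul_div_assoc', le_div_iff₀ hLU]
  linarith

theorem tDvw (h1 : Smb2Stmt) : DvwStmt := by
  intro A U hA hU
  set W : ℝ := (10 * (9 + U)) ^ (9 + U) with hW
  have hW0 : 0 < W := Real.rpow_pos_of_pos (by positivity) _
  have hK : 0 < 2 * A * (1 + A) ^ 8 := by positivity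
  refine ⟨U + 9 + 2 * A * (1 + A) ^ 8 * (1 + W), by positivity, ?_⟩
  intro x S m Dd hx hS
  set C : ℝ := U + 9 + 2 * A * (1 + A) ^ 8 * (1 + W) with hC
  have hKW : 0 < 2 * A * (1 + A) ^ 8 * (1 + W) := by positivity
  set L : ℝ := Real.log x with hL
  have hx0 : 0 < x := by linarith
  have hx1 : (1 : ℝ) ≤ x := by linarith
  have hL1 : 1 ≤ L := by
    rw [hL, Real.le_log_iff_exp_le hx0]
    have := Real.exp_one_lt_d9
    linarith
  have hL0 : 0 < L := by linarith
  have hLC : 0 < L ^ C := Real.rpow_pos_of_pos hL0 _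
  have hLC1 : 1 ≤ L ^ C := Real.one_le_rpow hL1 (by rw [hC]; positivity)
  set D : ℕ := ⌊x ^ A⌋₊ with hD
  have hxA : (1 : ℝ) ≤ x ^ A := Real.one_le_rpow hx1 hA.le
  have hD1 : 1 ≤ D := by
    rw [hD]
    exact Nat.le_floor (by simpa using hxA)
  have hlogxA : Real.log (x ^ A) = A * L := Real.log_rpow hx0 A
  have hlogD : Real.log D ≤ A * L := by
    rw [← hlogxA]
    refine Real.log_le_log (by exact_mod_cast hD1) ?_
    exact Nat.floor_le (by linarith)
  have hlogD0 : 0 ≤ Real.log D := Real.log_natCast_nonneg D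
  have hSD : S ⊆ Icc 1 D := by
    intro d hd
    rw [mem_Icc]
    exact ⟨(hS d hd).1, Nat.le_floor (hS d hd).2.1⟩
  have hM : 0 ≤ x / L ^ C + x ^ ((9 : ℝ) / 10) := by positivity
  have key : ∀ d ∈ S, (1 / (d.totient : ℝ)) * ((d.divisors.card : ℝ) ^ 2 * (m d * (2 * Real.log d))) ≤
      ((d.divisors.card : ℝ) ^ 2 / (d.totient : ℝ)) *
        ((x / L ^ C + x ^ ((9 : ℝ) / 10)) * (2 * (A * L))) := by
    intro d hd
    obtain ⟨hd1, hdA, hm1, hmt, hD1', hAdm⟩ := hS d hd
    have hmx : m d ≤ x / L ^ C + x ^ ((9 : ℝ) / 10) :=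
      Dvw_m x (L ^ C) (m d) (Dd d) d hx hd1 hLC1 hm1
        (hmt.trans (by exact_mod_cast Nat.totient_le d)) hD1' hAdm
    have hlogd : Real.log d ≤ A * L := by
      rw [← hlogxA]
      exact Real.log_le_log (by exact_mod_cast hd1) hdA
    have hlogd0 : 0 ≤ Real.log d := Real.log_natCast_nonneg d
    have h2 : m d * (2 * Real.log d) ≤ (x / L ^ C + x ^ ((9 : ℝ) / 10)) * (2 * (A * L)) := by
      apply mul_le_mul hmx (by linarith) (by linarith) hM
    have h3 : (1 / (d.totient : ℝ)) * ((d.divisors.card : ℝ) ^ 2 * (m d * (2 * Real.log d))) =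
        ((d.divisors.card : ℝ) ^ 2 / (d.totient : ℝ)) * (m d * (2 * Real.log d)) := by ring
    rw [h3]
    exact mul_le_mul_of_nonneg_left h2 (by positivity)
  have hb : 0 ≤ (x / L ^ C + x ^ ((9 : ℝ) / 10)) * (2 * (A * L)) := by positivity
  have h5 : ∑ d ∈ S, (d.divisors.card : ℝ) ^ 2 / (d.totient : ℝ) ≤ ((1 + A) * L) ^ 8 := by
    calc ∑ d ∈ S, (d.divisors.card : ℝ) ^ 2 / (d.totient : ℝ)
        ≤ ∑ d ∈ Icc 1 D, (d.divisors.card : ℝ) ^ 2 / (d.totient : ℝ) :=
          sum_le_sum_of_subset_of_nonneg hSD (fun _ _ _ => by positivity)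
      _ ≤ (1 + Real.log D) ^ 8 := h1 D hD1
      _ ≤ ((1 + A) * L) ^ 8 := by
          apply pow_le_pow_left₀ (by linarith)
          nlinarith
  have hLU : 0 < L ^ U := Real.rpow_pos_of_pos hL0 _
  have h6 : x / L ^ C * L ^ (9 : ℕ) ≤ x / L ^ U := by
    have e1 : L ^ U * L ^ (9 : ℕ) ≤ L ^ C := by
      rw [← Real.rpow_natCast L 9, ← Real.rpow_add hL0]
      apply Real.rpow_le_rpow_of_exponent_le hL1
      rw [hC]
      push_cast
      linarith
    rw [div_mul_eq_mul_div, div_le_div_iff₀ hLC hLU]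
    calc x * L ^ (9 : ℕ) * L ^ U = x * (L ^ U * L ^ (9 : ℕ)) := by ring
      _ ≤ x * L ^ C := mul_le_mul_of_nonneg_left e1 hx0.le
  have h7 := Dvw_log x U hx hU
  rw [← hL, ← hW] at h7
  have hxLU : 0 ≤ x / L ^ U := by positivity
  calc ∑ d ∈ S, (1 / (d.totient : ℝ)) * ((d.divisors.card : ℝ) ^ 2 * (m d * (2 * Real.log d)))
      ≤ ∑ d ∈ S, ((d.divisors.card : ℝ) ^ 2 / (d.totient : ℝ)) *
        ((x / L ^ C + x ^ ((9 : ℝ) / 10)) * (2 * (A * L))) := sum_le_sum key
    _ = (∑ d ∈ S, (d.divisors.card : ℝ) ^ 2 / (d.totient : ℝ)) *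
        ((x / L ^ C + x ^ ((9 : ℝ) / 10)) * (2 * (A * L))) := by
        rw [sum_mul]
    _ ≤ ((1 + A) * L) ^ 8 * ((x / L ^ C + x ^ ((9 : ℝ) / 10)) * (2 * (A * L))) :=
        mul_le_mul_of_nonneg_right h5 hb
    _ = (2 * A * (1 + A) ^ 8) * (x / L ^ C * L ^ (9 : ℕ) + x ^ ((9 : ℝ) / 10) * L ^ (9 : ℕ)) := by
        ring
    _ ≤ (2 * A * (1 + A) ^ 8) * (x / L ^ U + W * (x / L ^ U)) :=
        mul_le_mul_of_nonneg_left (add_le_add h6 h7) hK.le
    _ = (2 * A * (1 + A) ^ 8 * (1 + W)) * (x / L ^ U) := by ring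
    _ ≤ C * (x / L ^ U) := by
        apply mul_le_mul_of_nonneg_right _ hxLU
        rw [hC]
        linarith

end Pool.Agent.Lib.CO
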