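import Pool.Agent.Lib.CO.SpecW

namespace Pool.Agent.Lib.CO

open Finset Pool.Agent.Lib.BV Pool.Agent.Results.MP_00e23e_nt

private theorem Hlw_cs (ι : Type) (s : Finset ι) (f h : ι → ℝ) :
    (∑ i ∈ s, f i * h i) ^ 2 ≤ (∑ i ∈ s, f i ^ 2) * ∑ i ∈ s, h i ^ 2 :=
  Finset.sum_mul_sq_le_sq_mul_sq s f h

/-- `(∑ h²)³ ≤ card (∑ h³)²`. -/
private theorem Hlw_pm (ι : Type) (s : Finset ι) (h : ι → ℝ) (hh : ∀ i ∈ s, 0 ≤ h i) :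
    (∑ i ∈ s, h i ^ 2) ^ 3 ≤ (s.card : ℝ) * (∑ i ∈ s, h i ^ 3) ^ 2 := by
  have h1 : (∑ i ∈ s, h i) ^ 2 ≤ (s.card : ℝ) * ∑ i ∈ s, h i ^ 2 := by
    have := Hlw_cs ι s (fun _ => 1) h
    simpa using this
  have h2 : (∑ i ∈ s, h i ^ 2) ^ 2 ≤ (∑ i ∈ s, h i) * ∑ i ∈ s, h i ^ 3 := by
    have h3 := Hlw_cs ι s (fun i => Real.sqrt (h i)) (fun i => h i * Real.sqrt (h i))
    have e1 : ∑ i ∈ s, Real.sqrt (h i) * (h i * Real.sqrt (h i)) = ∑ i ∈ s, h i ^ 2 :=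
      sum_congr rfl fun i hi => by
        have := Real.mul_self_sqrt (hh i hi)
        calc Real.sqrt (h i) * (h i * Real.sqrt (h i))
            = h i * (Real.sqrt (h i) * Real.sqrt (h i)) := by ring
          _ = h i ^ 2 := by rw [this]; ring
    have e2 : ∑ i ∈ s, Real.sqrt (h i) ^ 2 = ∑ i ∈ s, h i :=
      sum_congr rfl fun i hi => Real.sq_sqrt (hh i hi)
    have e3 : ∑ i ∈ s, (h i * Real.sqrt (h i)) ^ 2 = ∑ i ∈ s, h i ^ 3 :=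
      sum_congr rfl fun i hi => by rw [mul_pow, Real.sq_sqrt (hh i hi)]; ring
    rwa [e1, e2, e3] at h3
  have p2 : 0 ≤ ∑ i ∈ s, h i ^ 2 := sum_nonneg fun i _ => sq_nonneg _
  rcases p2.eq_or_lt with h0 | h0
  · rw [← h0]
    have : (0 : ℝ) ^ 3 = 0 := by norm_num
    rw [this]
    positivity
  · refine le_of_mul_le_mul_left ?_ h0
    calc (∑ i ∈ s, h i ^ 2) * (∑ i ∈ s, h i ^ 2) ^ 3
        = ((∑ i ∈ s, h i ^ 2) ^ 2) ^ 2 := by ring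
      _ ≤ ((∑ i ∈ s, h i) * ∑ i ∈ s, h i ^ 3) ^ 2 := pow_le_pow_left₀ (sq_nonneg _) h2 2
      _ = (∑ i ∈ s, h i) ^ 2 * (∑ i ∈ s, h i ^ 3) ^ 2 := by ring
      _ ≤ ((s.card : ℝ) * ∑ i ∈ s, h i ^ 2) * (∑ i ∈ s, h i ^ 3) ^ 2 :=
          mul_le_mul_of_nonneg_right h1 (sq_nonneg _)
      _ = (∑ i ∈ s, h i ^ 2) * ((s.card : ℝ) * (∑ i ∈ s, h i ^ 3) ^ 2) := by ring

private theorem Hlw_one (ι : Type) (s : Finset ι) (f u v : ι → ℝ) (hu : ∀ i ∈ s, 0 ≤ u i)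
    (hv : ∀ i ∈ s, 0 ≤ v i) :
    (∑ i ∈ s, f i * (Real.sqrt (u i) * Real.sqrt (v i))) ^ 6 ≤
      (∑ i ∈ s, f i ^ 2) ^ 3 * (s.card : ℝ) *
        ((∑ i ∈ s, u i ^ 2 * v i) * ∑ i ∈ s, v i ^ 2 * u i) := by
  have h1 := Hlw_cs ι s f (fun i => Real.sqrt (u i) * Real.sqrt (v i))
  have h2 := Hlw_pm ι s (fun i => Real.sqrt (u i) * Real.sqrt (v i)) fun i _ => by positivity
  have h3 := Hlw_cs ι s (fun i => u i * Real.sqrt (v i)) (fun i => v i * Real.sqrt (u i))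
  have e1 : ∑ i ∈ s, (u i * Real.sqrt (v i)) * (v i * Real.sqrt (u i)) =
      ∑ i ∈ s, (Real.sqrt (u i) * Real.sqrt (v i)) ^ 3 := by
    refine sum_congr rfl fun i hi => ?_
    have a2 := Real.mul_self_sqrt (hu i hi)
    have a3 := Real.mul_self_sqrt (hv i hi)
    calc (u i * Real.sqrt (v i)) * (v i * Real.sqrt (u i))
        = (u i * v i) * (Real.sqrt (u i) * Real.sqrt (v i)) := by ring
      _ = ((Real.sqrt (u i) * Real.sqrt (u i)) * (Real.sqrt (v i) * Real.sqrt (v i))) *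
          (Real.sqrt (u i) * Real.sqrt (v i)) := by rw [a2, a3]
      _ = (Real.sqrt (u i) * Real.sqrt (v i)) ^ 3 := by ring
  have e2 : ∑ i ∈ s, (u i * Real.sqrt (v i)) ^ 2 = ∑ i ∈ s, u i ^ 2 * v i :=
    sum_congr rfl fun i hi => by rw [mul_pow, Real.sq_sqrt (hv i hi)]
  have e3 : ∑ i ∈ s, (v i * Real.sqrt (u i)) ^ 2 = ∑ i ∈ s, v i ^ 2 * u i :=
    sum_congr rfl fun i hi => by rw [mul_pow, Real.sq_sqrt (hu i hi)]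
  rw [e1, e2, e3] at h3
  have pf : 0 ≤ ∑ i ∈ s, f i ^ 2 := sum_nonneg fun i _ => sq_nonneg _
  calc (∑ i ∈ s, f i * (Real.sqrt (u i) * Real.sqrt (v i))) ^ 6
      = ((∑ i ∈ s, f i * (Real.sqrt (u i) * Real.sqrt (v i))) ^ 2) ^ 3 := by ring
    _ ≤ ((∑ i ∈ s, f i ^ 2) * ∑ i ∈ s, (Real.sqrt (u i) * Real.sqrt (v i)) ^ 2) ^ 3 :=
        pow_le_pow_left₀ (sq_nonneg _) h1 3
    _ = (∑ i ∈ s, f i ^ 2) ^ 3 * (∑ i ∈ s, (Real.sqrt (u i) * Real.sqrt (v i)) ^ 2) ^ 3 := by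
        rw [mul_pow]
    _ ≤ (∑ i ∈ s, f i ^ 2) ^ 3 *
        ((s.card : ℝ) * (∑ i ∈ s, (Real.sqrt (u i) * Real.sqrt (v i)) ^ 3) ^ 2) :=
        mul_le_mul_of_nonneg_left h2 (pow_nonneg pf 3)
    _ = (∑ i ∈ s, f i ^ 2) ^ 3 * (s.card : ℝ) *
        (∑ i ∈ s, (Real.sqrt (u i) * Real.sqrt (v i)) ^ 3) ^ 2 := by ring
    _ ≤ (∑ i ∈ s, f i ^ 2) ^ 3 * (s.card : ℝ) *
        ((∑ i ∈ s, u i ^ 2 * v i) * ∑ i ∈ s, v i ^ 2 * u i) :=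
        mul_le_mul_of_nonneg_left h3 (mul_nonneg (pow_nonneg pf 3) (Nat.cast_nonneg _))

private theorem Hlw_two (h1 : HolStmt) (ι : Type) (s : Finset ι) (w t a b : ι → ℝ) (R : ℝ)
    (hR : 0 ≤ R) (hw : ∀ i ∈ s, 0 ≤ w i) (ht : ∀ i ∈ s, 0 ≤ t i) (ha : ∀ i ∈ s, 0 ≤ a i)
    (hb : ∀ i ∈ s, 0 ≤ b i) (h : ∀ i ∈ s, t i ^ 6 ≤ R * (a i * b i)) :
    (∑ i ∈ s, w i * t i) ^ 6 ≤
      R * (∑ i ∈ s, w i) ^ 4 * ((∑ i ∈ s, w i * a i) * ∑ i ∈ s, w i * b i) := by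
  have hol := h1 ι s w t 3 (by norm_num) hw ht
  have hcs := Hlw_cs ι s (fun i => Real.sqrt (R * (w i * a i))) (fun i => Real.sqrt (w i * b i))
  have e2 : ∑ i ∈ s, Real.sqrt (R * (w i * a i)) ^ 2 = R * ∑ i ∈ s, w i * a i := by
    rw [mul_sum]
    exact sum_congr rfl fun i hi =>
      Real.sq_sqrt (mul_nonneg hR (mul_nonneg (hw i hi) (ha i hi)))
  have e3 : ∑ i ∈ s, Real.sqrt (w i * b i) ^ 2 = ∑ i ∈ s, w i * b i :=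
    sum_congr rfl fun i hi => Real.sq_sqrt (mul_nonneg (hw i hi) (hb i hi))
  rw [e2, e3] at hcs
  have hle : ∑ i ∈ s, w i * t i ^ 3 ≤
      ∑ i ∈ s, Real.sqrt (R * (w i * a i)) * Real.sqrt (w i * b i) := by
    refine sum_le_sum fun i hi => ?_
    rw [← Real.sqrt_mul (mul_nonneg hR (mul_nonneg (hw i hi) (ha i hi)))]
    refine Real.le_sqrt_of_sq_le ?_
    calc (w i * t i ^ 3) ^ 2 = w i ^ 2 * t i ^ 6 := by ring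
      _ ≤ w i ^ 2 * (R * (a i * b i)) := mul_le_mul_of_nonneg_left (h i hi) (sq_nonneg _)
      _ = R * (w i * a i) * (w i * b i) := by ring
  have p1 : 0 ≤ ∑ i ∈ s, w i * t i := sum_nonneg fun i hi => mul_nonneg (hw i hi) (ht i hi)
  have p3 : 0 ≤ ∑ i ∈ s, w i * t i ^ 3 :=
    sum_nonneg fun i hi => mul_nonneg (hw i hi) (pow_nonneg (ht i hi) 3)
  have hW : 0 ≤ (∑ i ∈ s, w i) ^ 4 := pow_nonneg (sum_nonneg hw) 4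
  calc (∑ i ∈ s, w i * t i) ^ 6 = ((∑ i ∈ s, w i * t i) ^ 3) ^ 2 := by ring
    _ ≤ ((∑ i ∈ s, w i) ^ (3 - 1) * ∑ i ∈ s, w i * t i ^ 3) ^ 2 :=
        pow_le_pow_left₀ (pow_nonneg p1 3) hol 2
    _ = (∑ i ∈ s, w i) ^ 4 * (∑ i ∈ s, w i * t i ^ 3) ^ 2 := by rw [mul_pow, ← pow_mul]
    _ ≤ (∑ i ∈ s, w i) ^ 4 *
        (∑ i ∈ s, Real.sqrt (R * (w i * a i)) * Real.sqrt (w i * b i)) ^ 2 :=
        mul_le_mul_of_nonneg_left (pow_le_pow_left₀ p3 hle 2) hW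
    _ ≤ (∑ i ∈ s, w i) ^ 4 * (R * (∑ i ∈ s, w i * a i) * ∑ i ∈ s, w i * b i) :=
        mul_le_mul_of_nonneg_left hcs hW
    _ = R * (∑ i ∈ s, w i) ^ 4 * ((∑ i ∈ s, w i * a i) * ∑ i ∈ s, w i * b i) := by ring

theorem tHlw (h1 : HolStmt) : HlwStmt :=
  ⟨fun ι s f u v _ hu hv => Hlw_one ι s f u v hu hv,
    fun ι s w t a b R hR hw ht ha hb h => Hlw_two h1 ι s w t a b R hR hw ht ha hb h⟩

end Pool.Agent.Lib.CO
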