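import Pool.Agent.Lib.CO.Spec

/-! # MP_00e23e_nt, THEOREM COS, module Hol: weighted power mean -/

namespace Pool.Agent.Lib.CO

open Finset Pool.Agent.Lib.BV Pool.Agent.Results.MP_00e23e_nt

theorem tHol : HolStmt := by
  intro ι s w a n hn hw ha
  have hW0 : 0 ≤ ∑ i ∈ s, w i := Finset.sum_nonneg hw
  rcases hW0.eq_or_lt with hW | hW
  · have hz : ∀ i ∈ s, w i = 0 := (Finset.sum_eq_zero_iff_of_nonneg hw).1 hW.symm
    have h1 : ∑ i ∈ s, w i * a i = 0 :=
      Finset.sum_eq_zero fun i hi => by rw [hz i hi, zero_mul]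
    have h2 : ∑ i ∈ s, w i * a i ^ n = 0 :=
      Finset.sum_eq_zero fun i hi => by rw [hz i hi, zero_mul]
    rw [h1, h2, mul_zero, zero_pow (by omega)]
  · set W := ∑ i ∈ s, w i with hWdef
    have hJ := Real.pow_arith_mean_le_arith_mean_pow s (fun i => w i / W) a
      (fun i hi => div_nonneg (hw i hi) hW.le)
      (by rw [← Finset.sum_div, ← hWdef, div_self hW.ne']) ha n
    have e1 : ∑ i ∈ s, w i / W * a i = (∑ i ∈ s, w i * a i) / W := by
      rw [Finset.sum_div]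
      exact Finset.sum_congr rfl fun i _ => by ring
    have e2 : ∑ i ∈ s, w i / W * a i ^ n = (∑ i ∈ s, w i * a i ^ n) / W := by
      rw [Finset.sum_div]
      exact Finset.sum_congr rfl fun i _ => by ring
    rw [e1, e2, div_pow, div_le_div_iff₀ (pow_pos hW n) hW] at hJ
    obtain ⟨m, rfl⟩ : ∃ m, n = m + 1 := ⟨n - 1, by omega⟩
    have h3 : (∑ i ∈ s, w i * a i) ^ (m + 1) * W ≤ (W ^ m * ∑ i ∈ s, w i * a i ^ (m + 1)) * W := by
      calc (∑ i ∈ s, w i * a i) ^ (m + 1) * W ≤ (∑ i ∈ s, w i * a i ^ (m + 1)) * W ^ (m + 1) := hJ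
        _ = (W ^ m * ∑ i ∈ s, w i * a i ^ (m + 1)) * W := by ring
    exact le_of_mul_le_mul_right h3 hW

end Pool.Agent.Lib.CO
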