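import Pool.Agent.Lib.CO.SpecV

namespace Pool.Agent.Lib.CO

open Finset Pool.Agent.Lib.BV Pool.Agent.Results.MP_00e23e_nt

private theorem Ivd_two (f : ℕ → ℂ) (a b : ℕ) :
    ∑ n ∈ Ioc a b, (f (2 * n - 1) + f (2 * n)) = ∑ n ∈ Ioc (2 * a) (2 * b), f n := by
  rcases le_total b a with h | h
  · rw [Ioc_eq_empty_of_le h, Ioc_eq_empty_of_le (by omega), sum_empty, sum_empty]
  · induction b, h using Nat.le_induction with
    | base => simp
    | succ b hb ih =>
      rw [Finset.sum_Ioc_succ_top hb, ih]
      have h1 : 2 * (b + 1) = 2 * b + 1 + 1 := by ring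
      rw [h1, Finset.sum_Ioc_succ_top (by omega), Finset.sum_Ioc_succ_top (by omega)]
      have h2 : 2 * b + 1 + 1 - 1 = 2 * b + 1 := by omega
      rw [h2]
      ring

private theorem Ivd_BS (f : ℕ → ℂ) (j i : ℕ) :
    BS (fun n => f (2 * n - 1) + f (2 * n)) j i = BS f (j + 1) i := by
  unfold BS
  rw [Ivd_two]
  have h1 : 2 * (i * 2 ^ j) = i * 2 ^ (j + 1) := by ring
  have h2 : 2 * ((i + 1) * 2 ^ j) = (i + 1) * 2 ^ (j + 1) := by ring
  rw [h1, h2]

private theorem Ivd_BS0 (f : ℕ → ℂ) (i : ℕ) : BS f 0 i = f (i + 1) := by
  unfold BS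
  rw [pow_zero, mul_one, mul_one, Finset.sum_Ioc_succ_top (le_refl i)]
  simp

private theorem Ivd_split (f : ℕ → ℂ) (u v : ℕ) (h : u < v) :
    ∑ n ∈ Ioc u v, f n = (if u % 2 = 1 then f (u + 1) else 0) +
      (∑ n ∈ Ioc (2 * ((u + 1) / 2)) (2 * (v / 2)), f n) + (if v % 2 = 1 then f v else 0) := by
  have h1 : ∑ n ∈ Ioc u v, f n = (if u % 2 = 1 then f (u + 1) else 0) +
      ∑ n ∈ Ioc (2 * ((u + 1) / 2)) v, f n := by
    by_cases hu : u % 2 = 1
    · rw [if_pos hu]
      have e : 2 * ((u + 1) / 2) = u + 1 := by omega
      rw [e, ← Finset.sum_Ioc_consecutive f (Nat.le_succ u) (by omega : u.succ ≤ v),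
        Finset.sum_Ioc_succ_top (le_refl u)]
      simp
    · rw [if_neg hu]
      have e : 2 * ((u + 1) / 2) = u := by omega
      rw [e, zero_add]
  rw [h1, add_assoc]
  congr 1
  by_cases hv : v % 2 = 1
  · rw [if_pos hv]
    obtain ⟨w, rfl⟩ : ∃ w, v = w + 1 := ⟨v - 1, by omega⟩
    have e : 2 * ((w + 1) / 2) = w := by omega
    rw [e, Finset.sum_Ioc_succ_top (by omega)]
  · rw [if_neg hv]
    have e : 2 * (v / 2) = v := by omega
    rw [e, add_zero]

theorem tIvd : IvdStmt := by
  intro J
  induction J with
  | zero =>
    intro u v huv hv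
    refine ⟨fun j => if j = 0 then Ico u v else ∅, ?_, ?_, ?_⟩
    · intro j
      by_cases hj : j = 0
      · simp only [hj, if_true, Nat.card_Ico]
        rw [pow_zero] at hv
        omega
      · simp [hj]
    · intro j i hi
      by_cases hj : j = 0
      · subst hj
        simp only [if_true, mem_Ico] at hi
        rw [pow_zero, mul_one, mul_one]
        exact ⟨hi.1, hi.2⟩
      · simp [hj] at hi
    · intro f
      rw [zero_add, Finset.sum_range_one]
      simp only [if_true]
      rw [Finset.sum_congr rfl (fun i _ => Ivd_BS0 f i)]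
      rw [pow_zero] at hv
      rcases Nat.lt_or_ge u v with h | h
      · have e1 : u = 0 := by omega
        have e2 : v = 1 := by omega
        subst e1
        subst e2
        simp
      · rw [Ioc_eq_empty_of_le h, Ico_eq_empty_of_le h, sum_empty, sum_empty]
  | succ J ih =>
    intro u v huv hv
    rcases Nat.lt_or_ge u v with h | h
    · have h1 : (u + 1) / 2 ≤ v / 2 := by omega
      have h2 : v / 2 ≤ 2 ^ J := by
        rw [pow_succ] at hv
        omega
      obtain ⟨s', hs1, hs2, hs3⟩ := ih ((u + 1) / 2) (v / 2) h1 h2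
      let A : Finset ℕ := if u % 2 = 1 then {u} else ∅
      let B : Finset ℕ := if v % 2 = 1 then {v - 1} else ∅
      refine ⟨fun j => Nat.casesOn j (A ∪ B) s', ?_, ?_, ?_⟩
      · intro j
        cases j with
        | zero =>
          change (A ∪ B).card ≤ 2
          refine (card_union_le A B).trans ?_
          have hA : A.card ≤ 1 := by
            by_cases hu : u % 2 = 1 <;> simp [A, hu]
          have hB : B.card ≤ 1 := by
            by_cases hu : v % 2 = 1 <;> simp [B, hu]
          omega
        | succ j => exact hs1 j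
      · intro j i hi
        cases j with
        | zero =>
          change i ∈ A ∪ B at hi
          rw [pow_zero, mul_one, mul_one]
          rcases mem_union.1 hi with h3 | h3
          · by_cases hu : u % 2 = 1
            · simp only [A, hu, if_true, mem_singleton] at h3
              omega
            · simp [A, hu] at h3
          · by_cases hu : v % 2 = 1
            · simp only [B, hu, if_true, mem_singleton] at h3
              omega
            · simp [B, hu] at h3
        | succ j =>
          obtain ⟨h3, h4⟩ := hs2 j i hi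
          have e1 : i * 2 ^ (j + 1) = 2 * (i * 2 ^ j) := by ring
          have e2 : (i + 1) * 2 ^ (j + 1) = 2 * ((i + 1) * 2 ^ j) := by ring
          rw [e1, e2]
          constructor
          · omega
          · omega
      · intro f
        rw [Ivd_split f u v h, ← Ivd_two, hs3, Finset.sum_range_succ' _ (J + 1)]
        rw [Finset.sum_congr rfl (fun j _ => Finset.sum_congr rfl (fun i _ => Ivd_BS f j i))]
        have hd : Disjoint A B := by
          rw [Finset.disjoint_left]
          intro a ha hb
          by_cases hu : u % 2 = 1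
          · by_cases hw : v % 2 = 1
            · simp only [A, hu, if_true, mem_singleton] at ha
              simp only [B, hw, if_true, mem_singleton] at hb
              omega
            · simp [B, hw] at hb
          · simp [A, hu] at ha
        have hAB : ∑ i ∈ A ∪ B, BS f 0 i = ∑ i ∈ A, BS f 0 i + ∑ i ∈ B, BS f 0 i :=
          Finset.sum_union hd
        have hA : ∑ i ∈ A, BS f 0 i = if u % 2 = 1 then f (u + 1) else 0 := by
          by_cases hu : u % 2 = 1
          · simp only [A, hu, if_true, sum_singleton]
            exact Ivd_BS0 f u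
          · simp [A, hu]
        have hB : ∑ i ∈ B, BS f 0 i = if v % 2 = 1 then f v else 0 := by
          by_cases hu : v % 2 = 1
          · simp only [B, hu, if_true, sum_singleton]
            rw [Ivd_BS0]
            congr 1
            omega
          · simp [B, hu]
        rw [hA, hB] at hAB
        change _ = ∑ j ∈ range (J + 1), ∑ i ∈ s' j, BS f (j + 1) i + ∑ i ∈ A ∪ B, BS f 0 i
        rw [hAB]
        ring
    · refine ⟨fun _ => ∅, by simp, by simp, ?_⟩
      intro f
      rw [Ioc_eq_empty_of_le h]
      simp

end Pool.Agent.Lib.CO
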