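import Pool.Agent.Lib.CO.SpecW

/-! MP_00e23e_nt, Lib/CO, module Lgw: all large conductors with weights. -/

namespace Pool.Agent.Lib.CO

open Finset Pool.Agent.Lib.BV Pool.Agent.Results.MP_00e23e_nt

private theorem Lgw_log {x : ℝ} (hx : 3 ≤ x) : 1 ≤ Real.log x := by
  rw [Real.le_log_iff_exp_le (by linarith)]
  have := Real.exp_one_lt_d9
  linarith

private theorem Lgw_ev {B : ℝ} : ∃ x1 : ℝ, ∀ x : ℝ, x1 ≤ x → 3 ≤ x →
    Real.log x ^ B ≤ x ^ ((1 : ℝ) / 5) := by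
  have h := (isLittleO_log_rpow_rpow_atTop B (by norm_num : (0 : ℝ) < 1 / 5)).bound
    (by norm_num : (0 : ℝ) < 1)
  rw [Filter.eventually_atTop] at h
  obtain ⟨a, ha⟩ := h
  refine ⟨a, fun x hx hx3 => ?_⟩
  have h1 := ha x hx
  have h2 := Lgw_log hx3
  rw [one_mul, Real.norm_of_nonneg (by positivity), Real.norm_of_nonneg (by positivity)] at h1
  exact h1

private theorem Lgw_adm {x L1 L2 e m D : ℝ} (h12 : L2 ≤ L1) (he : 0 ≤ e) (hm : 0 ≤ m)
    (hD : 0 ≤ D) (h : Adm x L1 e m D) : Adm x L2 e m D := by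
  rcases h with ⟨k, k1, k2⟩ | ⟨k1, k2⟩
  · exact Or.inl ⟨k, k1, (mul_le_mul_of_nonneg_left h12 (by positivity)).trans k2⟩
  · exact Or.inr ⟨(mul_le_mul_of_nonneg_left h12 (by positivity)).trans k1,
      (mul_le_mul_of_nonneg_left h12 (by positivity)).trans k2⟩

/-- the bound for the middle class -/
private theorem Lgw_mid {x L C' c U E : ℝ} (hx : 3 ≤ x) (hL : 1 ≤ L) (hC' : 0 ≤ C')
    (hE0 : x ^ ((7 : ℝ) / 10) / 2 ≤ E) (hc : c + U + 5 ≤ C' / 6) :
    L ^ c * (((L ^ C')⁻¹ * min (x ^ ((6 : ℝ) / 5)) (x ^ 3 / E ^ 2)) ^ ((1 : ℝ) / 6) *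
        x ^ ((1 : ℝ) / 2) * (x ^ 3 / E ^ 2 + x ^ ((9 : ℝ) / 5) + E ^ 2) ^ ((1 : ℝ) / 6) +
      ((L ^ C')⁻¹ * (x ^ ((3 : ℝ) / 2) / E)) ^ ((1 : ℝ) / 2) *
        (x ^ ((1 : ℝ) / 4) * E ^ ((1 : ℝ) / 2) + x ^ ((1 : ℝ) / 2))) ≤
      9 * (x * L ^ (-(U + 2))) := by
  have hx0 : 0 < x := by linarith
  have hx1 : 1 ≤ x := by linarith
  have hL0 : 0 < L := by linarith
  have h7 : 0 < x ^ ((7 : ℝ) / 10) := by positivity
  have hE : 0 < E := by linarith
  have hLC : 0 < (L ^ C')⁻¹ := by positivity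
  set mn : ℝ := min (x ^ ((6 : ℝ) / 5)) (x ^ 3 / E ^ 2) with hmn
  have hmn0 : 0 ≤ mn := le_min (by positivity) (by positivity)
  have hmn1 : mn ≤ x ^ ((6 : ℝ) / 5) := min_le_left _ _
  have hmn2 : mn ≤ x ^ 3 / E ^ 2 := min_le_right _ _
  have a1 : x ^ 3 / E ^ 2 ≤ 4 * x ^ ((8 : ℝ) / 5) := by
    rw [div_le_iff₀ (by positivity)]
    have b1 : (x ^ ((7 : ℝ) / 10) / 2) ^ 2 ≤ E ^ 2 := pow_le_pow_left₀ (by positivity) hE0 2
    have b2 : (x ^ ((7 : ℝ) / 10) / 2) ^ 2 = x ^ ((7 : ℝ) / 5) / 4 := by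
      rw [div_pow, ← Real.rpow_natCast (x ^ ((7 : ℝ) / 10)) 2, ← Real.rpow_mul hx0.le]
      norm_num
    rw [b2] at b1
    have b3 : x ^ 3 = x ^ ((8 : ℝ) / 5) * x ^ ((7 : ℝ) / 5) := by
      rw [← Real.rpow_add hx0, ← Real.rpow_natCast x 3]
      norm_num
    have b4 : 0 < x ^ ((8 : ℝ) / 5) := by positivity
    nlinarith
  -- the product under the sixth root
  have c1 : mn * (x ^ 3 / E ^ 2) ≤ 4 * x ^ 3 := by
    have b1 : mn * (x ^ 3 / E ^ 2) ≤ x ^ ((6 : ℝ) / 5) * (4 * x ^ ((8 : ℝ) / 5)) :=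
      mul_le_mul hmn1 a1 (by positivity) (by positivity)
    have b2 : x ^ ((6 : ℝ) / 5) * x ^ ((8 : ℝ) / 5) ≤ x ^ 3 := by
      rw [← Real.rpow_add hx0, ← Real.rpow_natCast x 3]
      exact Real.rpow_le_rpow_of_exponent_le hx1 (by norm_num)
    linarith
  have c2 : mn * x ^ ((9 : ℝ) / 5) ≤ x ^ 3 := by
    have b2 : x ^ ((6 : ℝ) / 5) * x ^ ((9 : ℝ) / 5) = x ^ 3 := by
      rw [← Real.rpow_add hx0, ← Real.rpow_natCast x 3]
      norm_num
    rw [← b2]
    exact mul_le_mul_of_nonneg_right hmn1 (by positivity)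
  have c3 : mn * E ^ 2 ≤ x ^ 3 := by
    have := mul_le_mul_of_nonneg_right hmn2 (by positivity : 0 ≤ E ^ 2)
    rwa [div_mul_cancel₀ _ (by positivity : E ^ 2 ≠ 0)] at this
  have c4 : ((L ^ C')⁻¹ * mn) * x ^ 3 * (x ^ 3 / E ^ 2 + x ^ ((9 : ℝ) / 5) + E ^ 2) ≤
      (L ^ C')⁻¹ * (6 * x ^ 6) := by
    have b1 : mn * (x ^ 3 / E ^ 2 + x ^ ((9 : ℝ) / 5) + E ^ 2) ≤ 6 * x ^ 3 := by
      have : mn * (x ^ 3 / E ^ 2 + x ^ ((9 : ℝ) / 5) + E ^ 2) =
        mn * (x ^ 3 / E ^ 2) + mn * x ^ ((9 : ℝ) / 5) + mn * E ^ 2 := by ring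
      rw [this]
      linarith
    calc ((L ^ C')⁻¹ * mn) * x ^ 3 * (x ^ 3 / E ^ 2 + x ^ ((9 : ℝ) / 5) + E ^ 2)
        = (L ^ C')⁻¹ * (x ^ 3 * (mn * (x ^ 3 / E ^ 2 + x ^ ((9 : ℝ) / 5) + E ^ 2))) := by ring
      _ ≤ (L ^ C')⁻¹ * (x ^ 3 * (6 * x ^ 3)) := by gcongr
      _ = (L ^ C')⁻¹ * (6 * x ^ 6) := by ring
  set W : ℝ := L ^ (-(C' / 6)) with hW
  have hW0 : 0 < W := by positivity
  have hWW : ((L ^ C')⁻¹) ^ ((1 : ℝ) / 6) = W := by
    rw [← Real.rpow_neg hL0.le, ← Real.rpow_mul hL0.le, hW]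
    congr 1
    ring
  have hWW2 : ((L ^ C')⁻¹) ^ ((1 : ℝ) / 2) ≤ W := by
    rw [← Real.rpow_neg hL0.le, ← Real.rpow_mul hL0.le, hW]
    refine Real.rpow_le_rpow_of_exponent_le hL ?_
    linarith
  have d1 : x ^ ((1 : ℝ) / 2) = (x ^ 3) ^ ((1 : ℝ) / 6) := by
    rw [← Real.rpow_natCast x 3, ← Real.rpow_mul hx0.le]
    norm_num
  have d2 : (x ^ 6) ^ ((1 : ℝ) / 6) = x := by
    rw [← Real.rpow_natCast x 6, ← Real.rpow_mul hx0.le]
    norm_num
  have d3 : (6 : ℝ) ^ ((1 : ℝ) / 6) ≤ 6 := by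
    have := Real.rpow_le_rpow_of_exponent_le (by norm_num : (1 : ℝ) ≤ 6)
      (by norm_num : (1 : ℝ) / 6 ≤ 1)
    rwa [Real.rpow_one] at this
  have f1 : ((L ^ C')⁻¹ * mn) ^ ((1 : ℝ) / 6) *
        x ^ ((1 : ℝ) / 2) * (x ^ 3 / E ^ 2 + x ^ ((9 : ℝ) / 5) + E ^ 2) ^ ((1 : ℝ) / 6) ≤
      6 * (x * W) := by
    rw [d1, ← Real.mul_rpow (by positivity) (by positivity),
      ← Real.mul_rpow (by positivity) (by positivity)]
    refine (Real.rpow_le_rpow (by positivity) c4 (by norm_num)).trans ?_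
    rw [Real.mul_rpow (by positivity) (by positivity), Real.mul_rpow (by norm_num) (by positivity),
      hWW, d2]
    have : W * (6 ^ ((1 : ℝ) / 6) * x) ≤ W * (6 * x) := by gcongr
    linarith
  have hE2 : (E ^ ((1 : ℝ) / 2)) ≠ 0 := by positivity
  have g1 : ((L ^ C')⁻¹ * (x ^ ((3 : ℝ) / 2) / E)) ^ ((1 : ℝ) / 2) ≤
      W * (x ^ ((3 : ℝ) / 4) / E ^ ((1 : ℝ) / 2)) := by
    rw [Real.mul_rpow (by positivity) (by positivity), Real.div_rpow (by positivity) hE.le,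
      ← Real.rpow_mul hx0.le]
    have : (3 : ℝ) / 2 * (1 / 2) = 3 / 4 := by norm_num
    rw [this]
    exact mul_le_mul_of_nonneg_right hWW2 (by positivity)
  have g2 : x ^ ((3 : ℝ) / 4) * x ^ ((1 : ℝ) / 4) = x := by
    rw [← Real.rpow_add hx0]
    norm_num
  have g3 : x ^ ((3 : ℝ) / 4) * x ^ ((1 : ℝ) / 2) ≤ 2 * x * E ^ ((1 : ℝ) / 2) := by
    have b1 : (x ^ ((7 : ℝ) / 10) / 2) ^ ((1 : ℝ) / 2) ≤ E ^ ((1 : ℝ) / 2) :=
      Real.rpow_le_rpow (by positivity) hE0 (by norm_num)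
    rw [Real.div_rpow (by positivity) (by norm_num), ← Real.rpow_mul hx0.le] at b1
    have b2 : (2 : ℝ) ^ ((1 : ℝ) / 2) ≤ 2 := by
      have := Real.rpow_le_rpow_of_exponent_le (by norm_num : (1 : ℝ) ≤ 2)
        (by norm_num : (1 : ℝ) / 2 ≤ 1)
      rwa [Real.rpow_one] at this
    have b3 : (7 : ℝ) / 10 * (1 / 2) = 7 / 20 := by norm_num
    rw [b3, div_le_iff₀ (by positivity)] at b1
    have b4 : x ^ ((7 : ℝ) / 20) ≤ 2 * E ^ ((1 : ℝ) / 2) := by
      have : E ^ ((1 : ℝ) / 2) * 2 ^ ((1 : ℝ) / 2) ≤ E ^ ((1 : ℝ) / 2) * 2 := by gcongr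
      linarith
    have b5 : x ^ ((3 : ℝ) / 4) * x ^ ((1 : ℝ) / 2) ≤ x * x ^ ((7 : ℝ) / 20) := by
      have : x * x ^ ((7 : ℝ) / 20) = x ^ ((27 : ℝ) / 20) := by
        nth_rewrite 1 [← Real.rpow_one x]
        rw [← Real.rpow_add hx0]
        norm_num
      rw [this, ← Real.rpow_add hx0]
      exact Real.rpow_le_rpow_of_exponent_le hx1 (by norm_num)
    refine b5.trans ?_
    have := mul_le_mul_of_nonneg_left b4 hx0.le
    linarith
  have f2 : ((L ^ C')⁻¹ * (x ^ ((3 : ℝ) / 2) / E)) ^ ((1 : ℝ) / 2) *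
        (x ^ ((1 : ℝ) / 4) * E ^ ((1 : ℝ) / 2) + x ^ ((1 : ℝ) / 2)) ≤ 3 * (x * W) := by
    refine (mul_le_mul_of_nonneg_right g1 (by positivity)).trans ?_
    have e1 : W * (x ^ ((3 : ℝ) / 4) / E ^ ((1 : ℝ) / 2)) *
        (x ^ ((1 : ℝ) / 4) * E ^ ((1 : ℝ) / 2) + x ^ ((1 : ℝ) / 2)) =
        W * (x ^ ((3 : ℝ) / 4) * x ^ ((1 : ℝ) / 4) +
          x ^ ((3 : ℝ) / 4) * x ^ ((1 : ℝ) / 2) / E ^ ((1 : ℝ) / 2)) := by
      field_simp
    rw [e1, g2]
    have e2 : x ^ ((3 : ℝ) / 4) * x ^ ((1 : ℝ) / 2) / E ^ ((1 : ℝ) / 2) ≤ 2 * x := by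
      rw [div_le_iff₀ (by positivity)]
      exact g3
    have := mul_le_mul_of_nonneg_left e2 hW0.le
    linarith
  have f3 : L ^ c * W ≤ L ^ (-(U + 2)) := by
    rw [hW, ← Real.rpow_add hL0]
    exact Real.rpow_le_rpow_of_exponent_le hL (by linarith)
  have hLc : 0 < L ^ c := by positivity
  calc L ^ c * (((L ^ C')⁻¹ * mn) ^ ((1 : ℝ) / 6) *
        x ^ ((1 : ℝ) / 2) * (x ^ 3 / E ^ 2 + x ^ ((9 : ℝ) / 5) + E ^ 2) ^ ((1 : ℝ) / 6) +
      ((L ^ C')⁻¹ * (x ^ ((3 : ℝ) / 2) / E)) ^ ((1 : ℝ) / 2) *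
        (x ^ ((1 : ℝ) / 4) * E ^ ((1 : ℝ) / 2) + x ^ ((1 : ℝ) / 2)))
      ≤ L ^ c * (6 * (x * W) + 3 * (x * W)) :=
        mul_le_mul_of_nonneg_left (add_le_add f1 f2) hLc.le
    _ = 9 * (x * (L ^ c * W)) := by ring
    _ ≤ 9 * (x * L ^ (-(U + 2))) := by gcongr

theorem tLgw (h1 : OrhStmt) (h2 : KcwStmt) (h3 : RtwStmt) (h4 : MdwStmt) : LgwStmt := by
  classical
  intro A B U hA hB hU
  obtain ⟨K, hK1, hK⟩ := h2 A hA
  obtain ⟨C1, hC1, hR⟩ := h3 A K hA hK1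
  obtain ⟨c2, C2, hc2, hC2, hM⟩ := h4 A hA
  obtain ⟨x1, hx1⟩ := Lgw_ev (B := B)
  have hK0 : (0 : ℝ) < K := by exact_mod_cast hK1
  obtain ⟨C', hC'1, hC'2⟩ : ∃ C' : ℝ, 2 * K * (U + 5) ≤ C' ∧ 6 * (c2 + U + 5) ≤ C' :=
    ⟨max (2 * K * (U + 5)) (6 * (c2 + U + 5)), le_max_left _ _, le_max_right _ _⟩
  have hC'0 : 0 < C' := by
    have : 0 < 2 * K * (U + 5) := by positivity
    linarith only [this, hC'1]
  have hC20 : 0 ≤ (2 * A + 1) * (K + 1) * (C1 + 9 * C2) := by positivity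
  refine ⟨4 * C' + B + (2 * A + 1) * (K + 1) * (C1 + 9 * C2), max x1 3, by positivity,
    le_max_right _ _, ?_⟩
  intro x S H Dd f y hx hf0 hS
  have hx3 : 3 ≤ x := le_trans (le_max_right _ _) hx
  have hxx1 : x1 ≤ x := le_trans (le_max_left _ _) hx
  have hL1 := Lgw_log hx3
  have hLB := hx1 x hxx1 hx3
  set L := Real.log x with hL
  have hL0 : 0 < L := by linarith
  have hx0 : 0 < x := by linarith
  -- the choice of k
  have hκ : ∀ d e : ℕ, ∃ k : ℕ, k ≤ K ∧ (1 ≤ k → d ∈ S → e ∣ d → Real.sqrt x / L ^ B < e →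
      Dd d ^ k * ((H d).index : ℝ) ^ (k - 1) * L ^ C' ≤ min (e : ℝ) (x ^ k / e)) ∧
      (k = 0 → d ∈ S → e ∣ d → Real.sqrt x / L ^ B < e →
        x ^ ((7 : ℝ) / 10) ≤ e ∧
        Dd d ^ 3 * ((H d).index : ℝ) * L ^ C' ≤ min (x ^ ((6 : ℝ) / 5)) (x ^ 3 / (e : ℝ) ^ 2) ∧
          Dd d * ((H d).index : ℝ) * e * L ^ C' ≤ x ^ ((3 : ℝ) / 2)) := by
    intro d e
    by_cases hde : d ∈ S ∧ e ∣ d ∧ Real.sqrt x / L ^ B < e
    · obtain ⟨a1, a2, a3⟩ := hde
      obtain ⟨b1, b2, b3, b4, b6, b7, b8, b5⟩ := hS d a1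
      have e1 : 1 ≤ e := Nat.pos_of_dvd_of_pos a2 b1
      have e2 : (e : ℝ) ≤ x ^ A := by
        have : (e : ℝ) ≤ d := by exact_mod_cast Nat.le_of_dvd b1 a2
        linarith only [this, b2]
      have e0 : (0 : ℝ) < e := by exact_mod_cast e1
      have e4 : Real.sqrt x < (e : ℝ) * L ^ (4 * C' + B + (2 * A + 1) * (K + 1) * (C1 + 9 * C2)) := by
        rw [div_lt_iff₀ (by positivity)] at a3
        refine a3.trans_le (mul_le_mul_of_nonneg_left ?_ e0.le)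
        exact Real.rpow_le_rpow_of_exponent_le hL1 (by linarith only [hC'0, hC20])
      have e3 : Adm x (L ^ (4 * C')) e ((H d).index : ℝ) (Dd d) := by
        refine Lgw_adm ?_ e0.le (Nat.cast_nonneg _) (by linarith only [b6]) (b5 e a2 e4)
        exact Real.rpow_le_rpow_of_exponent_le hL1 (by linarith only [hB, hC20])
      rcases hK C' B x e (H d).index (Dd d) L hC'0.le hB.le hx3 hL1 b6 b7
        (by exact_mod_cast e1) a3.le e2 hLB e3 with ⟨k, k1, k2, k3⟩ | ⟨k1, k2, k3⟩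
      · exact ⟨k, k2, fun _ _ _ _ => k3, fun k0 => absurd k0 (by omega)⟩
      · exact ⟨0, Nat.zero_le _, fun k0 => absurd k0 (by omega), fun _ _ _ _ => ⟨k1, k2, k3⟩⟩
    · exact ⟨0, Nat.zero_le _, fun k0 => absurd k0 (by omega),
        fun _ a1 a2 a3 => absurd ⟨a1, a2, a3⟩ hde⟩
  choose κ hκ2 hκ3 hκ4 using hκ
  set Jm : ℕ := ⌊2 * A * L⌋₊ + 1 with hJm
  set P : Finset (ℕ × ℕ) := (range Jm) ×ˢ (range (K + 1)) with hP
  set F : (d : ℕ) → Finset (DirichletCharacter ℂ d) := fun d => (XX d (H d)).filter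
    (fun χ => 1 < χ.conductor ∧ Real.sqrt x / L ^ B < (χ.conductor : ℝ)) with hF
  have hFm : ∀ d, ∀ χ ∈ F d, 1 < χ.conductor ∧ Real.sqrt x / L ^ B < (χ.conductor : ℝ) :=
    fun d χ hχ => (Finset.mem_filter.1 hχ).2
  let g : (d : ℕ) → DirichletCharacter ℂ d → ℕ × ℕ := fun d χ =>
    (Nat.log 2 (χ.conductor - 1), κ d χ.conductor)
  have hj : ∀ d, ∀ χ ∈ F d, 2 ^ (Nat.log 2 (χ.conductor - 1)) < χ.conductor ∧
      χ.conductor ≤ 2 * 2 ^ (Nat.log 2 (χ.conductor - 1)) := by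
    intro d χ hχ
    have e1 := (hFm d χ hχ).1
    have e2 := Nat.pow_log_le_self 2 (by omega : χ.conductor - 1 ≠ 0)
    have e3 := Nat.lt_pow_succ_log_self (by norm_num : 1 < 2) (χ.conductor - 1)
    rw [pow_succ] at e3
    constructor
    · omega
    · omega
  have hmaps : ∀ d ∈ S, ∀ χ ∈ F d, g d χ ∈ P := by
    intro d hd χ hχ
    obtain ⟨b1, b2, b3, b4, b5⟩ := hS d hd
    rw [hP, Finset.mem_product, Finset.mem_range, Finset.mem_range]
    refine ⟨?_, Nat.lt_succ_of_le (hκ2 _ _)⟩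
    have e1 := (hj d χ hχ).1
    have e2 : χ.conductor ≤ d := Nat.le_of_dvd b1 χ.conductor_dvd_level
    have e3 : (2 : ℝ) ^ (Nat.log 2 (χ.conductor - 1)) ≤ x ^ A := by
      have a1 : ((2 ^ (Nat.log 2 (χ.conductor - 1)) : ℕ) : ℝ) ≤ (d : ℝ) := by
        exact_mod_cast e1.le.trans e2
      push_cast at a1
      linarith only [a1, b2]
    have e4 := Real.log_le_log (by positivity) e3
    rw [Real.log_pow, Real.log_rpow hx0, ← hL] at e4
    have e5 : (1 / 2 : ℝ) ≤ Real.log 2 := by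
      have := Real.log_two_gt_d9
      linarith only [this]
    have e6 : ((Nat.log 2 (χ.conductor - 1) : ℕ) : ℝ) * (1 / 2) ≤
        ((Nat.log 2 (χ.conductor - 1) : ℕ) : ℝ) * Real.log 2 :=
      mul_le_mul_of_nonneg_left e5 (Nat.cast_nonneg _)
    change Nat.log 2 (χ.conductor - 1) < Jm
    rw [hJm, Nat.lt_succ_iff]
    refine Nat.le_floor ?_
    linarith only [e4, e6]
  have hcard : ∀ d ∈ S, (XX d (H d)).card = (H d).index := fun d hd => (h1 d (H d) (hS d hd).1).1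
  -- one block
  have hcard2 : ∀ (jk : ℕ × ℕ), ∀ d ∈ S,
      (((F d).filter (fun χ => g d χ = jk)).card : ℝ) ≤ ((H d).index : ℝ) := by
    intro jk d hd
    rw [← hcard d hd]
    exact_mod_cast Finset.card_le_card
      ((Finset.filter_subset _ _).trans (Finset.filter_subset _ _))
  have hsq0 : ∀ (jk : ℕ × ℕ), ∀ d ∈ S,
      0 ≤ ∑ χ ∈ (F d).filter (fun χ => g d χ = jk), f d χ ^ 2 :=
    fun jk d _ => Finset.sum_nonneg fun χ _ => sq_nonneg _
  have hsq : ∀ (jk : ℕ × ℕ), ∀ d ∈ S,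
      ∑ χ ∈ (F d).filter (fun χ => g d χ = jk), f d χ ^ 2 ≤ Dd d := by
    intro jk d hd
    refine le_trans ?_ (hS d hd).2.2.2.2.2.2.1
    exact Finset.sum_le_sum_of_subset_of_nonneg
      ((Finset.filter_subset _ _).trans (Finset.filter_subset _ _)) fun χ _ _ => sq_nonneg _
  have hblock : ∀ jk ∈ P, ∑ d ∈ S, (1 / (d.totient : ℝ)) *
      ∑ χ ∈ (F d).filter (fun χ => g d χ = jk), f d χ * ‖PC χ.primitiveCharacter ⌊y d⌋₊‖ ≤
      (C1 + 9 * C2) * (x * L ^ (-(U + 2))) := by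
    rintro ⟨j, k⟩ hjk
    rw [hP, Finset.mem_product, Finset.mem_range, Finset.mem_range] at hjk
    simp only at hjk
    have hxL : 0 < x * L ^ (-(U + 2)) := by positivity
    rcases Nat.eq_zero_or_pos k with hk0 | hk0
    · -- the middle class
      subst hk0
      by_cases hemp : ∀ d ∈ S, (F d).filter (fun χ => g d χ = (j, 0)) = ∅
      · have z1 : ∑ d ∈ S, (1 / (d.totient : ℝ)) *
            ∑ χ ∈ (F d).filter (fun χ => g d χ = (j, 0)),
              f d χ * ‖PC χ.primitiveCharacter ⌊y d⌋₊‖ = 0 := by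
          refine Finset.sum_eq_zero fun d hd => ?_
          rw [hemp d hd, Finset.sum_empty, mul_zero]
        rw [z1]
        positivity
      · push Not at hemp
        obtain ⟨d0, hd0, hne⟩ := hemp
        obtain ⟨χ0, hχ0⟩ := hne
        have key : ∀ d ∈ S, ∀ χ ∈ (F d).filter (fun χ => g d χ = (j, 0)),
            2 ^ j < χ.conductor ∧ χ.conductor ≤ 2 * 2 ^ j ∧ x ^ ((7 : ℝ) / 10) ≤ χ.conductor ∧
            Dd d ^ 3 * ((H d).index : ℝ) * L ^ C' ≤
              min (x ^ ((6 : ℝ) / 5)) (x ^ 3 / (χ.conductor : ℝ) ^ 2) ∧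
            Dd d * ((H d).index : ℝ) * χ.conductor * L ^ C' ≤ x ^ ((3 : ℝ) / 2) := by
          intro d hd χ hχ
          rw [Finset.mem_filter] at hχ
          obtain ⟨c1, c2⟩ := hχ
          have c3 : Nat.log 2 (χ.conductor - 1) = j := congrArg Prod.fst c2
          have c4 : κ d χ.conductor = 0 := congrArg Prod.snd c2
          have c5 := hj d χ c1
          rw [c3] at c5
          have c6 := hκ4 d χ.conductor c4 hd χ.conductor_dvd_level (hFm d χ c1).2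
          exact ⟨c5.1, c5.2, c6.1, c6.2.1, c6.2.2⟩
        obtain ⟨t1, t2, t3, t4, t5⟩ := key d0 hd0 χ0 hχ0
        have hE0 : x ^ ((7 : ℝ) / 10) / 2 ≤ ((2 ^ j : ℕ) : ℝ) := by
          have : (χ0.conductor : ℝ) ≤ 2 * ((2 ^ j : ℕ) : ℝ) := by exact_mod_cast t2
          linarith only [this, t3]
        have hEp : (0 : ℝ) < ((2 ^ j : ℕ) : ℝ) := by positivity
        have hLC : 0 < L ^ C' := by positivity
        have hmid := hM x
          ((L ^ C')⁻¹ * min (x ^ ((6 : ℝ) / 5)) (x ^ 3 / ((2 ^ j : ℕ) : ℝ) ^ 2))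
          (((L ^ C')⁻¹ * (x ^ ((3 : ℝ) / 2) / ((2 ^ j : ℕ) : ℝ))) ^ ((1 : ℝ) / 2)) (2 ^ j) S
          (fun d => (F d).filter (fun χ => g d χ = (j, 0))) y f hx3
          (mul_nonneg (by positivity) (le_min (by positivity) (by positivity))) (by positivity)
          Nat.one_le_two_pow hf0
          (fun d hd => by
            obtain ⟨b1, b2, b3, b4, b5⟩ := hS d hd
            exact ⟨b1, b2, by linarith only [b3], b4⟩)
          (fun d hd χ hχ => ⟨(key d hd χ hχ).1, (key d hd χ hχ).2.1⟩)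
          (fun d hd => by
            rcases Finset.eq_empty_or_nonempty ((F d).filter (fun χ => g d χ = (j, 0))) with
              he | ⟨χ, hχ⟩
            · simp only [he, Finset.card_empty, Nat.cast_zero, Finset.sum_empty, mul_zero]
              exact ⟨mul_nonneg (by positivity) (le_min (by positivity) (by positivity)),
                by positivity⟩
            · obtain ⟨u0, -, -, u4, u5⟩ := key d hd χ hχ
              have u0' : ((2 ^ j : ℕ) : ℝ) ≤ (χ.conductor : ℝ) := by exact_mod_cast u0.le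
              have hcp : (0 : ℝ) < (χ.conductor : ℝ) := lt_of_lt_of_le hEp u0'
              have u2 := hcard2 (j, 0) d hd
              have v1 := hsq0 (j, 0) d hd
              have v2 := hsq (j, 0) d hd
              have hD1 : 1 ≤ Dd d := (hS d hd).2.2.2.2.1
              have hD0 : 0 ≤ Dd d := le_trans zero_le_one hD1
              have hm0 : (0 : ℝ) ≤ ((H d).index : ℝ) := Nat.cast_nonneg _
              constructor
              · rw [← div_eq_inv_mul, le_div_iff₀ hLC]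
                calc (∑ χ ∈ (F d).filter (fun χ => g d χ = (j, 0)), f d χ ^ 2) ^ 3 *
                      (((F d).filter (fun χ => g d χ = (j, 0))).card : ℝ) * L ^ C'
                    ≤ Dd d ^ 3 * ((H d).index : ℝ) * L ^ C' :=
                      mul_le_mul_of_nonneg_right (mul_le_mul (pow_le_pow_left₀ v1 v2 3) u2
                        (Nat.cast_nonneg _) (pow_nonneg hD0 3)) hLC.le
                  _ ≤ min (x ^ ((6 : ℝ) / 5)) (x ^ 3 / (χ.conductor : ℝ) ^ 2) := u4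
                  _ ≤ min (x ^ ((6 : ℝ) / 5)) (x ^ 3 / ((2 ^ j : ℕ) : ℝ) ^ 2) :=
                    min_le_min le_rfl (div_le_div_of_nonneg_left (pow_nonneg hx0.le 3)
                      (pow_pos hEp 2) (pow_le_pow_left₀ hEp.le u0' 2))
              · have w1 : (∑ χ ∈ (F d).filter (fun χ => g d χ = (j, 0)), f d χ) ^ 2 ≤
                    (L ^ C')⁻¹ * (x ^ ((3 : ℝ) / 2) / ((2 ^ j : ℕ) : ℝ)) := by
                  have w2 := sq_sum_le_card_mul_sum_sq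
                    (s := (F d).filter (fun χ => g d χ = (j, 0))) (f := f d)
                  refine w2.trans ?_
                  rw [← div_eq_inv_mul, le_div_iff₀ hLC, le_div_iff₀ hEp]
                  calc (((F d).filter (fun χ => g d χ = (j, 0))).card : ℝ) *
                        (∑ χ ∈ (F d).filter (fun χ => g d χ = (j, 0)), f d χ ^ 2) *
                        L ^ C' * ((2 ^ j : ℕ) : ℝ)
                      ≤ ((H d).index : ℝ) * Dd d * L ^ C' * (χ.conductor : ℝ) :=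
                        mul_le_mul (mul_le_mul_of_nonneg_right (mul_le_mul u2 v2 v1 hm0) hLC.le)
                          u0' hEp.le (mul_nonneg (mul_nonneg hm0 hD0) hLC.le)
                    _ = Dd d * ((H d).index : ℝ) * χ.conductor * L ^ C' := by ring
                    _ ≤ x ^ ((3 : ℝ) / 2) := u5
                rw [← Real.sqrt_eq_rpow]
                exact Real.le_sqrt_of_sq_le w1)
        refine hmid.trans ?_
        rw [← hL]
        have hfin := Lgw_mid (x := x) (L := L) (C' := C') (c := c2) (U := U)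
          (E := ((2 ^ j : ℕ) : ℝ)) hx3 hL1 hC'0.le hE0 (by linarith only [hC'2])
        rw [mul_assoc]
        refine (mul_le_mul_of_nonneg_left hfin hC2.le).trans ?_
        have : 0 ≤ C1 * (x * L ^ (-(U + 2))) := by positivity
        linarith only [this]
    · have hb : ∑ d ∈ S, (1 / (d.totient : ℝ)) *
          ∑ χ ∈ (F d).filter (fun χ => g d χ = (j, k)),
            f d χ * ‖PC χ.primitiveCharacter ⌊y d⌋₊‖ ≤
          C1 * (x * L ^ (3 - C' / (2 * K))) := by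
        refine hR C' x k (2 ^ j) S (fun d => (F d).filter (fun χ => g d χ = (j, k))) y f
          hC'0.le hx3 hk0 (by omega) Nat.one_le_two_pow hf0 ?_ ?_
        · intro d hd
          obtain ⟨b1, b2, b3, b4, b5⟩ := hS d hd
          exact ⟨b1, b2, by linarith only [b3], b4⟩
        · intro d hd χ hχ
          rw [Finset.mem_filter] at hχ
          obtain ⟨c1, c2⟩ := hχ
          have c3 : Nat.log 2 (χ.conductor - 1) = j := congrArg Prod.fst c2
          have c4 : κ d χ.conductor = k := congrArg Prod.snd c2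
          have c5 := hj d χ c1
          rw [c3] at c5
          refine ⟨c5.1, c5.2, ?_⟩
          have c6 := hκ3 d χ.conductor (by rw [c4]; exact hk0) hd χ.conductor_dvd_level
            (hFm d χ c1).2
          rw [c4] at c6
          refine le_trans ?_ c6
          refine mul_le_mul_of_nonneg_right ?_ (Real.rpow_nonneg hL0.le _)
          have hD1 : 1 ≤ Dd d := (hS d hd).2.2.2.2.1
          exact mul_le_mul (pow_le_pow_left₀ (hsq0 (j, k) d hd) (hsq (j, k) d hd) _)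
            (pow_le_pow_left₀ (Nat.cast_nonneg _) (hcard2 (j, k) d hd) _)
            (pow_nonneg (Nat.cast_nonneg _) _) (pow_nonneg (le_trans zero_le_one hD1) _)
      refine hb.trans ?_
      have e1 : 3 - C' / (2 * K) ≤ -(U + 2) := by
        have : U + 5 ≤ C' / (2 * K) := by
          rw [le_div_iff₀ (by positivity)]
          linarith only [hC'1]
        linarith only [this]
      have e2 : L ^ (3 - C' / (2 * K)) ≤ L ^ (-(U + 2)) :=
        Real.rpow_le_rpow_of_exponent_le hL1 e1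
      calc C1 * (x * L ^ (3 - C' / (2 * K))) ≤ C1 * (x * L ^ (-(U + 2))) := by gcongr
        _ ≤ (C1 + 9 * C2) * (x * L ^ (-(U + 2))) := by
          refine mul_le_mul_of_nonneg_right ?_ hxL.le
          linarith only [hC2]
  have htotal : ∑ d ∈ S, (1 / (d.totient : ℝ)) *
      ∑ χ ∈ F d, f d χ * ‖PC χ.primitiveCharacter ⌊y d⌋₊‖ ≤
      (Jm * (K + 1) : ℝ) * ((C1 + 9 * C2) * (x * L ^ (-(U + 2)))) := by
    have a1 : ∑ d ∈ S, (1 / (d.totient : ℝ)) *
        ∑ χ ∈ F d, f d χ * ‖PC χ.primitiveCharacter ⌊y d⌋₊‖ =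
        ∑ jk ∈ P, ∑ d ∈ S, (1 / (d.totient : ℝ)) *
          ∑ χ ∈ (F d).filter (fun χ => g d χ = jk),
            f d χ * ‖PC χ.primitiveCharacter ⌊y d⌋₊‖ := by
      rw [Finset.sum_comm]
      refine Finset.sum_congr rfl fun d hd => ?_
      rw [← Finset.mul_sum]
      congr 1
      exact (Finset.sum_fiberwise_of_maps_to (hmaps d hd) _).symm
    rw [a1]
    refine (Finset.sum_le_sum hblock).trans (le_of_eq ?_)
    rw [Finset.sum_const, nsmul_eq_mul, hP, Finset.card_product, Finset.card_range,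
      Finset.card_range]
    push_cast
    rfl
  refine htotal.trans ?_
  have hJm' : (Jm : ℝ) ≤ (2 * A + 1) * L := by
    rw [hJm]
    push_cast
    have := Nat.floor_le (by positivity : 0 ≤ 2 * A * L)
    linarith only [this, hL1]
  have hLe : L * L ^ (-(U + 2)) ≤ (L ^ U)⁻¹ := by
    have a1 : L * L ^ (-(U + 2)) = L ^ (1 + -(U + 2)) := by
      rw [Real.rpow_add hL0, Real.rpow_one]
    rw [a1, ← Real.rpow_neg hL0.le]
    exact Real.rpow_le_rpow_of_exponent_le hL1 (by linarith only)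
  calc (Jm * (K + 1) : ℝ) * ((C1 + 9 * C2) * (x * L ^ (-(U + 2))))
      ≤ ((2 * A + 1) * L * (K + 1)) * ((C1 + 9 * C2) * (x * L ^ (-(U + 2)))) := by gcongr
    _ = ((2 * A + 1) * (K + 1) * (C1 + 9 * C2)) * (x * (L * L ^ (-(U + 2)))) := by ring
    _ ≤ ((2 * A + 1) * (K + 1) * (C1 + 9 * C2)) * (x * (L ^ U)⁻¹) := by gcongr
    _ ≤ (4 * C' + B + (2 * A + 1) * (K + 1) * (C1 + 9 * C2)) * (x / L ^ U) := by
      rw [← div_eq_mul_inv]
      refine mul_le_mul_of_nonneg_right ?_ (by positivity)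
      linarith only [hC'0, hB]

end Pool.Agent.Lib.CO
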