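import Pool.Agent.Lib.CO.Spec

namespace Pool.Agent.Lib.CO

open Finset Pool.Agent.Lib.BV Pool.Agent.Results.MP_00e23e_nt

private theorem Lsk_one (h1 : LsmStmt) (h2 : PwkStmt) (Q J k j i : ℕ) (hQ : 1 ≤ Q) (hk : 1 ≤ k)
    (hj : j < J) (hi : i < 2 ^ (J - j)) :
    ∑ q ∈ Icc 2 Q, (q : ℝ) / (q.totient : ℝ) * ∑ χ ∈ prim q, ‖PB χ j i‖ ^ (2 * k) ≤
      20 * (((2 : ℝ) ^ J) ^ k + (Q : ℝ) ^ 2) * ((k.factorial : ℝ) * ((2 : ℝ) ^ j) ^ k) := by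
  set T : Finset ℕ := (Ioc (i * 2 ^ j) ((i + 1) * 2 ^ j)).filter Nat.Prime with hT
  have hTN : ∀ p ∈ T, p.Prime ∧ p ≤ 2 ^ J := by
    intro p hp
    rw [hT, mem_filter, mem_Ioc] at hp
    refine ⟨hp.2, hp.1.2.trans ?_⟩
    calc (i + 1) * 2 ^ j ≤ 2 ^ (J - j) * 2 ^ j := Nat.mul_le_mul_right _ hi
      _ = 2 ^ J := by rw [← pow_add]; congr 1; omega
  have hTc : T.card ≤ 2 ^ j := by
    calc T.card ≤ (Ioc (i * 2 ^ j) ((i + 1) * 2 ^ j)).card := card_filter_le _ _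
      _ = (i + 1) * 2 ^ j - i * 2 ^ j := Nat.card_Ioc _ _
      _ = 2 ^ j := by rw [add_mul, one_mul, Nat.add_sub_cancel_left]
  obtain ⟨b, hb1, hb2⟩ := h2 T (2 ^ J) k hTN hk
  have h3 := h1 Q ((2 ^ J) ^ k) b hQ
  have e1 : ∀ (q : ℕ) (χ : DirichletCharacter ℂ q), ‖PB χ j i‖ ^ (2 * k) =
      ‖∑ n ∈ Icc 1 ((2 ^ J) ^ k), b n * χ (n : ZMod q)‖ ^ 2 := by
    intro q χ
    rw [← hb1 q χ, norm_pow, ← pow_mul, mul_comm k 2]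
    rfl
  calc ∑ q ∈ Icc 2 Q, (q : ℝ) / (q.totient : ℝ) * ∑ χ ∈ prim q, ‖PB χ j i‖ ^ (2 * k)
      = ∑ q ∈ Icc 2 Q, (q : ℝ) / (q.totient : ℝ) *
        ∑ χ ∈ prim q, ‖∑ n ∈ Icc 1 ((2 ^ J) ^ k), b n * χ (n : ZMod q)‖ ^ 2 := by
        refine sum_congr rfl fun q _ => ?_
        rw [sum_congr rfl fun χ _ => e1 q χ]
    _ ≤ 20 * ((((2 ^ J) ^ k : ℕ) : ℝ) + (Q : ℝ) ^ 2) * ∑ n ∈ Icc 1 ((2 ^ J) ^ k), ‖b n‖ ^ 2 := h3
    _ ≤ 20 * ((((2 ^ J) ^ k : ℕ) : ℝ) + (Q : ℝ) ^ 2) *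
        ((k.factorial : ℝ) * ((2 : ℝ) ^ j) ^ k) := by
        refine mul_le_mul_of_nonneg_left (hb2.trans ?_) (by positivity)
        refine mul_le_mul_of_nonneg_left ?_ (by positivity)
        refine pow_le_pow_left₀ (by positivity) ?_ k
        exact_mod_cast hTc
    _ = _ := by push_cast; ring

private theorem Lsk_pow (J j k : ℕ) (hj : j < J) (hk : 1 ≤ k) :
    ((2 ^ (J - j) : ℕ) : ℝ) * ((2 : ℝ) ^ j) ^ k ≤ ((2 : ℝ) ^ J) ^ k := by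
  push_cast
  rw [← pow_mul, ← pow_mul, ← pow_add]
  refine pow_le_pow_right₀ (by norm_num) ?_
  obtain ⟨d, rfl⟩ := Nat.exists_eq_add_of_lt hj
  obtain ⟨m, rfl⟩ := Nat.exists_eq_add_of_le hk
  have e : j + d + 1 - j = d + 1 := by omega
  rw [e]
  ring_nf
  nlinarith [Nat.zero_le (d * m)]

/-- Module Lsk. -/
theorem tLsk (h1 : LsmStmt) (h2 : PwkStmt) : LskStmt := by
  intro Q J k hQ hk
  have e1 : ∑ q ∈ Icc 2 Q, (q : ℝ) / (q.totient : ℝ) * ∑ χ ∈ prim q, ZZ J k χ =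
      ∑ j ∈ range J, ∑ i ∈ range (2 ^ (J - j)),
        ∑ q ∈ Icc 2 Q, (q : ℝ) / (q.totient : ℝ) * ∑ χ ∈ prim q, ‖PB χ j i‖ ^ (2 * k) := by
    calc ∑ q ∈ Icc 2 Q, (q : ℝ) / (q.totient : ℝ) * ∑ χ ∈ prim q, ZZ J k χ
        = ∑ q ∈ Icc 2 Q, ∑ j ∈ range J, ∑ i ∈ range (2 ^ (J - j)),
          (q : ℝ) / (q.totient : ℝ) * ∑ χ ∈ prim q, ‖PB χ j i‖ ^ (2 * k) := by
          refine sum_congr rfl fun q _ => ?_
          simp only [ZZ]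
          rw [sum_comm, mul_sum]
          refine sum_congr rfl fun j _ => ?_
          rw [sum_comm, mul_sum]
      _ = ∑ j ∈ range J, ∑ q ∈ Icc 2 Q, ∑ i ∈ range (2 ^ (J - j)),
          (q : ℝ) / (q.totient : ℝ) * ∑ χ ∈ prim q, ‖PB χ j i‖ ^ (2 * k) := sum_comm
      _ = _ := by
          refine sum_congr rfl fun j _ => ?_
          rw [sum_comm]
  rw [e1]
  set A : ℝ := 20 * (((2 : ℝ) ^ J) ^ k + (Q : ℝ) ^ 2) with hA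
  have hA0 : 0 ≤ A := by positivity
  calc ∑ j ∈ range J, ∑ i ∈ range (2 ^ (J - j)),
        ∑ q ∈ Icc 2 Q, (q : ℝ) / (q.totient : ℝ) * ∑ χ ∈ prim q, ‖PB χ j i‖ ^ (2 * k)
      ≤ ∑ j ∈ range J, A * ((k.factorial : ℝ) * ((2 : ℝ) ^ J) ^ k) := by
        refine sum_le_sum fun j hj => ?_
        calc ∑ i ∈ range (2 ^ (J - j)),
            ∑ q ∈ Icc 2 Q, (q : ℝ) / (q.totient : ℝ) * ∑ χ ∈ prim q, ‖PB χ j i‖ ^ (2 * k)
            ≤ ∑ i ∈ range (2 ^ (J - j)), A * ((k.factorial : ℝ) * ((2 : ℝ) ^ j) ^ k) :=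
              sum_le_sum fun i hi => Lsk_one h1 h2 Q J k j i hQ hk (mem_range.1 hj) (mem_range.1 hi)
          _ = A * ((k.factorial : ℝ) * (((2 ^ (J - j) : ℕ) : ℝ) * ((2 : ℝ) ^ j) ^ k)) := by
              rw [sum_const, card_range, nsmul_eq_mul]; ring
          _ ≤ A * ((k.factorial : ℝ) * ((2 : ℝ) ^ J) ^ k) := by
              refine mul_le_mul_of_nonneg_left ?_ hA0
              refine mul_le_mul_of_nonneg_left ?_ (by positivity)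
              exact Lsk_pow J j k (mem_range.1 hj) hk
    _ = A * ((k.factorial : ℝ) * (J * ((2 : ℝ) ^ J) ^ k)) := by
        rw [sum_const, card_range, nsmul_eq_mul]; ring

end Pool.Agent.Lib.CO
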