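import Pool.Agent.Lib.CO.Spec

/-!
MP_00e23e_nt, module Map: the characters whose conductor divides e.
-/

set_option autoImplicit false

namespace Pool.Agent.Lib.CO

open Finset Pool.Agent.Lib.BV Pool.Agent.Results.MP_00e23e_nt

private theorem Map_unit {d e : ℕ} (h : e ∣ d) (ψ : DirichletCharacter ℂ e) (u : (ZMod d)ˣ) :
    DirichletCharacter.changeLevel h ψ (u : ZMod d) = ψ ((ZMod.unitsMap h u : (ZMod e)ˣ) : ZMod e) := by
  rw [DirichletCharacter.changeLevel_eq_cast_of_dvd, ZMod.unitsMap_val]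

private theorem Map_triv {d e : ℕ} (h : e ∣ d) (H : Subgroup (ZMod d)ˣ) (ψ : DirichletCharacter ℂ e) :
    (∀ u ∈ H, DirichletCharacter.changeLevel h ψ (u : ZMod d) = 1) ↔
      ∀ v ∈ H.map (ZMod.unitsMap h), ψ (v : ZMod e) = 1 := by
  constructor
  · rintro hu v hv
    obtain ⟨u, huH, rfl⟩ := Subgroup.mem_map.1 hv
    rw [← Map_unit]
    exact hu u huH
  · intro hv u hu
    rw [Map_unit]
    exact hv _ (Subgroup.mem_map_of_mem _ hu)

private theorem Map_mem {d : ℕ} (H : Subgroup (ZMod d)ˣ) (χ : DirichletCharacter ℂ d) :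
    χ ∈ XX d H ↔ ∀ h ∈ H, χ (h : ZMod d) = 1 := by
  classical
  unfold XX
  rw [mem_filter]
  exact ⟨fun h => h.2, fun h => ⟨mem_univ _, h⟩⟩

theorem tMap : MapStmt := by
  intro d e h H F hd
  have : NeZero d := ⟨by omega⟩
  symm
  refine Finset.sum_bij (fun ψ _ => DirichletCharacter.changeLevel h ψ) ?_ ?_ ?_ ?_
  · intro ψ hψ
    rw [Map_mem] at hψ
    rw [mem_filter, Map_mem]
    refine ⟨(Map_triv h H ψ).2 hψ, ?_⟩
    rw [DirichletCharacter.conductor_changeLevel]
    exact DirichletCharacter.conductor_dvd_level ψ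
  · intro ψ _ ψ' _ hh
    exact DirichletCharacter.changeLevel_injective h hh
  · intro χ hχ
    rw [mem_filter, Map_mem] at hχ
    obtain ⟨h1, h2⟩ := hχ
    have h3 := (DirichletCharacter.mem_conductorSet_iff_conductor_dvd χ h).2 h2
    obtain ⟨_, ψ, rfl⟩ := h3
    exact ⟨ψ, by
      rw [Map_mem]
      exact (Map_triv h H ψ).1 h1, rfl⟩
  · intro ψ _
    rfl

end Pool.Agent.Lib.CO
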