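import Pool.Agent.Lib.CO.SpecW
import Pool.Agent.Lib.BV.Tot

/-! MP_00e23e_nt, Lib/CO, module Mdw: the middle range of conductors with weights. -/

namespace Pool.Agent.Lib.CO

open Finset Pool.Agent.Lib.BV Pool.Agent.Results.MP_00e23e_nt

private theorem Mdw_log {x : ℝ} (hx : 3 ≤ x) : 1 ≤ Real.log x := by
  rw [Real.le_log_iff_exp_le (by linarith)]
  have := Real.exp_one_lt_d9
  linarith

/-- The dyadic exponent. -/
private theorem Mdw_J {x : ℝ} (hx : 3 ≤ x) : ∃ J : ℕ, x < (2 : ℝ) ^ J ∧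
    (J : ℝ) ≤ 3 * Real.log x := by
  have hL1 := Mdw_log hx
  have hfl : ⌊x⌋₊ ≠ 0 := (Nat.floor_pos.2 (by linarith)).ne'
  have h1 : (2 : ℝ) ^ (Nat.log 2 ⌊x⌋₊) ≤ x := by
    have h2 : ((2 ^ (Nat.log 2 ⌊x⌋₊) : ℕ) : ℝ) ≤ (⌊x⌋₊ : ℝ) := by
      exact_mod_cast Nat.pow_log_le_self 2 hfl
    have h3 : (⌊x⌋₊ : ℝ) ≤ x := Nat.floor_le (by linarith)
    push_cast at h2
    linarith
  refine ⟨Nat.log 2 ⌊x⌋₊ + 1, ?_, ?_⟩
  · have h2 : ⌊x⌋₊ < 2 ^ (Nat.log 2 ⌊x⌋₊ + 1) := Nat.lt_pow_succ_log_self (by norm_num) _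
    have h3 : ((⌊x⌋₊ + 1 : ℕ) : ℝ) ≤ ((2 ^ (Nat.log 2 ⌊x⌋₊ + 1) : ℕ) : ℝ) := by
      exact_mod_cast h2
    have h4 := Nat.lt_floor_add_one x
    push_cast at h3
    linarith
  · have h2 := Real.log_le_log (by positivity) h1
    rw [Real.log_pow] at h2
    have h3 : (1 / 2 : ℝ) ≤ Real.log 2 := by
      have := Real.log_two_gt_d9
      linarith
    have h4 : (Nat.log 2 ⌊x⌋₊ : ℝ) * (1 / 2) ≤ (Nat.log 2 ⌊x⌋₊ : ℝ) * Real.log 2 :=
      mul_le_mul_of_nonneg_left h3 (Nat.cast_nonneg _)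
    push_cast
    linarith

/-- Exchange of the sums. -/
private theorem Mdw_sw (S : Finset ℕ) (X : (d : ℕ) → Finset (DirichletCharacter ℂ d))
    (w : ℕ → ℝ) (T : Finset ℕ) (H : (d : ℕ) → DirichletCharacter ℂ d → ℕ → ℝ) :
    ∑ d ∈ S, w d * ∑ χ ∈ X d, ∑ i ∈ T, H d χ i =
      ∑ i ∈ T, ∑ d ∈ S, w d * ∑ χ ∈ X d, H d χ i := by
  rw [Finset.sum_comm]
  refine Finset.sum_congr rfl fun d _ => ?_
  rw [Finset.sum_comm, Finset.mul_sum]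

/-- The logarithm of a number in a box. -/
private theorem Mdw_lg {x : ℝ} {M m : ℕ} (hx : 3 ≤ x) (hM : (M : ℝ) ≤ x ^ ((4 : ℝ) / 5))
    (hm1 : 1 ≤ m) (hm2 : m < 2 * M) : Real.log m ≤ 2 * Real.log x := by
  have hL1 := Mdw_log hx
  have hx0 : 0 < x := by linarith
  have h1 : (m : ℝ) ≤ 2 * x ^ ((4 : ℝ) / 5) := by
    have : (m : ℝ) ≤ 2 * M := by exact_mod_cast hm2.le
    linarith
  have h2 := Real.log_le_log (by exact_mod_cast hm1) h1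
  rw [Real.log_mul (by norm_num) (by positivity), Real.log_rpow hx0] at h2
  have h3 := Real.log_two_lt_d9
  linarith

private theorem Mdw_tau {L t : ℝ} {m : ℕ} (hL : 1 ≤ L) (hm : 1 ≤ m) (ht : t ≤ 2 * L) :
    t ≤ 2 * L * (m.divisors.card : ℝ) := by
  have h1 : (1 : ℝ) ≤ (m.divisors.card : ℝ) := by
    have : 0 < m.divisors.card := Finset.card_pos.2 (Nat.nonempty_divisors.2 (by omega))
    exact_mod_cast this
  have h2 : 0 ≤ 2 * L := by linarith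
  nlinarith

private theorem Mdw_W {A x B : ℝ} {S : Finset ℕ} {X : (d : ℕ) → Finset (DirichletCharacter ℂ d)}
    {f : (d : ℕ) → DirichletCharacter ℂ d → ℝ}
    (hA : 0 < A) (hx : 3 ≤ x) (hB : 0 ≤ B) (hS : ∀ d ∈ S, 1 ≤ d ∧ (d : ℝ) ≤ x ^ A)
    (hcard : ∀ d ∈ S, ∑ χ ∈ X d, f d χ ≤ B) :
    ∑ d ∈ S, (1 / (d.totient : ℝ)) * ∑ χ ∈ X d, f d χ ≤ B * ((1 + A) * Real.log x) ^ 2 := by
  have hL1 := Mdw_log hx
  have hx0 : 0 < x := by linarith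
  set L := Real.log x with hL
  have hD1 : 1 ≤ ⌊x ^ A⌋₊ := by
    rw [Nat.one_le_floor_iff]
    exact Real.one_le_rpow (by linarith) hA.le
  have hlogD : 1 + Real.log (⌊x ^ A⌋₊ : ℝ) ≤ (1 + A) * L := by
    have a1 : Real.log (⌊x ^ A⌋₊ : ℝ) ≤ Real.log (x ^ A) :=
      Real.log_le_log (by exact_mod_cast hD1) (Nat.floor_le (by positivity))
    rw [Real.log_rpow hx0, ← hL] at a1
    nlinarith
  have hlogD0 : 0 ≤ 1 + Real.log (⌊x ^ A⌋₊ : ℝ) := by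
    have := Real.log_nonneg (by exact_mod_cast hD1 : (1 : ℝ) ≤ (⌊x ^ A⌋₊ : ℝ))
    linarith
  have h1 : ∑ d ∈ S, (1 / (d.totient : ℝ)) * ∑ χ ∈ X d, f d χ ≤
      B * ∑ d ∈ Icc 1 ⌊x ^ A⌋₊, 1 / (d.totient : ℝ) := by
    rw [Finset.mul_sum]
    have hsub : S ⊆ Icc 1 ⌊x ^ A⌋₊ := by
      intro d hd
      rw [Finset.mem_Icc]
      exact ⟨(hS d hd).1, Nat.le_floor (hS d hd).2⟩
    refine le_trans ?_ (Finset.sum_le_sum_of_subset_of_nonneg hsub fun d _ _ => by positivity)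
    refine Finset.sum_le_sum fun d hd => ?_
    rw [mul_comm]
    exact mul_le_mul_of_nonneg_right (hcard d hd) (by positivity)
  refine h1.trans (mul_le_mul_of_nonneg_left ?_ hB)
  exact (tTot.1 _ hD1).trans (pow_le_pow_left₀ hlogD0 hlogD 2)

theorem tMdw (h1 : VgbStmt) (h2 : DcpStmt) (h3 : BxwStmt) (h4 : AbwStmt) : MdwStmt := by
  intro A hA
  obtain ⟨cb, Cb, hcb, hCb, hbox⟩ := h3 A hA
  obtain ⟨C0, hC0, habl⟩ := h4
  refine ⟨cb + 5, 3 * (8 * (1 + A) ^ 3 + 18 * Cb + C0 * (1 + A) ^ 2), by linarith,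
    by positivity, ?_⟩
  intro x R B E S X y f hx hR hB hE hf hS hX hcard
  have hL1 := Mdw_log hx
  obtain ⟨J, hJ1, hJ3⟩ := Mdw_J hx
  have hx0 : 0 < x := by linarith
  have hW := Mdw_W (X := X) (f := f) hA hx hB (fun d hd => ⟨(hS d hd).1, (hS d hd).2.1⟩)
    (fun d hd => (hcard d hd).2)
  have hcard1 : ∀ d ∈ S, (∑ χ ∈ X d, f d χ ^ 2) ^ 3 * ((X d).card : ℝ) ≤ R :=
    fun d hd => (hcard d hd).1
  set L := Real.log x with hL
  have hL0 : 0 < L := by linarith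
  have hE0 : (0 : ℝ) < E := by exact_mod_cast hE
  set Φ : ℝ := R ^ ((1 : ℝ) / 6) * x ^ ((1 : ℝ) / 2) *
    (x ^ 3 / (E : ℝ) ^ 2 + x ^ ((9 : ℝ) / 5) + (E : ℝ) ^ 2) ^ ((1 : ℝ) / 6) with hΦ
  have hΦ0 : 0 ≤ Φ := by positivity
  set W : ℝ := ∑ d ∈ S, (1 / (d.totient : ℝ)) * ∑ χ ∈ X d, f d χ with hWdef
  have hW0 : 0 ≤ W := Finset.sum_nonneg fun d _ =>
    mul_nonneg (by positivity) (Finset.sum_nonneg fun χ _ => hf d χ)
  set T1 : ℝ := 8 * (1 + A) * (x ^ ((1 : ℝ) / 4) * L ^ 2 * (E : ℝ) ^ ((1 : ℝ) / 2)) with hT1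
  have hT10 : 0 ≤ T1 := by positivity
  set zz : ℕ := ⌊x ^ ((1 : ℝ) / 5)⌋₊ with hzz
  set z1 : ℕ := ⌊x ^ ((1 : ℝ) / 4)⌋₊ with hz1
  set a1 : ℕ → ℂ := fun m => ((vh zz m : ℝ) : ℂ) with ha1
  set b1 : ℕ → ℂ := fun n => ((vl zz n : ℝ) : ℂ) with hb1
  set a2 : ℕ → ℂ := fun m => if z1 < m then ((vg zz m : ℝ) : ℂ) else 0 with ha2
  set b2 : ℕ → ℂ := fun _ => 1 with hb2
  -- one box
  have hone : ∀ (Y' : ℕ → ℕ) (i j : ℕ), (2 : ℝ) ^ i ≤ x ^ ((4 : ℝ) / 5) →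
      (2 : ℝ) ^ j ≤ x ^ ((4 : ℝ) / 5) → (2 : ℝ) ^ i * 2 ^ j ≤ x →
      ∑ d ∈ S, (1 / (d.totient : ℝ)) * ∑ χ ∈ X d, f d χ *
        (‖BL a1 b1 (2 ^ i) (2 ^ j) (Y' d) χ.primitiveCharacter‖ +
          ‖BL a2 b2 (2 ^ i) (2 ^ j) (Y' d) χ.primitiveCharacter‖) ≤
        2 * (Cb * L ^ cb * Φ) := by
    intro Y' i j hi hj hij
    have hi' : (((2 ^ i : ℕ)) : ℝ) ≤ x ^ ((4 : ℝ) / 5) := by
      push_cast
      exact hi
    have hj' : (((2 ^ j : ℕ)) : ℝ) ≤ x ^ ((4 : ℝ) / 5) := by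
      push_cast
      exact hj
    have hij' : (((2 ^ i : ℕ)) : ℝ) * ((2 ^ j : ℕ) : ℝ) ≤ x := by
      push_cast
      exact hij
    have hSd : ∀ d ∈ S, 1 ≤ d ∧ (d : ℝ) ≤ x ^ A := fun d hd => ⟨(hS d hd).1, (hS d hd).2.1⟩
    have p1 : ∀ k : ℕ, 1 ≤ 2 ^ k := fun k => Nat.one_le_two_pow
    have q1 := hbox x R E (2 ^ i) (2 ^ j) S X Y' a1 b1 f hx hR hE (p1 i) (p1 j) hi' hj' hij'
      (by
        intro m hm
        rw [Finset.mem_Ico] at hm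
        have hm1 : 1 ≤ m := le_trans (p1 i) hm.1
        have e1 := (h1 zz m hm1).2.2.1
        rw [ha1]
        simp only [Complex.norm_real, Real.norm_eq_abs]
        refine e1.trans ?_
        rw [← hL]
        have : (0 : ℝ) ≤ (m.divisors.card : ℝ) := Nat.cast_nonneg _
        nlinarith)
      (by
        intro m hm
        rw [Finset.mem_Ico] at hm
        have hm1 : 1 ≤ m := le_trans (p1 j) hm.1
        have e1 := (h1 zz m hm1).2.2.2.2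
        rw [hb1]
        simp only [Complex.norm_real, Real.norm_eq_abs]
        rw [abs_of_nonneg e1.1, ← hL]
        refine Mdw_tau hL1 hm1 (e1.2.trans ?_)
        exact Mdw_lg hx hj' hm1 hm.2) hf hSd hX hcard1
    have q2 := hbox x R E (2 ^ i) (2 ^ j) S X Y' a2 b2 f hx hR hE (p1 i) (p1 j) hi' hj' hij'
      (by
        intro m hm
        rw [Finset.mem_Ico] at hm
        have hm1 : 1 ≤ m := le_trans (p1 i) hm.1
        have e1 := (h1 zz m hm1).1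
        rw [ha2]
        simp only
        rw [← hL]
        split_ifs with hz
        · rw [Complex.norm_real, Real.norm_eq_abs]
          refine Mdw_tau hL1 hm1 (e1.trans ?_)
          exact Mdw_lg hx hi' hm1 hm.2
        · rw [norm_zero]
          positivity)
      (by
        intro m hm
        rw [Finset.mem_Ico] at hm
        have hm1 : 1 ≤ m := le_trans (p1 j) hm.1
        rw [hb2]
        simp only [norm_one]
        rw [← hL]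
        exact Mdw_tau hL1 hm1 (by linarith)) hf hSd hX hcard1
    have q3 : ∑ d ∈ S, (1 / (d.totient : ℝ)) * ∑ χ ∈ X d, f d χ *
        (‖BL a1 b1 (2 ^ i) (2 ^ j) (Y' d) χ.primitiveCharacter‖ +
          ‖BL a2 b2 (2 ^ i) (2 ^ j) (Y' d) χ.primitiveCharacter‖) =
        ∑ d ∈ S, (1 / (d.totient : ℝ)) * ∑ χ ∈ X d, f d χ *
          ‖BL a1 b1 (2 ^ i) (2 ^ j) (Y' d) χ.primitiveCharacter‖ +
        ∑ d ∈ S, (1 / (d.totient : ℝ)) * ∑ χ ∈ X d, f d χ *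
          ‖BL a2 b2 (2 ^ i) (2 ^ j) (Y' d) χ.primitiveCharacter‖ := by
      rw [← Finset.sum_add_distrib]
      refine Finset.sum_congr rfl fun d _ => ?_
      rw [← mul_add, ← Finset.sum_add_distrib]
      refine congrArg _ (Finset.sum_congr rfl fun χ _ => ?_)
      ring
    rw [q3]
    rw [← hL] at q1 q2
    linarith
  -- the sums of Λ χ
  have hG : ∀ Y' : ℕ → ℕ, (∀ d ∈ S, Y' d ≤ ⌊x⌋₊) →
      ∑ d ∈ S, (1 / (d.totient : ℝ)) * ∑ χ ∈ X d, f d χ * ‖PS χ.primitiveCharacter (Y' d)‖ ≤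
        W * T1 + (J : ℝ) * ((J : ℝ) * (2 * (Cb * L ^ cb * Φ))) := by
    intro Y' hY'
    have hpt : ∀ d ∈ S, ∀ χ ∈ X d, ‖PS χ.primitiveCharacter (Y' d)‖ ≤ T1 +
        ∑ i ∈ range J, ∑ j ∈ range J,
          if (2 : ℝ) ^ i ≤ x ^ ((4 : ℝ) / 5) ∧ (2 : ℝ) ^ j ≤ x ^ ((4 : ℝ) / 5) ∧
            (2 : ℝ) ^ i * 2 ^ j ≤ x then
          (‖BL a1 b1 (2 ^ i) (2 ^ j) (Y' d) χ.primitiveCharacter‖ +
            ‖BL a2 b2 (2 ^ i) (2 ^ j) (Y' d) χ.primitiveCharacter‖) else 0 := by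
      intro d hd χ hχ
      obtain ⟨c1, c2⟩ := hX d hd χ hχ
      have c3 : 2 ≤ χ.conductor := by omega
      have c4 : ((Y' d : ℕ) : ℝ) ≤ x := by
        have e1 : ((Y' d : ℕ) : ℝ) ≤ (⌊x⌋₊ : ℝ) := by exact_mod_cast hY' d hd
        exact e1.trans (Nat.floor_le hx0.le)
      have c5 := h2 x χ.conductor (Y' d) J χ.primitiveCharacter hx c3
        (DirichletCharacter.primitiveCharacter_isPrimitive χ) c4 hJ1
      refine c5.trans (add_le_add ?_ (le_refl _))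
      -- the first term
      have d1 : (χ.conductor : ℝ) ≤ x ^ A := by
        have e1 : (χ.conductor : ℝ) ≤ (d : ℝ) := by
          exact_mod_cast Nat.le_of_dvd (hS d hd).1 χ.conductor_dvd_level
        exact e1.trans (hS d hd).2.1
      have d2 : 1 + Real.log (χ.conductor : ℝ) ≤ (1 + A) * L := by
        have e1 := Real.log_le_log (by exact_mod_cast (by omega : 0 < χ.conductor)) d1
        rw [Real.log_rpow hx0, ← hL] at e1
        nlinarith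
      have d3 : Real.sqrt (χ.conductor : ℝ) ≤ 2 * (E : ℝ) ^ ((1 : ℝ) / 2) := by
        rw [← Real.sqrt_eq_rpow]
        have e1 : (χ.conductor : ℝ) ≤ 4 * (E : ℝ) := by
          have : (χ.conductor : ℝ) ≤ 2 * (E : ℝ) := by exact_mod_cast c2
          linarith
        have e2 : Real.sqrt (4 * (E : ℝ)) = 2 * Real.sqrt E := by
          rw [Real.sqrt_mul (by norm_num)]
          have : Real.sqrt 4 = 2 := by
            rw [show (4 : ℝ) = 2 ^ 2 by norm_num]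
            exact Real.sqrt_sq (by norm_num)
          rw [this]
        rw [← e2]
        exact Real.sqrt_le_sqrt e1
      have d4 : 0 ≤ 1 + Real.log (χ.conductor : ℝ) := by
        have := Real.log_nonneg (by exact_mod_cast (by omega : 1 ≤ χ.conductor) :
          (1 : ℝ) ≤ (χ.conductor : ℝ))
        linarith
      rw [← hL]
      calc 4 * (x ^ ((1 : ℝ) / 4) * L * (Real.sqrt (χ.conductor : ℝ) *
            (1 + Real.log (χ.conductor : ℝ))))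
          ≤ 4 * (x ^ ((1 : ℝ) / 4) * L * ((2 * (E : ℝ) ^ ((1 : ℝ) / 2)) * ((1 + A) * L))) := by
            gcongr
        _ = T1 := by
            rw [hT1]
            ring
    have hs1 : ∑ d ∈ S, (1 / (d.totient : ℝ)) * ∑ χ ∈ X d, f d χ * ‖PS χ.primitiveCharacter (Y' d)‖ ≤
        ∑ d ∈ S, (1 / (d.totient : ℝ)) * ∑ χ ∈ X d, f d χ * (T1 +
        ∑ i ∈ range J, ∑ j ∈ range J,
          if (2 : ℝ) ^ i ≤ x ^ ((4 : ℝ) / 5) ∧ (2 : ℝ) ^ j ≤ x ^ ((4 : ℝ) / 5) ∧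
            (2 : ℝ) ^ i * 2 ^ j ≤ x then
          (‖BL a1 b1 (2 ^ i) (2 ^ j) (Y' d) χ.primitiveCharacter‖ +
            ‖BL a2 b2 (2 ^ i) (2 ^ j) (Y' d) χ.primitiveCharacter‖) else 0) :=
      Finset.sum_le_sum fun d hd => mul_le_mul_of_nonneg_left
        (Finset.sum_le_sum fun χ hχ => mul_le_mul_of_nonneg_left (hpt d hd χ hχ) (hf d χ))
        (by positivity)
    refine hs1.trans ?_
    have hs2 : ∑ d ∈ S, (1 / (d.totient : ℝ)) * ∑ χ ∈ X d, f d χ * (T1 +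
        ∑ i ∈ range J, ∑ j ∈ range J,
          if (2 : ℝ) ^ i ≤ x ^ ((4 : ℝ) / 5) ∧ (2 : ℝ) ^ j ≤ x ^ ((4 : ℝ) / 5) ∧
            (2 : ℝ) ^ i * 2 ^ j ≤ x then
          (‖BL a1 b1 (2 ^ i) (2 ^ j) (Y' d) χ.primitiveCharacter‖ +
            ‖BL a2 b2 (2 ^ i) (2 ^ j) (Y' d) χ.primitiveCharacter‖) else 0) =
        W * T1 + ∑ d ∈ S, (1 / (d.totient : ℝ)) * ∑ χ ∈ X d,
          ∑ i ∈ range J, ∑ j ∈ range J, f d χ *
          (if (2 : ℝ) ^ i ≤ x ^ ((4 : ℝ) / 5) ∧ (2 : ℝ) ^ j ≤ x ^ ((4 : ℝ) / 5) ∧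
            (2 : ℝ) ^ i * 2 ^ j ≤ x then
          (‖BL a1 b1 (2 ^ i) (2 ^ j) (Y' d) χ.primitiveCharacter‖ +
            ‖BL a2 b2 (2 ^ i) (2 ^ j) (Y' d) χ.primitiveCharacter‖) else 0) := by
      rw [hWdef, Finset.sum_mul, ← Finset.sum_add_distrib]
      refine Finset.sum_congr rfl fun d _ => ?_
      rw [mul_assoc, ← mul_add, Finset.sum_mul, ← Finset.sum_add_distrib]
      refine congrArg _ (Finset.sum_congr rfl fun χ _ => ?_)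
      rw [mul_add, Finset.mul_sum]
      refine congrArg _ (Finset.sum_congr rfl fun i _ => ?_)
      rw [Finset.mul_sum]
    rw [hs2]
    refine add_le_add (le_refl _) ?_
    rw [Mdw_sw]
    have hin : ∀ i ∈ range J, ∑ d ∈ S, (1 / (d.totient : ℝ)) * ∑ χ ∈ X d,
          ∑ j ∈ range J, f d χ *
          (if (2 : ℝ) ^ i ≤ x ^ ((4 : ℝ) / 5) ∧ (2 : ℝ) ^ j ≤ x ^ ((4 : ℝ) / 5) ∧
            (2 : ℝ) ^ i * 2 ^ j ≤ x then
          (‖BL a1 b1 (2 ^ i) (2 ^ j) (Y' d) χ.primitiveCharacter‖ +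
            ‖BL a2 b2 (2 ^ i) (2 ^ j) (Y' d) χ.primitiveCharacter‖) else 0) ≤
          (J : ℝ) * (2 * (Cb * L ^ cb * Φ)) := by
      intro i _
      rw [Mdw_sw]
      have hin2 : ∀ j ∈ range J, ∑ d ∈ S, (1 / (d.totient : ℝ)) * ∑ χ ∈ X d, f d χ *
          (if (2 : ℝ) ^ i ≤ x ^ ((4 : ℝ) / 5) ∧ (2 : ℝ) ^ j ≤ x ^ ((4 : ℝ) / 5) ∧
            (2 : ℝ) ^ i * 2 ^ j ≤ x then
          (‖BL a1 b1 (2 ^ i) (2 ^ j) (Y' d) χ.primitiveCharacter‖ +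
            ‖BL a2 b2 (2 ^ i) (2 ^ j) (Y' d) χ.primitiveCharacter‖) else 0) ≤
          2 * (Cb * L ^ cb * Φ) := by
        intro j _
        by_cases hc : (2 : ℝ) ^ i ≤ x ^ ((4 : ℝ) / 5) ∧ (2 : ℝ) ^ j ≤ x ^ ((4 : ℝ) / 5) ∧
            (2 : ℝ) ^ i * 2 ^ j ≤ x
        · simp only [if_pos hc]
          exact hone Y' i j hc.1 hc.2.1 hc.2.2
        · simp only [if_neg hc, mul_zero, Finset.sum_const_zero]
          positivity
      refine (Finset.sum_le_sum hin2).trans (le_of_eq ?_)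
      rw [Finset.sum_const, Finset.card_range, nsmul_eq_mul]
    refine (Finset.sum_le_sum hin).trans (le_of_eq ?_)
    rw [Finset.sum_const, Finset.card_range, nsmul_eq_mul]
  have hY : ∀ d ∈ S, ⌊y d⌋₊ ≤ ⌊x⌋₊ := fun d hd => Nat.floor_le_floor (hS d hd).2.2.2
  have hmain := habl S X f _ ⌊x⌋₊ (fun d => ⌊y d⌋₊) hf hY hG
  refine hmain.trans ?_
  have hfl : Real.sqrt (⌊x⌋₊ : ℝ) * Real.log (⌊x⌋₊ : ℝ) ≤ x ^ ((1 : ℝ) / 2) * L := by
    have e1 : (⌊x⌋₊ : ℝ) ≤ x := Nat.floor_le hx0.le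
    have e2 : (1 : ℝ) ≤ (⌊x⌋₊ : ℝ) := by
      exact_mod_cast (Nat.floor_pos.2 (by linarith) : 0 < ⌊x⌋₊)
    rw [← Real.sqrt_eq_rpow]
    exact mul_le_mul (Real.sqrt_le_sqrt e1) (Real.log_le_log (by linarith) e1)
      (Real.log_nonneg e2) (Real.sqrt_nonneg _)
  have hWle : W ≤ (1 + A) ^ 2 * B * L ^ 2 := by
    refine hW.trans (le_of_eq ?_)
    ring
  have hpow : ∀ n : ℕ, n ≤ 5 → L ^ n ≤ L ^ (cb + 5) := by
    intro n hn
    rw [← Real.rpow_natCast L n]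
    refine Real.rpow_le_rpow_of_exponent_le hL1 ?_
    have : (n : ℝ) ≤ 5 := by exact_mod_cast hn
    linarith
  -- the three terms
  have t1 : W * T1 ≤ 8 * (1 + A) ^ 3 * (L ^ (cb + 5) *
      (B * (x ^ ((1 : ℝ) / 4) * (E : ℝ) ^ ((1 : ℝ) / 2)))) := by
    calc W * T1 ≤ ((1 + A) ^ 2 * B * L ^ 2) * T1 := mul_le_mul_of_nonneg_right hWle hT10
      _ = 8 * (1 + A) ^ 3 * (L ^ 4 * (B * (x ^ ((1 : ℝ) / 4) * (E : ℝ) ^ ((1 : ℝ) / 2)))) := by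
        rw [hT1]
        ring
      _ ≤ _ := by
        have := hpow 4 (by norm_num)
        gcongr
  have t2 : (J : ℝ) * ((J : ℝ) * (2 * (Cb * L ^ cb * Φ))) ≤ 18 * Cb * (L ^ (cb + 5) * Φ) := by
    have e1 : (J : ℝ) * ((J : ℝ) * (2 * (Cb * L ^ cb * Φ))) ≤
        (3 * L) * ((3 * L) * (2 * (Cb * L ^ cb * Φ))) := by
      gcongr
    refine e1.trans ?_
    have e2 : L ^ 2 * L ^ cb ≤ L ^ (cb + 5) := by
      rw [← Real.rpow_natCast L 2, ← Real.rpow_add hL0]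
      refine Real.rpow_le_rpow_of_exponent_le hL1 ?_
      push_cast
      linarith
    calc (3 * L) * ((3 * L) * (2 * (Cb * L ^ cb * Φ))) = 18 * Cb * ((L ^ 2 * L ^ cb) * Φ) := by
          ring
      _ ≤ _ := by gcongr
  have t3 : C0 * (Real.sqrt (⌊x⌋₊ : ℝ) * Real.log (⌊x⌋₊ : ℝ)) * W ≤
      C0 * (1 + A) ^ 2 * (L ^ (cb + 5) * (B * x ^ ((1 : ℝ) / 2))) := by
    calc C0 * (Real.sqrt (⌊x⌋₊ : ℝ) * Real.log (⌊x⌋₊ : ℝ)) * W
        ≤ C0 * (x ^ ((1 : ℝ) / 2) * L) * ((1 + A) ^ 2 * B * L ^ 2) := by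
          refine mul_le_mul ?_ hWle hW0 (by positivity)
          exact mul_le_mul_of_nonneg_left hfl hC0.le
      _ = C0 * (1 + A) ^ 2 * (L ^ 3 * (B * x ^ ((1 : ℝ) / 2))) := by ring
      _ ≤ _ := by
        have := hpow 3 (by norm_num)
        gcongr
  have P0 : 0 ≤ L ^ (cb + 5) := by positivity
  have P1 : 0 ≤ L ^ (cb + 5) * (B * (x ^ ((1 : ℝ) / 4) * (E : ℝ) ^ ((1 : ℝ) / 2))) := by
    positivity
  have P2 : 0 ≤ L ^ (cb + 5) * Φ := by positivity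
  have P3 : 0 ≤ L ^ (cb + 5) * (B * x ^ ((1 : ℝ) / 2)) := by positivity
  have Q1 : 0 ≤ 8 * (1 + A) ^ 3 := by positivity
  have Q2 : 0 ≤ 18 * Cb := by positivity
  have Q3 : 0 ≤ C0 * (1 + A) ^ 2 := by positivity
  set R1 := L ^ (cb + 5) * (B * (x ^ ((1 : ℝ) / 4) * (E : ℝ) ^ ((1 : ℝ) / 2))) with hR1
  set R2 := L ^ (cb + 5) * Φ with hR2
  set R3 := L ^ (cb + 5) * (B * x ^ ((1 : ℝ) / 2)) with hR3
  have hfin : 3 * (8 * (1 + A) ^ 3 + 18 * Cb + C0 * (1 + A) ^ 2) * L ^ (cb + 5) *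
      (Φ + B * (x ^ ((1 : ℝ) / 4) * (E : ℝ) ^ ((1 : ℝ) / 2) + x ^ ((1 : ℝ) / 2))) =
      3 * (8 * (1 + A) ^ 3 + 18 * Cb + C0 * (1 + A) ^ 2) * (R1 + R2 + R3) := by
    rw [hR1, hR2, hR3]
    ring
  rw [hfin]
  have hexp : 3 * (8 * (1 + A) ^ 3 + 18 * Cb + C0 * (1 + A) ^ 2) * (R1 + R2 + R3) =
      3 * (8 * (1 + A) ^ 3 * R1 + 18 * Cb * R2 + C0 * (1 + A) ^ 2 * R3) +
      3 * (8 * (1 + A) ^ 3 * (R2 + R3) + 18 * Cb * (R1 + R3) +
        C0 * (1 + A) ^ 2 * (R1 + R2)) := by ring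
  rw [hexp]
  have hrest : 0 ≤ 3 * (8 * (1 + A) ^ 3 * (R2 + R3) + 18 * Cb * (R1 + R3) +
        C0 * (1 + A) ^ 2 * (R1 + R2)) := by positivity
  linarith

end Pool.Agent.Lib.CO
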