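import Pool.Agent.Lib.CO.Spec

namespace Pool.Agent.Lib.CO

open Finset Pool.Agent.Lib.BV Pool.Agent.Results.MP_00e23e_nt

private theorem Mob_mu (e : ℕ) (he : 1 < e) :
    ∑ x ∈ e.divisorsAntidiagonal, ((ArithmeticFunction.moebius x.1 : ℤ) : ℂ) = 0 := by
  have h := (ArithmeticFunction.sum_eq_iff_sum_mul_moebius_eq
    (f := fun n : ℕ => if n = 1 then (1 : ℂ) else 0) (g := fun _ => (1 : ℂ))).1
    (by
      intro n hn
      rw [Finset.sum_ite_eq' n.divisors 1 (fun _ => (1 : ℂ))]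
      rw [if_pos (Nat.one_mem_divisors.2 (by omega))]) e (by omega)
  simp only [mul_one] at h
  rw [h, if_neg (by omega)]

theorem tMob (h1 : AeStmt) : MobStmt := by
  classical
  intro y d e H l hy hd hed he
  have hd0 : NeZero d := ⟨by omega⟩
  set T : DirichletCharacter ℂ d → ℂ := fun χ => χ ((l⁻¹ : (ZMod d)ˣ) : ZMod d) * PC χ ⌊y⌋₊
    with hT
  set f : ℕ → ℂ := fun n => ∑ χ ∈ (XX d H).filter (fun χ => χ.conductor = n), T χ with hf
  set g : ℕ → ℂ := fun n => ∑ χ ∈ (XX d H).filter (fun χ => χ.conductor ∣ n), T χ with hg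
  have hfg : ∀ n > 0, ∑ i ∈ n.divisors, f i = g n := by
    intro n hn
    have hs : (XX d H).filter (fun χ => χ.conductor ∣ n) =
        n.divisors.biUnion (fun i => (XX d H).filter (fun χ => χ.conductor = i)) := by
      ext χ
      simp only [Finset.mem_filter, Finset.mem_biUnion, Nat.mem_divisors]
      constructor
      · rintro ⟨h2, h3⟩
        exact ⟨_, ⟨h3, by omega⟩, h2, rfl⟩
      · rintro ⟨i, ⟨h2, _⟩, h3, h4⟩
        exact ⟨h3, by rw [h4]; exact h2⟩
    simp only [hf, hg]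
    rw [hs, Finset.sum_biUnion]
    intro i _ j _ hij
    rw [Function.onFun, Finset.disjoint_left]
    intro χ h2 h3
    rw [Finset.mem_filter] at h2 h3
    exact hij (h2.2.symm.trans h3.2)
  have hfe : f e = ∑ x ∈ e.divisorsAntidiagonal,
      ((ArithmeticFunction.moebius x.1 : ℤ) : ℂ) * (g x.2 - (li y : ℂ)) := by
    rw [← (ArithmeticFunction.sum_eq_iff_sum_mul_moebius_eq.1 hfg) e (by omega)]
    have h2 : ∑ x ∈ e.divisorsAntidiagonal,
        ((ArithmeticFunction.moebius x.1 : ℤ) : ℂ) * (li y : ℂ) = 0 := by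
      rw [← Finset.sum_mul, Mob_mu e he, zero_mul]
    simp only [mul_sub]
    rw [Finset.sum_sub_distrib, h2, sub_zero]
  have hgoal : ‖f e‖ ≤ ∑ b ∈ e.divisors,
      ((b.totient : ℝ) * maxErr y b + (H.index : ℝ) * (2 * Real.log d)) := by
    rw [hfe]
    have h2 : ∀ x ∈ e.divisorsAntidiagonal,
        ‖((ArithmeticFunction.moebius x.1 : ℤ) : ℂ) * (g x.2 - (li y : ℂ))‖ ≤
          ((x.2.totient : ℝ) * maxErr y x.2 + (H.index : ℝ) * (2 * Real.log d)) := by
      intro x hx
      rw [Nat.mem_divisorsAntidiagonal] at hx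
      have h3 : x.2 ∣ d := (Dvd.intro_left x.1 hx.1).trans hed
      have h4 := h1 y d x.2 H l hy hd h3
      have h5 : ‖((ArithmeticFunction.moebius x.1 : ℤ) : ℂ)‖ ≤ 1 := by
        rw [Complex.norm_intCast]
        have := ArithmeticFunction.abs_moebius_le_one (n := x.1)
        exact_mod_cast this
      rw [norm_mul]
      calc _ ≤ 1 * ‖g x.2 - (li y : ℂ)‖ := by
            exact mul_le_mul_of_nonneg_right h5 (norm_nonneg _)
        _ = ‖g x.2 - (li y : ℂ)‖ := one_mul _
        _ ≤ _ := h4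
    refine (norm_sum_le_of_le _ h2).trans (le_of_eq ?_)
    exact Nat.sum_divisorsAntidiagonal' (fun _ b => ((b.totient : ℝ) * maxErr y b +
      (H.index : ℝ) * (2 * Real.log d)))
  exact hgoal

end Pool.Agent.Lib.CO
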