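import Pool.Agent.Lib.CO.Spec

/-! MP_00e23e_nt, module Orh: orthogonality for the characters which are trivial on a subgroup. -/

namespace Pool.Agent.Lib.CO

open Finset Pool.Agent.Lib.BV Pool.Agent.Results.MP_00e23e_nt

private lemma Orh_mem (e : ℕ) (K : Subgroup (ZMod e)ˣ) (χ : DirichletCharacter ℂ e) :
    χ ∈ XX e K ↔ ∀ h ∈ K, χ (h : ZMod e) = 1 := by
  simp [XX]

private lemma Orh_in (e : ℕ) (K : Subgroup (ZMod e)ˣ) (g : (ZMod e)ˣ) (hg : g ∈ K) :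
    ∑ χ ∈ XX e K, χ (g : ZMod e) = ((XX e K).card : ℂ) := by
  rw [Finset.sum_congr rfl (fun χ hχ => (Orh_mem e K χ).1 hχ g hg)]
  simp

private lemma Orh_sep (e : ℕ) [NeZero e] (K : Subgroup (ZMod e)ˣ) (g : (ZMod e)ˣ) (hg : g ∉ K) :
    ∃ χ ∈ XX e K, χ (g : ZMod e) ≠ 1 := by
  have h := (CommGroup.forall_monoidHom_apply_eq_one_iff (M := ℂ) K g).not.2 hg
  push Not at h
  obtain ⟨φ, h1, h2⟩ := h
  refine ⟨MulChar.ofUnitHom φ, (Orh_mem e K _).2 (fun y hy => ?_), ?_⟩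
  · rw [MulChar.ofUnitHom_coe, h1 y hy]
    rfl
  · rw [MulChar.ofUnitHom_coe]
    intro h3
    exact h2 (Units.ext h3)

private lemma Orh_out (e : ℕ) [NeZero e] (K : Subgroup (ZMod e)ˣ) (g : (ZMod e)ˣ) (hg : g ∉ K) :
    ∑ χ ∈ XX e K, χ (g : ZMod e) = 0 := by
  obtain ⟨ψ, hψ, hne⟩ := Orh_sep e K g hg
  have hperm : ∑ χ ∈ XX e K, χ (g : ZMod e) = ∑ χ ∈ XX e K, (ψ * χ) (g : ZMod e) := by
    refine Finset.sum_nbij' (fun χ => ψ⁻¹ * χ) (fun χ => ψ * χ) ?_ ?_ ?_ ?_ ?_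
    · intro χ hχ
      refine (Orh_mem e K _).2 (fun y hy => ?_)
      rw [MulChar.mul_apply, (Orh_mem e K χ).1 hχ y hy, MulChar.inv_apply_eq_inv,
        (Orh_mem e K ψ).1 hψ y hy]
      simp
    · intro χ hχ
      refine (Orh_mem e K _).2 (fun y hy => ?_)
      rw [MulChar.mul_apply, (Orh_mem e K χ).1 hχ y hy, (Orh_mem e K ψ).1 hψ y hy, one_mul]
    · intro χ _
      exact mul_inv_cancel_left ψ χ
    · intro χ _
      exact inv_mul_cancel_left ψ χ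
    · intro χ _
      rw [mul_inv_cancel_left]
  have h2 : ∑ χ ∈ XX e K, χ (g : ZMod e) = ψ (g : ZMod e) * ∑ χ ∈ XX e K, χ (g : ZMod e) := by
    conv_lhs => rw [hperm]
    rw [Finset.mul_sum]
    exact Finset.sum_congr rfl (fun χ _ => MulChar.mul_apply ψ χ _)
  have h3 : (ψ (g : ZMod e) - 1) * ∑ χ ∈ XX e K, χ (g : ZMod e) = 0 := by
    rw [sub_mul, one_mul, ← h2, sub_self]
  rcases mul_eq_zero.1 h3 with h4 | h4
  · exact absurd (sub_eq_zero.1 h4) hne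
  · exact h4

private lemma Orh_units (e : ℕ) [NeZero e] (χ : DirichletCharacter ℂ e) (hχ : χ ≠ 1) :
    ∑ g : (ZMod e)ˣ, χ (g : ZMod e) = 0 := by
  obtain ⟨u, hu⟩ := MulChar.ne_one_iff.1 hχ
  have h2 : ∑ g : (ZMod e)ˣ, χ (g : ZMod e) = χ (u : ZMod e) * ∑ g : (ZMod e)ˣ, χ (g : ZMod e) := by
    rw [Finset.mul_sum, ← Equiv.sum_comp (Equiv.mulLeft u) (fun g : (ZMod e)ˣ => χ (g : ZMod e))]
    refine Finset.sum_congr rfl (fun g _ => ?_)
    rw [Equiv.coe_mulLeft, Units.val_mul, map_mul]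
  have h3 : (χ (u : ZMod e) - 1) * ∑ g : (ZMod e)ˣ, χ (g : ZMod e) = 0 := by
    rw [sub_mul, one_mul, ← h2, sub_self]
  rcases mul_eq_zero.1 h3 with h4 | h4
  · exact absurd (sub_eq_zero.1 h4) hu
  · exact h4

private lemma Orh_card (e : ℕ) (he : 1 ≤ e) (K : Subgroup (ZMod e)ˣ) : (XX e K).card = K.index := by
  classical
  have : NeZero e := ⟨by omega⟩
  have h1 : ∑ g : (ZMod e)ˣ, ∑ χ ∈ XX e K, χ (g : ZMod e) = ((XX e K).card : ℂ) * (Nat.card K : ℂ) := by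
    rw [← Finset.sum_filter_add_sum_filter_not (univ : Finset (ZMod e)ˣ) (fun g => g ∈ K)]
    rw [Finset.sum_congr rfl (fun g hg => Orh_in e K g (Finset.mem_filter.1 hg).2)]
    rw [Finset.sum_eq_zero (s := univ.filter (fun g => ¬ g ∈ K))
      (fun g hg => Orh_out e K g (Finset.mem_filter.1 hg).2), add_zero, Finset.sum_const, nsmul_eq_mul,
      mul_comm]
    have h5 : (univ.filter (fun g : (ZMod e)ˣ => g ∈ K)).card = Nat.card K := by
      rw [Nat.card_eq_fintype_card, Fintype.card_subtype]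
    rw [h5]
  have h2 : ∑ g : (ZMod e)ˣ, ∑ χ ∈ XX e K, χ (g : ZMod e) = (Nat.card (ZMod e)ˣ : ℂ) := by
    rw [Finset.sum_comm]
    have hone : (1 : DirichletCharacter ℂ e) ∈ XX e K :=
      (Orh_mem e K 1).2 (fun y _ => MulChar.one_apply_coe y)
    rw [Finset.sum_eq_single_of_mem 1 hone (fun χ _ hχ => Orh_units e χ hχ)]
    rw [Finset.sum_congr rfl (fun g _ => MulChar.one_apply_coe g)]
    simp [Nat.card_eq_fintype_card]
  have h3 : (XX e K).card * Nat.card K = Nat.card (ZMod e)ˣ := by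
    have h4 : (((XX e K).card * Nat.card K : ℕ) : ℂ) = ((Nat.card (ZMod e)ˣ : ℕ) : ℂ) := by
      rw [Nat.cast_mul, ← h1, h2]
    exact_mod_cast h4
  have h5 := K.index_mul_card
  have h6 : 0 < Nat.card K := Nat.card_pos
  exact Nat.eq_of_mul_eq_mul_right h6 (h3.trans h5.symm)

theorem tOrh : OrhStmt := by
  intro e K he
  have : NeZero e := ⟨by omega⟩
  refine ⟨Orh_card e he K, fun l n => ⟨?_, ?_⟩⟩
  · rintro ⟨h, hh, hn⟩
    rw [← Orh_card e he K, ← Orh_in e K h hh]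
    refine Finset.sum_congr rfl (fun χ _ => ?_)
    rw [hn, ← map_mul, ← Units.val_mul, inv_mul_cancel_left]
  · intro hno
    by_cases hu : IsUnit (n : ZMod e)
    · obtain ⟨g, hg⟩ := hu
      have h1 : l⁻¹ * g ∉ K := by
        intro h2
        exact hno ⟨l⁻¹ * g, h2, by rw [mul_inv_cancel_left, hg]⟩
      rw [← Orh_out e K _ h1]
      refine Finset.sum_congr rfl (fun χ _ => ?_)
      rw [← hg, ← map_mul, ← Units.val_mul]
    · refine Finset.sum_eq_zero (fun χ _ => ?_)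
      rw [MulChar.map_nonunit χ hu, mul_zero]

end Pool.Agent.Lib.CO
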