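import Pool.Agent.Lib.CO.SpecW

/-! MP_00e23e_nt, Lib/CO, module Prv: Parseval for the Fourier coefficients of a set of classes. -/

namespace Pool.Agent.Lib.CO

open Finset Pool.Agent.Lib.BV Pool.Agent.Results.MP_00e23e_nt

private theorem Prv_char {d : ℕ} [NeZero d] (b b' : (ZMod d)ˣ) :
    ∑ χ : DirichletCharacter ℂ d, χ ((b⁻¹ : (ZMod d)ˣ) : ZMod d) *
      (starRingEnd ℂ) (χ ((b'⁻¹ : (ZMod d)ˣ) : ZMod d)) = if b = b' then (d.totient : ℂ) else 0 := by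
  have h1 : ∀ χ : DirichletCharacter ℂ d,
      χ ((b⁻¹ : (ZMod d)ˣ) : ZMod d) * (starRingEnd ℂ) (χ ((b'⁻¹ : (ZMod d)ˣ) : ZMod d)) =
        χ ((b : ZMod d)⁻¹) * χ (b' : ZMod d) := by
    intro χ
    have h2 : (starRingEnd ℂ) (χ ((b'⁻¹ : (ZMod d)ˣ) : ZMod d)) = χ (b' : ZMod d) := by
      have h3 := MulChar.star_apply' χ ((b'⁻¹ : (ZMod d)ˣ) : ZMod d)
      rw [MulChar.inv_apply, Ring.inverse_unit, inv_inv] at h3
      exact h3
    rw [h2, ZMod.inv_coe_unit]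
  rw [sum_congr rfl (fun χ _ => h1 χ),
    DirichletCharacter.sum_char_inv_mul_char_eq ℂ (Units.isUnit b)]
  by_cases hbb : b = b'
  · rw [if_pos hbb, if_pos (by rw [hbb])]
  · rw [if_neg hbb, if_neg (fun h => hbb (Units.ext h))]

private theorem Prv_all {d : ℕ} (hd : 1 ≤ d) (B : Finset (ZMod d)ˣ) :
    ∑ χ : DirichletCharacter ℂ d, ‖∑ b ∈ B, χ ((b⁻¹ : (ZMod d)ˣ) : ZMod d)‖ ^ 2 =
      (d.totient : ℝ) * (B.card : ℝ) := by
  have : NeZero d := ⟨by omega⟩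
  have key : ((∑ χ : DirichletCharacter ℂ d, ‖∑ b ∈ B, χ ((b⁻¹ : (ZMod d)ˣ) : ZMod d)‖ ^ 2 : ℝ) : ℂ) =
      (((d.totient : ℝ) * (B.card : ℝ) : ℝ) : ℂ) := by
    push_cast
    have h1 : ∀ χ : DirichletCharacter ℂ d,
        ((‖∑ b ∈ B, χ ((b⁻¹ : (ZMod d)ˣ) : ZMod d)‖ : ℝ) : ℂ) ^ 2 =
          ∑ b ∈ B, ∑ b' ∈ B, (χ ((b⁻¹ : (ZMod d)ˣ) : ZMod d) *
            (starRingEnd ℂ) (χ ((b'⁻¹ : (ZMod d)ˣ) : ZMod d))) := by
      intro χ
      rw [← Complex.mul_conj', map_sum, sum_mul_sum]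
    rw [sum_congr rfl (fun χ _ => h1 χ), sum_comm]
    have h2 : ∀ b ∈ B, ∑ χ : DirichletCharacter ℂ d, ∑ b' ∈ B,
        (χ ((b⁻¹ : (ZMod d)ˣ) : ZMod d) *
            (starRingEnd ℂ) (χ ((b'⁻¹ : (ZMod d)ˣ) : ZMod d))) = (d.totient : ℂ) := by
      intro b hb
      rw [sum_comm, sum_congr rfl (fun b' _ => Prv_char b b'), sum_ite_eq, if_pos hb]
    rw [sum_congr rfl h2, sum_const, nsmul_eq_mul, mul_comm]
  exact_mod_cast key

theorem tPrv : PrvStmt := by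
  intro d H B hd hB
  have hc : (0 : ℝ) < (B.card : ℝ) := by exact_mod_cast hB.card_pos
  refine ⟨fun χ => ?_, ?_⟩
  · unfold bet
    rw [div_le_one hc]
    refine (norm_sum_le _ _).trans ?_
    refine (Finset.sum_le_sum fun b _ => χ.norm_le_one _).trans (le_of_eq ?_)
    rw [sum_const, nsmul_eq_mul, mul_one]
  · have h1 : ∑ χ ∈ XX d H, bet B χ ^ 2 ≤ ∑ χ : DirichletCharacter ℂ d, bet B χ ^ 2 :=
      Finset.sum_le_sum_of_subset_of_nonneg (Finset.subset_univ _) fun χ _ _ => sq_nonneg _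
    refine h1.trans (le_of_eq ?_)
    have h2 : ∀ χ : DirichletCharacter ℂ d, bet B χ ^ 2 =
        ‖∑ b ∈ B, χ ((b⁻¹ : (ZMod d)ˣ) : ZMod d)‖ ^ 2 / (B.card : ℝ) ^ 2 := by
      intro χ
      unfold bet
      rw [div_pow]
    rw [sum_congr rfl (fun χ _ => h2 χ), ← sum_div, Prv_all hd B]
    field_simp

end Pool.Agent.Lib.CO
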