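import Pool.Agent.Lib.CO.SpecV

/-!
MP_00e23e_nt, directory Lib/CO, module Pv: the Polya-Vinogradov inequality for primitive characters, with and
without the weight log n.
-/

namespace Pool.Agent.Lib.CO

open Finset Pool.Agent.Lib.BV Pool.Agent.Results.MP_00e23e_nt Pool.Agent.Lib.EH3

private lemma Pv_icc (N : ℕ) (t : ℝ) : ∑ n ∈ Icc 1 N, ee (n * t) = ee t * GG N t := by
  unfold GG
  induction N with
  | zero => simp
  | succ N ih =>
    rw [Finset.sum_Icc_succ_top (by omega), ih, Finset.sum_range_succ, mul_add, ← ee_add]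
    congr 2
    push_cast
    ring

private lemma Pv_round {b q : ℕ} (hb : 1 ≤ b) (hq : b < q) :
    ((min b (q - b) : ℕ) : ℝ) / q ≤ |(b : ℝ) / q - round ((b : ℝ) / q)| := by
  have hq0 : (0 : ℝ) < q := by
    have : 0 < q := by omega
    exact_mod_cast this
  set z : ℤ := round ((b : ℝ) / q) with hz
  have h1 : (b : ℝ) / q - z = ((b : ℝ) - q * z) / q := by
    field_simp
  rw [h1, abs_div, abs_of_pos hq0]
  apply div_le_div_of_nonneg_right _ hq0.le
  have h2 : ((min b (q - b) : ℕ) : ℤ) ≤ |(b : ℤ) - q * z| := by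
    rcases le_or_gt z 0 with h | h
    · have h3 : (q : ℤ) * z ≤ 0 := mul_nonpos_of_nonneg_of_nonpos (by positivity) h
      rw [abs_of_nonneg (by omega)]
      have : min b (q - b) ≤ b := min_le_left _ _
      omega
    · have h3 : (q : ℤ) * 1 ≤ q * z := mul_le_mul_of_nonneg_left (by omega) (by positivity)
      rw [abs_of_nonpos (by omega)]
      have : min b (q - b) ≤ q - b := min_le_right _ _
      omega
  have h3 : (((min b (q - b) : ℕ) : ℤ) : ℝ) ≤ ((|(b : ℤ) - q * z| : ℤ) : ℝ) := by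
    exact_mod_cast h2
  push_cast at h3 ⊢
  exact h3

private lemma Pv_geo {b q : ℕ} (N : ℕ) (hb : 1 ≤ b) (hq : b < q) :
    ‖∑ n ∈ Icc 1 N, ee (n * ((b : ℝ) / q))‖ ≤ (q : ℝ) / 2 * (1 / (b : ℝ) + 1 / ((q - b : ℕ) : ℝ)) := by
  rw [Pv_icc, norm_mul, norm_ee, one_mul]
  have h1 := norm_GG_mul_le N ((b : ℝ) / q)
  have h2 := Pv_round hb hq
  have hq0 : (0 : ℝ) < q := by
    have : 0 < q := by omega
    exact_mod_cast this
  have hb0 : (0 : ℝ) < b := by exact_mod_cast hb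
  have hc0 : (0 : ℝ) < ((q - b : ℕ) : ℝ) := by
    have : 0 < q - b := by omega
    exact_mod_cast this
  have hm0 : (0 : ℝ) < ((min b (q - b) : ℕ) : ℝ) := by
    have : 0 < min b (q - b) := by
      rw [lt_min_iff]; omega
    exact_mod_cast this
  have h3 : ‖GG N ((b : ℝ) / q)‖ * (2 * (((min b (q - b) : ℕ) : ℝ) / q)) ≤ 1 :=
    (mul_le_mul_of_nonneg_left (mul_le_mul_of_nonneg_left h2 (by norm_num)) (norm_nonneg _)).trans h1
  have h4 : ‖GG N ((b : ℝ) / q)‖ ≤ (q : ℝ) / 2 * (1 / ((min b (q - b) : ℕ) : ℝ)) := by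
    have h5 : (q : ℝ) / 2 * (1 / ((min b (q - b) : ℕ) : ℝ)) = 1 / (2 * (((min b (q - b) : ℕ) : ℝ) / q)) := by
      field_simp
    rw [h5, le_div_iff₀ (by positivity)]
    exact h3
  refine h4.trans (mul_le_mul_of_nonneg_left ?_ (by positivity))
  rcases min_choice b (q - b) with h | h
  · rw [h]
    have : 0 < 1 / ((q - b : ℕ) : ℝ) := by positivity
    linarith
  · rw [h]
    have : 0 < 1 / (b : ℝ) := by positivity
    linarith

private lemma Pv_harm {q : ℕ} (hq : 2 ≤ q) :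
    ∑ b ∈ Icc 1 (q - 1), 1 / (b : ℝ) ≤ 1 + Real.log q := by
  have h1 := harmonic_le_one_add_log (q - 1)
  rw [harmonic_eq_sum_Icc] at h1
  push_cast at h1
  have h2 : Real.log ((q - 1 : ℕ) : ℝ) ≤ Real.log q := by
    apply Real.log_le_log
    · have : 0 < q - 1 := by omega
      exact_mod_cast this
    · have : q - 1 ≤ q := by omega
      exact_mod_cast this
  have h3 : ∑ b ∈ Icc 1 (q - 1), 1 / (b : ℝ) = ∑ b ∈ Icc 1 (q - 1), ((b : ℝ))⁻¹ :=
    Finset.sum_congr rfl fun b _ => one_div _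
  rw [h3]
  linarith

private lemma Pv_total {q : ℕ} (N : ℕ) (hq : 2 ≤ q) (c : ℕ → ℂ) (hc : ∀ b, ‖c b‖ ≤ 1) :
    ‖∑ b ∈ (range q).filter (fun b => b.Coprime q), c b * ∑ n ∈ Icc 1 N, ee (n * ((b : ℝ) / q))‖ ≤
      q * (1 + Real.log q) := by
  have hsub : (range q).filter (fun b => b.Coprime q) ⊆ Icc 1 (q - 1) := by
    intro b hb
    rw [mem_filter, mem_range] at hb
    rw [mem_Icc]
    have : b ≠ 0 := by
      intro h
      rw [h] at hb
      have := hb.2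
      rw [Nat.coprime_zero_left] at this
      omega
    omega
  refine (norm_sum_le _ _).trans ?_
  refine (Finset.sum_le_sum_of_subset_of_nonneg hsub fun _ _ _ => norm_nonneg _).trans ?_
  have h1 : ∑ b ∈ Icc 1 (q - 1), ‖c b * ∑ n ∈ Icc 1 N, ee (n * ((b : ℝ) / q))‖ ≤
      ∑ b ∈ Icc 1 (q - 1), (q : ℝ) / 2 * (1 / (b : ℝ) + 1 / ((q - b : ℕ) : ℝ)) := by
    refine Finset.sum_le_sum fun b hb => ?_
    rw [mem_Icc] at hb
    rw [norm_mul]
    have h2 := Pv_geo N hb.1 (by omega : b < q)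
    have h3 : ‖c b‖ * ‖∑ n ∈ Icc 1 N, ee (n * ((b : ℝ) / q))‖ ≤
        1 * ‖∑ n ∈ Icc 1 N, ee (n * ((b : ℝ) / q))‖ :=
      mul_le_mul_of_nonneg_right (hc b) (norm_nonneg _)
    linarith
  refine h1.trans ?_
  rw [← Finset.mul_sum, Finset.sum_add_distrib]
  have h4 : ∑ b ∈ Icc 1 (q - 1), 1 / ((q - b : ℕ) : ℝ) = ∑ b ∈ Icc 1 (q - 1), 1 / (b : ℝ) := by
    refine Finset.sum_nbij' (fun b => q - b) (fun b => q - b) ?_ ?_ ?_ ?_ ?_
    · intro b hb; rw [mem_Icc] at hb ⊢; omega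
    · intro b hb; rw [mem_Icc] at hb ⊢; omega
    · intro b hb; rw [mem_Icc] at hb; show q - (q - b) = b; omega
    · intro b hb; rw [mem_Icc] at hb; show q - (q - b) = b; omega
    · intro b _; rfl
  rw [h4]
  have h5 := Pv_harm hq
  have hq0 : (0 : ℝ) < q := by
    have : 0 < q := by omega
    exact_mod_cast this
  nlinarith

private lemma Pv_first (h1 : GauStmt) {q : ℕ} (N : ℕ) (χ : DirichletCharacter ℂ q) (hq : 2 ≤ q)
    (hχ : χ.IsPrimitive) : ‖∑ n ∈ Icc 1 N, χ (n : ZMod q)‖ ≤ Real.sqrt q * (1 + Real.log q) := by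
  obtain ⟨G, hG, hs⟩ := h1 q χ (by omega) hχ
  have hq0 : (0 : ℝ) < q := by
    have : 0 < q := by omega
    exact_mod_cast this
  have hGn : ‖G‖ = Real.sqrt q := by
    rw [← hG, Real.sqrt_sq (norm_nonneg _)]
  have h2 : (∑ n ∈ Icc 1 N, χ (n : ZMod q)) * G =
      ∑ b ∈ (range q).filter (fun b => b.Coprime q), χ⁻¹ (b : ZMod q) *
        ∑ n ∈ Icc 1 N, ee (n * ((b : ℝ) / q)) := by
    rw [Finset.sum_mul]
    simp_rw [hs, Finset.mul_sum]
    rw [Finset.sum_comm]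
  have h3 := Pv_total N hq (fun b => χ⁻¹ (b : ZMod q)) (fun b => DirichletCharacter.norm_le_one _ _)
  rw [← h2, norm_mul, hGn] at h3
  have h4 : 0 < Real.sqrt q := Real.sqrt_pos.2 hq0
  have h5 : (q : ℝ) * (1 + Real.log q) = (Real.sqrt q * (1 + Real.log q)) * Real.sqrt q := by
    have := Real.mul_self_sqrt hq0.le
    calc (q : ℝ) * (1 + Real.log q) = (Real.sqrt q * Real.sqrt q) * (1 + Real.log q) := by rw [this]
      _ = _ := by ring
  rw [h5] at h3
  exact le_of_mul_le_mul_right h3 h4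

private lemma Pv_abel (f : ℕ → ℂ) (M : ℝ) (hM : ∀ n, ‖∑ k ∈ Icc 1 n, f k‖ ≤ M) (N : ℕ) :
    ‖∑ n ∈ Icc 1 (N + 1), ((Real.log n : ℝ) : ℂ) * f n -
      ((Real.log ((N + 1 : ℕ) : ℝ) : ℝ) : ℂ) * ∑ k ∈ Icc 1 (N + 1), f k‖ ≤
      Real.log ((N + 1 : ℕ) : ℝ) * M := by
  induction N with
  | zero => simp
  | succ N ih =>
    rw [Finset.sum_Icc_succ_top (by omega), Finset.sum_Icc_succ_top (by omega) (f := f)]
    set T := ∑ n ∈ Icc 1 (N + 1), ((Real.log n : ℝ) : ℂ) * f n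
    set S := ∑ k ∈ Icc 1 (N + 1), f k with hS
    set u : ℝ := Real.log ((N + 1 : ℕ) : ℝ) with hu
    set v : ℝ := Real.log ((N + 1 + 1 : ℕ) : ℝ) with hv
    have huv : u ≤ v := by
      apply Real.log_le_log
      · positivity
      · push_cast; linarith
    have h1 : T + (v : ℂ) * f (N + 1 + 1) - (v : ℂ) * (S + f (N + 1 + 1)) =
        (T - (u : ℂ) * S) + ((u - v : ℝ) : ℂ) * S := by
      push_cast
      ring
    rw [h1]
    refine (norm_add_le _ _).trans ?_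
    rw [norm_mul, Complex.norm_real, Real.norm_eq_abs, abs_of_nonpos (by linarith)]
    have h2 := hM (N + 1)
    rw [← hS] at h2
    nlinarith [norm_nonneg S]

/-- Module Pv. -/
theorem tPv (h1 : GauStmt) : PvStmt := by
  intro q N χ hq hχ
  have hf := fun n => Pv_first h1 n χ hq hχ
  refine ⟨hf N, ?_⟩
  rcases N with _ | N
  · simp
  · have h2 := Pv_abel (fun n => χ (n : ZMod q)) _ hf N
    have h3 := hf (N + 1)
    have h4 : 0 ≤ Real.log ((N + 1 : ℕ) : ℝ) := Real.log_natCast_nonneg _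
    have h5 := norm_add_le (∑ n ∈ Icc 1 (N + 1), ((Real.log n : ℝ) : ℂ) * χ (n : ZMod q) -
      ((Real.log ((N + 1 : ℕ) : ℝ) : ℝ) : ℂ) * ∑ k ∈ Icc 1 (N + 1), χ (k : ZMod q))
      (((Real.log ((N + 1 : ℕ) : ℝ) : ℝ) : ℂ) * ∑ k ∈ Icc 1 (N + 1), χ (k : ZMod q))
    rw [sub_add_cancel, norm_mul, Complex.norm_real, Real.norm_eq_abs, abs_of_nonneg h4] at h5
    have h6 := mul_le_mul_of_nonneg_left h3 h4
    linarith

end Pool.Agent.Lib.CO
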