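import Pool.Agent.Lib.CO.Spec

namespace Pool.Agent.Lib.CO

open Finset Pool.Agent.Lib.BV Pool.Agent.Results.MP_00e23e_nt

private lemma Pwk_perm {k : ℕ} (v w : Fin k → ℕ) (hv : ∀ i, (v i).Prime) (hw : ∀ i, (w i).Prime)
    (h : ∏ i, v i = ∏ i, w i) : ∃ σ : Equiv.Perm (Fin k), v = w ∘ σ := by
  have h1 : (List.ofFn v).Perm (List.ofFn w) := by
    have hv' : (List.ofFn v).Perm (∏ i, w i).primeFactorsList := by
      refine Nat.primeFactorsList_unique ?_ ?_
      · rw [List.prod_ofFn, h]
      · intro p hp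
        obtain ⟨i, rfl⟩ := (List.mem_ofFn' v p).1 hp
        exact hv i
    have hw' : (List.ofFn w).Perm (∏ i, w i).primeFactorsList := by
      refine Nat.primeFactorsList_unique ?_ ?_
      · rw [List.prod_ofFn]
      · intro p hp
        obtain ⟨i, rfl⟩ := (List.mem_ofFn' w p).1 hp
        exact hw i
    exact hv'.trans hw'.symm
  have h2 : v ∘ Tuple.sort v = w ∘ Tuple.sort w :=
    List.ofFn_injective <|
      (((Equiv.Perm.ofFn_comp_perm (Tuple.sort v) v).trans h1).trans
        (Equiv.Perm.ofFn_comp_perm (Tuple.sort w) w).symm).eq_of_pairwise'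
        (Tuple.monotone_sort v).sortedLE_ofFn.pairwise (Tuple.monotone_sort w).sortedLE_ofFn.pairwise
  refine ⟨(Tuple.sort v).symm.trans (Tuple.sort w), ?_⟩
  funext i
  have := congrFun h2 ((Tuple.sort v).symm i)
  simpa using this

private lemma Pwk_card (T : Finset ℕ) (k n : ℕ) (hT : ∀ p ∈ T, p.Prime) :
    ((Fintype.piFinset (fun _ : Fin k => T)).filter (fun v => ∏ i, v i = n)).card ≤ k.factorial := by
  classical
  rcases Finset.eq_empty_or_nonempty
    ((Fintype.piFinset (fun _ : Fin k => T)).filter (fun v => ∏ i, v i = n)) with h | ⟨w, hw⟩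
  · rw [h]; simp
  · rw [Finset.mem_filter, Fintype.mem_piFinset] at hw
    calc ((Fintype.piFinset (fun _ : Fin k => T)).filter (fun v => ∏ i, v i = n)).card
        ≤ ((univ : Finset (Equiv.Perm (Fin k))).image (fun σ : Equiv.Perm (Fin k) => w ∘ (σ : Fin k → Fin k))).card := by
          refine Finset.card_le_card ?_
          intro v hv
          rw [Finset.mem_filter, Fintype.mem_piFinset] at hv
          obtain ⟨σ, hσ⟩ := Pwk_perm v w (fun i => hT _ (hv.1 i)) (fun i => hT _ (hw.1 i))
            (hv.2.trans hw.2.symm)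
          exact Finset.mem_image.2 ⟨σ, Finset.mem_univ _, hσ.symm⟩
      _ ≤ (univ : Finset (Equiv.Perm (Fin k))).card := Finset.card_image_le
      _ = k.factorial := by rw [Finset.card_univ, Fintype.card_perm, Fintype.card_fin]

private lemma Pwk_maps (T : Finset ℕ) (N k : ℕ) (hT : ∀ p ∈ T, p.Prime ∧ p ≤ N) :
    ∀ v ∈ Fintype.piFinset (fun _ : Fin k => T), ∏ i, v i ∈ Icc 1 (N ^ k) := by
  intro v hv
  rw [Fintype.mem_piFinset] at hv
  rw [Finset.mem_Icc]
  constructor
  · exact Finset.prod_pos (fun i _ => (hT _ (hv i)).1.pos)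
  · calc ∏ i, v i ≤ ∏ _i : Fin k, N := Finset.prod_le_prod' (fun i _ => (hT _ (hv i)).2)
      _ = N ^ k := by simp

theorem tPwk : PwkStmt := by
  classical
  intro T N k hT _
  set B : ℕ → ℕ := fun n =>
    ((Fintype.piFinset (fun _ : Fin k => T)).filter (fun v => ∏ i, v i = n)).card with hB
  have hmaps := Pwk_maps T N k hT
  refine ⟨fun n => (B n : ℂ), ?_, ?_⟩
  · intro q χ
    rw [Finset.sum_pow', ← Finset.sum_fiberwise_of_maps_to hmaps]
    refine Finset.sum_congr rfl ?_
    intro n _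
    have : ∀ v ∈ (Fintype.piFinset (fun _ : Fin k => T)).filter (fun v => ∏ i, v i = n),
        ∏ i, χ ((v i : ℕ) : ZMod q) = χ (n : ZMod q) := by
      intro v hv
      rw [← (Finset.mem_filter.1 hv).2, Nat.cast_prod, map_prod]
    rw [Finset.sum_congr rfl this, Finset.sum_const, nsmul_eq_mul]
  · have hsum : ∑ n ∈ Icc 1 (N ^ k), B n = T.card ^ k := by
      rw [hB, ← Finset.card_eq_sum_card_fiberwise hmaps, Fintype.card_piFinset_const]
    calc ∑ n ∈ Icc 1 (N ^ k), ‖((B n : ℕ) : ℂ)‖ ^ 2
        ≤ ∑ n ∈ Icc 1 (N ^ k), (k.factorial : ℝ) * (B n : ℝ) := by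
          refine Finset.sum_le_sum ?_
          intro n _
          have h1 : (B n : ℝ) ≤ (k.factorial : ℝ) := by
            exact_mod_cast Pwk_card T k n (fun p hp => (hT p hp).1)
          rw [Complex.norm_natCast, sq]
          exact mul_le_mul_of_nonneg_right h1 (Nat.cast_nonneg _)
      _ = (k.factorial : ℝ) * (T.card : ℝ) ^ k := by
          rw [← Finset.mul_sum]
          congr 1
          exact_mod_cast hsum

end Pool.Agent.Lib.CO
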