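import Pool.Agent.Lib.CO.SpecW
import Pool.Agent.Lib.EH.Basic

/-!
MP_00e23e_nt, directory Lib/CO, part W: the pointwise inequality for the error term of an invariant set.
-/

namespace Pool.Agent.Lib.CO

open Finset Pool.Agent.Lib.BV Pool.Agent.Results.MP_00e23e_nt

private lemma Pww_coset (h1 : OrhStmt) (y : ℝ) (d : ℕ) (hd : 1 ≤ d) (H : Subgroup (ZMod d)ˣ) (l : (ZMod d)ˣ) :
    ∑ χ ∈ XX d H, χ ((l⁻¹ : (ZMod d)ˣ) : ZMod d) * PC χ ⌊y⌋₊ =
      (H.index : ℂ) * (cosetCount y d H l : ℂ) := by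
  classical
  have h2 : ∀ χ ∈ XX d H, χ ((l⁻¹ : (ZMod d)ˣ) : ZMod d) * PC χ ⌊y⌋₊ =
      ∑ p ∈ (Icc 1 ⌊y⌋₊).filter Nat.Prime, χ ((l⁻¹ : (ZMod d)ˣ) : ZMod d) * χ (p : ZMod d) := by
    intro χ _
    rw [PC, Finset.mul_sum]
  rw [Finset.sum_congr rfl h2, Finset.sum_comm]
  have h3 : ∀ p ∈ (Icc 1 ⌊y⌋₊).filter Nat.Prime,
      ∑ χ ∈ XX d H, χ ((l⁻¹ : (ZMod d)ˣ) : ZMod d) * χ (p : ZMod d) =
      if (∃ h ∈ H, (p : ZMod d) = ((l * h : (ZMod d)ˣ) : ZMod d)) then (H.index : ℂ) else 0 := by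
    intro p _
    split_ifs with h
    · exact ((h1 d H hd).2 l p).1 h
    · exact ((h1 d H hd).2 l p).2 h
  rw [Finset.sum_congr rfl h3, ← Finset.sum_filter, Finset.sum_const, Finset.filter_filter, nsmul_eq_mul,
    mul_comm]
  rfl

private lemma Pww_count (d : ℕ) (hd : 1 ≤ d) (H : Subgroup (ZMod d)ˣ) (B : Finset (ZMod d)ˣ)
    (hB : ∀ b ∈ B, ∀ h ∈ H, b * h ∈ B) (z : ZMod d) [DecidablePred fun b : (ZMod d)ˣ =>
      ∃ h ∈ H, z = ((b * h : (ZMod d)ˣ) : ZMod d)] [Decidable (∃ b ∈ B, z = ((b : (ZMod d)ˣ) : ZMod d))] :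
    (B.filter (fun b => ∃ h ∈ H, z = ((b * h : (ZMod d)ˣ) : ZMod d))).card =
      if (∃ b ∈ B, z = ((b : (ZMod d)ˣ) : ZMod d)) then Nat.card H else 0 := by
  classical
  have : NeZero d := ⟨by omega⟩
  split_ifs with h
  · obtain ⟨b0, hb0, rfl⟩ := h
    have h2 : (B.filter (fun b => ∃ h ∈ H, ((b0 : (ZMod d)ˣ) : ZMod d) = ((b * h : (ZMod d)ˣ) : ZMod d))) =
        (univ : Finset H).image (fun h : H => b0 * (h : (ZMod d)ˣ)) := by
      ext b
      rw [Finset.mem_filter, Finset.mem_image]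
      constructor
      · rintro ⟨_, h, hh, h3⟩
        have h4 : b0 = b * h := Units.ext h3
        refine ⟨⟨h⁻¹, H.inv_mem hh⟩, Finset.mem_univ _, ?_⟩
        show b0 * h⁻¹ = b
        rw [h4, mul_inv_cancel_right]
      · rintro ⟨h, _, rfl⟩
        refine ⟨hB b0 hb0 _ h.2, (h : (ZMod d)ˣ)⁻¹, H.inv_mem h.2, ?_⟩
        rw [mul_inv_cancel_right]
    rw [h2, Finset.card_image_of_injective, Finset.card_univ, Nat.card_eq_fintype_card]
    intro x x' hx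
    exact Subtype.ext (mul_left_cancel hx)
  · rw [Finset.card_eq_zero, Finset.filter_eq_empty_iff]
    rintro b hb ⟨h', hh', h3⟩
    exact h ⟨b * h', hB b hb h' hh', h3⟩

private lemma Pww_set (y : ℝ) (d : ℕ) (hd : 1 ≤ d) (H : Subgroup (ZMod d)ˣ) (B : Finset (ZMod d)ˣ)
    (hB : ∀ b ∈ B, ∀ h ∈ H, b * h ∈ B) :
    ∑ b ∈ B, cosetCount y d H b = Nat.card H * setCount y d B := by
  classical
  have h1 : ∀ b ∈ B, cosetCount y d H b = ∑ p ∈ (Icc 1 ⌊y⌋₊).filter Nat.Prime,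
      if (∃ h ∈ H, (p : ZMod d) = ((b * h : (ZMod d)ˣ) : ZMod d)) then 1 else 0 := by
    intro b _
    rw [← Finset.card_filter, Finset.filter_filter]
    unfold cosetCount
    congr
  rw [Finset.sum_congr rfl h1, Finset.sum_comm]
  have h2 : setCount y d B = ∑ p ∈ (Icc 1 ⌊y⌋₊).filter Nat.Prime,
      if (∃ b ∈ B, (p : ZMod d) = ((b : (ZMod d)ˣ) : ZMod d)) then 1 else 0 := by
    rw [← Finset.card_filter, Finset.filter_filter]
    unfold setCount
    congr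
  rw [h2, Finset.mul_sum]
  refine Finset.sum_congr rfl fun p _ => ?_
  rw [← Finset.card_filter, Pww_count d hd H B hB]
  split_ifs <;> simp

private lemma Pww_err (h1 : OrhStmt) (y : ℝ) (d : ℕ) (hd : 1 ≤ d) (H : Subgroup (ZMod d)ˣ)
    (B : Finset (ZMod d)ˣ) (hne : B.Nonempty) (hB : ∀ b ∈ B, ∀ h ∈ H, b * h ∈ B) :
    |setErr y d B| = (1 / (d.totient : ℝ)) *
      ‖(1 / (B.card : ℂ)) * ∑ b ∈ B, (∑ χ ∈ XX d H, χ ((b⁻¹ : (ZMod d)ˣ) : ZMod d) * PC χ ⌊y⌋₊ -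
        (li y : ℂ))‖ := by
  classical
  have : NeZero d := ⟨by omega⟩
  have h2 : (H.index : ℝ) * (Nat.card H : ℝ) = (d.totient : ℝ) := by
    have h := H.index_mul_card
    rw [Nat.card_eq_fintype_card (α := (ZMod d)ˣ), ZMod.card_units_eq_totient] at h
    exact_mod_cast h
  have hphi : (0 : ℝ) < d.totient := by exact_mod_cast Nat.totient_pos.2 (by omega)
  have hBc : (0 : ℝ) < B.card := by exact_mod_cast hne.card_pos
  have h3 : (1 / (B.card : ℂ)) * ∑ b ∈ B, (∑ χ ∈ XX d H, χ ((b⁻¹ : (ZMod d)ˣ) : ZMod d) * PC χ ⌊y⌋₊ -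
        (li y : ℂ)) = (((1 / (B.card : ℝ)) * ((H.index : ℝ) * ((Nat.card H : ℝ) * (setCount y d B : ℝ)) -
        (B.card : ℝ) * li y) : ℝ) : ℂ) := by
    rw [Finset.sum_congr rfl fun b _ => by rw [Pww_coset h1 y d hd H b], Finset.sum_sub_distrib,
      ← Finset.mul_sum, ← Nat.cast_sum, Pww_set y d hd H B hB, Finset.sum_const, nsmul_eq_mul]
    push_cast
    rfl
  rw [h3, Complex.norm_real, Real.norm_eq_abs]
  have h4 : setErr y d B = (1 / (d.totient : ℝ)) *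
      ((1 / (B.card : ℝ)) * ((H.index : ℝ) * ((Nat.card H : ℝ) * (setCount y d B : ℝ)) -
        (B.card : ℝ) * li y)) := by
    rw [setErr, ← mul_assoc (H.index : ℝ), h2]
    field_simp
  rw [h4, abs_mul, abs_of_nonneg (by positivity)]

private lemma Pww_one (y : ℝ) (d : ℕ) (hd : 1 ≤ d) (l : (ZMod d)ˣ) :
    ‖(1 : DirichletCharacter ℂ d) ((l⁻¹ : (ZMod d)ˣ) : ZMod d) * PC (1 : DirichletCharacter ℂ d) ⌊y⌋₊ -
      (li y : ℂ)‖ ≤ |npr y - li y| + 2 * Real.log d := by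
  classical
  rw [MulChar.one_apply_coe, one_mul]
  have h1 : PC (1 : DirichletCharacter ℂ d) ⌊y⌋₊ =
      ((((Icc 1 ⌊y⌋₊).filter Nat.Prime).filter (fun p => ¬ p ∣ d)).card : ℂ) := by
    rw [PC, Finset.card_filter, Nat.cast_sum]
    refine Finset.sum_congr rfl fun p hp => ?_
    have hp' : p.Prime := (Finset.mem_filter.1 hp).2
    by_cases h : p ∣ d
    · have hu : ¬ IsUnit (p : ZMod d) := by
        rw [ZMod.isUnit_iff_coprime, hp'.coprime_iff_not_dvd]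
        exact fun h' => h' h
      rw [MulChar.map_nonunit _ hu]
      simp [h]
    · have hu : IsUnit (p : ZMod d) := by
        rw [ZMod.isUnit_iff_coprime, hp'.coprime_iff_not_dvd]
        exact h
      rw [MulChar.one_apply hu]
      simp [h]
  have h2 : (((Icc 1 ⌊y⌋₊).filter Nat.Prime).filter (fun p => p ∣ d)).card +
      (((Icc 1 ⌊y⌋₊).filter Nat.Prime).filter (fun p => ¬ p ∣ d)).card =
      ((Icc 1 ⌊y⌋₊).filter Nat.Prime).card := Finset.card_filter_add_card_filter_not _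
  have h3 : (((Icc 1 ⌊y⌋₊).filter Nat.Prime).filter (fun p => p ∣ d)).card ≤ d.primeFactors.card := by
    refine Finset.card_le_card fun p hp => ?_
    rw [Finset.mem_filter, Finset.mem_filter] at hp
    exact Nat.mem_primeFactors.2 ⟨hp.1.2, hp.2, by omega⟩
  have h4 : (d.primeFactors.card : ℝ) ≤ 2 * Real.log d := Pool.Agent.Lib.EH.card_primeFactors_le hd
  set A := (((Icc 1 ⌊y⌋₊).filter Nat.Prime).filter (fun p => p ∣ d)).card with hA
  set B := (((Icc 1 ⌊y⌋₊).filter Nat.Prime).filter (fun p => ¬ p ∣ d)).card with hB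
  have h5 : npr y = (A : ℝ) + (B : ℝ) := by
    rw [npr, ← h2]
    push_cast
    rfl
  have h6 : (A : ℝ) ≤ d.primeFactors.card := by exact_mod_cast h3
  rw [h1]
  have h7 : ((B : ℂ) - (li y : ℂ)) = (((B : ℝ) - li y : ℝ) : ℂ) := by push_cast; rfl
  rw [h7, Complex.norm_real, Real.norm_eq_abs]
  have h8 : (B : ℝ) - li y = (npr y - li y) - (A : ℝ) := by rw [h5]; ring
  rw [h8]
  refine (abs_sub _ _).trans ?_
  rw [abs_of_nonneg (Nat.cast_nonneg A : (0 : ℝ) ≤ (A : ℝ))]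
  linarith

private lemma Pww_mean {ι : Type} (s : Finset ι) (hs : s.Nonempty) (g : ι → ℂ) (F : ℝ)
    (h : ∀ i ∈ s, ‖g i‖ ≤ F) : ‖(1 / (s.card : ℂ)) * ∑ i ∈ s, g i‖ ≤ F := by
  have hc : (0 : ℝ) < s.card := by exact_mod_cast hs.card_pos
  rw [norm_mul, norm_div, norm_one, Complex.norm_natCast]
  have h2 : ‖∑ i ∈ s, g i‖ ≤ s.card * F := by
    refine (norm_sum_le _ _).trans ((Finset.sum_le_sum h).trans (le_of_eq ?_))
    rw [Finset.sum_const, nsmul_eq_mul]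
  calc 1 / (s.card : ℝ) * ‖∑ i ∈ s, g i‖ ≤ 1 / (s.card : ℝ) * (s.card * F) :=
        mul_le_mul_of_nonneg_left h2 (by positivity)
    _ = F := by field_simp

theorem tPww (h1 : OrhStmt) (h2 : MobStmt) : PwwStmt := by
  classical
  intro y R d H B hy hd hne hB
  have : NeZero d := ⟨by omega⟩
  rw [Pww_err h1 y d hd H B hne hB]
  refine mul_le_mul_of_nonneg_left ?_ (by positivity)
  set a : (ZMod d)ˣ → DirichletCharacter ℂ d → ℂ :=
    fun l χ => χ ((l⁻¹ : (ZMod d)ˣ) : ZMod d) * PC χ ⌊y⌋₊ with ha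
  have hc0 : ∀ χ : DirichletCharacter ℂ d, χ.conductor ≠ 0 := fun χ => χ.conductor_ne_zero
  have hBc : (0 : ℝ) < B.card := by exact_mod_cast hne.card_pos
  -- splitting
  have hsplit : ∀ l, ∑ χ ∈ XX d H, a l χ = ∑ χ ∈ (XX d H).filter (fun χ => χ.conductor = 1), a l χ +
      ∑ χ ∈ (XX d H).filter (fun χ => 1 < χ.conductor ∧ (χ.conductor : ℝ) ≤ R), a l χ +
      ∑ χ ∈ (XX d H).filter (fun χ => 1 < χ.conductor ∧ R < (χ.conductor : ℝ)), a l χ := by
    intro l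
    rw [Finset.sum_filter, Finset.sum_filter, Finset.sum_filter, ← Finset.sum_add_distrib,
      ← Finset.sum_add_distrib]
    refine Finset.sum_congr rfl fun χ _ => ?_
    have h0 := hc0 χ
    by_cases h3 : χ.conductor = 1
    · simp [h3]
    · have h4 : 1 < χ.conductor := by omega
      by_cases h5 : (χ.conductor : ℝ) ≤ R
      · simp [h3, h4, h5, not_lt.2 h5]
      · simp [h3, h4, h5, not_le.1 h5]
  have hone : (XX d H).filter (fun χ => χ.conductor = 1) = {1} := by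
    ext χ
    rw [Finset.mem_filter, Finset.mem_singleton]
    constructor
    · rintro ⟨_, h⟩
      exact DirichletCharacter.eq_one_iff_conductor_eq_one.2 h
    · rintro rfl
      refine ⟨?_, DirichletCharacter.eq_one_iff_conductor_eq_one.1 rfl⟩
      simp only [XX, Finset.mem_filter, Finset.mem_univ, true_and]
      exact fun h _ => MulChar.one_apply_coe h
  have hmid : ∀ l, ‖∑ χ ∈ (XX d H).filter (fun χ => 1 < χ.conductor ∧ (χ.conductor : ℝ) ≤ R), a l χ‖ ≤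
      ∑ e ∈ d.divisors.filter (fun e : ℕ => 1 < e ∧ (e : ℝ) ≤ R), ∑ b ∈ e.divisors,
        ((b.totient : ℝ) * maxErr y b + (H.index : ℝ) * (2 * Real.log d)) := by
    intro l
    have h3 : ∑ χ ∈ (XX d H).filter (fun χ => 1 < χ.conductor ∧ (χ.conductor : ℝ) ≤ R), a l χ =
        ∑ e ∈ d.divisors.filter (fun e : ℕ => 1 < e ∧ (e : ℝ) ≤ R),
          ∑ χ ∈ (XX d H).filter (fun χ => χ.conductor = e), a l χ := by
      rw [← Finset.sum_fiberwise_of_maps_to (g := fun χ : DirichletCharacter ℂ d => χ.conductor)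
        (t := d.divisors.filter (fun e : ℕ => 1 < e ∧ (e : ℝ) ≤ R))]
      · refine Finset.sum_congr rfl fun e he => Finset.sum_congr ?_ fun _ _ => rfl
        rw [Finset.mem_filter] at he
        ext χ
        rw [Finset.mem_filter, Finset.mem_filter, Finset.mem_filter]
        constructor
        · rintro ⟨⟨h4, _⟩, h5⟩
          exact ⟨h4, h5⟩
        · rintro ⟨h4, h5⟩
          refine ⟨⟨h4, ?_⟩, h5⟩
          rw [h5]
          exact he.2
      · intro χ hχ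
        rw [Finset.mem_filter] at hχ
        rw [Finset.mem_filter]
        exact ⟨Nat.mem_divisors.2 ⟨χ.conductor_dvd_level, NeZero.ne d⟩, hχ.2⟩
    rw [h3]
    refine (norm_sum_le _ _).trans (Finset.sum_le_sum fun e he => ?_)
    rw [Finset.mem_filter] at he
    have h4 := h2 y d e H l hy hd (Nat.dvd_of_mem_divisors he.1) he.2.1
    refine le_trans (le_of_eq ?_) h4
    congr 1
  have hlast : ‖(1 / (B.card : ℂ)) * ∑ l ∈ B,
      ∑ χ ∈ (XX d H).filter (fun χ => 1 < χ.conductor ∧ R < (χ.conductor : ℝ)), a l χ‖ ≤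
      ∑ χ ∈ (XX d H).filter (fun χ => 1 < χ.conductor ∧ R < (χ.conductor : ℝ)),
        bet B χ * ‖PC χ ⌊y⌋₊‖ := by
    rw [Finset.sum_comm, Finset.mul_sum]
    refine (norm_sum_le _ _).trans (Finset.sum_le_sum fun χ _ => le_of_eq ?_)
    rw [ha]
    simp only []
    rw [← Finset.sum_mul, norm_mul, norm_mul, norm_div, norm_one, Complex.norm_natCast, bet]
    ring
  have hfirst : ‖(1 / (B.card : ℂ)) * ∑ l ∈ B, (a l 1 - (li y : ℂ))‖ ≤ |npr y - li y| + 2 * Real.log d :=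
    Pww_mean B hne _ _ fun l _ => Pww_one y d hd l
  have hmid' : ‖(1 / (B.card : ℂ)) * ∑ l ∈ B,
      ∑ χ ∈ (XX d H).filter (fun χ => 1 < χ.conductor ∧ (χ.conductor : ℝ) ≤ R), a l χ‖ ≤
      ∑ e ∈ d.divisors.filter (fun e : ℕ => 1 < e ∧ (e : ℝ) ≤ R), ∑ b ∈ e.divisors,
        ((b.totient : ℝ) * maxErr y b + (H.index : ℝ) * (2 * Real.log d)) :=
    Pww_mean B hne _ _ fun l _ => hmid l
  have h9 : (1 / (B.card : ℂ)) * ∑ l ∈ B, (∑ χ ∈ XX d H, a l χ - (li y : ℂ)) =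
      (1 / (B.card : ℂ)) * ∑ l ∈ B, (a l 1 - (li y : ℂ)) +
      (1 / (B.card : ℂ)) * ∑ l ∈ B,
        ∑ χ ∈ (XX d H).filter (fun χ => 1 < χ.conductor ∧ (χ.conductor : ℝ) ≤ R), a l χ +
      (1 / (B.card : ℂ)) * ∑ l ∈ B,
        ∑ χ ∈ (XX d H).filter (fun χ => 1 < χ.conductor ∧ R < (χ.conductor : ℝ)), a l χ := by
    rw [← mul_add, ← mul_add, ← Finset.sum_add_distrib, ← Finset.sum_add_distrib]
    congr 1
    refine Finset.sum_congr rfl fun l _ => ?_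
    rw [hsplit l, hone, Finset.sum_singleton]
    ring
  have h8 : (1 / (B.card : ℂ)) * ∑ b ∈ B, (∑ χ ∈ XX d H, χ ((b⁻¹ : (ZMod d)ˣ) : ZMod d) * PC χ ⌊y⌋₊ -
        (li y : ℂ)) = (1 / (B.card : ℂ)) * ∑ l ∈ B, (∑ χ ∈ XX d H, a l χ - (li y : ℂ)) := rfl
  rw [h8, h9]
  refine (norm_add₃_le).trans ?_
  have h10 : ∀ (s : Finset ℕ) (t : Finset (DirichletCharacter ℂ d)),
      s = d.divisors.filter (fun e : ℕ => 1 < e ∧ (e : ℝ) ≤ R) →
      t = (XX d H).filter (fun χ => 1 < χ.conductor ∧ R < (χ.conductor : ℝ)) →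
      ‖(1 / (B.card : ℂ)) * ∑ l ∈ B, (a l 1 - (li y : ℂ))‖ +
      ‖(1 / (B.card : ℂ)) * ∑ l ∈ B,
        ∑ χ ∈ (XX d H).filter (fun χ => 1 < χ.conductor ∧ (χ.conductor : ℝ) ≤ R), a l χ‖ +
      ‖(1 / (B.card : ℂ)) * ∑ l ∈ B,
        ∑ χ ∈ (XX d H).filter (fun χ => 1 < χ.conductor ∧ R < (χ.conductor : ℝ)), a l χ‖ ≤
      |npr y - li y| + 2 * Real.log d +
        ∑ e ∈ s, ∑ b ∈ e.divisors,
        ((b.totient : ℝ) * maxErr y b + (H.index : ℝ) * (2 * Real.log d)) +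
        ∑ χ ∈ t, bet B χ * ‖PC χ ⌊y⌋₊‖ := by
    rintro s t rfl rfl
    exact add_le_add (add_le_add hfirst hmid') hlast
  refine h10 _ _ ?_ ?_
  · ext e
    simp only [Finset.mem_filter]
  · ext χ
    simp only [Finset.mem_filter]

end Pool.Agent.Lib.CO
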