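import Pool.Agent.Lib.CO.SpecW

/-! MP_00e23e_nt, Lib/CO, module Rtw: one block of conductors with weights, the 2k-th root. -/

namespace Pool.Agent.Lib.CO

open Finset Pool.Agent.Lib.BV Pool.Agent.Results.MP_00e23e_nt

private theorem Rtw_log {x : ℝ} (hx : 3 ≤ x) : 1 ≤ Real.log x := by
  rw [Real.le_log_iff_exp_le (by linarith)]
  have := Real.exp_one_lt_d9
  linarith

/-- The constant. -/
private theorem Rtw_const {A : ℝ} {K k : ℕ} (hA : 0 < A) (hk : 1 ≤ k) (hkK : k ≤ K) :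
    120 * (k.factorial : ℝ) * 36 ^ k * (1 + A) ^ (4 * k) ≤
      (120 * (K.factorial : ℝ) * 36 ^ K * (1 + A) ^ (4 * K)) ^ (2 * k) := by
  have h1 : (1 : ℝ) ≤ 120 * (K.factorial : ℝ) * 36 ^ K * (1 + A) ^ (4 * K) := by
    have a1 : (1 : ℝ) ≤ (K.factorial : ℝ) := by exact_mod_cast K.factorial_pos
    have a2 : (1 : ℝ) ≤ 36 ^ K := one_le_pow₀ (by norm_num)
    have a3 : (1 : ℝ) ≤ (1 + A) ^ (4 * K) := one_le_pow₀ (by linarith)
    have b1 : (1 : ℝ) ≤ 120 * (K.factorial : ℝ) := by linarith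
    have b2 : (1 : ℝ) ≤ 120 * (K.factorial : ℝ) * 36 ^ K := one_le_mul_of_one_le_of_one_le b1 a2
    exact one_le_mul_of_one_le_of_one_le b2 a3
  have h2 : 120 * (k.factorial : ℝ) * 36 ^ k * (1 + A) ^ (4 * k) ≤
      120 * (K.factorial : ℝ) * 36 ^ K * (1 + A) ^ (4 * K) := by
    have a1 : (k.factorial : ℝ) ≤ (K.factorial : ℝ) := by exact_mod_cast Nat.factorial_le hkK
    have a2 : (36 : ℝ) ^ k ≤ 36 ^ K := pow_le_pow_right₀ (by norm_num) hkK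
    have a3 : (1 + A) ^ (4 * k) ≤ (1 + A) ^ (4 * K) := pow_le_pow_right₀ (by linarith) (by omega)
    have hA1 : (0 : ℝ) ≤ 1 + A := by linarith
    gcongr
  refine h2.trans ?_
  calc 120 * (K.factorial : ℝ) * 36 ^ K * (1 + A) ^ (4 * K)
      = (120 * (K.factorial : ℝ) * 36 ^ K * (1 + A) ^ (4 * K)) ^ 1 := (pow_one _).symm
    _ ≤ _ := pow_le_pow_right₀ h1 (by omega)

/-- The dyadic exponent. -/
private theorem Rtw_J {x : ℝ} (hx : 3 ≤ x) : ∃ J : ℕ, ⌊x⌋₊ < 2 ^ J ∧ (2 : ℝ) ^ J ≤ 2 * x ∧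
    (J : ℝ) ≤ 3 * Real.log x := by
  have hL1 := Rtw_log hx
  have hfl : ⌊x⌋₊ ≠ 0 := (Nat.floor_pos.2 (by linarith)).ne'
  have h1 : (2 : ℝ) ^ (Nat.log 2 ⌊x⌋₊) ≤ x := by
    have h2 : ((2 ^ (Nat.log 2 ⌊x⌋₊) : ℕ) : ℝ) ≤ (⌊x⌋₊ : ℝ) := by
      exact_mod_cast Nat.pow_log_le_self 2 hfl
    have h3 : (⌊x⌋₊ : ℝ) ≤ x := Nat.floor_le (by linarith)
    push_cast at h2
    linarith
  refine ⟨Nat.log 2 ⌊x⌋₊ + 1, Nat.lt_pow_succ_log_self (by norm_num) _, ?_, ?_⟩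
  · rw [pow_succ]
    linarith
  · have h2 := Real.log_le_log (by positivity) h1
    rw [Real.log_pow] at h2
    have h3 : (1 / 2 : ℝ) ≤ Real.log 2 := by
      have := Real.log_two_gt_d9
      linarith
    have h4 : (Nat.log 2 ⌊x⌋₊ : ℝ) * (1 / 2) ≤ (Nat.log 2 ⌊x⌋₊ : ℝ) * Real.log 2 :=
      mul_le_mul_of_nonneg_left h3 (Nat.cast_nonneg _)
    push_cast
    linarith

theorem tRtw (h1 : BlwStmt) : RtwStmt := by
  intro A K hA hK
  refine ⟨120 * (K.factorial : ℝ) * 36 ^ K * (1 + A) ^ (4 * K), by positivity, ?_⟩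
  intro C x k E S X y f hC hx hk hkK hE hf hS hX
  have hL1 := Rtw_log hx
  obtain ⟨J, hJ1, hJ2, hJ3⟩ := Rtw_J hx
  set L := Real.log x with hL
  have hL0 : 0 < L := by linarith
  have hx0 : 0 < x := by linarith
  have hE0 : (0 : ℝ) < E := by exact_mod_cast hE
  set M : ℝ := min (2 * (E : ℝ)) (x ^ k / E) with hM
  have hM0 : 0 < M := lt_min (by positivity) (by positivity)
  have hLM : 0 ≤ L ^ (-C) * M := by positivity
  have hcard : ∀ d ∈ S, (∑ χ ∈ X d, f d χ ^ 2) ^ k * ((X d).card : ℝ) ^ (k - 1) ≤ L ^ (-C) * M := by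
    intro d hd
    rcases (X d).eq_empty_or_nonempty with h | ⟨χ, hχ⟩
    · rw [h, Finset.sum_empty, zero_pow (by omega : k ≠ 0), zero_mul]
      exact hLM
    · obtain ⟨e1, e2, e3⟩ := hX d hd χ hχ
      have e1' : (E : ℝ) < (χ.conductor : ℝ) := by exact_mod_cast e1
      have e2' : (χ.conductor : ℝ) ≤ 2 * (E : ℝ) := by exact_mod_cast e2
      have e4 : min (χ.conductor : ℝ) (x ^ k / χ.conductor) ≤ M := by
        refine min_le_min e2' ?_
        exact div_le_div_of_nonneg_left (by positivity) hE0 e1'.le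
      have e5 := e3.trans e4
      rw [Real.rpow_neg hL0.le, inv_mul_eq_div, le_div_iff₀ (by positivity)]
      exact e5
  have hD1 : 1 ≤ ⌊x ^ A⌋₊ := by
    rw [Nat.one_le_floor_iff]
    exact Real.one_le_rpow (by linarith) hA.le
  have hSD : S ⊆ Icc 1 ⌊x ^ A⌋₊ := by
    intro d hd
    rw [Finset.mem_Icc]
    exact ⟨(hS d hd).1, Nat.le_floor (hS d hd).2.1⟩
  have hY : ∀ d ∈ S, ⌊y d⌋₊ < 2 ^ J := fun d hd =>
    lt_of_le_of_lt (Nat.floor_le_floor (hS d hd).2.2.2) hJ1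
  have hmain := h1 ⌊x ^ A⌋₊ J k E (L ^ (-C) * M) S X (fun d => ⌊y d⌋₊) f hD1 hSD hk hE hLM hY hf
    (fun d hd χ hχ => ⟨(hX d hd χ hχ).1, (hX d hd χ hχ).2.1⟩) hcard
  set T := ∑ d ∈ S, (1 / (d.totient : ℝ)) *
    ∑ χ ∈ X d, f d χ * ‖PC χ.primitiveCharacter ⌊y d⌋₊‖ with hT
  have hT0 : 0 ≤ T := Finset.sum_nonneg fun d _ =>
    mul_nonneg (by positivity) (Finset.sum_nonneg fun χ _ => mul_nonneg (hf d χ) (norm_nonneg _))
  have hlogD : 1 + Real.log (⌊x ^ A⌋₊ : ℝ) ≤ (1 + A) * L := by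
    have a1 : Real.log (⌊x ^ A⌋₊ : ℝ) ≤ Real.log (x ^ A) :=
      Real.log_le_log (by exact_mod_cast hD1) (Nat.floor_le (by positivity))
    rw [Real.log_rpow hx0] at a1
    rw [← hL] at a1
    nlinarith
  have hlogD0 : 0 ≤ 1 + Real.log (⌊x ^ A⌋₊ : ℝ) := by
    have := Real.log_nonneg (by exact_mod_cast hD1 : (1 : ℝ) ≤ (⌊x ^ A⌋₊ : ℝ))
    linarith
  -- the last factor
  have hlast : M * (((((2 : ℝ) ^ J) ^ k + 4 * (E : ℝ) ^ 2)) / E) ≤ 6 * (2 * x) ^ k := by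
    have a1 : M * (((2 : ℝ) ^ J) ^ k / E) ≤ 2 * (2 * x) ^ k := by
      have b1 : M * (((2 : ℝ) ^ J) ^ k / E) ≤ 2 * (E : ℝ) * ((2 * x) ^ k / E) := by
        have c1 : M ≤ 2 * (E : ℝ) := min_le_left _ _
        have c2 : ((2 : ℝ) ^ J) ^ k ≤ (2 * x) ^ k := pow_le_pow_left₀ (by positivity) hJ2 k
        gcongr
      refine b1.trans (le_of_eq ?_)
      field_simp
    have a2 : M * (4 * (E : ℝ) ^ 2 / E) ≤ 4 * (2 * x) ^ k := by
      have b1 : M * (4 * (E : ℝ) ^ 2 / E) ≤ (x ^ k / E) * (4 * (E : ℝ) ^ 2 / E) :=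
        mul_le_mul_of_nonneg_right (min_le_right _ _) (by positivity)
      have b2 : (x ^ k / E) * (4 * (E : ℝ) ^ 2 / E) = 4 * x ^ k := by
        field_simp
      have b3 : x ^ k ≤ (2 * x) ^ k := pow_le_pow_left₀ hx0.le (by linarith) k
      linarith
    rw [add_div, mul_add]
    linarith
  have hbound : T ^ (2 * k) ≤ L ^ (-C) * ((1 + A) * L) ^ (4 * k) * (3 * L) ^ (2 * k) *
      (20 * (k.factorial : ℝ) * (2 * x) ^ k) * (6 * (2 * x) ^ k) := by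
    refine hmain.trans ?_
    have a1 : (1 + Real.log (⌊x ^ A⌋₊ : ℝ)) ^ (4 * k) ≤ ((1 + A) * L) ^ (4 * k) :=
      pow_le_pow_left₀ hlogD0 hlogD _
    have a2 : (J : ℝ) ^ (2 * k) ≤ (3 * L) ^ (2 * k) :=
      pow_le_pow_left₀ (Nat.cast_nonneg _) hJ3 _
    have a3 : ((2 : ℝ) ^ J) ^ k ≤ (2 * x) ^ k := pow_le_pow_left₀ (by positivity) hJ2 k
    calc L ^ (-C) * M * (1 + Real.log (⌊x ^ A⌋₊ : ℝ)) ^ (4 * k) * (J : ℝ) ^ (2 * k) *
        (20 * (k.factorial : ℝ) * ((2 : ℝ) ^ J) ^ k) *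
        ((((2 : ℝ) ^ J) ^ k + 4 * (E : ℝ) ^ 2) / E)
        = L ^ (-C) * (1 + Real.log (⌊x ^ A⌋₊ : ℝ)) ^ (4 * k) * (J : ℝ) ^ (2 * k) *
        (20 * (k.factorial : ℝ) * ((2 : ℝ) ^ J) ^ k) *
        (M * ((((2 : ℝ) ^ J) ^ k + 4 * (E : ℝ) ^ 2) / E)) := by ring
      _ ≤ _ := by
        have p1 : 0 ≤ L ^ (-C) := by positivity
        have p2 : 0 ≤ (1 + Real.log (⌊x ^ A⌋₊ : ℝ)) ^ (4 * k) := pow_nonneg hlogD0 _
        have p3 : 0 ≤ (J : ℝ) ^ (2 * k) := by positivity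
        have p4 : 0 ≤ ((1 + A) * L) ^ (4 * k) := by positivity
        refine mul_le_mul ?_ hlast (by positivity) (by positivity)
        refine mul_le_mul ?_ (by gcongr) (by positivity) (by positivity)
        refine mul_le_mul ?_ a2 p3 (by positivity)
        exact mul_le_mul_of_nonneg_left a1 p1
  have hk0' : (0 : ℝ) < k := by exact_mod_cast hk
  have hfinal : T ≤ (120 * (K.factorial : ℝ) * 36 ^ K * (1 + A) ^ (4 * K)) *
      (x * L ^ (3 - C / (2 * (k : ℝ)))) := by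
    rw [← pow_le_pow_iff_left₀ hT0 (by positivity) (by omega : 2 * k ≠ 0)]
    refine hbound.trans ?_
    have a0 : (120 * (K.factorial : ℝ) * 36 ^ K * (1 + A) ^ (4 * K) *
        (x * L ^ (3 - C / (2 * (k : ℝ))))) ^ (2 * k) =
        (120 * (K.factorial : ℝ) * 36 ^ K * (1 + A) ^ (4 * K)) ^ (2 * k) *
        (x ^ (2 * k) * (L ^ (3 - C / (2 * (k : ℝ)))) ^ (2 * k)) := by
      rw [mul_pow (120 * (K.factorial : ℝ) * 36 ^ K * (1 + A) ^ (4 * K)) _ (2 * k),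
        mul_pow x _ (2 * k)]
    rw [a0]
    have a1 : (L ^ (3 - C / (2 * (k : ℝ)))) ^ (2 * k) = L ^ (-C) * L ^ (6 * k) := by
      rw [← Real.rpow_natCast (L ^ (3 - C / (2 * (k : ℝ)))) (2 * k), ← Real.rpow_mul hL0.le,
        ← Real.rpow_natCast L (6 * k), ← Real.rpow_add hL0]
      congr 1
      push_cast
      field_simp
      ring
    rw [a1]
    have a2 : L ^ (-C) * ((1 + A) * L) ^ (4 * k) * (3 * L) ^ (2 * k) *
        (20 * (k.factorial : ℝ) * (2 * x) ^ k) * (6 * (2 * x) ^ k) =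
        (120 * (k.factorial : ℝ) * 36 ^ k * (1 + A) ^ (4 * k)) *
          (x ^ (2 * k) * (L ^ (-C) * L ^ (6 * k))) := by
      have e1 : (36 : ℝ) ^ k = 2 ^ k * 2 ^ k * 3 ^ (2 * k) := by
        rw [pow_mul, ← mul_pow, ← mul_pow]
        norm_num
      have e2 : L ^ (6 * k) = L ^ (4 * k) * L ^ (2 * k) := by
        rw [← pow_add]
        congr 1
        ring
      have e3 : x ^ (2 * k) = x ^ k * x ^ k := by
        rw [← pow_add]
        congr 1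
        ring
      rw [e1, e2, e3, mul_pow, mul_pow, mul_pow]
      ring
    rw [a2]
    exact mul_le_mul_of_nonneg_right (Rtw_const hA hk hkK) (by positivity)
  refine hfinal.trans ?_
  refine mul_le_mul_of_nonneg_left ?_ (by positivity)
  refine mul_le_mul_of_nonneg_left ?_ hx0.le
  refine Real.rpow_le_rpow_of_exponent_le hL1 ?_
  have hkK' : (k : ℝ) ≤ K := by exact_mod_cast hkK
  have : C / (2 * (K : ℝ)) ≤ C / (2 * (k : ℝ)) :=
    div_le_div_of_nonneg_left hC (by positivity) (by linarith)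
  linarith

end Pool.Agent.Lib.CO
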