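import Pool.Agent.Lib.CO.SpecV

/-! MP_00e23e_nt, Lib/CO: exact separation of the variables by dyadic blocks. -/

namespace Pool.Agent.Lib.CO

open Finset Pool.Agent.Lib.BV Pool.Agent.Results.MP_00e23e_nt

/-! ### digits -/

private lemma Sep_split (B : ℕ → ℂ) {m n : ℕ} (h : m ≤ n) :
    ∑ x ∈ Ioc 0 n, B x - ∑ x ∈ Ioc 0 m, B x = ∑ x ∈ Ioc m n, B x := by
  rw [← sum_Ioc_consecutive _ (Nat.zero_le m) h, add_sub_cancel_left]

private lemma Sep_step (B : ℕ → ℂ) (J t j : ℕ) (ht : t ≤ 2 ^ J) (hj : j ≤ J) :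
    ∑ x ∈ Ioc 0 (t / 2 ^ j * 2 ^ j), B x - ∑ x ∈ Ioc 0 (t / 2 ^ (j + 1) * 2 ^ (j + 1)), B x =
      ∑ i ∈ range (2 ^ (J - j)), if i % 2 = 0 ∧ t / 2 ^ j = i + 1 then BS B j i else 0 := by
  have hpos : 0 < 2 ^ j := Nat.two_pow_pos j
  have hd : t / 2 ^ (j + 1) = t / 2 ^ j / 2 := by
    rw [pow_succ, Nat.div_div_eq_div_mul]
  have h2 : t / 2 ^ (j + 1) * 2 ^ (j + 1) = (2 * (t / 2 ^ j / 2)) * 2 ^ j := by
    rw [hd, pow_succ]
    ring
  rcases Nat.mod_two_eq_zero_or_one (t / 2 ^ j) with h0 | h1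
  · have h3 : 2 * (t / 2 ^ j / 2) = t / 2 ^ j := by omega
    rw [h2, h3, sub_self]
    symm
    refine sum_eq_zero fun i _ => if_neg ?_
    rintro ⟨h4, h5⟩
    omega
  · have h3 : t / 2 ^ j = 2 * (t / 2 ^ j / 2) + 1 := by omega
    have h5 : (2 * (t / 2 ^ j / 2)) * 2 ^ j ≤ t / 2 ^ j * 2 ^ j := Nat.mul_le_mul_right _ (by omega)
    have hmem : 2 * (t / 2 ^ j / 2) ∈ range (2 ^ (J - j)) := by
      rw [mem_range]
      have h4 : t / 2 ^ j ≤ 2 ^ (J - j) := by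
        rw [Nat.div_le_iff_le_mul_add_pred hpos]
        have h6 : 2 ^ j * 2 ^ (J - j) = 2 ^ J := by rw [← pow_add, Nat.add_sub_cancel' hj]
        rw [h6]
        omega
      omega
    rw [h2, Sep_split B h5, sum_eq_single_of_mem _ hmem, if_pos ⟨by omega, h3⟩, BS, ← h3]
    intro i _ hne
    rw [if_neg]
    rintro ⟨h6, h7⟩
    omega

private lemma Sep_dig (B : ℕ → ℂ) (J t : ℕ) (ht : t ≤ 2 ^ J) :
    ∑ n ∈ Ioc 0 t, B n = ∑ j ∈ range (J + 1), ∑ i ∈ range (2 ^ (J - j)),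
      if i % 2 = 0 ∧ t / 2 ^ j = i + 1 then BS B j i else 0 := by
  have h1 : ∀ j ∈ range (J + 1), (∑ i ∈ range (2 ^ (J - j)),
      if i % 2 = 0 ∧ t / 2 ^ j = i + 1 then BS B j i else 0) =
      ∑ x ∈ Ioc 0 (t / 2 ^ j * 2 ^ j), B x - ∑ x ∈ Ioc 0 (t / 2 ^ (j + 1) * 2 ^ (j + 1)), B x := by
    intro j hj
    exact (Sep_step B J t j ht (by rw [mem_range] at hj; omega)).symm
  rw [sum_congr rfl h1, sum_range_sub' (fun j => ∑ x ∈ Ioc 0 (t / 2 ^ j * 2 ^ j), B x) (J + 1)]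
  have h2 : t / 2 ^ (J + 1) = 0 := Nat.div_eq_of_lt (by rw [pow_succ]; have := Nat.two_pow_pos J; omega)
  rw [h2, Nat.zero_mul, pow_zero, Nat.div_one, Nat.mul_one]
  simp

/-! ### intervals -/

private lemma Sep_cut (P : ℕ → Prop) (hP : ∀ m n, 1 ≤ m → m ≤ n → P n → P m) (N : ℕ) :
    ∃ v ≤ N, ∀ m, 1 ≤ m → m ≤ N → (P m ↔ m ≤ v) := by
  induction N with
  | zero => exact ⟨0, le_rfl, fun m h1 h2 => by omega⟩
  | succ N ih =>
    by_cases h : P (N + 1)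
    · exact ⟨N + 1, le_rfl, fun m h1 h2 => ⟨fun _ => h2, fun _ => hP m (N + 1) h1 h2 h⟩⟩
    · obtain ⟨v, hv, hm⟩ := ih
      refine ⟨v, by omega, fun m h1 h2 => ?_⟩
      rcases Nat.lt_or_ge N m with h3 | h3
      · have h4 : m = N + 1 := by omega
        subst h4
        exact ⟨fun h5 => absurd h5 h, fun h5 => by omega⟩
      · exact hm m h1 h3

private lemma Sep_ivl (g : ℕ → ℕ) (hg : ∀ m n, 1 ≤ m → m ≤ n → g n ≤ g m) (N c : ℕ) (Q : Prop) :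
    ∃ u v, u ≤ v ∧ v ≤ N ∧ ∀ m, m ∈ Ioc u v ↔ (1 ≤ m ∧ m ≤ N ∧ (Q ∧ g m = c)) := by
  by_cases hQ : Q
  · obtain ⟨v, hv, h1⟩ := Sep_cut (fun m => c ≤ g m) (fun m n h h' h'' => h''.trans (hg m n h h')) N
    obtain ⟨u, hu, h2⟩ := Sep_cut (fun m => c + 1 ≤ g m) (fun m n h h' h'' => h''.trans (hg m n h h')) N
    have huv : u ≤ v := by
      rcases Nat.eq_zero_or_pos u with h0 | h0
      · omega
      · have h3 := (h2 u h0 hu).2 le_rfl
        exact (h1 u h0 hu).1 (by omega)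
    refine ⟨u, v, huv, hv, fun m => ?_⟩
    rw [mem_Ioc]
    constructor
    · rintro ⟨h3, h4⟩
      have h5 : 1 ≤ m := by omega
      have h6 : m ≤ N := by omega
      have h7 := (h1 m h5 h6).2 h4
      have h8 : ¬ c + 1 ≤ g m := fun h => by
        have := (h2 m h5 h6).1 h
        omega
      exact ⟨h5, h6, hQ, by omega⟩
    · rintro ⟨h5, h6, -, h7⟩
      have h8 := (h1 m h5 h6).1 (by omega)
      have h9 : ¬ m ≤ u := fun h => by
        have := (h2 m h5 h6).2 h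
        omega
      omega
  · refine ⟨0, 0, le_rfl, Nat.zero_le _, fun m => ?_⟩
    rw [mem_Ioc]
    constructor
    · rintro ⟨h3, h4⟩
      omega
    · rintro ⟨-, -, h, -⟩
      exact absurd h hQ

private lemma Sep_set (h1 : IvdStmt) (J Y j i : ℕ) : ∃ s : ℕ → Finset ℕ, (∀ k, (s k).card ≤ 2) ∧
    (∀ k, ∀ i' ∈ s k, (i' + 1) * 2 ^ k ≤ 2 ^ J ∧
      min (2 ^ J) (Y / ((i' + 1) * 2 ^ k)) / 2 ^ j = i + 1) ∧
    ∀ f : ℕ → ℂ, (∑ m ∈ Icc 1 (2 ^ J),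
      if i % 2 = 0 ∧ min (2 ^ J) (Y / m) / 2 ^ j = i + 1 then f m else 0) =
        ∑ k ∈ range (J + 1), ∑ i' ∈ s k, BS f k i' := by
  obtain ⟨u, v, huv, hv, hm⟩ := Sep_ivl (fun m => min (2 ^ J) (Y / m) / 2 ^ j) (fun m n h h' =>
    Nat.div_le_div_right (min_le_min_left _ (Nat.div_le_div_left h' h))) (2 ^ J) (i + 1) (i % 2 = 0)
  obtain ⟨s, hs1, hs2, hs3⟩ := h1 J u v huv hv
  refine ⟨s, hs1, ?_, fun f => ?_⟩
  · intro k i' hi'
    obtain ⟨h3, h4⟩ := hs2 k i' hi'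
    have hpos : 0 < 2 ^ k := Nat.two_pow_pos k
    have h5 : (i' + 1) * 2 ^ k ∈ Ioc u v := by
      rw [mem_Ioc]
      refine ⟨?_, h4⟩
      have h6 : (i' + 1) * 2 ^ k = i' * 2 ^ k + 2 ^ k := by ring
      omega
    exact ⟨h4.trans hv, ((hm _).1 h5).2.2.2⟩
  · rw [← hs3 f, ← sum_filter]
    refine sum_congr ?_ fun _ _ => rfl
    ext m
    rw [hm m, mem_filter, mem_Icc]
    constructor
    · rintro ⟨⟨h3, h4⟩, h5⟩
      exact ⟨h3, h4, h5⟩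
    · rintro ⟨h3, h4, h5⟩
      exact ⟨⟨h3, h4⟩, h5⟩

/-! ### the estimate -/

private lemma Sep_cs (J j k : ℕ) (hk : k ≤ J) (A B : ℕ → ℂ) (s : ℕ → Finset ℕ)
    (h1 : ∀ i, (s i).card ≤ 2) (h2 : ∀ i, ∀ i' ∈ s i, (i' + 1) * 2 ^ k ≤ 2 ^ J)
    (h3 : ∀ i₁ i₂ i', i' ∈ s i₁ → i' ∈ s i₂ → i₁ = i₂) :
    ∑ i ∈ range (2 ^ (J - j)), ‖BS B j i‖ * ∑ i' ∈ s i, ‖BS A k i'‖ ≤
      2 * (Real.sqrt (VV A J k) * Real.sqrt (VV B J j)) := by
  have hVA : 0 ≤ VV A J k := sum_nonneg fun _ _ => sq_nonneg _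
  have e1 : ∑ i ∈ range (2 ^ (J - j)), (∑ i' ∈ s i, ‖BS A k i'‖) ^ 2 ≤ 2 * VV A J k := by
    calc ∑ i ∈ range (2 ^ (J - j)), (∑ i' ∈ s i, ‖BS A k i'‖) ^ 2
        ≤ ∑ i ∈ range (2 ^ (J - j)), 2 * ∑ i' ∈ s i, ‖BS A k i'‖ ^ 2 := by
          refine sum_le_sum fun i _ => ?_
          refine (sq_sum_le_card_mul_sum_sq).trans ?_
          refine mul_le_mul_of_nonneg_right ?_ (sum_nonneg fun _ _ => sq_nonneg _)
          exact_mod_cast h1 i
      _ = 2 * ∑ i ∈ range (2 ^ (J - j)), ∑ i' ∈ s i, ‖BS A k i'‖ ^ 2 := by rw [mul_sum]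
      _ = 2 * ∑ i' ∈ (range (2 ^ (J - j))).biUnion s, ‖BS A k i'‖ ^ 2 := by
          rw [sum_biUnion]
          intro i₁ _ i₂ _ hne
          rw [Function.onFun, disjoint_left]
          intro i' hi1 hi2
          exact hne (h3 i₁ i₂ i' hi1 hi2)
      _ ≤ 2 * VV A J k := by
          refine mul_le_mul_of_nonneg_left ?_ (by norm_num)
          refine sum_le_sum_of_subset_of_nonneg ?_ fun _ _ _ => sq_nonneg _
          intro i' hi'
          rw [mem_biUnion] at hi'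
          obtain ⟨i, _, hi⟩ := hi'
          have h4 := h2 i i' hi
          rw [mem_range]
          have h5 : 2 ^ J = 2 ^ (J - k) * 2 ^ k := by rw [← pow_add, Nat.sub_add_cancel hk]
          rw [h5] at h4
          have h6 := Nat.le_of_mul_le_mul_right h4 (Nat.two_pow_pos k)
          omega
  calc ∑ i ∈ range (2 ^ (J - j)), ‖BS B j i‖ * ∑ i' ∈ s i, ‖BS A k i'‖
      ≤ Real.sqrt (∑ i ∈ range (2 ^ (J - j)), ‖BS B j i‖ ^ 2) *
          Real.sqrt (∑ i ∈ range (2 ^ (J - j)), (∑ i' ∈ s i, ‖BS A k i'‖) ^ 2) :=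
        Real.sum_mul_le_sqrt_mul_sqrt _ _ _
    _ ≤ Real.sqrt (VV B J j) * (2 * Real.sqrt (VV A J k)) := by
        refine mul_le_mul_of_nonneg_left ?_ (Real.sqrt_nonneg _)
        rw [Real.sqrt_le_left (by positivity)]
        rw [mul_pow, Real.sq_sqrt hVA]
        linarith
    _ = 2 * (Real.sqrt (VV A J k) * Real.sqrt (VV B J j)) := by ring

theorem tSep (h1 : IvdStmt) : SepStmt := by
  intro J Y A B
  have hin : ∀ m ∈ Icc 1 (2 ^ J), ∑ n ∈ (Icc 1 (2 ^ J)).filter (fun n => m * n ≤ Y), A m * B n =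
      ∑ j ∈ range (J + 1), ∑ i ∈ range (2 ^ (J - j)),
        BS B j i * (if i % 2 = 0 ∧ min (2 ^ J) (Y / m) / 2 ^ j = i + 1 then A m else 0) := by
    intro m hm
    rw [mem_Icc] at hm
    have e1 : (Icc 1 (2 ^ J)).filter (fun n => m * n ≤ Y) = Ioc 0 (min (2 ^ J) (Y / m)) := by
      ext n
      rw [mem_filter, mem_Icc, mem_Ioc, le_min_iff, Nat.le_div_iff_mul_le (by omega), Nat.mul_comm m n]
      constructor
      · rintro ⟨⟨h, h'⟩, h''⟩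
        exact ⟨by omega, h', h''⟩
      · rintro ⟨h, h', h''⟩
        exact ⟨⟨by omega, h'⟩, h''⟩
    rw [e1, ← mul_sum, Sep_dig B J _ (min_le_left _ _), mul_sum]
    refine sum_congr rfl fun j _ => ?_
    rw [mul_sum]
    refine sum_congr rfl fun i _ => ?_
    by_cases h : i % 2 = 0 ∧ min (2 ^ J) (Y / m) / 2 ^ j = i + 1
    · rw [if_pos h, if_pos h, mul_comm]
    · rw [if_neg h, if_neg h, mul_zero, mul_zero]
  choose s hs1 hs2 hs3 using fun j i => Sep_set h1 J Y j i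
  have htot : ∑ m ∈ Icc 1 (2 ^ J), ∑ n ∈ (Icc 1 (2 ^ J)).filter (fun n => m * n ≤ Y), A m * B n =
      ∑ j ∈ range (J + 1), ∑ i ∈ range (2 ^ (J - j)),
        BS B j i * ∑ k ∈ range (J + 1), ∑ i' ∈ s j i k, BS A k i' := by
    rw [sum_congr rfl hin, sum_comm]
    refine sum_congr rfl fun j _ => ?_
    rw [sum_comm]
    refine sum_congr rfl fun i _ => ?_
    rw [← mul_sum, hs3 j i A]
  rw [htot, mul_sum]
  refine (norm_sum_le _ _).trans (sum_le_sum fun j hj => ?_)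
  have hsw : ‖∑ i ∈ range (2 ^ (J - j)), BS B j i * ∑ k ∈ range (J + 1), ∑ i' ∈ s j i k, BS A k i'‖ ≤
      ∑ k ∈ range (J + 1), ∑ i ∈ range (2 ^ (J - j)), ‖BS B j i‖ * ∑ i' ∈ s j i k, ‖BS A k i'‖ := by
    rw [sum_comm]
    refine (norm_sum_le _ _).trans (sum_le_sum fun i _ => ?_)
    rw [norm_mul, ← mul_sum]
    refine mul_le_mul_of_nonneg_left ?_ (norm_nonneg _)
    refine (norm_sum_le _ _).trans (sum_le_sum fun k _ => ?_)
    exact norm_sum_le _ _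
  refine hsw.trans ?_
  rw [mul_sum]
  refine sum_le_sum fun k hk => ?_
  refine Sep_cs J j k (by rw [mem_range] at hk; omega) A B (fun i => s j i k) (fun i => hs1 j i k)
    (fun i i' hi' => (hs2 j i k i' hi').1) ?_
  intro i₁ i₂ i' hi1 hi2
  have h3 := (hs2 j i₁ k i' hi1).2
  have h4 := (hs2 j i₂ k i' hi2).2
  omega

end Pool.Agent.Lib.CO
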