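import Pool.Agent.Lib.CO.Spec
import Pool.Agent.Lib.BV.Tot

/-!
MP_00e23e_nt, Lib/CO, module Sma: the triple divisor sum.
-/

namespace Pool.Agent.Lib.CO

open Finset Pool.Agent.Lib.BV Pool.Agent.Results.MP_00e23e_nt

/-- the value of one triple -/
private theorem Sma_term (F : ℕ → ℝ) (hF : ∀ b, 0 ≤ F b) (b g f : ℕ) (hb : 0 < b) (hg : 0 < g)
    (hf : 0 < f) : 1 / ((b * g * f).totient : ℝ) * ((b.totient : ℝ) * F b) ≤
      F b * ((1 / (g.totient : ℝ)) * (1 / (f.totient : ℝ))) := by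
  have h1 : (0 : ℝ) < b.totient := by exact_mod_cast Nat.totient_pos.2 hb
  have h2 : (0 : ℝ) < g.totient := by exact_mod_cast Nat.totient_pos.2 hg
  have h3 : (0 : ℝ) < f.totient := by exact_mod_cast Nat.totient_pos.2 hf
  have h4 : b.totient * g.totient * f.totient ≤ (b * g * f).totient :=
    le_trans (Nat.mul_le_mul_right _ (Nat.totient_super_multiplicative b g))
      (Nat.totient_super_multiplicative (b * g) f)
  have h5 : (b.totient : ℝ) * g.totient * f.totient ≤ ((b * g * f).totient : ℝ) := by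
    exact_mod_cast h4
  have h6 : 1 / ((b * g * f).totient : ℝ) ≤ 1 / ((b.totient : ℝ) * g.totient * f.totient) :=
    one_div_le_one_div_of_le (by positivity) h5
  have h7 : 0 ≤ (b.totient : ℝ) * F b := mul_nonneg h1.le (hF b)
  refine le_trans (mul_le_mul_of_nonneg_right h6 h7) (le_of_eq ?_)
  field_simp

theorem tSma : SmaStmt := by
  classical
  intro D R F hD hF
  -- the set of the triples
  have h1 : ∑ d ∈ Icc 1 D, (1 / (d.totient : ℝ)) *
      ∑ e ∈ d.divisors.filter (fun e : ℕ => e ≤ R), ∑ b ∈ e.divisors, (b.totient : ℝ) * F b =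
      ∑ w ∈ (Icc 1 D).sigma (fun d => (d.divisors.filter (fun e : ℕ => e ≤ R)).sigma
        (fun e => e.divisors)),
        1 / (w.1.totient : ℝ) * ((w.2.2.totient : ℝ) * F w.2.2) := by
    rw [Finset.sum_sigma]
    refine Finset.sum_congr rfl fun d _ => ?_
    rw [Finset.sum_sigma, Finset.mul_sum]
    refine Finset.sum_congr rfl fun e _ => ?_
    rw [Finset.mul_sum]
  have h2 : ∑ v ∈ Icc 1 R ×ˢ (Icc 1 D ×ˢ Icc 1 D),
      F v.1 * ((1 / (v.2.1.totient : ℝ)) * (1 / (v.2.2.totient : ℝ))) =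
      (∑ b ∈ Icc 1 R, F b) * ((∑ g ∈ Icc 1 D, 1 / (g.totient : ℝ)) *
        ∑ f ∈ Icc 1 D, 1 / (f.totient : ℝ)) := by
    rw [Finset.sum_mul_sum, Finset.sum_mul_sum, Finset.sum_product]
    refine Finset.sum_congr rfl fun b _ => ?_
    rw [Finset.sum_product]
    refine Finset.sum_congr rfl fun g _ => ?_
    rw [Finset.mul_sum]
  have h3 : ∑ w ∈ (Icc 1 D).sigma (fun d => (d.divisors.filter (fun e : ℕ => e ≤ R)).sigma
        (fun e => e.divisors)),
        1 / (w.1.totient : ℝ) * ((w.2.2.totient : ℝ) * F w.2.2) ≤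
      ∑ v ∈ Icc 1 R ×ˢ (Icc 1 D ×ˢ Icc 1 D),
        F v.1 * ((1 / (v.2.1.totient : ℝ)) * (1 / (v.2.2.totient : ℝ))) := by
    have hmem : ∀ w ∈ (Icc 1 D).sigma (fun d => (d.divisors.filter (fun e : ℕ => e ≤ R)).sigma
        (fun e => e.divisors)), ∃ b g f : ℕ, 0 < b ∧ 0 < g ∧ 0 < f ∧ b * g * f ≤ D ∧ b * g ≤ R ∧
          w = ⟨b * g * f, b * g, b⟩ := by
      rintro ⟨d, e, b⟩ hw
      simp only [Finset.mem_sigma, Finset.mem_Icc, Finset.mem_filter, Nat.mem_divisors] at hw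
      obtain ⟨⟨hd1, hd2⟩, ⟨⟨⟨f, hf⟩, _⟩, heR⟩, ⟨g, hg⟩, he0⟩ := hw
      subst hg
      subst hf
      refine ⟨b, g, f, Nat.pos_of_ne_zero ?_, Nat.pos_of_ne_zero ?_, Nat.pos_of_ne_zero ?_, hd2,
        heR, rfl⟩
      · rintro rfl; simp at he0
      · rintro rfl; simp at he0
      · rintro rfl; simp at hd1
    have hinj : Set.InjOn (fun w : (_ : ℕ) × (_ : ℕ) × ℕ => (w.2.2, w.2.1 / w.2.2, w.1 / w.2.1))
        ((Icc 1 D).sigma (fun d => (d.divisors.filter (fun e : ℕ => e ≤ R)).sigma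
        (fun e => e.divisors)) : Finset ((_ : ℕ) × (_ : ℕ) × ℕ)) := by
      intro w hw w' hw' hww
      obtain ⟨b, g, f, hb, hg, hf, -, -, rfl⟩ := hmem w (Finset.mem_coe.1 hw)
      obtain ⟨b', g', f', hb', hg', hf', -, -, rfl⟩ := hmem w' (Finset.mem_coe.1 hw')
      simp only [Prod.mk.injEq] at hww
      obtain ⟨h1, h2, h3⟩ := hww
      rw [Nat.mul_div_cancel_left _ hb, Nat.mul_div_cancel_left _ hb'] at h2
      rw [Nat.mul_div_cancel_left _ (Nat.mul_pos hb hg),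
        Nat.mul_div_cancel_left _ (Nat.mul_pos hb' hg')] at h3
      subst h1
      subst h2
      subst h3
      rfl
    have h31 := Finset.sum_image (f := fun v : ℕ × ℕ × ℕ =>
      F v.1 * ((1 / (v.2.1.totient : ℝ)) * (1 / (v.2.2.totient : ℝ)))) hinj
    refine le_trans (b := ∑ w ∈ (Icc 1 D).sigma (fun d =>
      (d.divisors.filter (fun e : ℕ => e ≤ R)).sigma (fun e => e.divisors)),
        (fun v : ℕ × ℕ × ℕ => F v.1 * ((1 / (v.2.1.totient : ℝ)) * (1 / (v.2.2.totient : ℝ))))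
          ((fun w : (_ : ℕ) × (_ : ℕ) × ℕ => (w.2.2, w.2.1 / w.2.2, w.1 / w.2.1)) w)) ?_ ?_
    · refine Finset.sum_le_sum fun w hw => ?_
      obtain ⟨b, g, f, hb, hg, hf, -, -, rfl⟩ := hmem w hw
      simp only
      rw [Nat.mul_div_cancel_left _ hb, Nat.mul_div_cancel_left _ (Nat.mul_pos hb hg)]
      exact Sma_term F hF b g f hb hg hf
    · rw [← h31]
      refine Finset.sum_le_sum_of_subset_of_nonneg ?_ fun v _ _ => ?_
      · intro v hv
        obtain ⟨w, hw, rfl⟩ := Finset.mem_image.1 hv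
        obtain ⟨b, g, f, hb, hg, hf, hD', hR', rfl⟩ := hmem w hw
        simp only
        rw [Nat.mul_div_cancel_left _ hb, Nat.mul_div_cancel_left _ (Nat.mul_pos hb hg)]
        simp only [Finset.mem_product, Finset.mem_Icc]
        have e1 : b ≤ b * g := Nat.le_mul_of_pos_right b hg
        have e2 : g ≤ b * g := Nat.le_mul_of_pos_left g hb
        have e3 : b * g ≤ b * g * f := Nat.le_mul_of_pos_right _ hf
        have e4 : f ≤ b * g * f := Nat.le_mul_of_pos_left f (Nat.mul_pos hb hg)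
        omega
      · exact mul_nonneg (hF _) (by positivity)
  have h4 := tTot.1 D hD
  have h5 : (0 : ℝ) ≤ ∑ g ∈ Icc 1 D, 1 / (g.totient : ℝ) :=
    Finset.sum_nonneg fun g _ => by positivity
  rw [h1]
  refine h3.trans ?_
  rw [h2, mul_comm]
  refine mul_le_mul_of_nonneg_right ?_ (Finset.sum_nonneg fun b _ => hF b)
  calc (∑ g ∈ Icc 1 D, 1 / (g.totient : ℝ)) * ∑ f ∈ Icc 1 D, 1 / (f.totient : ℝ)
      ≤ (1 + Real.log D) ^ 2 * (1 + Real.log D) ^ 2 :=
        mul_le_mul h4 h4 h5 (sq_nonneg _)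
    _ = (1 + Real.log D) ^ 4 := by ring

end Pool.Agent.Lib.CO
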