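import Pool.Agent.Lib.CO.Spec
import Pool.Agent.Lib.EH.Basic

/-! MP_00e23e_nt, Lib/CO, module Sml: small conductors. -/

namespace Pool.Agent.Lib.CO

open Finset Pool.Agent.Lib.BV Pool.Agent.Results.MP_00e23e_nt

private theorem Sml_log {x : ℝ} (hx : 3 ≤ x) : 1 ≤ Real.log x := by
  rw [Real.le_log_iff_exp_le (by linarith)]
  have := Real.exp_one_lt_d9
  linarith

private theorem Sml_ev (B : ℝ) : ∃ x1 : ℝ, ∀ x : ℝ, x1 ≤ x → 3 ≤ x →
    2 * Real.log x ^ B ≤ Real.sqrt x := by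
  have h := (isLittleO_log_rpow_rpow_atTop B (by norm_num : (0 : ℝ) < 1 / 2)).bound
    (by norm_num : (0 : ℝ) < 1 / 2)
  rw [Filter.eventually_atTop] at h
  obtain ⟨a, ha⟩ := h
  refine ⟨a, fun x hx hx3 => ?_⟩
  have h1 := ha x hx
  have h2 := Sml_log hx3
  rw [Real.norm_of_nonneg (by positivity), Real.norm_of_nonneg (by positivity)] at h1
  rw [Real.sqrt_eq_rpow]
  linarith

private theorem Sml_Kf {x B : ℝ} {R : ℕ} (hx : 3 ≤ x) (hB : 0 ≤ B) (hR : 1 ≤ R)
    (hR2 : Real.sqrt x ≤ (R : ℝ) * (2 * Real.log x ^ B)) :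
    0 ≤ Real.log (Kf x R) ∧ Real.log (Kf x R) ≤ (3 + B) * Real.log x ∧
      Real.log (Real.log (Kf x R)) ≤ (3 + B) * Real.log x := by
  have hL1 := Sml_log hx
  set L := Real.log x with hL
  have hL0 : 0 < L := by linarith
  have hR0 : (0 : ℝ) < R := by exact_mod_cast hR
  have hLB : 1 ≤ L ^ B := Real.one_le_rpow hL1 hB
  have h1 : Real.sqrt x / ((R : ℝ) * L) ≤ 2 * L ^ B := by
    rw [div_le_iff₀ (by positivity)]
    have h2 : (R : ℝ) * (2 * L ^ B) ≤ 2 * L ^ B * ((R : ℝ) * L) := by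
      have h3 : 0 ≤ (R : ℝ) * (2 * L ^ B) := by positivity
      nlinarith
    exact hR2.trans h2
  have h16 : (16 : ℝ) ≤ Kf x R := by
    unfold Kf
    have : 0 ≤ Real.sqrt x / ((R : ℝ) * Real.log x) := by positivity
    linarith
  have h18 : Kf x R ≤ 18 * L ^ B := by
    unfold Kf
    rw [← hL]
    linarith
  have hlog0 : 0 < Real.log (Kf x R) := Real.log_pos (by linarith)
  have hlog : Real.log (Kf x R) ≤ (3 + B) * L := by
    have h2 := Real.log_le_log (by linarith) h18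
    rw [Real.log_mul (by norm_num) (by positivity), Real.log_rpow hL0] at h2
    have h3 : Real.log 18 ≤ 3 := by
      rw [Real.log_le_iff_le_exp (by norm_num)]
      have h4 : Real.exp 3 = Real.exp 1 ^ 3 := by
        rw [← Real.exp_nat_mul]
        norm_num
      rw [h4]
      have h5 := Real.exp_one_gt_d9
      have h6 : (2.7 : ℝ) ^ 3 ≤ Real.exp 1 ^ 3 := pow_le_pow_left₀ (by norm_num) (by linarith) 3
      norm_num at h6
      linarith
    have h4 : Real.log L ≤ L := by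
      have := Real.log_le_sub_one_of_pos hL0
      linarith
    have h5 : B * Real.log L ≤ B * L := mul_le_mul_of_nonneg_left h4 hB
    nlinarith
  refine ⟨hlog0.le, hlog, ?_⟩
  have h2 := Real.log_le_sub_one_of_pos hlog0
  linarith

theorem tSml (h1 : SmaStmt) (h2 : FinStmt) : SmlStmt := by
  intro A U hA hU
  obtain ⟨Cf, hCf⟩ := h2 (U + 4) (by linarith)
  set B : ℝ := U + 6 with hB
  have hB0 : 0 < B := by linarith
  obtain ⟨x1, hx1⟩ := Sml_ev B
  refine ⟨B, (1 + A) ^ 4 * (|Cf| * (1 + (3 + B) ^ 2)) + 1, max x1 16, hB0, by positivity,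
    le_max_right _ _, ?_⟩
  intro x S y hx hS
  have hx16 : 16 ≤ x := le_trans (le_max_right _ _) hx
  have hx3 : 3 ≤ x := by linarith
  have hx0 : 0 < x := by linarith
  have hxx1 : x1 ≤ x := le_trans (le_max_left _ _) hx
  have hL1 := Sml_log hx3
  have hsq := hx1 x hxx1 hx3
  set L := Real.log x with hL
  have hL0 : 0 < L := by linarith
  have hLB : 0 < L ^ B := by positivity
  rcases S.eq_empty_or_nonempty with hSe | hSe
  · rw [hSe, Finset.sum_empty]
    positivity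
  -- the maximal y
  have hmax : ∀ b : ℕ, ∃ d ∈ S, ∀ d' ∈ S, maxErr (y d') b ≤ maxErr (y d) b := fun b =>
    Finset.exists_max_image S (fun d => maxErr (y d) b) hSe
  choose ds hds1 hds2 using hmax
  set F : ℕ → ℝ := fun b => maxErr (y (ds b)) b with hF
  have hF0 : ∀ b, 0 ≤ F b := fun b => Pool.Agent.Lib.EH.maxErr_nonneg _ _
  set R : ℕ := ⌊Real.sqrt x / L ^ B⌋₊ with hR
  set D : ℕ := ⌊x ^ A⌋₊ with hD
  have hq2 : 2 ≤ Real.sqrt x / L ^ B := by
    rw [le_div_iff₀ hLB]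
    exact hsq
  have hR1 : 1 ≤ R := by
    rw [hR, Nat.one_le_floor_iff]
    linarith
  have hD1 : 1 ≤ D := by
    rw [hD, Nat.one_le_floor_iff]
    exact Real.one_le_rpow (by linarith) hA.le
  have hRle : (R : ℝ) ≤ Real.sqrt x / L ^ B := Nat.floor_le (by positivity)
  have hRge : Real.sqrt x ≤ (R : ℝ) * (2 * L ^ B) := by
    have a1 : Real.sqrt x / L ^ B < (R : ℝ) + 1 := Nat.lt_floor_add_one _
    have a2 : (1 : ℝ) ≤ R := by exact_mod_cast hR1
    have a3 : Real.sqrt x / L ^ B ≤ 2 * R := by linarith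
    rw [div_le_iff₀ hLB] at a3
    linarith
  -- comparison with Sma
  have hstep1 : ∑ d ∈ S, (1 / (d.totient : ℝ)) *
      ∑ e ∈ d.divisors.filter (fun e : ℕ => 1 < e ∧ (e : ℝ) ≤ Real.sqrt x / L ^ B),
        ∑ b ∈ e.divisors, (b.totient : ℝ) * maxErr (y d) b ≤
      ∑ d ∈ Icc 1 D, (1 / (d.totient : ℝ)) * ∑ e ∈ d.divisors.filter (fun e : ℕ => e ≤ R),
        ∑ b ∈ e.divisors, (b.totient : ℝ) * F b := by
    have hsub : S ⊆ Icc 1 D := by
      intro d hd
      rw [Finset.mem_Icc]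
      exact ⟨(hS d hd).1, Nat.le_floor (hS d hd).2.1⟩
    have hnn : ∀ e : ℕ, 0 ≤ ∑ b ∈ e.divisors, (b.totient : ℝ) * F b := fun e =>
      Finset.sum_nonneg fun b _ => mul_nonneg (Nat.cast_nonneg _) (hF0 b)
    refine le_trans ?_ (Finset.sum_le_sum_of_subset_of_nonneg hsub fun d _ _ =>
      mul_nonneg (by positivity) (Finset.sum_nonneg fun e _ => hnn e))
    refine Finset.sum_le_sum fun d hd => ?_
    refine mul_le_mul_of_nonneg_left ?_ (by positivity)
    have a1 : ∑ e ∈ d.divisors.filter (fun e : ℕ => 1 < e ∧ (e : ℝ) ≤ Real.sqrt x / L ^ B),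
        ∑ b ∈ e.divisors, (b.totient : ℝ) * maxErr (y d) b ≤
        ∑ e ∈ d.divisors.filter (fun e : ℕ => 1 < e ∧ (e : ℝ) ≤ Real.sqrt x / L ^ B),
        ∑ b ∈ e.divisors, (b.totient : ℝ) * F b := by
      refine Finset.sum_le_sum fun e _ => Finset.sum_le_sum fun b _ => ?_
      exact mul_le_mul_of_nonneg_left (hds2 b d hd) (Nat.cast_nonneg _)
    refine a1.trans (Finset.sum_le_sum_of_subset_of_nonneg ?_ fun e _ _ => hnn e)
    intro e he
    rw [Finset.mem_filter] at he ⊢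
    exact ⟨he.1, Nat.le_floor he.2.2⟩
  have hstep2 := h1 D R F hD1 hF0
  have hRL : (R : ℝ) * Real.log x ≤ Real.sqrt x := by
    rw [← hL]
    have a1 : L ≤ L ^ B := by
      calc L = L ^ (1 : ℝ) := (Real.rpow_one L).symm
        _ ≤ L ^ B := Real.rpow_le_rpow_of_exponent_le hL1 (by linarith)
    calc (R : ℝ) * L ≤ (Real.sqrt x / L ^ B) * L ^ B :=
          mul_le_mul hRle a1 hL0.le (by positivity)
      _ = Real.sqrt x := by field_simp
  have hstep3 := hCf x R (fun b => y (ds b)) hx16 hR1 hRL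
    (fun b => ⟨(hS _ (hds1 b)).2.2.1, (hS _ (hds1 b)).2.2.2⟩)
  obtain ⟨k1, k2, k3⟩ := Sml_Kf hx3 hB0.le hR1 hRge
  rw [← hL] at k2 k3 hstep3
  have hKK : Real.log (Kf x R) * Real.log (Real.log (Kf x R)) ≤ ((3 + B) * L) ^ 2 := by
    calc Real.log (Kf x R) * Real.log (Real.log (Kf x R))
        ≤ Real.log (Kf x R) * ((3 + B) * L) := mul_le_mul_of_nonneg_left k3 k1
      _ ≤ ((3 + B) * L) * ((3 + B) * L) := mul_le_mul_of_nonneg_right k2 (by positivity)
      _ = ((3 + B) * L) ^ 2 := by ring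
  have hmid : Real.sqrt x * R * (Real.log (Kf x R) * Real.log (Real.log (Kf x R))) ≤
      (3 + B) ^ 2 * (x / L ^ (U + 4)) := by
    have a1 : Real.sqrt x * R ≤ x / L ^ B := by
      calc Real.sqrt x * R ≤ Real.sqrt x * (Real.sqrt x / L ^ B) :=
            mul_le_mul_of_nonneg_left hRle (Real.sqrt_nonneg _)
        _ = x / L ^ B := by rw [← mul_div_assoc, Real.mul_self_sqrt hx0.le]
    calc Real.sqrt x * R * (Real.log (Kf x R) * Real.log (Real.log (Kf x R)))
        ≤ Real.sqrt x * R * ((3 + B) * L) ^ 2 := mul_le_mul_of_nonneg_left hKK (by positivity)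
      _ ≤ (x / L ^ B) * ((3 + B) * L) ^ 2 := mul_le_mul_of_nonneg_right a1 (by positivity)
      _ = (3 + B) ^ 2 * (x / L ^ (U + 4)) := by
        have a2 : L ^ B = L ^ (U + 4) * L ^ 2 := by
          rw [← Real.rpow_natCast L 2, ← Real.rpow_add hL0]
          congr 1
          rw [hB]
          push_cast
          ring
        rw [a2]
        field_simp
  have hmid0 : 0 ≤ x / L ^ (U + 4) := by positivity
  have hsum : ∑ b ∈ Icc 1 R, F b ≤ |Cf| * (1 + (3 + B) ^ 2) * (x / L ^ (U + 4)) := by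
    have b0 : 0 ≤ ∑ b ∈ Icc 1 R, F b := Finset.sum_nonneg fun b _ => hF0 b
    set Z := x / L ^ (U + 4) + Real.sqrt x * R * (Real.log (Kf x R) *
      Real.log (Real.log (Kf x R))) with hZ
    have b1 : Z ≤ (1 + (3 + B) ^ 2) * (x / L ^ (U + 4)) := by
      rw [hZ, add_mul, one_mul]
      linarith
    have b3 : ∑ b ∈ Icc 1 R, F b ≤ Cf * Z := hstep3
    rcases le_or_gt Z 0 with hZ0 | hZ0
    · rcases le_or_gt 0 Cf with hc | hc
      · have b4 : Cf * Z ≤ 0 := mul_nonpos_of_nonneg_of_nonpos hc hZ0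
        have b5 : 0 ≤ |Cf| * (1 + (3 + B) ^ 2) * (x / L ^ (U + 4)) := by positivity
        linarith
      · have b6 : 0 ≤ Real.log (Real.log (Kf x R)) := by
          have c1 : (16 : ℝ) ≤ Kf x R := by
            unfold Kf
            have : 0 ≤ Real.sqrt x / ((R : ℝ) * Real.log x) := by positivity
            linarith
          have c2 : 1 ≤ Real.log (Kf x R) := Sml_log (by linarith)
          exact Real.log_nonneg c2
        have b7 : 0 ≤ Z := by
          rw [hZ]
          have : 0 ≤ Real.sqrt x * R * (Real.log (Kf x R) * Real.log (Real.log (Kf x R))) := by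
            positivity
          linarith
        have b8 : Z = 0 := le_antisymm hZ0 b7
        rw [b8, mul_zero] at b3
        have b5 : 0 ≤ |Cf| * (1 + (3 + B) ^ 2) * (x / L ^ (U + 4)) := by positivity
        linarith
    · calc ∑ b ∈ Icc 1 R, F b ≤ Cf * Z := b3
        _ ≤ |Cf| * Z := mul_le_mul_of_nonneg_right (le_abs_self _) hZ0.le
        _ ≤ |Cf| * ((1 + (3 + B) ^ 2) * (x / L ^ (U + 4))) :=
          mul_le_mul_of_nonneg_left b1 (abs_nonneg _)
        _ = _ := by ring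
  have hlogD : 1 + Real.log (D : ℝ) ≤ (1 + A) * L := by
    have a1 : Real.log (D : ℝ) ≤ Real.log (x ^ A) :=
      Real.log_le_log (by exact_mod_cast hD1) (Nat.floor_le (by positivity))
    rw [Real.log_rpow hx0, ← hL] at a1
    nlinarith
  have hlogD0 : 0 ≤ 1 + Real.log (D : ℝ) := by
    have := Real.log_nonneg (by exact_mod_cast hD1 : (1 : ℝ) ≤ (D : ℝ))
    linarith
  have hfin : (1 + Real.log (D : ℝ)) ^ 4 * ∑ b ∈ Icc 1 R, F b ≤
      (1 + A) ^ 4 * (|Cf| * (1 + (3 + B) ^ 2)) * (x / L ^ U) := by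
    calc (1 + Real.log (D : ℝ)) ^ 4 * ∑ b ∈ Icc 1 R, F b
        ≤ ((1 + A) * L) ^ 4 * (|Cf| * (1 + (3 + B) ^ 2) * (x / L ^ (U + 4))) :=
          mul_le_mul (pow_le_pow_left₀ hlogD0 hlogD 4) hsum
            (Finset.sum_nonneg fun b _ => hF0 b) (by positivity)
      _ = (1 + A) ^ 4 * (|Cf| * (1 + (3 + B) ^ 2)) * (x / L ^ U) := by
        have a2 : L ^ (U + 4) = L ^ U * L ^ 4 := by
          rw [← Real.rpow_natCast L 4, ← Real.rpow_add hL0]
          congr 1
        rw [a2]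
        field_simp
  refine (hstep1.trans (hstep2.trans hfin)).trans ?_
  refine mul_le_mul_of_nonneg_right ?_ (by positivity)
  linarith

end Pool.Agent.Lib.CO
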