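import Pool.Agent.Lib.CO.SpecV

/-!
# THEOREM COS, part V, module Tau: the sum of `τ(n)^j`

The auxiliary lemmas are those of the module Smb2.
-/

set_option autoImplicit false

namespace Pool.Agent.Lib.CO

open Finset Pool.Agent.Lib.BV Pool.Agent.Results.MP_00e23e_nt

private theorem Tau_tau_mul (a b : ℕ) :
    (a * b).divisors.card ≤ a.divisors.card * b.divisors.card := by
  rw [Nat.divisors_mul]
  exact Finset.card_mul_le

private theorem Tau_step (D j : ℕ) :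
    ∑ d ∈ Icc 1 D, (d.divisors.card : ℝ) ^ (j + 1) / (d : ℝ) ≤
      (∑ d ∈ Icc 1 D, (d.divisors.card : ℝ) ^ j / (d : ℝ)) ^ 2 := by
  classical
  set G : ℕ × ℕ → ℝ := fun p =>
    ((p.1.divisors.card : ℝ) ^ j / (p.1 : ℝ)) * ((p.2.divisors.card : ℝ) ^ j / (p.2 : ℝ)) with hG
  have hG0 : ∀ p, 0 ≤ G p := fun p => by rw [hG]; positivity
  have h1 : ∀ d ∈ Icc 1 D, (d.divisors.card : ℝ) ^ (j + 1) / (d : ℝ) ≤
      ∑ p ∈ d.divisorsAntidiagonal, G p := by
    intro d hd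
    have hd1 : 1 ≤ d := (Finset.mem_Icc.1 hd).1
    have h2 : (d.divisors.card : ℝ) ^ (j + 1) / (d : ℝ) =
        ∑ _p ∈ d.divisorsAntidiagonal, (d.divisors.card : ℝ) ^ j / (d : ℝ) := by
      rw [Finset.sum_const, nsmul_eq_mul, ← Nat.map_div_right_divisors, Finset.card_map]
      ring
    rw [h2]
    refine Finset.sum_le_sum fun p hp => ?_
    obtain ⟨hp1, -⟩ := Nat.mem_divisorsAntidiagonal.1 hp
    have h3 : (d.divisors.card : ℝ) ^ j ≤
        (p.1.divisors.card : ℝ) ^ j * (p.2.divisors.card : ℝ) ^ j := by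
      rw [← mul_pow]
      refine pow_le_pow_left₀ (Nat.cast_nonneg _) ?_ _
      rw [← hp1]
      exact_mod_cast Tau_tau_mul p.1 p.2
    have h4 : (d : ℝ) = (p.1 : ℝ) * (p.2 : ℝ) := by rw [← hp1]; push_cast; ring
    have h5 : (0 : ℝ) < (p.1 : ℝ) * (p.2 : ℝ) := by rw [← h4]; exact_mod_cast hd1
    change _ ≤ ((p.1.divisors.card : ℝ) ^ j / (p.1 : ℝ)) * ((p.2.divisors.card : ℝ) ^ j / (p.2 : ℝ))
    rw [div_mul_div_comm, h4]
    exact div_le_div_of_nonneg_right h3 h5.le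
  refine (Finset.sum_le_sum h1).trans ?_
  have h6 : ∑ d ∈ Icc 1 D, ∑ p ∈ d.divisorsAntidiagonal, G p =
      ∑ p ∈ (Icc 1 D).biUnion fun d => d.divisorsAntidiagonal, G p := by
    rw [Finset.sum_biUnion]
    intro d _ d' _ hdd
    rw [Function.onFun, Finset.disjoint_left]
    intro p hp hp'
    exact hdd ((Nat.mem_divisorsAntidiagonal.1 hp).1.symm.trans
      (Nat.mem_divisorsAntidiagonal.1 hp').1)
  rw [h6, sq, Finset.sum_mul_sum, ← Finset.sum_product']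
  refine Finset.sum_le_sum_of_subset_of_nonneg ?_ fun p _ _ => hG0 p
  intro p hp
  rw [Finset.mem_biUnion] at hp
  obtain ⟨d, hd, hp⟩ := hp
  obtain ⟨hp1, hp2⟩ := Nat.mem_divisorsAntidiagonal.1 hp
  have hdD := (Finset.mem_Icc.1 hd).2
  have ha : p.1 ∣ d := ⟨p.2, hp1.symm⟩
  have hb : p.2 ∣ d := ⟨p.1, by rw [← hp1, mul_comm]⟩
  have hd0 : 0 < d := Nat.pos_of_ne_zero hp2
  rw [Finset.mem_product, Finset.mem_Icc, Finset.mem_Icc]
  exact ⟨⟨Nat.pos_of_dvd_of_pos ha hd0, (Nat.le_of_dvd hd0 ha).trans hdD⟩,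
    ⟨Nat.pos_of_dvd_of_pos hb hd0, (Nat.le_of_dvd hd0 hb).trans hdD⟩⟩

private theorem Tau_pow (D j : ℕ) :
    ∑ d ∈ Icc 1 D, (d.divisors.card : ℝ) ^ j / (d : ℝ) ≤ (1 + Real.log D) ^ (2 ^ j) := by
  induction j with
  | zero =>
    have h1 := harmonic_le_one_add_log D
    have h2 : ∑ d ∈ Icc 1 D, (d.divisors.card : ℝ) ^ 0 / (d : ℝ) = (harmonic D : ℝ) := by
      rw [harmonic_eq_sum_Icc]
      push_cast
      refine Finset.sum_congr rfl fun d _ => ?_
      rw [pow_zero, one_div]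
    rw [h2, pow_zero, pow_one]
    exact h1
  | succ j ih =>
    refine (Tau_step D j).trans ?_
    rw [pow_succ 2 j, pow_mul]
    refine pow_le_pow_left₀ (Finset.sum_nonneg fun d _ => by positivity) ih 2

theorem tTau : TauStmt := by
  intro j X _
  have h1 : ∑ n ∈ Icc 1 X, (n.divisors.card : ℝ) ^ j ≤
      ∑ n ∈ Icc 1 X, (X : ℝ) * ((n.divisors.card : ℝ) ^ j / (n : ℝ)) := by
    refine Finset.sum_le_sum fun n hn => ?_
    obtain ⟨hn1, hnX⟩ := Finset.mem_Icc.1 hn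
    have h2 : (0 : ℝ) < (n : ℝ) := by exact_mod_cast hn1
    have h3 : (n : ℝ) ≤ (X : ℝ) := by exact_mod_cast hnX
    rw [← mul_div_assoc, le_div_iff₀ h2, mul_comm]
    exact mul_le_mul_of_nonneg_right h3 (by positivity)
  refine h1.trans ?_
  rw [← Finset.mul_sum]
  exact mul_le_mul_of_nonneg_left (Tau_pow X j) (Nat.cast_nonneg X)

end Pool.Agent.Lib.CO
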