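import Pool.Agent.Lib.CO.Spec

/-! MP_00e23e_nt, module Trc: the trivial character. -/

namespace Pool.Agent.Lib.CO

open Finset Pool.Agent.Lib.BV Pool.Agent.Results.MP_00e23e_nt

private lemma Trc_pow {V x : ℝ} (hV : 0 < V) (hx : 1 ≤ x) :
    (Real.log x) ^ V ≤ V ^ V * x := by
  have hx0 : 0 ≤ x := by linarith
  have h1 : Real.log x ≤ x ^ (1 / V) / (1 / V) := Real.log_le_rpow_div hx0 (by positivity)
  have h2 : (Real.log x) ^ V ≤ (x ^ (1 / V) / (1 / V)) ^ V :=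
    Real.rpow_le_rpow (Real.log_nonneg hx) h1 hV.le
  have h3 : x ^ (1 / V) / (1 / V) = V * x ^ (1 / V) := by
    field_simp
  rw [h3, Real.mul_rpow hV.le (by positivity), ← Real.rpow_mul hx0, one_div_mul_cancel hV.ne',
    Real.rpow_one] at h2
  exact h2

theorem tTrc (h1 : MtmStmt) (h2 : TotStmt) : TrcStmt := by
  intro A U hA hU
  obtain ⟨C1, hC1, hM⟩ := h1 (U + 2) (by linarith)
  have hVp : 0 < (U + 3) ^ (U + 3) := Real.rpow_pos_of_pos (by linarith) _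
  refine ⟨(C1 + 2 * A * (U + 3) ^ (U + 3)) * (1 + A) ^ 2, by positivity, ?_⟩
  intro x S y hx hS
  have hx0 : 0 < x := by linarith
  have hL1 : 1 ≤ Real.log x := by
    rw [Real.le_log_iff_exp_le hx0]
    have := Real.exp_one_lt_d9
    linarith
  have hL0 : 0 < Real.log x := by linarith
  set L := Real.log x with hL
  have hpw : 0 < L ^ (U + 2) := Real.rpow_pos_of_pos hL0 _
  have hQ : 2 * A * L ≤ 2 * A * (U + 3) ^ (U + 3) * (x / L ^ (U + 2)) := by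
    have h3 : L ^ (U + 3) ≤ (U + 3) ^ (U + 3) * x := Trc_pow (by linarith) (by linarith)
    have h4 : L ^ (U + 3) = L * L ^ (U + 2) := by
      rw [show U + 3 = 1 + (U + 2) by ring, Real.rpow_add hL0, Real.rpow_one]
    rw [h4] at h3
    have h5 : L ≤ (U + 3) ^ (U + 3) * x / L ^ (U + 2) := (le_div_iff₀ hpw).2 h3
    calc 2 * A * L ≤ 2 * A * ((U + 3) ^ (U + 3) * x / L ^ (U + 2)) :=
          mul_le_mul_of_nonneg_left h5 (by positivity)
      _ = 2 * A * (U + 3) ^ (U + 3) * (x / L ^ (U + 2)) := by ring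
  have hterm : ∀ d ∈ S, (1 / (d.totient : ℝ)) * (|npr (y d) - li (y d)| + 2 * Real.log d) ≤
      (1 / (d.totient : ℝ)) * ((C1 + 2 * A * (U + 3) ^ (U + 3)) * (x / L ^ (U + 2))) := by
    intro d hd
    obtain ⟨hd1, hd2, hd3, hd4⟩ := hS d hd
    have h3 := hM x (y d) hx hd3 hd4
    have hdr : (0 : ℝ) < (d : ℝ) := by exact_mod_cast hd1
    have h4 : Real.log (d : ℝ) ≤ A * L := by
      have h5 := Real.log_le_log hdr hd2
      rwa [Real.log_rpow hx0] at h5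
    refine mul_le_mul_of_nonneg_left ?_ (by positivity)
    have h6 : 2 * Real.log (d : ℝ) ≤ 2 * A * L := by linarith
    calc |npr (y d) - li (y d)| + 2 * Real.log d
        ≤ C1 * (x / L ^ (U + 2)) + 2 * A * (U + 3) ^ (U + 3) * (x / L ^ (U + 2)) :=
          add_le_add h3 (h6.trans hQ)
      _ = (C1 + 2 * A * (U + 3) ^ (U + 3)) * (x / L ^ (U + 2)) := by ring
  have hxA : 1 ≤ x ^ A := Real.one_le_rpow (by linarith) hA.le
  have hD : 1 ≤ ⌊x ^ A⌋₊ := Nat.le_floor (by simpa using hxA)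
  have hsub : S ⊆ Icc 1 ⌊x ^ A⌋₊ := by
    intro d hd
    obtain ⟨hd1, hd2, _, _⟩ := hS d hd
    exact Finset.mem_Icc.2 ⟨hd1, Nat.le_floor hd2⟩
  have hsum : ∑ d ∈ S, 1 / (d.totient : ℝ) ≤ (1 + A) ^ 2 * L ^ (2 : ℕ) := by
    have h3 : ∑ d ∈ S, 1 / (d.totient : ℝ) ≤ ∑ d ∈ Icc 1 ⌊x ^ A⌋₊, 1 / (d.totient : ℝ) :=
      Finset.sum_le_sum_of_subset_of_nonneg hsub (fun d _ _ => by positivity)
    have h4 := h2.1 ⌊x ^ A⌋₊ hD
    have h5 : Real.log (⌊x ^ A⌋₊ : ℝ) ≤ A * L := by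
      have h6 : Real.log (⌊x ^ A⌋₊ : ℝ) ≤ Real.log (x ^ A) :=
        Real.log_le_log (by exact_mod_cast hD) (Nat.floor_le (by positivity))
      rwa [Real.log_rpow hx0] at h6
    have h6 : 0 ≤ Real.log (⌊x ^ A⌋₊ : ℝ) := Real.log_nonneg (by exact_mod_cast hD)
    have h7 : 1 + Real.log (⌊x ^ A⌋₊ : ℝ) ≤ (1 + A) * L := by nlinarith
    calc ∑ d ∈ S, 1 / (d.totient : ℝ) ≤ (1 + Real.log (⌊x ^ A⌋₊ : ℝ)) ^ 2 := h3.trans h4
      _ ≤ ((1 + A) * L) ^ 2 := pow_le_pow_left₀ (by linarith) h7 2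
      _ = (1 + A) ^ 2 * L ^ (2 : ℕ) := by ring
  have hLs : L ^ (U + 2) = L ^ U * L ^ (2 : ℕ) := by
    rw [Real.rpow_add hL0]
    norm_num
  calc ∑ d ∈ S, (1 / (d.totient : ℝ)) * (|npr (y d) - li (y d)| + 2 * Real.log d)
      ≤ ∑ d ∈ S, (1 / (d.totient : ℝ)) * ((C1 + 2 * A * (U + 3) ^ (U + 3)) * (x / L ^ (U + 2))) :=
        Finset.sum_le_sum hterm
    _ = (∑ d ∈ S, 1 / (d.totient : ℝ)) * ((C1 + 2 * A * (U + 3) ^ (U + 3)) * (x / L ^ (U + 2))) := by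
        rw [Finset.sum_mul]
    _ ≤ ((1 + A) ^ 2 * L ^ (2 : ℕ)) * ((C1 + 2 * A * (U + 3) ^ (U + 3)) * (x / L ^ (U + 2))) :=
        mul_le_mul_of_nonneg_right hsum (by positivity)
    _ = (C1 + 2 * A * (U + 3) ^ (U + 3)) * (1 + A) ^ 2 * (x / L ^ U) := by
        have hLU : 0 < L ^ U := Real.rpow_pos_of_pos hL0 _
        rw [hLs]
        field_simp

end Pool.Agent.Lib.CO
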