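import Pool.Agent.Lib.CO.Spec
import Pool.Agent.Lib.BV.Tot

/-!
MP_00e23e_nt, Lib/CO, module Trs: from characters mod d to primitive characters.
-/

namespace Pool.Agent.Lib.CO

open Finset Pool.Agent.Lib.BV Pool.Agent.Results.MP_00e23e_nt

open Classical in
/-- back from the primitive characters to the characters mod d -/
private noncomputable def Trs_back (d : ℕ) (p : Σ q : ℕ, DirichletCharacter ℂ q) :
    DirichletCharacter ℂ d :=
  if h : p.1 ∣ d then DirichletCharacter.changeLevel h p.2 else 1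

private theorem Trs_back_eq {d : ℕ} (χ : DirichletCharacter ℂ d) :
    Trs_back d ⟨χ.conductor, χ.primitiveCharacter⟩ = χ := by
  unfold Trs_back
  rw [dif_pos χ.conductor_dvd_level]
  exact χ.changeLevel_primitiveCharacter

/-- a sum over the factorizations of the numbers up to D is at most the product of the sums -/
private theorem Trs_mul (G H : ℕ → ℝ) (hG : ∀ a, 0 ≤ G a) (hH : ∀ a, 0 ≤ H a) (D : ℕ) :
    ∑ d ∈ Icc 1 D, ∑ w ∈ d.divisorsAntidiagonal, G w.1 * H w.2 ≤
      (∑ a ∈ Icc 1 D, G a) * (∑ a ∈ Icc 1 D, H a) := by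
  classical
  have h1 : (∑ a ∈ Icc 1 D, G a) * (∑ a ∈ Icc 1 D, H a) =
      ∑ w ∈ Icc 1 D ×ˢ Icc 1 D, G w.1 * H w.2 := by
    rw [Finset.sum_mul_sum, Finset.sum_product]
  rw [h1]
  have h2 : ∑ w ∈ (Icc 1 D ×ˢ Icc 1 D).filter (fun w => w.1 * w.2 ≤ D), G w.1 * H w.2 ≤
      ∑ w ∈ Icc 1 D ×ˢ Icc 1 D, G w.1 * H w.2 :=
    Finset.sum_le_sum_of_subset_of_nonneg (Finset.filter_subset _ _)
      (fun w _ _ => mul_nonneg (hG _) (hH _))
  refine le_trans (le_of_eq ?_) h2
  rw [← Finset.sum_fiberwise_of_maps_to (t := Icc 1 D) (g := fun w : ℕ × ℕ => w.1 * w.2)]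
  · refine Finset.sum_congr rfl fun d hd => ?_
    rw [Finset.mem_Icc] at hd
    refine Finset.sum_congr ?_ fun _ _ => rfl
    ext ⟨a, b⟩
    simp only [Nat.mem_divisorsAntidiagonal, Finset.mem_filter, Finset.mem_product,
      Finset.mem_Icc]
    constructor
    · rintro ⟨h, h0⟩
      have ha : 0 < a := Nat.pos_of_ne_zero (by rintro rfl; omega)
      have hb : 0 < b := Nat.pos_of_ne_zero (by rintro rfl; omega)
      have ha' : a ≤ a * b := Nat.le_mul_of_pos_right a hb
      have hb' : b ≤ a * b := Nat.le_mul_of_pos_left b ha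
      omega
    · rintro ⟨-, h⟩
      omega
  · intro w hw
    simp only [Finset.mem_filter, Finset.mem_product, Finset.mem_Icc] at hw
    rw [Finset.mem_Icc]
    exact ⟨Nat.mul_pos hw.1.1.1 hw.1.2.1, hw.2⟩

open Classical in
/-- the sum over the characters mod d is at most the sum over the primitive characters -/
private theorem Trs_inj (c : ℕ → Prop) (F : (e : ℕ) → DirichletCharacter ℂ e → ℝ)
    (hF : ∀ e χ, 0 ≤ F e χ) (d : ℕ) (hd : 1 ≤ d) :
    ∑ χ ∈ univ.filter (fun χ : DirichletCharacter ℂ d => c χ.conductor),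
      F χ.conductor χ.primitiveCharacter ≤
      ∑ e ∈ d.divisors.filter c, ∑ ψ ∈ prim e, F e ψ := by
  have h4 : ∑ χ ∈ univ.filter (fun χ : DirichletCharacter ℂ d => c χ.conductor),
      F χ.conductor χ.primitiveCharacter =
      ∑ p ∈ (univ.filter (fun χ : DirichletCharacter ℂ d => c χ.conductor)).image
        (fun χ => (⟨χ.conductor, χ.primitiveCharacter⟩ : Σ q : ℕ, DirichletCharacter ℂ q)),
        F p.1 p.2 := by
    rw [Finset.sum_image]
    intro χ _ ψ _ h
    have h5 := congrArg (Trs_back d) h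
    rw [Trs_back_eq, Trs_back_eq] at h5
    exact h5
  rw [h4, ← Finset.sum_sigma (d.divisors.filter c) (fun q => prim q)
    (fun p : Σ q : ℕ, DirichletCharacter ℂ q => F p.1 p.2)]
  apply Finset.sum_le_sum_of_subset_of_nonneg
  · intro p hp
    obtain ⟨χ, hχ, rfl⟩ := Finset.mem_image.mp hp
    rw [Finset.mem_sigma]
    refine ⟨?_, ?_⟩
    · rw [Finset.mem_filter, Nat.mem_divisors]
      exact ⟨⟨χ.conductor_dvd_level, by omega⟩, (Finset.mem_filter.mp hχ).2⟩
    · unfold prim
      rw [Finset.mem_filter]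
      exact ⟨Finset.mem_univ _, χ.primitiveCharacter_isPrimitive⟩
  · intro p _ _
    exact hF _ _

private theorem Trs_phi (q e : ℕ) (hq : 0 < q) (he : 0 < e) :
    1 / ((q * e).totient : ℝ) ≤ 1 / (q.totient : ℝ) * (1 / (e.totient : ℝ)) := by
  have h3 : (0 : ℝ) < (q.totient : ℝ) := by exact_mod_cast Nat.totient_pos.mpr hq
  have h4 : (0 : ℝ) < (e.totient : ℝ) := by exact_mod_cast Nat.totient_pos.mpr he
  have h5 : (q.totient : ℝ) * (e.totient : ℝ) ≤ ((q * e).totient : ℝ) := by
    exact_mod_cast Nat.totient_super_multiplicative q e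
  have h6 : 1 / (q.totient : ℝ) * (1 / (e.totient : ℝ)) =
      1 / ((q.totient : ℝ) * (e.totient : ℝ)) := by
    rw [one_div_mul_one_div]
  rw [h6]
  exact one_div_le_one_div_of_le (mul_pos h3 h4) h5

open Classical in
theorem tTrs : TrsStmt := by
  intro D c F hD hF
  set S : ℕ → ℝ := fun e => ∑ ψ ∈ prim e, F e ψ with hS
  have hS0 : ∀ e, 0 ≤ S e := fun e => Finset.sum_nonneg fun ψ _ => hF e ψ
  set G : ℕ → ℝ := fun e => if c e then (1 / (e.totient : ℝ)) * S e else 0 with hG
  have hG0 : ∀ e, 0 ≤ G e := by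
    intro e
    rw [hG]
    dsimp only
    split_ifs
    · exact mul_nonneg (by positivity) (hS0 e)
    · exact le_refl 0
  have h1 : ∀ d ∈ Icc 1 D, (1 / (d.totient : ℝ)) *
      ∑ χ ∈ univ.filter (fun χ : DirichletCharacter ℂ d => c χ.conductor),
        F χ.conductor χ.primitiveCharacter ≤
      ∑ w ∈ d.divisorsAntidiagonal, G w.1 * (1 / (w.2.totient : ℝ)) := by
    intro d hd
    rw [Finset.mem_Icc] at hd
    refine le_trans (mul_le_mul_of_nonneg_left (Trs_inj c F hF d hd.1) (by positivity)) ?_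
    rw [Nat.sum_divisorsAntidiagonal (fun a b => G a * (1 / (b.totient : ℝ))),
      Finset.sum_filter, Finset.mul_sum]
    refine Finset.sum_le_sum fun e he => ?_
    rw [Nat.mem_divisors] at he
    obtain ⟨⟨f, rfl⟩, h0⟩ := he
    have he0 : 0 < e := Nat.pos_of_ne_zero (by rintro rfl; simp at h0)
    have hf0 : 0 < f := Nat.pos_of_ne_zero (by rintro rfl; simp at h0)
    rw [Nat.mul_div_cancel_left f he0, hG]
    dsimp only
    split_ifs
    · have h2 := mul_le_mul_of_nonneg_right (Trs_phi e f he0 hf0) (hS0 e)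
      refine le_trans h2 (le_of_eq ?_)
      ring
    · rw [mul_zero, zero_mul]
  refine le_trans (Finset.sum_le_sum h1) ?_
  refine le_trans (Trs_mul G (fun f => 1 / (f.totient : ℝ)) hG0 (fun f => by positivity) D) ?_
  rw [mul_comm]
  have h2 : ∑ a ∈ Icc 1 D, G a = ∑ e ∈ (Icc 1 D).filter c, (1 / (e.totient : ℝ)) * S e := by
    rw [Finset.sum_filter]
  rw [h2]
  exact mul_le_mul_of_nonneg_right (tTot.1 D hD)
    (Finset.sum_nonneg fun e _ => mul_nonneg (by positivity) (hS0 e))

end Pool.Agent.Lib.CO
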