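import Pool.Agent.Lib.CO.SpecV

namespace Pool.Agent.Lib.CO

open Finset Pool.Agent.Lib.BV Pool.Agent.Results.MP_00e23e_nt

private lemma Vgb_mu (r : ℕ) : |((ArithmeticFunction.moebius r : ℤ) : ℝ)| ≤ 1 := by
  have h := ArithmeticFunction.abs_moebius_le_one (n := r)
  exact_mod_cast h

private lemma Vgb_sum (b : ℕ) :
    ∑ w ∈ b.divisorsAntidiagonal, ArithmeticFunction.vonMangoldt w.2 = Real.log b := by
  rw [Nat.sum_divisorsAntidiagonal' (f := fun _ s => ArithmeticFunction.vonMangoldt s)]
  exact ArithmeticFunction.vonMangoldt_sum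

/-- Bounds for the coefficients of Vaughan's identity. -/
theorem tVgb : VgbStmt := by
  intro z b hb
  have hL : 0 ≤ Real.log b := Real.log_natCast_nonneg b
  refine ⟨?_, ?_, ?_, ?_, ?_, ?_⟩
  · unfold vg
    refine (Finset.abs_sum_le_sum_abs _ _).trans ?_
    rw [← Vgb_sum b]
    refine Finset.sum_le_sum fun w _ => ?_
    split_ifs with h
    · rw [abs_mul, abs_of_nonneg (ArithmeticFunction.vonMangoldt_nonneg (n := w.2))]
      exact mul_le_of_le_one_left ArithmeticFunction.vonMangoldt_nonneg (Vgb_mu w.1)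
    · rw [abs_zero]
      exact ArithmeticFunction.vonMangoldt_nonneg
  · intro hz
    unfold vg
    refine Finset.sum_eq_zero fun w hw => ?_
    have h1 : w.1 * w.2 = b := (Nat.mem_divisorsAntidiagonal.1 hw).1
    rw [if_neg]
    rintro ⟨h2, h3⟩
    have h4 : w.1 * w.2 ≤ z * z := Nat.mul_le_mul h2 h3
    rw [h1, ← pow_two] at h4
    exact absurd hz (not_lt.2 h4)
  · unfold vh
    refine (Finset.abs_sum_le_sum_abs _ _).trans ?_
    have h1 : ∀ r ∈ b.divisors,
        |if z < r then ((ArithmeticFunction.moebius r : ℤ) : ℝ) else 0| ≤ 1 := by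
      intro r _
      split_ifs with h
      · exact Vgb_mu r
      · rw [abs_zero]; exact zero_le_one
    refine (Finset.sum_le_sum h1).trans ?_
    rw [Finset.sum_const, nsmul_eq_mul, mul_one]
  · intro hz
    unfold vh
    refine Finset.sum_eq_zero fun r hr => ?_
    have h1 : r ≤ b := Nat.divisor_le hr
    rw [if_neg (by omega)]
  · unfold vl
    split_ifs with h
    · exact ArithmeticFunction.vonMangoldt_nonneg
    · exact le_rfl
  · unfold vl
    split_ifs with h
    · exact ArithmeticFunction.vonMangoldt_le_log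
    · exact hL

end Pool.Agent.Lib.CO
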