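import Pool.Agent.Lib.BV.All
import Pool.Agent.Lib.CO.Orh
import Pool.Agent.Lib.CO.Map
import Pool.Agent.Lib.CO.Cls
import Pool.Agent.Lib.CO.Ae
import Pool.Agent.Lib.CO.Mob
import Pool.Agent.Lib.CO.Sma
import Pool.Agent.Lib.CO.Smb2
import Pool.Agent.Lib.CO.Trs
import Pool.Agent.Lib.CO.Hol
import Pool.Agent.Lib.CO.Chn
import Pool.Agent.Lib.CO.Pwk
import Pool.Agent.Lib.CO.Lsk
import Pool.Agent.Lib.CO.Sml
import Pool.Agent.Lib.CO.Trc
import Pool.Agent.Lib.CO.Vau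
import Pool.Agent.Lib.CO.Vgb
import Pool.Agent.Lib.CO.Pv
import Pool.Agent.Lib.CO.Dcp
import Pool.Agent.Lib.CO.Ivd
import Pool.Agent.Lib.CO.Sep
import Pool.Agent.Lib.CO.Tau
import Pool.Agent.Lib.CO.Cub
import Pool.Agent.Lib.CO.Prv
import Pool.Agent.Lib.CO.Pww
import Pool.Agent.Lib.CO.Blw
import Pool.Agent.Lib.CO.Rtw
import Pool.Agent.Lib.CO.Hlw
import Pool.Agent.Lib.CO.Bxw
import Pool.Agent.Lib.CO.Abw
import Pool.Agent.Lib.CO.Mdw
import Pool.Agent.Lib.CO.Kcw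
import Pool.Agent.Lib.CO.Lgw
import Pool.Agent.Lib.CO.Dvw
import Pool.Agent.Lib.CO.Asw

/-!
Composition of the modules of Lib/CO, final form W (MP_00e23e_nt).
-/

namespace Pool.Agent.Lib.CO

open Finset Pool.Agent.Lib.BV Pool.Agent.Results.MP_00e23e_nt

theorem wOrh : OrhStmt := tOrh
theorem wMap : MapStmt := tMap
theorem wCls : ClsStmt := tCls
theorem wAe : AeStmt := tAe wOrh wMap wCls
theorem wMob : MobStmt := tMob wAe
theorem wSma : SmaStmt := tSma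
theorem wSmb2 : Smb2Stmt := tSmb2
theorem wTrs : TrsStmt := tTrs
theorem wHol : HolStmt := tHol
theorem wChn : ChnStmt := tChn
theorem wPwk : PwkStmt := tPwk
theorem wLsk : LskStmt := tLsk aLsm wPwk
theorem wSml : SmlStmt := tSml wSma aFin
theorem wTrc : TrcStmt := tTrc aMtm aTot
theorem wVau : VauStmt := tVau
theorem wVgb : VgbStmt := tVgb
theorem wPv : PvStmt := tPv aGau
theorem wDcp : DcpStmt := tDcp wVau wVgb wPv
theorem wIvd : IvdStmt := tIvd
theorem wSep : SepStmt := tSep wIvd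
theorem wTau : TauStmt := tTau
theorem wCub : CubStmt := tCub aLsm wTau
theorem wPrv : PrvStmt := tPrv
theorem wPww : PwwStmt := tPww wOrh wMob
theorem wBlw : BlwStmt := tBlw wChn wLsk wTrs wHol
theorem wRtw : RtwStmt := tRtw wBlw
theorem wHlw : HlwStmt := tHlw wHol
theorem wBxw : BxwStmt := tBxw wTrs wSep wCub wHlw
theorem wAbw : AbwStmt := tAbw
theorem wMdw : MdwStmt := tMdw wVgb wDcp wBxw wAbw
theorem wKcw : KcwStmt := tKcw
theorem wLgw : LgwStmt := tLgw wOrh wKcw wRtw wMdw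
theorem wDvw : DvwStmt := tDvw wSmb2
theorem aAsw : AswStmt := tAsw wOrh wPrv wPww aLpc wLgw wSml wDvw wTrc

end Pool.Agent.Lib.CO
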