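import Pool.Agent.Lib.CO.Spec
import Pool.Agent.Lib.BV.Tot

/-!
MP_00e23e_nt, Lib/CO, module Blo: one dyadic block of conductors.
-/

namespace Pool.Agent.Lib.CO

open Finset Pool.Agent.Lib.BV Pool.Agent.Results.MP_00e23e_nt

private lemma Blo_ZZ_nonneg (J k : ℕ) {q : ℕ} (χ : DirichletCharacter ℂ q) : 0 ≤ ZZ J k χ := by
  unfold ZZ
  exact Finset.sum_nonneg fun j _ => Finset.sum_nonneg fun i _ => pow_nonneg (norm_nonneg _) _

private lemma Blo_weights (D : ℕ) (B : ℝ) (S : Finset ℕ)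
    (X : (d : ℕ) → Finset (DirichletCharacter ℂ d)) (hD : 1 ≤ D) (hS : S ⊆ Icc 1 D) (hB : 0 ≤ B)
    (hX : ∀ d ∈ S, ((X d).card : ℝ) ≤ B) :
    ∑ d ∈ S, ∑ _χ ∈ X d, (1 / (d.totient : ℝ)) ≤ B * (1 + Real.log D) ^ 2 := by
  have h1 : ∑ d ∈ S, ∑ _χ ∈ X d, (1 / (d.totient : ℝ)) ≤ ∑ d ∈ S, B * (1 / (d.totient : ℝ)) := by
    refine Finset.sum_le_sum fun d hd => ?_
    rw [Finset.sum_const, nsmul_eq_mul]
    exact mul_le_mul_of_nonneg_right (hX d hd) (by positivity)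
  have h2 : ∑ d ∈ S, B * (1 / (d.totient : ℝ)) ≤ ∑ d ∈ Icc 1 D, B * (1 / (d.totient : ℝ)) :=
    Finset.sum_le_sum_of_subset_of_nonneg hS fun d _ _ => by positivity
  have h3 : ∑ d ∈ Icc 1 D, B * (1 / (d.totient : ℝ)) ≤ B * (1 + Real.log D) ^ 2 := by
    rw [← Finset.mul_sum]
    exact mul_le_mul_of_nonneg_left (tTot.1 D hD) hB
  exact h1.trans (h2.trans h3)

private lemma Blo_prim (h2 : LskStmt) (J k E : ℕ) (hk : 1 ≤ k) (hE : 1 ≤ E) (s : Finset ℕ)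
    (hs : ∀ e ∈ s, E < e ∧ e ≤ 2 * E) :
    ∑ e ∈ s, (1 / (e.totient : ℝ)) * ∑ ψ ∈ prim e, ZZ J k ψ ≤
      (1 / (E : ℝ)) * (20 * (((2 : ℝ) ^ J) ^ k + ((2 * E : ℕ) : ℝ) ^ 2) *
        ((k.factorial : ℝ) * (J * ((2 : ℝ) ^ J) ^ k))) := by
  have hE0 : (0 : ℝ) < E := by exact_mod_cast hE
  have hZ : ∀ e : ℕ, 0 ≤ ∑ ψ ∈ prim e, ZZ J k ψ := fun e =>
    Finset.sum_nonneg fun ψ _ => Blo_ZZ_nonneg J k ψ
  have h1 : ∑ e ∈ s, (1 / (e.totient : ℝ)) * ∑ ψ ∈ prim e, ZZ J k ψ ≤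
      ∑ e ∈ s, (1 / (E : ℝ)) * ((e : ℝ) / (e.totient : ℝ) * ∑ ψ ∈ prim e, ZZ J k ψ) := by
    refine Finset.sum_le_sum fun e he => ?_
    rw [← mul_assoc]
    refine mul_le_mul_of_nonneg_right ?_ (hZ e)
    have h3 : (1 : ℝ) ≤ (1 / (E : ℝ)) * (e : ℝ) := by
      rw [one_div, inv_mul_eq_div, one_le_div hE0]
      exact_mod_cast (hs e he).1.le
    calc (1 / (e.totient : ℝ)) = 1 * (1 / (e.totient : ℝ)) := (one_mul _).symm
      _ ≤ ((1 / (E : ℝ)) * (e : ℝ)) * (1 / (e.totient : ℝ)) :=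
          mul_le_mul_of_nonneg_right h3 (by positivity)
      _ = (1 / (E : ℝ)) * ((e : ℝ) / (e.totient : ℝ)) := by ring
  have h3 : ∑ e ∈ s, (1 / (E : ℝ)) * ((e : ℝ) / (e.totient : ℝ) * ∑ ψ ∈ prim e, ZZ J k ψ) ≤
      ∑ e ∈ Icc 2 (2 * E), (1 / (E : ℝ)) * ((e : ℝ) / (e.totient : ℝ) * ∑ ψ ∈ prim e, ZZ J k ψ) := by
    refine Finset.sum_le_sum_of_subset_of_nonneg ?_ fun e _ _ => ?_
    · intro e he
      obtain ⟨ha, hb⟩ := hs e he
      rw [Finset.mem_Icc]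
      omega
    · exact mul_nonneg (by positivity) (mul_nonneg (by positivity) (hZ e))
  refine h1.trans (h3.trans ?_)
  rw [← Finset.mul_sum]
  exact mul_le_mul_of_nonneg_left (h2 (2 * E) J k (by omega) hk) (by positivity)

private lemma Blo_moment (h1 : ChnStmt) (h2 : LskStmt) (h3 : TrsStmt) (D J k E : ℕ) (S : Finset ℕ)
    (X : (d : ℕ) → Finset (DirichletCharacter ℂ d)) (Y : ℕ → ℕ) (hD : 1 ≤ D) (hS : S ⊆ Icc 1 D)
    (hk : 1 ≤ k) (hE : 1 ≤ E) (hY : ∀ d ∈ S, Y d < 2 ^ J)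
    (hX : ∀ d ∈ S, ∀ χ ∈ X d, E < χ.conductor ∧ χ.conductor ≤ 2 * E) :
    ∑ d ∈ S, ∑ χ ∈ X d, (1 / (d.totient : ℝ)) * ‖PC χ.primitiveCharacter (Y d)‖ ^ (2 * k) ≤
      (J : ℝ) ^ (2 * k - 1) * ((1 + Real.log D) ^ 2 *
        ((1 / (E : ℝ)) * (20 * (((2 : ℝ) ^ J) ^ k + ((2 * E : ℕ) : ℝ) ^ 2) *
        ((k.factorial : ℝ) * (J * ((2 : ℝ) ^ J) ^ k))))) := by
  classical
  have a1 : ∑ d ∈ S, ∑ χ ∈ X d, (1 / (d.totient : ℝ)) * ‖PC χ.primitiveCharacter (Y d)‖ ^ (2 * k) ≤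
      ∑ d ∈ S, (J : ℝ) ^ (2 * k - 1) * ((1 / (d.totient : ℝ)) *
        ∑ χ ∈ X d, ZZ J k χ.primitiveCharacter) := by
    refine Finset.sum_le_sum fun d hd => ?_
    rw [Finset.mul_sum, Finset.mul_sum]
    refine Finset.sum_le_sum fun χ _ => ?_
    calc (1 / (d.totient : ℝ)) * ‖PC χ.primitiveCharacter (Y d)‖ ^ (2 * k)
        ≤ (1 / (d.totient : ℝ)) * ((J : ℝ) ^ (2 * k - 1) * ZZ J k χ.primitiveCharacter) :=
          mul_le_mul_of_nonneg_left (h1 _ χ.primitiveCharacter J k (Y d) hk (hY d hd)) (by positivity)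
      _ = (J : ℝ) ^ (2 * k - 1) * ((1 / (d.totient : ℝ)) * ZZ J k χ.primitiveCharacter) := by ring
  refine a1.trans ?_
  rw [← Finset.mul_sum]
  refine mul_le_mul_of_nonneg_left ?_ (by positivity)
  have a2 := h3 D (fun e => E < e ∧ e ≤ 2 * E) (fun e χ => ZZ J k χ) hD
    (fun e χ => Blo_ZZ_nonneg J k χ)
  have a3 : ∑ d ∈ S, (1 / (d.totient : ℝ)) * ∑ χ ∈ X d, ZZ J k χ.primitiveCharacter ≤
      ∑ d ∈ Icc 1 D, (1 / (d.totient : ℝ)) *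
        ∑ χ ∈ univ.filter (fun χ : DirichletCharacter ℂ d => E < χ.conductor ∧ χ.conductor ≤ 2 * E),
          ZZ J k χ.primitiveCharacter := by
    have b1 : ∑ d ∈ S, (1 / (d.totient : ℝ)) * ∑ χ ∈ X d, ZZ J k χ.primitiveCharacter ≤
      ∑ d ∈ S, (1 / (d.totient : ℝ)) *
        ∑ χ ∈ univ.filter (fun χ : DirichletCharacter ℂ d => E < χ.conductor ∧ χ.conductor ≤ 2 * E),
          ZZ J k χ.primitiveCharacter := by
      refine Finset.sum_le_sum fun d hd => ?_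
      refine mul_le_mul_of_nonneg_left ?_ (by positivity)
      refine Finset.sum_le_sum_of_subset_of_nonneg ?_ fun χ _ _ => Blo_ZZ_nonneg J k _
      intro χ hχ
      exact Finset.mem_filter.2 ⟨Finset.mem_univ _, hX d hd χ hχ⟩
    refine b1.trans (Finset.sum_le_sum_of_subset_of_nonneg hS fun d _ _ => ?_)
    exact mul_nonneg (by positivity) (Finset.sum_nonneg fun χ _ => Blo_ZZ_nonneg J k _)
  refine a3.trans (le_trans (le_of_eq ?_) (a2.trans ?_))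
  · refine Finset.sum_congr rfl fun d _ => ?_
    refine congrArg _ (Finset.sum_congr ?_ fun χ _ => rfl)
    ext χ
    simp only [Finset.mem_filter]
  · refine mul_le_mul_of_nonneg_left ?_ (by positivity)
    refine Blo_prim h2 J k E hk hE _ ?_
    intro e he
    simp only [Finset.mem_filter] at he
    exact he.2

private lemma Blo_alg (B L J : ℝ) (E : ℕ) (P F : ℝ) (m : ℕ) :
    (B * L ^ 2) ^ (2 * m + 1) * (J ^ (2 * m + 1) * (L ^ 2 * ((1 / (E : ℝ)) *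
      (20 * (P + ((2 * E : ℕ) : ℝ) ^ 2) * (F * (J * P)))))) =
    B ^ (2 * m + 1) * L ^ (4 * (m + 1)) * J ^ (2 * (m + 1)) * (20 * F * P) *
      ((P + 4 * (E : ℝ) ^ 2) / E) := by
  push_cast
  rw [mul_pow, ← pow_mul, one_div, div_eq_mul_inv]
  ring

theorem tBlo (h1 : ChnStmt) (h2 : LskStmt) (h3 : TrsStmt) (h4 : HolStmt) : BloStmt := by
  intro D J k E B S X Y hD hS hk hE hB hY hX hC
  have hE0 : (0 : ℝ) < E := by exact_mod_cast hE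
  have e1 := h4 ((d : ℕ) × DirichletCharacter ℂ d) (S.sigma X) (fun i => 1 / (i.1.totient : ℝ))
    (fun i => ‖PC i.2.primitiveCharacter (Y i.1)‖) (2 * k) (by omega)
    (fun i _ => by positivity) (fun i _ => norm_nonneg _)
  rw [Finset.sum_sigma, Finset.sum_sigma, Finset.sum_sigma] at e1
  have e2 : ∑ d ∈ S, (1 / (d.totient : ℝ)) * ∑ χ ∈ X d, ‖PC χ.primitiveCharacter (Y d)‖ =
      ∑ d ∈ S, ∑ χ ∈ X d, (1 / (d.totient : ℝ)) * ‖PC χ.primitiveCharacter (Y d)‖ :=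
    Finset.sum_congr rfl fun d _ => Finset.mul_sum _ _ _
  rw [e2]
  refine e1.trans ?_
  have e3 := Blo_weights D B S X hD hS hB hC
  have e4 := Blo_moment h1 h2 h3 D J k E S X Y hD hS hk hE hY hX
  have e5 : (0 : ℝ) ≤ ∑ d ∈ S, ∑ _χ ∈ X d, (1 / (d.totient : ℝ)) :=
    Finset.sum_nonneg fun d _ => Finset.sum_nonneg fun χ _ => by positivity
  have e6 : (0 : ℝ) ≤ ∑ d ∈ S, ∑ χ ∈ X d,
      (1 / (d.totient : ℝ)) * ‖PC χ.primitiveCharacter (Y d)‖ ^ (2 * k) :=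
    Finset.sum_nonneg fun d _ => Finset.sum_nonneg fun χ _ =>
      mul_nonneg (by positivity) (pow_nonneg (norm_nonneg _) _)
  have e7 : (0 : ℝ) ≤ B * (1 + Real.log D) ^ 2 := mul_nonneg hB (by positivity)
  refine (mul_le_mul (pow_le_pow_left₀ e5 e3 (2 * k - 1)) e4 e6 (pow_nonneg e7 _)).trans
    (le_of_eq ?_)
  obtain ⟨m, rfl⟩ : ∃ m, k = m + 1 := ⟨k - 1, by omega⟩
  have e8 : 2 * (m + 1) - 1 = 2 * m + 1 := by omega
  rw [e8]
  exact Blo_alg B (1 + Real.log D) J E _ _ m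

end Pool.Agent.Lib.CO
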