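import Pool.Agent.Lib.CO.SpecV
import Pool.Agent.Lib.BV.Tot

/-! MP_00e23e_nt, Lib/CO, module Box: one box of the bilinear sums. -/

namespace Pool.Agent.Lib.CO

open Finset Pool.Agent.Lib.BV Pool.Agent.Results.MP_00e23e_nt

private lemma Box_VV_nonneg (a : ℕ → ℂ) (J j : ℕ) : 0 ≤ VV a J j := by
  unfold VV
  exact Finset.sum_nonneg fun i _ => pow_nonneg (norm_nonneg _) _

private lemma Box_log {x : ℝ} (hx : 3 ≤ x) : 1 ≤ Real.log x := by
  rw [Real.le_log_iff_exp_le (by linarith)]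
  have := Real.exp_one_lt_d9
  linarith

private lemma Box_J {x : ℝ} (hx : 3 ≤ x) (M N : ℕ) (hM : (M : ℝ) ≤ x) (hN : (N : ℝ) ≤ x) :
    ∃ J : ℕ, 2 * M ≤ 2 ^ J ∧ 2 * N ≤ 2 ^ J ∧ (J : ℝ) + 1 ≤ 6 * Real.log x := by
  have hL1 := Box_log hx
  have hfl : ⌊x⌋₊ ≠ 0 := (Nat.floor_pos.2 (by linarith)).ne'
  have hb : ⌊x⌋₊ < 2 ^ (Nat.log 2 ⌊x⌋₊ + 1) := Nat.lt_pow_succ_log_self (by norm_num) _
  have hM' : M ≤ ⌊x⌋₊ := Nat.le_floor hM
  have hN' : N ≤ ⌊x⌋₊ := Nat.le_floor hN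
  refine ⟨Nat.log 2 ⌊x⌋₊ + 2, ?_, ?_, ?_⟩
  · rw [pow_succ]
    omega
  · rw [pow_succ]
    omega
  · have h1 : (2 : ℝ) ^ (Nat.log 2 ⌊x⌋₊) ≤ x := by
      have h2 : ((2 ^ (Nat.log 2 ⌊x⌋₊) : ℕ) : ℝ) ≤ (⌊x⌋₊ : ℝ) := by
        exact_mod_cast Nat.pow_log_le_self 2 hfl
      have h3 : (⌊x⌋₊ : ℝ) ≤ x := Nat.floor_le (by linarith)
      push_cast at h2
      linarith
    have h2 := Real.log_le_log (by positivity) h1
    rw [Real.log_pow] at h2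
    have h3 : (1 / 2 : ℝ) ≤ Real.log 2 := by
      have := Real.log_two_gt_d9
      linarith
    have h4 : (Nat.log 2 ⌊x⌋₊ : ℝ) * (1 / 2) ≤ (Nat.log 2 ⌊x⌋₊ : ℝ) * Real.log 2 :=
      mul_le_mul_of_nonneg_left h3 (Nat.cast_nonneg _)
    push_cast
    linarith

/-- restriction of a to [M, 2M) -/
private noncomputable def Box_rs (a : ℕ → ℂ) (M m : ℕ) : ℂ := if m ∈ Ico M (2 * M) then a m else 0

private lemma Box_tw_of_mem (a : ℕ → ℂ) (M : ℕ) {q : ℕ} (χ : DirichletCharacter ℂ q) {m : ℕ}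
    (hm : m ∈ Ico M (2 * M)) : tw (Box_rs a M) χ m = tw a χ m := by
  unfold tw Box_rs
  rw [if_pos hm]

private lemma Box_tw_of_not_mem (a : ℕ → ℂ) (M : ℕ) {q : ℕ} (χ : DirichletCharacter ℂ q) {m : ℕ}
    (hm : m ∉ Ico M (2 * M)) : tw (Box_rs a M) χ m = 0 := by
  unfold tw Box_rs
  rw [if_neg hm, zero_mul]

private lemma Box_BL (a b : ℕ → ℂ) (M N Y J : ℕ) {q : ℕ} (χ : DirichletCharacter ℂ q) (_hM : 1 ≤ M)
    (_hN : 1 ≤ N) (hMJ : 2 * M ≤ 2 ^ J) (hNJ : 2 * N ≤ 2 ^ J) :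
    BL a b M N Y χ = ∑ m ∈ Icc 1 (2 ^ J), ∑ n ∈ (Icc 1 (2 ^ J)).filter (fun n => m * n ≤ Y),
      tw (Box_rs a M) χ m * tw (Box_rs b N) χ n := by
  unfold BL
  have h1 : ∀ m ∈ Ico M (2 * M), ∑ n ∈ (Ico N (2 * N)).filter (fun n => m * n ≤ Y),
      tw a χ m * tw b χ n = ∑ n ∈ (Icc 1 (2 ^ J)).filter (fun n => m * n ≤ Y),
      tw (Box_rs a M) χ m * tw (Box_rs b N) χ n := by
    intro m hm
    have h2 : ∑ n ∈ (Ico N (2 * N)).filter (fun n => m * n ≤ Y), tw a χ m * tw b χ n =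
        ∑ n ∈ (Ico N (2 * N)).filter (fun n => m * n ≤ Y),
          tw (Box_rs a M) χ m * tw (Box_rs b N) χ n := by
      refine Finset.sum_congr rfl fun n hn => ?_
      rw [Box_tw_of_mem a M χ hm, Box_tw_of_mem b N χ (Finset.mem_filter.1 hn).1]
    rw [h2]
    refine Finset.sum_subset ?_ ?_
    · intro n hn
      rw [Finset.mem_filter, Finset.mem_Ico] at hn
      rw [Finset.mem_filter, Finset.mem_Icc]
      exact ⟨⟨by omega, by omega⟩, hn.2⟩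
    · intro n hn hn'
      rw [Finset.mem_filter] at hn hn'
      have h3 : n ∉ Ico N (2 * N) := fun h => hn' ⟨h, hn.2⟩
      rw [Box_tw_of_not_mem b N χ h3, mul_zero]
  rw [Finset.sum_congr rfl h1]
  refine Finset.sum_subset ?_ ?_
  · intro m hm
    rw [Finset.mem_Ico] at hm
    rw [Finset.mem_Icc]
    omega
  · intro m _ hm'
    refine Finset.sum_eq_zero fun n _ => ?_
    rw [Box_tw_of_not_mem a M χ hm', zero_mul]

private lemma Box_weights (D : ℕ) (B : ℝ) (S : Finset ℕ)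
    (X : (d : ℕ) → Finset (DirichletCharacter ℂ d)) (hD : 1 ≤ D) (hS : S ⊆ Icc 1 D) (hB : 0 ≤ B)
    (hX : ∀ d ∈ S, ((X d).card : ℝ) ≤ B) :
    ∑ d ∈ S, ∑ _χ ∈ X d, (1 / (d.totient : ℝ)) ≤ B * (1 + Real.log D) ^ 2 := by
  have h1 : ∑ d ∈ S, ∑ _χ ∈ X d, (1 / (d.totient : ℝ)) ≤ ∑ d ∈ S, B * (1 / (d.totient : ℝ)) := by
    refine Finset.sum_le_sum fun d hd => ?_
    rw [Finset.sum_const, nsmul_eq_mul]
    exact mul_le_mul_of_nonneg_right (hX d hd) (by positivity)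
  have h2 : ∑ d ∈ S, B * (1 / (d.totient : ℝ)) ≤ ∑ d ∈ Icc 1 D, B * (1 / (d.totient : ℝ)) :=
    Finset.sum_le_sum_of_subset_of_nonneg hS fun d _ _ => by positivity
  have h3 : ∑ d ∈ Icc 1 D, B * (1 / (d.totient : ℝ)) ≤ B * (1 + Real.log D) ^ 2 := by
    rw [← Finset.mul_sum]
    exact mul_le_mul_of_nonneg_left (tTot.1 D hD) hB
  exact h1.trans (h2.trans h3)

/-- from the characters mod d to the primitive characters, one dyadic block of conductors -/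
private lemma Box_tr (h1 : TrsStmt) (D E : ℕ) (S : Finset ℕ)
    (X : (d : ℕ) → Finset (DirichletCharacter ℂ d)) (F : (e : ℕ) → DirichletCharacter ℂ e → ℝ)
    (G : ℝ) (hD : 1 ≤ D) (hS : S ⊆ Icc 1 D) (hE : 1 ≤ E)
    (hX : ∀ d ∈ S, ∀ χ ∈ X d, E < χ.conductor ∧ χ.conductor ≤ 2 * E) (hF : ∀ e χ, 0 ≤ F e χ)
    (hG : ∑ q ∈ Icc 2 (2 * E), (q : ℝ) / (q.totient : ℝ) * ∑ χ ∈ prim q, F q χ ≤ G) :
    ∑ d ∈ S, ∑ χ ∈ X d, (1 / (d.totient : ℝ)) * F χ.conductor χ.primitiveCharacter ≤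
      (1 + Real.log D) ^ 2 * ((1 / (E : ℝ)) * G) := by
  classical
  have hE0 : (0 : ℝ) < E := by exact_mod_cast hE
  have a1 : ∑ d ∈ S, ∑ χ ∈ X d, (1 / (d.totient : ℝ)) * F χ.conductor χ.primitiveCharacter =
      ∑ d ∈ S, (1 / (d.totient : ℝ)) * ∑ χ ∈ X d, F χ.conductor χ.primitiveCharacter :=
    Finset.sum_congr rfl fun d _ => (Finset.mul_sum _ _ _).symm
  have a2 := h1 D (fun e => E < e ∧ e ≤ 2 * E) F hD hF
  have a3 : ∑ d ∈ S, (1 / (d.totient : ℝ)) * ∑ χ ∈ X d, F χ.conductor χ.primitiveCharacter ≤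
      ∑ d ∈ Icc 1 D, (1 / (d.totient : ℝ)) *
        ∑ χ ∈ univ.filter (fun χ : DirichletCharacter ℂ d => E < χ.conductor ∧ χ.conductor ≤ 2 * E),
          F χ.conductor χ.primitiveCharacter := by
    have b1 : ∑ d ∈ S, (1 / (d.totient : ℝ)) * ∑ χ ∈ X d, F χ.conductor χ.primitiveCharacter ≤
      ∑ d ∈ S, (1 / (d.totient : ℝ)) *
        ∑ χ ∈ univ.filter (fun χ : DirichletCharacter ℂ d => E < χ.conductor ∧ χ.conductor ≤ 2 * E),
          F χ.conductor χ.primitiveCharacter := by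
      refine Finset.sum_le_sum fun d hd => ?_
      refine mul_le_mul_of_nonneg_left ?_ (by positivity)
      refine Finset.sum_le_sum_of_subset_of_nonneg ?_ fun χ _ _ => hF _ _
      intro χ hχ
      exact Finset.mem_filter.2 ⟨Finset.mem_univ _, hX d hd χ hχ⟩
    refine b1.trans (Finset.sum_le_sum_of_subset_of_nonneg hS fun d _ _ => ?_)
    exact mul_nonneg (by positivity) (Finset.sum_nonneg fun χ _ => hF _ _)
  rw [a1]
  refine a3.trans (le_trans (le_of_eq ?_) (a2.trans ?_))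
  · refine Finset.sum_congr rfl fun d _ => ?_
    refine congrArg _ (Finset.sum_congr ?_ fun χ _ => rfl)
    ext χ
    simp only [Finset.mem_filter]
  · refine mul_le_mul_of_nonneg_left ?_ (by positivity)
    have hZ : ∀ e : ℕ, 0 ≤ ∑ ψ ∈ prim e, F e ψ := fun e => Finset.sum_nonneg fun ψ _ => hF e ψ
    have c1 : ∑ e ∈ (Icc 1 D).filter (fun e => E < e ∧ e ≤ 2 * E),
        (1 / (e.totient : ℝ)) * ∑ ψ ∈ prim e, F e ψ ≤
        ∑ e ∈ (Icc 1 D).filter (fun e => E < e ∧ e ≤ 2 * E),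
          (1 / (E : ℝ)) * ((e : ℝ) / (e.totient : ℝ) * ∑ ψ ∈ prim e, F e ψ) := by
      refine Finset.sum_le_sum fun e he => ?_
      rw [← mul_assoc]
      refine mul_le_mul_of_nonneg_right ?_ (hZ e)
      have h3 : (1 : ℝ) ≤ (1 / (E : ℝ)) * (e : ℝ) := by
        rw [one_div, inv_mul_eq_div, one_le_div hE0]
        exact_mod_cast (Finset.mem_filter.1 he).2.1.le
      calc (1 / (e.totient : ℝ)) = 1 * (1 / (e.totient : ℝ)) := (one_mul _).symm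
        _ ≤ ((1 / (E : ℝ)) * (e : ℝ)) * (1 / (e.totient : ℝ)) :=
            mul_le_mul_of_nonneg_right h3 (by positivity)
        _ = (1 / (E : ℝ)) * ((e : ℝ) / (e.totient : ℝ)) := by ring
    have c2 : ∑ e ∈ (Icc 1 D).filter (fun e => E < e ∧ e ≤ 2 * E),
          (1 / (E : ℝ)) * ((e : ℝ) / (e.totient : ℝ) * ∑ ψ ∈ prim e, F e ψ) ≤
        ∑ e ∈ Icc 2 (2 * E), (1 / (E : ℝ)) * ((e : ℝ) / (e.totient : ℝ) * ∑ ψ ∈ prim e, F e ψ) := by
      refine Finset.sum_le_sum_of_subset_of_nonneg ?_ fun e _ _ => ?_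
      · intro e he
        rw [Finset.mem_filter] at he
        rw [Finset.mem_Icc]
        omega
      · exact mul_nonneg (by positivity) (mul_nonneg (by positivity) (hZ e))
    have c3 : ∑ e ∈ Icc 2 (2 * E), (1 / (E : ℝ)) * ((e : ℝ) / (e.totient : ℝ) * ∑ ψ ∈ prim e, F e ψ) ≤
        (1 / (E : ℝ)) * G := by
      rw [← Finset.mul_sum]
      exact mul_le_mul_of_nonneg_left hG (by positivity)
    refine le_trans (le_of_eq ?_) (c1.trans (c2.trans c3))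
    refine Finset.sum_congr ?_ fun e _ => rfl
    ext e
    simp only [Finset.mem_filter]

/-- the algebra -/
private lemma Box_alg (B W a L E M N x x45 g1 g2 P : ℝ) (_hB : 0 ≤ B) (hW0 : 0 ≤ W)
    (hW : W ≤ (a * L) ^ 2) (hE : 1 ≤ E) (hM : 1 ≤ M) (hN : 1 ≤ N) (hL : 1 ≤ L) (hx : 1 ≤ x)
    (hMx : M ≤ x45) (hNx : N ≤ x45) (hMN : M * N ≤ x) (hg1 : 0 ≤ g1) (hg2 : 0 ≤ g2)
    (hg1P : g1 ≤ P) (hg2P : g2 ≤ P) :
    (B * W) ^ 4 * ((W * ((1 / E) * (20 * (8 * M ^ 2 * N + (2 * E) ^ 2) *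
        ((2 * L) ^ 6 * (8 * M ^ 2 * N * g1))))) * (W * ((1 / E) * (20 * (8 * N ^ 2 * M + (2 * E) ^ 2) *
        ((2 * L) ^ 6 * (8 * N ^ 2 * M * g2)))))) ≤
      (104857600 * 64 * a ^ 12) * (L ^ 24 * P ^ 2) *
        (B ^ 4 * x ^ 3 * (x ^ 3 / E ^ 2 + x * x45 + E ^ 2)) := by
  have hE0 : 0 < E := by linarith
  have h1 : (B * W) ^ 4 * ((W * ((1 / E) * (20 * (8 * M ^ 2 * N + (2 * E) ^ 2) *
        ((2 * L) ^ 6 * (8 * M ^ 2 * N * g1))))) * (W * ((1 / E) * (20 * (8 * N ^ 2 * M + (2 * E) ^ 2) *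
        ((2 * L) ^ 6 * (8 * N ^ 2 * M * g2)))))) =
      104857600 * L ^ 12 * B ^ 4 * (W ^ 6 * (M * N) ^ 3 * (g1 * g2) *
        (((8 * M ^ 2 * N + 4 * E ^ 2) * (8 * N ^ 2 * M + 4 * E ^ 2)) / E ^ 2)) := by
    field_simp
    ring
  rw [h1]
  have h2 : W ^ 6 ≤ ((a * L) ^ 2) ^ 6 := pow_le_pow_left₀ hW0 hW 6
  have hMN0 : 0 ≤ M * N := by positivity
  have h3 : (M * N) ^ 3 ≤ x ^ 3 := pow_le_pow_left₀ hMN0 hMN 3
  have h4 : g1 * g2 ≤ P * P := mul_le_mul hg1P hg2P hg2 (hg1.trans hg1P)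
  have h5 : ((8 * M ^ 2 * N + 4 * E ^ 2) * (8 * N ^ 2 * M + 4 * E ^ 2)) / E ^ 2 ≤
      64 * (x ^ 3 / E ^ 2 + x * x45 + E ^ 2) := by
    rw [div_le_iff₀ (by positivity)]
    have e1 : 64 * (x ^ 3 / E ^ 2 + x * x45 + E ^ 2) * E ^ 2 =
        64 * x ^ 3 + 64 * (x * x45) * E ^ 2 + 64 * E ^ 4 := by
      field_simp
    rw [e1]
    have e2 : (8 * M ^ 2 * N + 4 * E ^ 2) * (8 * N ^ 2 * M + 4 * E ^ 2) =
        64 * (M * N) ^ 3 + 32 * ((M * N) * (M + N)) * E ^ 2 + 16 * E ^ 4 := by ring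
    rw [e2]
    have e3 : (M * N) * (M + N) ≤ x * (2 * x45) :=
      mul_le_mul hMN (by linarith) (by linarith) (by linarith)
    have e4 : 32 * ((M * N) * (M + N)) * E ^ 2 ≤ 64 * (x * x45) * E ^ 2 := by
      refine mul_le_mul_of_nonneg_right ?_ (by positivity)
      linarith
    have e5 : 0 ≤ E ^ 4 := by positivity
    linarith
  have h6 : 0 ≤ ((8 * M ^ 2 * N + 4 * E ^ 2) * (8 * N ^ 2 * M + 4 * E ^ 2)) / E ^ 2 := by positivity
  have h7 : W ^ 6 * (M * N) ^ 3 * (g1 * g2) *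
        (((8 * M ^ 2 * N + 4 * E ^ 2) * (8 * N ^ 2 * M + 4 * E ^ 2)) / E ^ 2) ≤
      ((a * L) ^ 2) ^ 6 * x ^ 3 * (P * P) * (64 * (x ^ 3 / E ^ 2 + x * x45 + E ^ 2)) := by
    have hP : 0 ≤ P := hg1.trans hg1P
    refine mul_le_mul ?_ h5 h6 (by positivity)
    refine mul_le_mul ?_ h4 (by positivity) (by positivity)
    exact mul_le_mul h2 h3 (by positivity) (by positivity)
  refine (mul_le_mul_of_nonneg_left h7 (by positivity)).trans (le_of_eq ?_)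
  ring

private lemma Box_rpow (B x R : ℝ) (hB : 0 ≤ B) (hx : 0 ≤ x) (hR : 0 ≤ R) :
    (B ^ ((2 : ℝ) / 3) * x ^ ((1 : ℝ) / 2) * R ^ ((1 : ℝ) / 6)) ^ 6 = B ^ 4 * x ^ 3 * R := by
  have h1 : (B ^ ((2 : ℝ) / 3)) ^ 6 = B ^ 4 := by
    rw [← Real.rpow_natCast (B ^ ((2 : ℝ) / 3)) 6, ← Real.rpow_mul hB, ← Real.rpow_natCast B 4]
    norm_num
  have h2 : (x ^ ((1 : ℝ) / 2)) ^ 6 = x ^ 3 := by
    rw [← Real.rpow_natCast (x ^ ((1 : ℝ) / 2)) 6, ← Real.rpow_mul hx, ← Real.rpow_natCast x 3]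
    norm_num
  have h3 : (R ^ ((1 : ℝ) / 6)) ^ 6 = R := by
    rw [← Real.rpow_natCast (R ^ ((1 : ℝ) / 6)) 6, ← Real.rpow_mul hR]
    norm_num
  rw [mul_pow, mul_pow, h1, h2, h3]

/-- the logarithm of 8 M² N -/
private lemma Box_logMN (M N : ℕ) (x : ℝ) (hx : 3 ≤ x) (hM : 1 ≤ M) (hN : 1 ≤ N)
    (hMx : (M : ℝ) ≤ x) (hMN : (M : ℝ) * N ≤ x) :
    0 ≤ 1 + Real.log (8 * (M : ℝ) ^ 2 * N) ∧
      1 + Real.log (8 * (M : ℝ) ^ 2 * N) ≤ 6 * Real.log x := by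
  have hL1 := Box_log hx
  have hM1 : (1 : ℝ) ≤ M := by exact_mod_cast hM
  have hN1 : (1 : ℝ) ≤ N := by exact_mod_cast hN
  have h1 : (1 : ℝ) ≤ 8 * (M : ℝ) ^ 2 * N := by
    have : (1 : ℝ) ≤ (M : ℝ) ^ 2 := one_le_pow₀ hM1
    nlinarith
  have h2 : 8 * (M : ℝ) ^ 2 * N ≤ 8 * x ^ 2 := by
    have : (M : ℝ) * (M * N) ≤ x * x := mul_le_mul hMx hMN (by positivity) (by linarith)
    nlinarith
  constructor
  · have := Real.log_nonneg h1
    linarith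
  · have h3 := Real.log_le_log (by linarith) h2
    have h6 : Real.log (8 * x ^ 2) = Real.log 8 + 2 * Real.log x := by
      rw [Real.log_mul (by norm_num) (by positivity), Real.log_pow]
      norm_num
    have h4 : Real.log 8 = 3 * Real.log 2 := by
      rw [show (8 : ℝ) = 2 ^ 3 by norm_num, Real.log_pow]
      norm_num
    have h5 := Real.log_two_lt_d9
    rw [h6, h4] at h3
    linarith

private lemma Box_P : ∃ P : ℝ, 1 ≤ P ∧ ∀ g L : ℝ, 0 ≤ g → g ≤ 6 * L → g ^ 1024 ≤ P * L ^ 1024 := by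
  generalize (1024 : ℕ) = n
  refine ⟨6 ^ n, one_le_pow₀ (by norm_num), fun g L h0 h1 => ?_⟩
  rw [← mul_pow]
  exact pow_le_pow_left₀ h0 h1 n

private lemma Box_Lpow (L : ℝ) (hL : 1 ≤ L) : L ^ 24 * (L ^ 1024) ^ 2 ≤ (L ^ 346) ^ 6 := by
  rw [← pow_mul, ← pow_mul, ← pow_add]
  exact pow_le_pow_right₀ hL (by norm_num)

/-- the sixth root -/
private lemma Box_root (T K0 P L Z R6 : ℝ) (hZ : 0 ≤ Z) (hR6 : R6 ^ 6 = Z) (hR60 : 0 ≤ R6)
    (hT : 0 ≤ T) (hL : 1 ≤ L) (hK : 1 ≤ K0 * P ^ 2)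
    (h : T ^ 6 ≤ K0 * (L ^ 24 * (P * L ^ 1024) ^ 2) * Z) :
    T ≤ (K0 * P ^ 2) * L ^ 346 * R6 := by
  have hL0 : 0 < L := by linarith
  have hpos : 0 ≤ (K0 * P ^ 2) * L ^ 346 * R6 := by positivity
  rw [← pow_le_pow_iff_left₀ hT hpos (by norm_num : 6 ≠ 0)]
  refine h.trans ?_
  have e1 : ((K0 * P ^ 2) * L ^ 346 * R6) ^ 6 = (K0 * P ^ 2) ^ 6 * (L ^ 346) ^ 6 * Z := by
    rw [mul_pow _ R6 6, mul_pow _ (L ^ 346) 6, hR6]
  rw [e1]
  refine mul_le_mul_of_nonneg_right ?_ hZ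
  have e2 : K0 * (L ^ 24 * (P * L ^ 1024) ^ 2) = (K0 * P ^ 2) * (L ^ 24 * (L ^ 1024) ^ 2) := by
    generalize L ^ 1024 = q
    ring
  rw [e2]
  refine mul_le_mul ?_ (Box_Lpow L hL) (by positivity) (by positivity)
  calc K0 * P ^ 2 = (K0 * P ^ 2) ^ 1 := (pow_one _).symm
    _ ≤ (K0 * P ^ 2) ^ 6 := pow_le_pow_right₀ hK (by norm_num)

theorem tBox (h1 : TrsStmt) (h2 : SepStmt) (h3 : CubStmt) (h4 : HltStmt) : BoxStmt := by
  intro A hA
  obtain ⟨P, hP1, hP⟩ := Box_P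
  set K : ℝ := 104857600 * 64 * (1 + A) ^ 12 * P ^ 2 with hK
  have hK1 : 1 ≤ K := by
    have e1 : (1 : ℝ) ≤ (1 + A) ^ 12 := one_le_pow₀ (by linarith)
    have e2 : (1 : ℝ) ≤ P ^ 2 := one_le_pow₀ hP1
    have e3 : (1 : ℝ) ≤ 104857600 * 64 * (1 + A) ^ 12 := by linarith
    rw [hK]
    exact one_le_mul_of_one_le_of_one_le e3 e2
  refine ⟨348, 72 * K, by norm_num, by linarith, ?_⟩
  intro x B E M N S X Y a b hx hB hE hM hN hM45 hN45 hMN ha hb hS hX hcard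
  have hL1 := Box_log hx
  have hx0 : 0 < x := by linarith
  have hx1 : 1 ≤ x := by linarith
  have h2E : 1 ≤ 2 * E := by omega
  have h45 : x ^ ((4 : ℝ) / 5) ≤ x := by
    calc x ^ ((4 : ℝ) / 5) ≤ x ^ (1 : ℝ) :=
          Real.rpow_le_rpow_of_exponent_le (by linarith) (by norm_num)
      _ = x := Real.rpow_one x
  obtain ⟨J, hMJ, hNJ, hJ⟩ := Box_J hx M N (hM45.trans h45) (hN45.trans h45)
  set L := Real.log x with hL
  have hL0 : 0 < L := by linarith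
  have h2L : 0 ≤ 2 * L := by linarith
  have hD1 : 1 ≤ ⌊x ^ A⌋₊ := by
    rw [Nat.one_le_floor_iff]
    exact Real.one_le_rpow (by linarith) hA.le
  have hSD : S ⊆ Icc 1 ⌊x ^ A⌋₊ := by
    intro d hd
    rw [Finset.mem_Icc]
    exact ⟨(hS d hd).1, Nat.le_floor (hS d hd).2⟩
  have hlogD : 1 + Real.log (⌊x ^ A⌋₊ : ℝ) ≤ (1 + A) * L := by
    have a1 : Real.log (⌊x ^ A⌋₊ : ℝ) ≤ Real.log (x ^ A) :=
      Real.log_le_log (by exact_mod_cast hD1) (Nat.floor_le (by positivity))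
    rw [Real.log_rpow hx0] at a1
    rw [← hL] at a1
    nlinarith
  have hlogD0 : 0 ≤ 1 + Real.log (⌊x ^ A⌋₊ : ℝ) := by
    have := Real.log_nonneg (by exact_mod_cast hD1 : (1 : ℝ) ≤ (⌊x ^ A⌋₊ : ℝ))
    linarith
  set W : ℝ := (1 + Real.log (⌊x ^ A⌋₊ : ℝ)) ^ 2 with hW
  have hW0 : 0 ≤ W := by positivity
  have hWL : W ≤ ((1 + A) * L) ^ 2 := pow_le_pow_left₀ hlogD0 hlogD 2
  set a' := Box_rs a M with ha'
  set b' := Box_rs b N with hb'
  -- properties of the restrictions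
  have ha1 : ∀ m, a' m ≠ 0 → 1 ≤ m ∧ m ≤ 2 * M := by
    intro m hm
    have : m ∈ Ico M (2 * M) := by
      by_contra h
      exact hm (by rw [ha']; unfold Box_rs; rw [if_neg h])
    rw [Finset.mem_Ico] at this
    omega
  have hb1 : ∀ n, b' n ≠ 0 → 1 ≤ n ∧ n ≤ 2 * N := by
    intro n hn
    have : n ∈ Ico N (2 * N) := by
      by_contra h
      exact hn (by rw [hb']; unfold Box_rs; rw [if_neg h])
    rw [Finset.mem_Ico] at this
    omega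
  have ha2 : ∀ m, ‖a' m‖ ≤ 2 * L * (m.divisors.card : ℝ) := by
    intro m
    rw [ha']
    unfold Box_rs
    split_ifs with h
    · exact ha m h
    · rw [norm_zero]
      positivity
  have hb2 : ∀ n, ‖b' n‖ ≤ 2 * L * (n.divisors.card : ℝ) := by
    intro n
    rw [hb']
    unfold Box_rs
    split_ifs with h
    · exact hb n h
    · rw [norm_zero]
      positivity
  set R : ℝ := x ^ 3 / (E : ℝ) ^ 2 + x ^ ((9 : ℝ) / 5) + (E : ℝ) ^ 2 with hR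
  have hE1 : (1 : ℝ) ≤ E := by exact_mod_cast hE
  have hM1 : (1 : ℝ) ≤ M := by exact_mod_cast hM
  have hN1 : (1 : ℝ) ≤ N := by exact_mod_cast hN
  have hR0 : 0 ≤ R := by positivity
  have hx95 : x * x ^ ((4 : ℝ) / 5) = x ^ ((9 : ℝ) / 5) := by
    nth_rewrite 1 [← Real.rpow_one x]
    rw [← Real.rpow_add hx0]
    norm_num
  -- one pair of levels
  have hT : ∀ j k : ℕ, ∑ i ∈ S.sigma X, (1 / (i.1.totient : ℝ)) *
      (Real.sqrt (VV (tw a' i.2.primitiveCharacter) J k) *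
        Real.sqrt (VV (tw b' i.2.primitiveCharacter) J j)) ≤
      K * L ^ 346 * (B ^ ((2 : ℝ) / 3) * x ^ ((1 : ℝ) / 2) * R ^ ((1 : ℝ) / 6)) := by
    intro j k
    set T := ∑ i ∈ S.sigma X, (1 / (i.1.totient : ℝ)) *
      (Real.sqrt (VV (tw a' i.2.primitiveCharacter) J k) *
        Real.sqrt (VV (tw b' i.2.primitiveCharacter) J j)) with hTdef
    have hT0 : 0 ≤ T := Finset.sum_nonneg fun i _ =>
      mul_nonneg (by positivity) (mul_nonneg (Real.sqrt_nonneg _) (Real.sqrt_nonneg _))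
    have e1 := h4 ((d : ℕ) × DirichletCharacter ℂ d) (S.sigma X) (fun i => 1 / (i.1.totient : ℝ))
      (fun i => VV (tw a' i.2.primitiveCharacter) J k)
      (fun i => VV (tw b' i.2.primitiveCharacter) J j)
      (fun i _ => by positivity) (fun i _ => Box_VV_nonneg _ _ _) (fun i _ => Box_VV_nonneg _ _ _)
    have e2 := Box_weights ⌊x ^ A⌋₊ B S X hD1 hSD hB hcard
    have e3 := Box_tr h1 ⌊x ^ A⌋₊ E S X (fun e χ => VV (tw a' χ) J k ^ 2 * VV (tw b' χ) J j) _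
      hD1 hSD hE hX
      (fun e χ => mul_nonneg (pow_nonneg (Box_VV_nonneg _ _ _) _) (Box_VV_nonneg _ _ _))
      (h3 (2 * E) J k j M N a' b' (2 * L) h2E hM hN h2L ha1 hb1 ha2 hb2)
    have e4 := Box_tr h1 ⌊x ^ A⌋₊ E S X (fun e χ => VV (tw b' χ) J j ^ 2 * VV (tw a' χ) J k) _
      hD1 hSD hE hX
      (fun e χ => mul_nonneg (pow_nonneg (Box_VV_nonneg _ _ _) _) (Box_VV_nonneg _ _ _))
      (h3 (2 * E) J j k N M b' a' (2 * L) h2E hN hM h2L hb1 ha1 hb2 ha2)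
    rw [Finset.sum_sigma, Finset.sum_sigma, Finset.sum_sigma, Finset.sum_sigma] at e1
    have e5 : (0 : ℝ) ≤ ∑ d ∈ S, ∑ _χ ∈ X d, (1 / (d.totient : ℝ)) :=
      Finset.sum_nonneg fun d _ => Finset.sum_nonneg fun χ _ => by positivity
    have e6 : (0 : ℝ) ≤ ∑ d ∈ S, ∑ χ ∈ X d, (1 / (d.totient : ℝ)) *
        (VV (tw a' χ.primitiveCharacter) J k ^ 2 * VV (tw b' χ.primitiveCharacter) J j) :=
      Finset.sum_nonneg fun d _ => Finset.sum_nonneg fun χ _ => mul_nonneg (by positivity)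
        (mul_nonneg (pow_nonneg (Box_VV_nonneg _ _ _) _) (Box_VV_nonneg _ _ _))
    have e7 : (0 : ℝ) ≤ ∑ d ∈ S, ∑ χ ∈ X d, (1 / (d.totient : ℝ)) *
        (VV (tw b' χ.primitiveCharacter) J j ^ 2 * VV (tw a' χ.primitiveCharacter) J k) :=
      Finset.sum_nonneg fun d _ => Finset.sum_nonneg fun χ _ => mul_nonneg (by positivity)
        (mul_nonneg (pow_nonneg (Box_VV_nonneg _ _ _) _) (Box_VV_nonneg _ _ _))
    have hc2 : ((2 * E : ℕ) : ℝ) = 2 * (E : ℝ) := by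
      rw [Nat.cast_mul]
      rfl
    rw [hc2] at e3 e4
    have e8 : (0 : ℝ) ≤ B * W := mul_nonneg hB hW0
    obtain ⟨l1, l2⟩ := Box_logMN M N x hx hM hN (hM45.trans h45) hMN
    obtain ⟨l3, l4⟩ := Box_logMN N M x hx hN hM (hN45.trans h45) (by rw [mul_comm]; exact hMN)
    rw [← hL] at l2 l4
    have k1 := hP _ _ l1 l2
    have k2 := pow_nonneg l1 1024
    have k3 := hP _ _ l3 l4
    have k4 := pow_nonneg l3 1024
    generalize (1 + Real.log (8 * (M : ℝ) ^ 2 * N)) ^ 1024 = g1 at k1 k2 e3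
    generalize (1 + Real.log (8 * (N : ℝ) ^ 2 * M)) ^ 1024 = g2 at k3 k4 e4
    have e9 := e1.trans (mul_le_mul (pow_le_pow_left₀ e5 e2 4)
      (mul_le_mul e3 e4 e7 (e6.trans e3)) (mul_nonneg e6 e7) (pow_nonneg e8 4))
    have e10 := Box_alg B W (1 + A) L E M N x (x ^ ((4 : ℝ) / 5)) g1 g2
      (P * L ^ 1024) hB hW0 hWL hE1 hM1 hN1 hL1 hx1 hM45 hN45 hMN k2 k4 k1 k3
    rw [hx95] at e10
    refine Box_root T (104857600 * 64 * (1 + A) ^ 12) P L (B ^ 4 * x ^ 3 * R)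
      (B ^ ((2 : ℝ) / 3) * x ^ ((1 : ℝ) / 2) * R ^ ((1 : ℝ) / 6)) (by positivity)
      (Box_rpow B x R hB hx0.le hR0) (by positivity) hT0 hL1 hK1 ?_
    have e11 := e9.trans e10
    rw [← Finset.sum_sigma S X (fun i => (1 / (i.1.totient : ℝ)) *
      (Real.sqrt (VV (tw a' i.2.primitiveCharacter) J k) *
        Real.sqrt (VV (tw b' i.2.primitiveCharacter) J j)))] at e11
    exact e11
  -- all levels
  have hmain : ∑ d ∈ S, (1 / (d.totient : ℝ)) * ∑ χ ∈ X d, ‖BL a b M N (Y d) χ.primitiveCharacter‖ ≤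
      2 * ∑ j ∈ range (J + 1), ∑ k ∈ range (J + 1), ∑ i ∈ S.sigma X, (1 / (i.1.totient : ℝ)) *
      (Real.sqrt (VV (tw a' i.2.primitiveCharacter) J k) *
        Real.sqrt (VV (tw b' i.2.primitiveCharacter) J j)) := by
    have f1 : ∑ d ∈ S, (1 / (d.totient : ℝ)) * ∑ χ ∈ X d, ‖BL a b M N (Y d) χ.primitiveCharacter‖ =
        ∑ i ∈ S.sigma X, (1 / (i.1.totient : ℝ)) * ‖BL a b M N (Y i.1) i.2.primitiveCharacter‖ := by
      rw [Finset.sum_sigma]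
      exact Finset.sum_congr rfl fun d _ => Finset.mul_sum _ _ _
    have f2 : 2 * ∑ j ∈ range (J + 1), ∑ k ∈ range (J + 1), ∑ i ∈ S.sigma X, (1 / (i.1.totient : ℝ)) *
      (Real.sqrt (VV (tw a' i.2.primitiveCharacter) J k) *
        Real.sqrt (VV (tw b' i.2.primitiveCharacter) J j)) =
        ∑ i ∈ S.sigma X, (1 / (i.1.totient : ℝ)) * (2 * ∑ j ∈ range (J + 1), ∑ k ∈ range (J + 1),
          Real.sqrt (VV (tw a' i.2.primitiveCharacter) J k) *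
            Real.sqrt (VV (tw b' i.2.primitiveCharacter) J j)) := by
      have g1 : ∀ j : ℕ, ∑ k ∈ range (J + 1), ∑ i ∈ S.sigma X, (1 / (i.1.totient : ℝ)) *
          (Real.sqrt (VV (tw a' i.2.primitiveCharacter) J k) *
            Real.sqrt (VV (tw b' i.2.primitiveCharacter) J j)) =
          ∑ i ∈ S.sigma X, ∑ k ∈ range (J + 1), (1 / (i.1.totient : ℝ)) *
          (Real.sqrt (VV (tw a' i.2.primitiveCharacter) J k) *
            Real.sqrt (VV (tw b' i.2.primitiveCharacter) J j)) := fun j => Finset.sum_comm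
      rw [Finset.sum_congr rfl fun j _ => g1 j, Finset.sum_comm, Finset.mul_sum]
      refine Finset.sum_congr rfl fun i _ => ?_
      rw [Finset.mul_sum, Finset.mul_sum, Finset.mul_sum]
      refine Finset.sum_congr rfl fun j _ => ?_
      rw [Finset.mul_sum, Finset.mul_sum, Finset.mul_sum]
      exact Finset.sum_congr rfl fun k _ => by ring
    rw [f1, f2]
    refine Finset.sum_le_sum fun i _ => mul_le_mul_of_nonneg_left ?_ (by positivity)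
    rw [Box_BL a b M N (Y i.1) J i.2.primitiveCharacter hM hN hMJ hNJ]
    exact h2 J (Y i.1) _ _
  set G := B ^ ((2 : ℝ) / 3) * x ^ ((1 : ℝ) / 2) * R ^ ((1 : ℝ) / 6) with hG
  have hG0 : 0 ≤ G := by positivity
  refine hmain.trans ?_
  have hsum : ∑ j ∈ range (J + 1), ∑ k ∈ range (J + 1), ∑ i ∈ S.sigma X, (1 / (i.1.totient : ℝ)) *
      (Real.sqrt (VV (tw a' i.2.primitiveCharacter) J k) *
        Real.sqrt (VV (tw b' i.2.primitiveCharacter) J j)) ≤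
      ((J : ℝ) + 1) * (((J : ℝ) + 1) * (K * L ^ 346 * G)) := by
    have g1 : ∀ j ∈ range (J + 1), ∑ k ∈ range (J + 1), ∑ i ∈ S.sigma X, (1 / (i.1.totient : ℝ)) *
        (Real.sqrt (VV (tw a' i.2.primitiveCharacter) J k) *
          Real.sqrt (VV (tw b' i.2.primitiveCharacter) J j)) ≤
        ((J : ℝ) + 1) * (K * L ^ 346 * G) := by
      intro j _
      refine (Finset.sum_le_sum fun k _ => hT j k).trans (le_of_eq ?_)
      rw [Finset.sum_const, card_range, nsmul_eq_mul]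
      push_cast
      rfl
    refine (Finset.sum_le_sum g1).trans (le_of_eq ?_)
    rw [Finset.sum_const, card_range, nsmul_eq_mul]
    push_cast
    rfl
  have hL348 : L ^ (348 : ℝ) = L ^ 346 * L ^ 2 := by
    rw [← pow_add, ← Real.rpow_natCast]
    norm_num
  have hJ0 : (0 : ℝ) ≤ (J : ℝ) + 1 := by positivity
  have hq0 : 0 ≤ K * L ^ 346 * G := by positivity
  have hJJ : ((J : ℝ) + 1) * ((J : ℝ) + 1) ≤ (6 * L) * (6 * L) := mul_le_mul hJ hJ hJ0 (by positivity)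
  have hfin : 72 * K * L ^ (348 : ℝ) * G = 72 * L ^ 2 * (K * L ^ 346 * G) := by
    rw [hL348]
    generalize L ^ 346 = r
    ring
  rw [hfin]
  generalize K * L ^ 346 * G = q at hsum hq0
  have hJq := mul_le_mul_of_nonneg_right hJJ hq0
  refine (mul_le_mul_of_nonneg_left hsum (by norm_num : (0 : ℝ) ≤ 2)).trans ?_
  calc 2 * (((J : ℝ) + 1) * (((J : ℝ) + 1) * q)) = 2 * (((J : ℝ) + 1) * ((J : ℝ) + 1) * q) := by ring
    _ ≤ 2 * ((6 * L) * (6 * L) * q) := mul_le_mul_of_nonneg_left hJq (by norm_num)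
    _ = 72 * L ^ 2 * q := by ring


end Pool.Agent.Lib.CO
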