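import Pool.Agent.Lib.EH.Defs

/-! MP_00e23e_nt: primes in cosets of subgroups of the reduced residue classes. -/

namespace Pool.Agent.Results.MP_00e23e_nt

open Finset

/-- number of primes p ≤ y whose class mod d lies in the coset l H -/
noncomputable def cosetCount (y : ℝ) (d : ℕ) (H : Subgroup (ZMod d)ˣ) (l : (ZMod d)ˣ) : ℕ := by
  classical exact ((Icc 1 ⌊y⌋₊).filter (fun p : ℕ => p.Prime ∧
    ∃ h ∈ H, (p : ZMod d) = ((l * h : (ZMod d)ˣ) : ZMod d))).card

/-- the mean of π(y;d,a) - li y/φ(d) over the classes a in the coset l H -/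
noncomputable def cosetErr (y : ℝ) (d : ℕ) (H : Subgroup (ZMod d)ˣ) (l : (ZMod d)ˣ) : ℝ :=
  (cosetCount y d H l : ℝ) / (Nat.card H : ℝ) - li y / (d.totient : ℝ)

/-- the bound for the index: max(x/e, min(e, x²/e)^(1/3), x^(1/4)) -/
noncomputable def indexBound (x e : ℝ) : ℝ :=
  max (x / e) (max ((min e (x ^ 2 / e)) ^ ((1 : ℝ) / 3)) (x ^ ((1 : ℝ) / 4)))

end Pool.Agent.Results.MP_00e23e_nt
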