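import Pool.Agent.Lib.CO.Defs

/-! MP_00e23e_nt: the bound for the index of the subgroups, final form. -/

namespace Pool.Agent.Results.MP_00e23e_nt

/-- the bound for the index: max(x/e, min(e, x²/e)^(1/3), x^(3/10)) for e ≤ x^(11/10), and
max(x/e, min(e, x²/e)^(1/3), x^(1/4)) for e > x^(11/10) -/
noncomputable def indexBd (x e : ℝ) : ℝ :=
  max (x / e) (max ((min e (x ^ 2 / e)) ^ ((1 : ℝ) / 3))
    (if e ≤ x ^ ((11 : ℝ) / 10) then x ^ ((3 : ℝ) / 10) else x ^ ((1 : ℝ) / 4)))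

end Pool.Agent.Results.MP_00e23e_nt
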