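import Pool.Agent.Lib.EH.Defs

/-! MP_00e23e_nt: primes in sets of residue classes that are invariant under a subgroup. -/

namespace Pool.Agent.Results.MP_00e23e_nt

open Finset

/-- number of primes p ≤ y whose class mod d lies in B -/
noncomputable def setCount (y : ℝ) (d : ℕ) (B : Finset (ZMod d)ˣ) : ℕ := by
  classical exact ((Icc 1 ⌊y⌋₊).filter (fun p : ℕ => p.Prime ∧
    ∃ b ∈ B, (p : ZMod d) = ((b : (ZMod d)ˣ) : ZMod d))).card

/-- the mean of π(y;d,a) - li y/φ(d) over the classes a in B -/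
noncomputable def setErr (y : ℝ) (d : ℕ) (B : Finset (ZMod d)ˣ) : ℝ :=
  (setCount y d B : ℝ) / (B.card : ℝ) - li y / (d.totient : ℝ)

/-- The condition for a divisor e of the modulus; m is the index of the subgroup, D = φ(d)/|B| the inverse density
of the set B, L a power of log x: D^k m^(k-1) L ≤ min(e, x^k/e) for some integer k ≥ 1, or
D³ m L ≤ min(x^(6/5), x³/e²) and D m e L ≤ x^(3/2). -/
def Adm (x L e m D : ℝ) : Prop :=
  (∃ k : ℕ, 1 ≤ k ∧ D ^ k * m ^ (k - 1) * L ≤ min e (x ^ k / e)) ∨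
    (D ^ 3 * m * L ≤ min (x ^ ((6 : ℝ) / 5)) (x ^ 3 / e ^ 2) ∧ D * m * e * L ≤ x ^ ((3 : ℝ) / 2))

end Pool.Agent.Results.MP_00e23e_nt
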