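import Pool.Agent.Lib.CO.Spec

namespace Pool.Agent.Lib.CO

open Finset Pool.Agent.Lib.BV Pool.Agent.Results.MP_00e23e_nt

private lemma Dvs_ib (x : ℝ) (d : ℕ) (hx : 3 ≤ x) (hd : 1 ≤ d) : indexBound x d ≤ x := by
  have hd' : (1 : ℝ) ≤ d := by exact_mod_cast hd
  have hx0 : 0 < x := by linarith
  have hx1 : (1 : ℝ) ≤ x := by linarith
  unfold indexBound
  refine max_le ?_ (max_le ?_ ?_)
  · exact div_le_self hx0.le hd'
  · have h1 : min (d : ℝ) (x ^ 2 / d) ≤ x := by
      rcases le_total (d : ℝ) x with h | h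
      · exact (min_le_left _ _).trans h
      · refine (min_le_right _ _).trans ?_
        rw [div_le_iff₀ (by linarith)]
        nlinarith
    have h0 : 0 ≤ min (d : ℝ) (x ^ 2 / d) := le_min (by linarith) (by positivity)
    calc (min (d : ℝ) (x ^ 2 / d)) ^ ((1 : ℝ) / 3) ≤ x ^ ((1 : ℝ) / 3) :=
          Real.rpow_le_rpow h0 h1 (by norm_num)
      _ ≤ x ^ (1 : ℝ) := Real.rpow_le_rpow_of_exponent_le hx1 (by norm_num)
      _ = x := Real.rpow_one x
  · calc x ^ ((1 : ℝ) / 4) ≤ x ^ (1 : ℝ) := Real.rpow_le_rpow_of_exponent_le hx1 (by norm_num)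
      _ = x := Real.rpow_one x

theorem tDvs (h1 : Smb2Stmt) : DvsStmt := by
  intro A U hA hU
  refine ⟨U + 10 + 4 * A * (1 + A) ^ 8, by positivity, ?_⟩
  intro x S m hx hS
  set C : ℝ := U + 10 + 4 * A * (1 + A) ^ 8 with hC
  set L : ℝ := Real.log x with hL
  have hx0 : 0 < x := by linarith
  have hx1 : (1 : ℝ) ≤ x := by linarith
  have hL1 : 1 ≤ L := by
    rw [hL, Real.le_log_iff_exp_le hx0]
    have := Real.exp_one_lt_d9
    linarith
  have hL0 : 0 < L := by linarith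
  have hLC : 0 < L ^ C := Real.rpow_pos_of_pos hL0 _
  set D : ℕ := ⌊x ^ A⌋₊ with hD
  have hxA : (1 : ℝ) ≤ x ^ A := Real.one_le_rpow hx1 hA.le
  have hD1 : 1 ≤ D := by
    rw [hD]
    exact Nat.le_floor (by simpa using hxA)
  have hlogxA : Real.log (x ^ A) = A * L := Real.log_rpow hx0 A
  have hlogD : Real.log D ≤ A * L := by
    rw [← hlogxA]
    refine Real.log_le_log (by exact_mod_cast hD1) ?_
    exact Nat.floor_le (by linarith)
  have hlogD0 : 0 ≤ Real.log D := Real.log_natCast_nonneg D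
  have hSD : S ⊆ Icc 1 D := by
    intro d hd
    rw [mem_Icc]
    exact ⟨(hS d hd).1, Nat.le_floor (hS d hd).2.1⟩
  have key : ∀ d ∈ S, (1 / (d.totient : ℝ)) * ((d.divisors.card : ℝ) ^ 2 * (m d * (2 * Real.log d))) ≤
      ((d.divisors.card : ℝ) ^ 2 / (d.totient : ℝ)) * (x / L ^ C * (2 * (A * L))) := by
    intro d hd
    obtain ⟨hd1, hdA, hm0, hmC⟩ := hS d hd
    have hmx : m d ≤ x / L ^ C := by
      rw [le_div_iff₀ hLC]
      exact hmC.trans (Dvs_ib x d hx hd1)
    have hlogd : Real.log d ≤ A * L := by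
      rw [← hlogxA]
      exact Real.log_le_log (by exact_mod_cast hd1) hdA
    have hlogd0 : 0 ≤ Real.log d := Real.log_natCast_nonneg d
    have h2 : m d * (2 * Real.log d) ≤ x / L ^ C * (2 * (A * L)) := by
      apply mul_le_mul hmx (by linarith) (by linarith) (by positivity)
    have h3 : (1 / (d.totient : ℝ)) * ((d.divisors.card : ℝ) ^ 2 * (m d * (2 * Real.log d))) =
        ((d.divisors.card : ℝ) ^ 2 / (d.totient : ℝ)) * (m d * (2 * Real.log d)) := by ring
    rw [h3]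
    exact mul_le_mul_of_nonneg_left h2 (by positivity)
  have hb : 0 ≤ x / L ^ C * (2 * (A * L)) := by positivity
  have h5 : ∑ d ∈ S, (d.divisors.card : ℝ) ^ 2 / (d.totient : ℝ) ≤ ((1 + A) * L) ^ 8 := by
    calc ∑ d ∈ S, (d.divisors.card : ℝ) ^ 2 / (d.totient : ℝ)
        ≤ ∑ d ∈ Icc 1 D, (d.divisors.card : ℝ) ^ 2 / (d.totient : ℝ) :=
          sum_le_sum_of_subset_of_nonneg hSD (fun _ _ _ => by positivity)
      _ ≤ (1 + Real.log D) ^ 8 := h1 D hD1
      _ ≤ ((1 + A) * L) ^ 8 := by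
          apply pow_le_pow_left₀ (by linarith)
          nlinarith
  have h6 : L ^ C = L ^ (9 : ℕ) * (L ^ U * L ^ (C - U - 9)) := by
    rw [← Real.rpow_natCast L 9, ← Real.rpow_add hL0, ← Real.rpow_add hL0]
    congr 1
    push_cast
    ring
  have h7 : 1 ≤ L ^ (C - U - 9) := by
    apply Real.one_le_rpow hL1
    have : 0 < 4 * A * (1 + A) ^ 8 := by positivity
    rw [hC]
    linarith
  have hLU : 0 < L ^ U := Real.rpow_pos_of_pos hL0 _
  calc ∑ d ∈ S, (1 / (d.totient : ℝ)) * ((d.divisors.card : ℝ) ^ 2 * (m d * (2 * Real.log d)))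
      ≤ ∑ d ∈ S, ((d.divisors.card : ℝ) ^ 2 / (d.totient : ℝ)) * (x / L ^ C * (2 * (A * L))) :=
        sum_le_sum key
    _ = (∑ d ∈ S, (d.divisors.card : ℝ) ^ 2 / (d.totient : ℝ)) * (x / L ^ C * (2 * (A * L))) := by
        rw [sum_mul]
    _ ≤ ((1 + A) * L) ^ 8 * (x / L ^ C * (2 * (A * L))) := mul_le_mul_of_nonneg_right h5 hb
    _ = (2 * A * (1 + A) ^ 8) * (x / (L ^ U * L ^ (C - U - 9))) := by
        rw [h6]
        field_simp
    _ ≤ (2 * A * (1 + A) ^ 8) * (x / L ^ U) := by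
        apply mul_le_mul_of_nonneg_left _ (by positivity)
        apply div_le_div_of_nonneg_left hx0.le hLU
        nlinarith
    _ ≤ C * (x / L ^ U) := by
        apply mul_le_mul_of_nonneg_right _ (by positivity)
        have : 0 < 2 * A * (1 + A) ^ 8 := by positivity
        rw [hC]
        nlinarith

end Pool.Agent.Lib.CO
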