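import Pool.Agent.Lib.CO.SpecV

namespace Pool.Agent.Lib.CO

open Finset Pool.Agent.Lib.BV Pool.Agent.Results.MP_00e23e_nt

theorem tHlt (h1 : HolStmt) : HltStmt := by
  intro ι s w u v hw hu hv
  have hol := h1 ι s w (fun i => Real.sqrt (u i) * Real.sqrt (v i)) 3 (by norm_num) hw
    (fun i _ => by positivity)
  have hcs := Finset.sum_mul_sq_le_sq_mul_sq s
    (fun i => Real.sqrt (w i) * (u i * Real.sqrt (v i)))
    (fun i => Real.sqrt (w i) * (v i * Real.sqrt (u i)))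
  have e1 : ∑ i ∈ s, (Real.sqrt (w i) * (u i * Real.sqrt (v i))) *
      (Real.sqrt (w i) * (v i * Real.sqrt (u i))) =
      ∑ i ∈ s, w i * (Real.sqrt (u i) * Real.sqrt (v i)) ^ 3 := by
    refine sum_congr rfl fun i hi => ?_
    have a1 := Real.mul_self_sqrt (hw i hi)
    have a2 := Real.mul_self_sqrt (hu i hi)
    have a3 := Real.mul_self_sqrt (hv i hi)
    calc (Real.sqrt (w i) * (u i * Real.sqrt (v i))) * (Real.sqrt (w i) * (v i * Real.sqrt (u i)))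
        = (Real.sqrt (w i) * Real.sqrt (w i)) * (u i * v i) *
          (Real.sqrt (u i) * Real.sqrt (v i)) := by ring
      _ = w i * ((Real.sqrt (u i) * Real.sqrt (u i)) * (Real.sqrt (v i) * Real.sqrt (v i))) *
          (Real.sqrt (u i) * Real.sqrt (v i)) := by rw [a1, a2, a3]
      _ = w i * (Real.sqrt (u i) * Real.sqrt (v i)) ^ 3 := by ring
  have e2 : ∑ i ∈ s, (Real.sqrt (w i) * (u i * Real.sqrt (v i))) ^ 2 =
      ∑ i ∈ s, w i * (u i ^ 2 * v i) := by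
    refine sum_congr rfl fun i hi => ?_
    rw [mul_pow, mul_pow, Real.sq_sqrt (hw i hi), Real.sq_sqrt (hv i hi)]
  have e3 : ∑ i ∈ s, (Real.sqrt (w i) * (v i * Real.sqrt (u i))) ^ 2 =
      ∑ i ∈ s, w i * (v i ^ 2 * u i) := by
    refine sum_congr rfl fun i hi => ?_
    rw [mul_pow, mul_pow, Real.sq_sqrt (hw i hi), Real.sq_sqrt (hu i hi)]
  rw [e1, e2, e3] at hcs
  have hpos : 0 ≤ ∑ i ∈ s, w i * (Real.sqrt (u i) * Real.sqrt (v i)) :=
    sum_nonneg fun i hi => mul_nonneg (hw i hi) (by positivity)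
  have hW : 0 ≤ (∑ i ∈ s, w i) ^ 4 := pow_nonneg (sum_nonneg hw) 4
  calc (∑ i ∈ s, w i * (Real.sqrt (u i) * Real.sqrt (v i))) ^ 6
      = ((∑ i ∈ s, w i * (Real.sqrt (u i) * Real.sqrt (v i))) ^ 3) ^ 2 := by ring
    _ ≤ ((∑ i ∈ s, w i) ^ (3 - 1) *
        ∑ i ∈ s, w i * (Real.sqrt (u i) * Real.sqrt (v i)) ^ 3) ^ 2 :=
        pow_le_pow_left₀ (pow_nonneg hpos 3) hol 2
    _ = (∑ i ∈ s, w i) ^ 4 *
        (∑ i ∈ s, w i * (Real.sqrt (u i) * Real.sqrt (v i)) ^ 3) ^ 2 := by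
        rw [mul_pow, ← pow_mul]
    _ ≤ (∑ i ∈ s, w i) ^ 4 * ((∑ i ∈ s, w i * (u i ^ 2 * v i)) *
        ∑ i ∈ s, w i * (v i ^ 2 * u i)) := mul_le_mul_of_nonneg_left hcs hW

end Pool.Agent.Lib.CO
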