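import Pool.Agent.Lib.CO.Spec

namespace Pool.Agent.Lib.CO

open Finset Pool.Agent.Lib.BV Pool.Agent.Results.MP_00e23e_nt

/-- powers of the logarithm are absorbed -/
private theorem Kch_pow (C B m L : ℝ) (n : ℕ) (hC : 0 ≤ C) (hB : 0 ≤ B) (hL : 1 ≤ L) (hm : 0 ≤ m)
    (hn : 1 ≤ n) : m ^ n * L ^ C ≤ (m * L ^ (C + 2 * B)) ^ n := by
  have h1 : L ^ C ≤ L ^ (C + 2 * B) := Real.rpow_le_rpow_of_exponent_le hL (by linarith)
  have h2 : (1 : ℝ) ≤ L ^ (C + 2 * B) := Real.one_le_rpow hL (by linarith)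
  have h3 : L ^ (C + 2 * B) ≤ (L ^ (C + 2 * B)) ^ n := le_self_pow₀ h2 (by omega)
  rw [mul_pow]
  exact mul_le_mul_of_nonneg_left (h1.trans h3) (pow_nonneg hm n)

/-- case (i): k = 1 -/
private theorem Kch_one (C B x e m L : ℝ) (hB : 0 ≤ B) (hx : 3 ≤ x) (hL : 1 ≤ L) (hm : 0 ≤ m)
    (he : 1 ≤ e) (h1 : Real.sqrt x / L ^ B ≤ e) (h2 : m * L ^ (C + 2 * B) ≤ x / e) :
    m * L ^ C ≤ min e (x / e) := by
  have hL0 : 0 < L := by linarith
  have hLB : 0 < L ^ B := Real.rpow_pos_of_pos hL0 B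
  have hLC : 0 < L ^ C := Real.rpow_pos_of_pos hL0 C
  have hLB1 : (1 : ℝ) ≤ L ^ B := Real.one_le_rpow hL hB
  have h3 : L ^ (C + 2 * B) = L ^ C * (L ^ B * L ^ B) := by
    rw [Real.rpow_add hL0, two_mul, Real.rpow_add hL0]
  have he0 : 0 < e := by linarith
  have h4 : m * L ^ C * (L ^ B * L ^ B) ≤ x / e := by
    rw [mul_assoc, ← h3]
    exact h2
  have h5 : 0 ≤ m * L ^ C := mul_nonneg hm hLC.le
  have h6 : Real.sqrt x ≤ e * L ^ B := (div_le_iff₀ hLB).1 h1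
  have h7 : x ≤ (e * L ^ B) ^ 2 := by
    have h8 : Real.sqrt x ^ 2 = x := Real.sq_sqrt (by linarith)
    rw [← h8]
    exact pow_le_pow_left₀ (Real.sqrt_nonneg x) h6 2
  refine le_min ?_ ?_
  · have h9 : x / e ≤ e * (L ^ B * L ^ B) := by
      rw [div_le_iff₀ he0]
      nlinarith
    exact le_of_mul_le_mul_right (h4.trans h9) (mul_pos hLB hLB)
  · have h10 : (1 : ℝ) ≤ L ^ B * L ^ B := by nlinarith
    calc m * L ^ C = m * L ^ C * 1 := (mul_one _).symm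
      _ ≤ m * L ^ C * (L ^ B * L ^ B) := mul_le_mul_of_nonneg_left h10 h5
      _ ≤ x / e := h4

/-- the cube of a cube root -/
private theorem Kch_cube (a t : ℝ) (ha : 0 ≤ a) (ht : 0 ≤ t) (h : a ≤ t ^ ((1 : ℝ) / 3)) :
    a ^ 3 ≤ t := by
  have h1 : a ^ 3 ≤ (t ^ ((1 : ℝ) / 3)) ^ 3 := pow_le_pow_left₀ ha h 3
  have h2 : (t ^ ((1 : ℝ) / 3)) ^ 3 = t := by
    rw [← Real.rpow_natCast, ← Real.rpow_mul ht]
    norm_num
  rw [h2] at h1
  exact h1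

/-- case (iii) -/
private theorem Kch_three (A x e M : ℝ) (hx : 3 ≤ x) (he : 1 ≤ e)
    (h1 : x ^ ((1 : ℝ) / 4) ≤ e) (h2 : e ≤ x ^ A) (hM : 0 ≤ M) (h3 : M ≤ x ^ ((1 : ℝ) / 4)) :
    ∃ k : ℕ, 1 ≤ k ∧ k ≤ ⌊2 * A + 1 / 2⌋₊ ∧ M ^ (2 * k - 1) ≤ min e (x ^ k / e) := by
  have hx0 : 0 < x := by linarith
  have hx1 : 1 < x := by linarith
  have he0 : 0 < e := by linarith
  have hlx : 0 < Real.log x := Real.log_pos hx1
  obtain ⟨b, hb⟩ : ∃ b : ℝ, e = x ^ b := by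
    refine ⟨Real.log e / Real.log x, ?_⟩
    rw [Real.rpow_def_of_pos hx0, mul_div_cancel₀ _ hlx.ne', Real.exp_log he0]
  have hb1 : 1 / 4 ≤ b := by
    rw [hb] at h1
    exact (Real.rpow_le_rpow_left_iff hx1).1 h1
  have hb2 : b ≤ A := by
    rw [hb] at h2
    exact (Real.rpow_le_rpow_left_iff hx1).1 h2
  have hk0 : (0 : ℝ) ≤ 2 * b + 1 / 2 := by linarith
  have hk1 : 1 ≤ ⌊2 * b + 1 / 2⌋₊ := by
    rw [Nat.one_le_floor_iff]
    linarith
  have hk2 : (⌊2 * b + 1 / 2⌋₊ : ℝ) ≤ 2 * b + 1 / 2 := Nat.floor_le hk0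
  have hk3 : 2 * b + 1 / 2 < (⌊2 * b + 1 / 2⌋₊ : ℝ) + 1 := Nat.lt_floor_add_one _
  refine ⟨⌊2 * b + 1 / 2⌋₊, hk1, Nat.floor_le_floor (by linarith), ?_⟩
  generalize ⌊2 * b + 1 / 2⌋₊ = k at hk1 hk2 hk3
  have h4 : M ^ (2 * k - 1) ≤ x ^ ((k : ℝ) / 2 - 1 / 4) := by
    have h5 : M ^ (2 * k - 1) ≤ (x ^ ((1 : ℝ) / 4)) ^ (2 * k - 1) := pow_le_pow_left₀ hM h3 _
    have h6 : (x ^ ((1 : ℝ) / 4)) ^ (2 * k - 1) = x ^ ((k : ℝ) / 2 - 1 / 4) := by
      rw [← Real.rpow_natCast, ← Real.rpow_mul hx0.le]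
      congr 1
      have h7 : ((2 * k - 1 : ℕ) : ℝ) = 2 * (k : ℝ) - 1 := by
        rw [Nat.cast_sub (by omega)]
        push_cast
        ring
      rw [h7]
      ring
    rw [h6] at h5
    exact h5
  refine le_min (h4.trans ?_) (h4.trans ?_)
  · rw [hb]
    exact Real.rpow_le_rpow_of_exponent_le hx1.le (by linarith)
  · have h8 : x ^ k / e = x ^ ((k : ℝ) - b) := by
      rw [hb, Real.rpow_sub hx0, Real.rpow_natCast]
    rw [h8]
    exact Real.rpow_le_rpow_of_exponent_le hx1.le (by linarith)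

theorem tKch : KchStmt := by
  intro A hA
  refine ⟨⌊2 * A + 1 / 2⌋₊ + 2, by omega, ?_⟩
  intro C B x e m L hC hB hx hL hm he h1 h2 h3 h4
  have hL0 : 0 < L := by linarith
  have hx0 : 0 < x := by linarith
  have he0 : 0 < e := by linarith
  have hM : 0 ≤ m * L ^ (C + 2 * B) := mul_nonneg hm (Real.rpow_pos_of_pos hL0 _).le
  unfold indexBound at h4
  rcases le_max_iff.1 h4 with h5 | h5
  · refine ⟨1, le_rfl, by omega, ?_⟩
    have h6 := Kch_one C B x e m L hB hx hL hm he h1 h5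
    have h7 : (2 * 1 - 1 : ℕ) = 1 := rfl
    rw [h7, pow_one, pow_one]
    exact h6
  · rcases le_max_iff.1 h5 with h6 | h6
    · refine ⟨2, by omega, by omega, ?_⟩
      have ht : 0 ≤ min e (x ^ 2 / e) := le_min he0.le (by positivity)
      have h7 := Kch_cube _ _ hM ht h6
      have h8 := Kch_pow C B m L 3 hC hB hL hm (by omega)
      exact h8.trans h7
    · have hxe : x ^ ((1 : ℝ) / 4) ≤ e := by
        have hLB : 0 < L ^ B := Real.rpow_pos_of_pos hL0 B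
        have h9 : x ^ ((1 : ℝ) / 4) * L ^ B ≤ Real.sqrt x := by
          calc x ^ ((1 : ℝ) / 4) * L ^ B ≤ x ^ ((1 : ℝ) / 4) * x ^ ((1 : ℝ) / 4) :=
                mul_le_mul_of_nonneg_left h3 (Real.rpow_nonneg hx0.le _)
            _ = Real.sqrt x := by
                rw [← Real.rpow_add hx0, Real.sqrt_eq_rpow]
                norm_num
        exact ((le_div_iff₀ hLB).2 h9).trans h1
      obtain ⟨k, hk1, hk2, hk3⟩ := Kch_three A x e (m * L ^ (C + 2 * B)) hx he hxe h2 hM h6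
      exact ⟨k, hk1, by omega, (Kch_pow C B m L (2 * k - 1) hC hB hL hm (by omega)).trans hk3⟩

end Pool.Agent.Lib.CO
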