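import Pool.Agent.Lib.CO.SpecV

/-! MP_00e23e_nt, Lib/CO, module Kcv: the choice of the method. -/

namespace Pool.Agent.Lib.CO

open Finset Pool.Agent.Lib.BV Pool.Agent.Results.MP_00e23e_nt

theorem tKcv (h1 : KchStmt) : KcvStmt := by
  intro A hA
  obtain ⟨K0, hK1, hK⟩ := h1 A hA
  refine ⟨max K0 2, le_trans hK1 (le_max_left _ _), ?_⟩
  intro C B x e m L hC hB hx hL hm he hse hexA hLB hbd
  have hx0 : 0 < x := by linarith
  have hx1 : 1 ≤ x := by linarith
  have hL0 : 0 < L := by linarith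
  have he0 : 0 < e := by linarith
  have hmono : L ^ C ≤ L ^ (C + 2 * B) := Real.rpow_le_rpow_of_exponent_le hL (by linarith)
  have hLC0 : 0 < L ^ C := by positivity
  have hmL : m * L ^ C ≤ m * L ^ (C + 2 * B) := mul_le_mul_of_nonneg_left hmono hm
  have hmL0 : 0 ≤ m * L ^ (C + 2 * B) := by positivity
  -- reduction to Kch
  have hred : m * L ^ (C + 2 * B) ≤ indexBound x e →
      ((∃ k : ℕ, 1 ≤ k ∧ k ≤ max K0 2 ∧ m ^ (2 * k - 1) * L ^ C ≤ min e (x ^ k / e)) ∨
      (x ^ ((7 : ℝ) / 10) ≤ e ∧ e ≤ x ^ ((9 : ℝ) / 10) ∧ m * L ^ C ≤ x ^ ((3 : ℝ) / 10))) := by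
    intro h
    obtain ⟨k, k1, k2, k3⟩ := hK C B x e m L hC hB hx hL hm he hse hexA hLB h
    exact Or.inl ⟨k, k1, le_trans k2 (le_max_left _ _), k3⟩
  unfold indexBd at hbd
  rcases le_max_iff.1 hbd with h | h
  · exact hred (le_trans h (le_max_left _ _))
  rcases le_max_iff.1 h with h | h
  · exact hred (le_trans h (le_trans (le_max_left _ _) (le_max_right _ _)))
  by_cases h11 : e ≤ x ^ ((11 : ℝ) / 10)
  swap
  · rw [if_neg h11] at h
    exact hred (le_trans h (le_trans (le_max_right _ _) (le_max_right _ _)))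
  rw [if_pos h11] at h
  rcases le_or_gt e (x ^ ((7 : ℝ) / 10)) with h7 | h7
  · -- k = 1
    left
    refine ⟨1, le_refl 1, le_trans hK1 (le_max_left _ _), ?_⟩
    have e1 : (2 * 1 - 1 : ℕ) = 1 := rfl
    rw [e1, pow_one, pow_one]
    refine le_min ?_ ?_
    · -- m L^C ≤ x^(3/10) L^(-2B) ≤ √x L^(-B) ≤ e
      refine le_trans ?_ hse
      rw [le_div_iff₀ (by positivity)]
      have a1 : m * L ^ C * L ^ B ≤ m * L ^ (C + 2 * B) := by
        rw [mul_assoc, ← Real.rpow_add hL0]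
        refine mul_le_mul_of_nonneg_left ?_ hm
        exact Real.rpow_le_rpow_of_exponent_le hL (by linarith)
      refine (a1.trans h).trans ?_
      rw [Real.sqrt_eq_rpow]
      exact Real.rpow_le_rpow_of_exponent_le hx1 (by norm_num)
    · rw [le_div_iff₀ he0]
      calc m * L ^ C * e ≤ x ^ ((3 : ℝ) / 10) * x ^ ((7 : ℝ) / 10) :=
            mul_le_mul (hmL.trans h) h7 he0.le (by positivity)
        _ = x := by
          rw [← Real.rpow_add hx0]
          norm_num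
  rcases le_or_gt e (x ^ ((9 : ℝ) / 10)) with h9 | h9
  · exact Or.inr ⟨h7.le, h9, hmL.trans h⟩
  · -- k = 2
    left
    refine ⟨2, by norm_num, le_max_right _ _, ?_⟩
    have e1 : (2 * 2 - 1 : ℕ) = 3 := rfl
    rw [e1]
    have a1 : m ^ 3 * L ^ C ≤ x ^ ((9 : ℝ) / 10) := by
      have b1 : m ^ 3 * L ^ C ≤ (m * L ^ (C + 2 * B)) ^ 3 := by
        rw [mul_pow]
        refine mul_le_mul_of_nonneg_left ?_ (by positivity)
        rw [← Real.rpow_natCast (L ^ (C + 2 * B)) 3, ← Real.rpow_mul hL0.le]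
        refine Real.rpow_le_rpow_of_exponent_le hL ?_
        push_cast
        linarith
      have b2 : (m * L ^ (C + 2 * B)) ^ 3 ≤ (x ^ ((3 : ℝ) / 10)) ^ 3 :=
        pow_le_pow_left₀ hmL0 h 3
      have b3 : (x ^ ((3 : ℝ) / 10)) ^ 3 = x ^ ((9 : ℝ) / 10) := by
        rw [← Real.rpow_natCast (x ^ ((3 : ℝ) / 10)) 3, ← Real.rpow_mul hx0.le]
        norm_num
      rw [← b3]
      exact b1.trans b2
    refine le_min (a1.trans h9.le) ?_
    rw [le_div_iff₀ he0]
    calc m ^ 3 * L ^ C * e ≤ x ^ ((9 : ℝ) / 10) * x ^ ((11 : ℝ) / 10) :=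
          mul_le_mul a1 h11 he0.le (by positivity)
      _ = x ^ 2 := by
        rw [← Real.rpow_add hx0, ← Real.rpow_natCast x 2]
        norm_num

end Pool.Agent.Lib.CO
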