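import Pool.Agent.Lib.CO.SpecW

/-! MP_00e23e_nt, Lib/CO, module Kcw: the choice of the method (part W). -/

namespace Pool.Agent.Lib.CO

open Finset Pool.Agent.Lib.BV Pool.Agent.Results.MP_00e23e_nt

theorem tKcw : KcwStmt := by
  intro A hA
  refine ⟨⌈2 * A⌉₊ + 1, Nat.le_add_left 1 _, ?_⟩
  intro C B x e m D L hC hB hx hL hD hDm he hse hexA hLB hadm
  have hx0 : 0 < x := by linarith
  have hx1 : 1 ≤ x := by linarith
  have hL0 : 0 < L := by linarith
  have he0 : 0 < e := by linarith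
  have hm1 : 1 ≤ m := hD.trans hDm
  have hD0 : 0 < D := by linarith
  have hm0 : 0 < m := by linarith
  have hmono : L ^ C ≤ L ^ (4 * C) := Real.rpow_le_rpow_of_exponent_le hL (by linarith)
  have hLC0 : 0 < L ^ C := by positivity
  rcases hadm with ⟨k, k1, hk⟩ | ⟨h1, h2⟩
  · left
    by_cases hkK : k ≤ ⌈2 * A⌉₊ + 1
    · refine ⟨k, k1, hkK, le_trans ?_ hk⟩
      exact mul_le_mul_of_nonneg_left hmono (by positivity)
    · have hkK' : ⌈2 * A⌉₊ + 1 ≤ k := by omega
      refine ⟨⌈2 * A⌉₊ + 1, Nat.le_add_left 1 _, le_refl _, ?_⟩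
      have a1 : D ^ (⌈2 * A⌉₊ + 1) * m ^ (⌈2 * A⌉₊ + 1 - 1) * L ^ C ≤
          D ^ k * m ^ (k - 1) * L ^ (4 * C) := by
        refine mul_le_mul (mul_le_mul (pow_le_pow_right₀ hD hkK')
          (pow_le_pow_right₀ hm1 (by omega)) (by positivity) (by positivity)) hmono
          hLC0.le (by positivity)
      have a2 : D ^ (⌈2 * A⌉₊ + 1) * m ^ (⌈2 * A⌉₊ + 1 - 1) * L ^ C ≤ e :=
        a1.trans (hk.trans (min_le_left _ _))
      refine le_min a2 (a2.trans ?_)
      rw [le_div_iff₀ he0]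
      have b1 : e * e ≤ x ^ A * x ^ A := mul_le_mul hexA hexA he0.le (by positivity)
      refine b1.trans ?_
      rw [← Real.rpow_add hx0, ← Real.rpow_natCast x]
      refine Real.rpow_le_rpow_of_exponent_le hx1 ?_
      have c1 : 2 * A ≤ (⌈2 * A⌉₊ : ℝ) := Nat.le_ceil _
      push_cast
      linarith
  · have hw1 : D ^ 3 * m * L ^ C ≤ D ^ 3 * m * L ^ (4 * C) :=
      mul_le_mul_of_nonneg_left hmono (by positivity)
    have hw2 : D * m * e * L ^ C ≤ D * m * e * L ^ (4 * C) :=
      mul_le_mul_of_nonneg_left hmono (by positivity)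
    rcases le_or_gt (x ^ ((7 : ℝ) / 10)) e with h7 | h7
    · exact Or.inr ⟨h7, hw1.trans h1, hw2.trans h2⟩
    · left
      have hx310 : 0 < x ^ ((3 : ℝ) / 10) := by positivity
      have key : D * L ^ C ≤ x ^ ((3 : ℝ) / 10) := by
        have b1 : (D * L ^ C) ^ 4 ≤ (x ^ ((3 : ℝ) / 10)) ^ 4 := by
          have c1 : (D * L ^ C) ^ 4 = D ^ 3 * D * L ^ (4 * C) := by
            rw [mul_pow, ← Real.rpow_natCast (L ^ C) 4, ← Real.rpow_mul hL0.le]
            have : C * ((4 : ℕ) : ℝ) = 4 * C := by push_cast; ring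
            rw [this]
            ring
          have c2 : (x ^ ((3 : ℝ) / 10)) ^ 4 = x ^ ((6 : ℝ) / 5) := by
            rw [← Real.rpow_natCast (x ^ ((3 : ℝ) / 10)) 4, ← Real.rpow_mul hx0.le]
            norm_num
          rw [c1, c2]
          refine le_trans ?_ (h1.trans (min_le_left _ _))
          exact mul_le_mul_of_nonneg_right
            (mul_le_mul_of_nonneg_left hDm (by positivity)) (by positivity)
        exact le_of_pow_le_pow_left₀ (by norm_num) hx310.le b1
      refine ⟨1, le_refl 1, Nat.le_add_left 1 _, ?_⟩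
      have e1 : D ^ 1 * m ^ (1 - 1) * L ^ C = D * L ^ C := by
        rw [pow_one, Nat.sub_self, pow_zero, mul_one]
      rw [e1, pow_one]
      refine le_min (key.trans ?_) (key.trans ?_)
      · refine le_trans ?_ hse
        rw [le_div_iff₀ (by positivity)]
        calc x ^ ((3 : ℝ) / 10) * L ^ B ≤ x ^ ((3 : ℝ) / 10) * x ^ ((1 : ℝ) / 5) :=
              mul_le_mul_of_nonneg_left hLB hx310.le
          _ = Real.sqrt x := by
            rw [← Real.rpow_add hx0, Real.sqrt_eq_rpow]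
            norm_num
      · rw [le_div_iff₀ he0]
        calc x ^ ((3 : ℝ) / 10) * e ≤ x ^ ((3 : ℝ) / 10) * x ^ ((7 : ℝ) / 10) :=
              mul_le_mul_of_nonneg_left h7.le hx310.le
          _ = x := by
            rw [← Real.rpow_add hx0]
            norm_num

end Pool.Agent.Lib.CO
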