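import Pool.Agent.Lib.CO.Spec

/-! MP_00e23e_nt, Lib/CO, module Lrg: all large conductors. -/

namespace Pool.Agent.Lib.CO

open Finset Pool.Agent.Lib.BV Pool.Agent.Results.MP_00e23e_nt

private theorem Lrg_log {x : ℝ} (hx : 3 ≤ x) : 1 ≤ Real.log x := by
  rw [Real.le_log_iff_exp_le (by linarith)]
  have := Real.exp_one_lt_d9
  linarith

private theorem Lrg_ev {B : ℝ} : ∃ x1 : ℝ, ∀ x : ℝ, x1 ≤ x → 3 ≤ x →
    Real.log x ^ B ≤ x ^ ((1 : ℝ) / 4) := by
  have h := (isLittleO_log_rpow_rpow_atTop B (by norm_num : (0 : ℝ) < 1 / 4)).bound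
    (by norm_num : (0 : ℝ) < 1)
  rw [Filter.eventually_atTop] at h
  obtain ⟨a, ha⟩ := h
  refine ⟨a, fun x hx hx3 => ?_⟩
  have h1 := ha x hx
  have h2 := Lrg_log hx3
  rw [one_mul, Real.norm_of_nonneg (by positivity), Real.norm_of_nonneg (by positivity)] at h1
  exact h1

theorem tLrg (h1 : OrhStmt) (h2 : KchStmt) (h3 : RtkStmt) : LrgStmt := by
  classical
  intro A B U hA hB hU
  obtain ⟨K, hK1, hK⟩ := h2 A hA
  obtain ⟨C1, hC1, hR⟩ := h3 A K hA hK1
  obtain ⟨x1, hx1⟩ := Lrg_ev (B := B)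
  have hK0 : (0 : ℝ) < K := by exact_mod_cast hK1
  set C' : ℝ := 2 * K * (U + 5) with hC'
  have hC'0 : 0 ≤ C' := by positivity
  refine ⟨C' + 2 * B + (2 * A + 1) * K * C1, max x1 3, by positivity, le_max_right _ _, ?_⟩
  intro x S H y hx hS
  have hx3 : 3 ≤ x := le_trans (le_max_right _ _) hx
  have hxx1 : x1 ≤ x := le_trans (le_max_left _ _) hx
  have hL1 := Lrg_log hx3
  have hLB := hx1 x hxx1 hx3
  set L := Real.log x with hL
  have hL0 : 0 < L := by linarith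
  have hx0 : 0 < x := by linarith
  -- the choice of k
  have hκ : ∀ d e : ℕ, ∃ k : ℕ, 1 ≤ k ∧ k ≤ K ∧ (d ∈ S → e ∣ d → Real.sqrt x / L ^ B < e →
      ((H d).index : ℝ) ^ (2 * k - 1) * L ^ C' ≤ min (e : ℝ) (x ^ k / e)) := by
    intro d e
    by_cases hde : d ∈ S ∧ e ∣ d ∧ Real.sqrt x / L ^ B < e
    · obtain ⟨a1, a2, a3⟩ := hde
      obtain ⟨b1, b2, b3, b4, b5⟩ := hS d a1
      have e1 : 1 ≤ e := Nat.pos_of_dvd_of_pos a2 b1
      have e2 : (e : ℝ) ≤ x ^ A := by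
        have : (e : ℝ) ≤ d := by exact_mod_cast Nat.le_of_dvd b1 a2
        linarith
      have e3 : ((H d).index : ℝ) * L ^ (C' + 2 * B) ≤ indexBound x e := by
        refine le_trans ?_ (b5 e a2)
        refine mul_le_mul_of_nonneg_left ?_ (Nat.cast_nonneg _)
        refine Real.rpow_le_rpow_of_exponent_le hL1 ?_
        have : 0 ≤ (2 * A + 1) * K * C1 := by positivity
        linarith
      obtain ⟨k, k1, k2, k3⟩ := hK C' B x e (H d).index L hC'0 hB.le hx3 hL1 (Nat.cast_nonneg _)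
        (by exact_mod_cast e1) a3.le e2 hLB e3
      exact ⟨k, k1, k2, fun _ _ _ => k3⟩
    · exact ⟨1, le_refl 1, hK1, fun a1 a2 a3 => absurd ⟨a1, a2, a3⟩ hde⟩
  choose κ hκ1 hκ2 hκ3 using hκ
  set Jm : ℕ := ⌊2 * A * L⌋₊ + 1 with hJm
  set P : Finset (ℕ × ℕ) := (range Jm) ×ˢ (Icc 1 K) with hP
  set F : (d : ℕ) → Finset (DirichletCharacter ℂ d) := fun d => (XX d (H d)).filter
    (fun χ => 1 < χ.conductor ∧ Real.sqrt x / L ^ B < (χ.conductor : ℝ)) with hF
  have hFm : ∀ d, ∀ χ ∈ F d, 1 < χ.conductor ∧ Real.sqrt x / L ^ B < (χ.conductor : ℝ) :=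
    fun d χ hχ => (Finset.mem_filter.1 hχ).2
  let g : (d : ℕ) → DirichletCharacter ℂ d → ℕ × ℕ := fun d χ =>
    (Nat.log 2 (χ.conductor - 1), κ d χ.conductor)
  have hj : ∀ d, ∀ χ ∈ F d, 2 ^ (Nat.log 2 (χ.conductor - 1)) < χ.conductor ∧
      χ.conductor ≤ 2 * 2 ^ (Nat.log 2 (χ.conductor - 1)) := by
    intro d χ hχ
    have e1 := (hFm d χ hχ).1
    have e2 := Nat.pow_log_le_self 2 (by omega : χ.conductor - 1 ≠ 0)
    have e3 := Nat.lt_pow_succ_log_self (by norm_num : 1 < 2) (χ.conductor - 1)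
    rw [pow_succ] at e3
    constructor
    · omega
    · omega
  have hmaps : ∀ d ∈ S, ∀ χ ∈ F d, g d χ ∈ P := by
    intro d hd χ hχ
    obtain ⟨b1, b2, b3, b4, b5⟩ := hS d hd
    rw [hP, Finset.mem_product, Finset.mem_range, Finset.mem_Icc]
    refine ⟨?_, hκ1 _ _, hκ2 _ _⟩
    have e1 := (hj d χ hχ).1
    have e2 : χ.conductor ≤ d := Nat.le_of_dvd b1 χ.conductor_dvd_level
    have e3 : (2 : ℝ) ^ (Nat.log 2 (χ.conductor - 1)) ≤ x ^ A := by
      have a1 : ((2 ^ (Nat.log 2 (χ.conductor - 1)) : ℕ) : ℝ) ≤ (d : ℝ) := by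
        exact_mod_cast e1.le.trans e2
      push_cast at a1
      linarith
    have e4 := Real.log_le_log (by positivity) e3
    rw [Real.log_pow, Real.log_rpow hx0, ← hL] at e4
    have e5 : (1 / 2 : ℝ) ≤ Real.log 2 := by
      have := Real.log_two_gt_d9
      linarith
    have e6 : ((Nat.log 2 (χ.conductor - 1) : ℕ) : ℝ) * (1 / 2) ≤
        ((Nat.log 2 (χ.conductor - 1) : ℕ) : ℝ) * Real.log 2 :=
      mul_le_mul_of_nonneg_left e5 (Nat.cast_nonneg _)
    change Nat.log 2 (χ.conductor - 1) < Jm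
    rw [hJm, Nat.lt_succ_iff]
    refine Nat.le_floor ?_
    linarith
  have hcard : ∀ d ∈ S, (XX d (H d)).card = (H d).index := fun d hd => (h1 d (H d) (hS d hd).1).1
  -- one block
  have hblock : ∀ jk ∈ P, ∑ d ∈ S, (1 / (d.totient : ℝ)) *
      ∑ χ ∈ (F d).filter (fun χ => g d χ = jk), ‖PC χ.primitiveCharacter ⌊y d⌋₊‖ ≤
      C1 * (x * L ^ (3 - C' / (2 * K))) := by
    rintro ⟨j, k⟩ hjk
    rw [hP, Finset.mem_product, Finset.mem_range, Finset.mem_Icc] at hjk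
    simp only at hjk
    refine hR C' x k (2 ^ j) S (fun d => (F d).filter (fun χ => g d χ = (j, k))) y hC'0 hx3
      hjk.2.1 hjk.2.2 Nat.one_le_two_pow ?_ ?_
    · intro d hd
      obtain ⟨b1, b2, b3, b4, b5⟩ := hS d hd
      exact ⟨b1, b2, by linarith, b4⟩
    · intro d hd χ hχ
      rw [Finset.mem_filter] at hχ
      obtain ⟨c1, c2⟩ := hχ
      have c3 : Nat.log 2 (χ.conductor - 1) = j := congrArg Prod.fst c2
      have c4 : κ d χ.conductor = k := congrArg Prod.snd c2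
      have c5 := hj d χ c1
      rw [c3] at c5
      refine ⟨c5.1, c5.2, ?_⟩
      have c6 := hκ3 d χ.conductor hd χ.conductor_dvd_level (hFm d χ c1).2
      rw [c4] at c6
      refine le_trans ?_ c6
      refine mul_le_mul_of_nonneg_right ?_ (by positivity)
      refine pow_le_pow_left₀ (Nat.cast_nonneg _) ?_ _
      rw [← hcard d hd]
      exact_mod_cast Finset.card_le_card
        ((Finset.filter_subset _ _).trans (Finset.filter_subset _ _))
  have htotal : ∑ d ∈ S, (1 / (d.totient : ℝ)) *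
      ∑ χ ∈ F d, ‖PC χ.primitiveCharacter ⌊y d⌋₊‖ ≤
      (Jm * K : ℝ) * (C1 * (x * L ^ (3 - C' / (2 * K)))) := by
    have a1 : ∑ d ∈ S, (1 / (d.totient : ℝ)) * ∑ χ ∈ F d, ‖PC χ.primitiveCharacter ⌊y d⌋₊‖ =
        ∑ jk ∈ P, ∑ d ∈ S, (1 / (d.totient : ℝ)) *
          ∑ χ ∈ (F d).filter (fun χ => g d χ = jk), ‖PC χ.primitiveCharacter ⌊y d⌋₊‖ := by
      rw [Finset.sum_comm]
      refine Finset.sum_congr rfl fun d hd => ?_
      rw [← Finset.mul_sum]
      congr 1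
      exact (Finset.sum_fiberwise_of_maps_to (hmaps d hd) _).symm
    rw [a1]
    refine (Finset.sum_le_sum hblock).trans (le_of_eq ?_)
    rw [Finset.sum_const, nsmul_eq_mul, hP, Finset.card_product, Finset.card_range, Nat.card_Icc]
    push_cast
    simp
  refine htotal.trans ?_
  have hexp : 3 - C' / (2 * K) = -(U + 2) := by
    rw [hC']
    field_simp
    ring
  rw [hexp]
  have hJm' : (Jm : ℝ) ≤ (2 * A + 1) * L := by
    rw [hJm]
    push_cast
    have := Nat.floor_le (by positivity : 0 ≤ 2 * A * L)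
    linarith
  have hLe : L * L ^ (-(U + 2)) ≤ (L ^ U)⁻¹ := by
    have a1 : L * L ^ (-(U + 2)) = L ^ (1 + -(U + 2)) := by
      rw [Real.rpow_add hL0, Real.rpow_one]
    rw [a1, ← Real.rpow_neg hL0.le]
    exact Real.rpow_le_rpow_of_exponent_le hL1 (by linarith)
  calc (Jm * K : ℝ) * (C1 * (x * L ^ (-(U + 2))))
      ≤ ((2 * A + 1) * L * K) * (C1 * (x * L ^ (-(U + 2)))) := by gcongr
    _ = ((2 * A + 1) * K * C1) * (x * (L * L ^ (-(U + 2)))) := by ring
    _ ≤ ((2 * A + 1) * K * C1) * (x * (L ^ U)⁻¹) := by gcongr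
    _ ≤ (C' + 2 * B + (2 * A + 1) * K * C1) * (x / L ^ U) := by
      rw [← div_eq_mul_inv]
      refine mul_le_mul_of_nonneg_right ?_ (by positivity)
      linarith

end Pool.Agent.Lib.CO
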