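import Pool.Agent.Lib.CO.SpecV

/-! MP_00e23e_nt, Lib/CO, module Lrv: all large conductors, form with indexBd. -/

namespace Pool.Agent.Lib.CO

open Finset Pool.Agent.Lib.BV Pool.Agent.Results.MP_00e23e_nt

private theorem Lrv_log {x : ℝ} (hx : 3 ≤ x) : 1 ≤ Real.log x := by
  rw [Real.le_log_iff_exp_le (by linarith)]
  have := Real.exp_one_lt_d9
  linarith

private theorem Lrv_ev {B : ℝ} : ∃ x1 : ℝ, ∀ x : ℝ, x1 ≤ x → 3 ≤ x →
    Real.log x ^ B ≤ x ^ ((1 : ℝ) / 4) := by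
  have h := (isLittleO_log_rpow_rpow_atTop B (by norm_num : (0 : ℝ) < 1 / 4)).bound
    (by norm_num : (0 : ℝ) < 1)
  rw [Filter.eventually_atTop] at h
  obtain ⟨a, ha⟩ := h
  refine ⟨a, fun x hx hx3 => ?_⟩
  have h1 := ha x hx
  have h2 := Lrv_log hx3
  rw [one_mul, Real.norm_of_nonneg (by positivity), Real.norm_of_nonneg (by positivity)] at h1
  exact h1

/-- the bound for the middle class -/
private theorem Lrv_mid {x L C' c U E : ℝ} (hx : 3 ≤ x) (hL : 1 ≤ L) (hC' : 0 ≤ C')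
    (hE0 : x ^ ((7 : ℝ) / 10) / 2 ≤ E) (hE1 : E ≤ x ^ ((9 : ℝ) / 10))
    (hc : c + U + 5 ≤ 2 / 3 * C') :
    L ^ c * ((x ^ ((3 : ℝ) / 10) * (L ^ C')⁻¹) ^ ((2 : ℝ) / 3) * x ^ ((1 : ℝ) / 2) *
        (x ^ 3 / E ^ 2 + x ^ ((9 : ℝ) / 5) + E ^ 2) ^ ((1 : ℝ) / 6) +
      (x ^ ((3 : ℝ) / 10) * (L ^ C')⁻¹) * (x ^ ((1 : ℝ) / 4) * E ^ ((1 : ℝ) / 2) +
        x ^ ((1 : ℝ) / 2))) ≤ 8 * (x * L ^ (-(U + 2))) := by
  have hx0 : 0 < x := by linarith
  have hx1 : 1 ≤ x := by linarith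
  have hL0 : 0 < L := by linarith
  have h7 : 0 < x ^ ((7 : ℝ) / 10) := by positivity
  have hE : 0 < E := by linarith
  have a1 : x ^ 3 / E ^ 2 ≤ 4 * x ^ ((9 : ℝ) / 5) := by
    rw [div_le_iff₀ (by positivity)]
    have b1 : (x ^ ((7 : ℝ) / 10) / 2) ^ 2 ≤ E ^ 2 := pow_le_pow_left₀ (by positivity) hE0 2
    have b2 : (x ^ ((7 : ℝ) / 10) / 2) ^ 2 = x ^ ((7 : ℝ) / 5) / 4 := by
      rw [div_pow, ← Real.rpow_natCast (x ^ ((7 : ℝ) / 10)) 2, ← Real.rpow_mul hx0.le]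
      norm_num
    rw [b2] at b1
    have b3 : x ^ 3 ≤ x ^ ((9 : ℝ) / 5) * x ^ ((7 : ℝ) / 5) := by
      rw [← Real.rpow_add hx0, ← Real.rpow_natCast x 3]
      exact Real.rpow_le_rpow_of_exponent_le hx1 (by norm_num)
    have b4 : 0 < x ^ ((9 : ℝ) / 5) := by positivity
    nlinarith
  have a2 : E ^ 2 ≤ x ^ ((9 : ℝ) / 5) := by
    have b1 : E ^ 2 ≤ (x ^ ((9 : ℝ) / 10)) ^ 2 := pow_le_pow_left₀ hE.le hE1 2
    have b2 : (x ^ ((9 : ℝ) / 10)) ^ 2 = x ^ ((9 : ℝ) / 5) := by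
      rw [← Real.rpow_natCast (x ^ ((9 : ℝ) / 10)) 2, ← Real.rpow_mul hx0.le]
      norm_num
    rwa [b2] at b1
  have a4 : (x ^ 3 / E ^ 2 + x ^ ((9 : ℝ) / 5) + E ^ 2) ^ ((1 : ℝ) / 6) ≤
      6 * x ^ ((3 : ℝ) / 10) := by
    have b1 : (x ^ 3 / E ^ 2 + x ^ ((9 : ℝ) / 5) + E ^ 2) ^ ((1 : ℝ) / 6) ≤
        (6 * x ^ ((9 : ℝ) / 5)) ^ ((1 : ℝ) / 6) := by
      refine Real.rpow_le_rpow (by positivity) (by linarith) (by norm_num)
    refine b1.trans ?_
    rw [Real.mul_rpow (by norm_num) (by positivity), ← Real.rpow_mul hx0.le]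
    have b2 : (6 : ℝ) ^ ((1 : ℝ) / 6) ≤ 6 := by
      have := Real.rpow_le_rpow_of_exponent_le (by norm_num : (1 : ℝ) ≤ 6)
        (by norm_num : (1 : ℝ) / 6 ≤ 1)
      rwa [Real.rpow_one] at this
    have b3 : (9 : ℝ) / 5 * (1 / 6) = 3 / 10 := by norm_num
    rw [b3]
    exact mul_le_mul_of_nonneg_right b2 (by positivity)
  have a5 : (x ^ ((3 : ℝ) / 10) * (L ^ C')⁻¹) ^ ((2 : ℝ) / 3) =
      x ^ ((1 : ℝ) / 5) * L ^ (-(2 / 3 * C')) := by
    rw [Real.mul_rpow (by positivity) (by positivity), ← Real.rpow_mul hx0.le,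
      ← Real.rpow_neg hL0.le, ← Real.rpow_mul hL0.le]
    congr 1
    · norm_num
    · ring_nf
  have a6 : x ^ ((1 : ℝ) / 5) * x ^ ((1 : ℝ) / 2) * x ^ ((3 : ℝ) / 10) = x := by
    rw [← Real.rpow_add hx0, ← Real.rpow_add hx0]
    norm_num
  have a7 : E ^ ((1 : ℝ) / 2) ≤ x ^ ((9 : ℝ) / 20) := by
    have b1 : E ^ ((1 : ℝ) / 2) ≤ (x ^ ((9 : ℝ) / 10)) ^ ((1 : ℝ) / 2) :=
      Real.rpow_le_rpow hE.le hE1 (by norm_num)
    rw [← Real.rpow_mul hx0.le] at b1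
    norm_num at b1 ⊢
    exact b1
  have a8 : x ^ ((3 : ℝ) / 10) * (x ^ ((1 : ℝ) / 4) * x ^ ((9 : ℝ) / 20)) = x := by
    rw [← Real.rpow_add hx0, ← Real.rpow_add hx0]
    norm_num
  have a9 : x ^ ((3 : ℝ) / 10) * x ^ ((1 : ℝ) / 2) ≤ x := by
    rw [← Real.rpow_add hx0]
    have := Real.rpow_le_rpow_of_exponent_le hx1 (by norm_num : (3 : ℝ) / 10 + 1 / 2 ≤ 1)
    rwa [Real.rpow_one] at this
  have a10 : (L ^ C')⁻¹ ≤ L ^ (-(2 / 3 * C')) := by
    rw [← Real.rpow_neg hL0.le]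
    exact Real.rpow_le_rpow_of_exponent_le hL (by linarith)
  set W : ℝ := L ^ (-(2 / 3 * C')) with hW
  have hW0 : 0 < W := by positivity
  have f1 : (x ^ ((3 : ℝ) / 10) * (L ^ C')⁻¹) ^ ((2 : ℝ) / 3) * x ^ ((1 : ℝ) / 2) *
      (x ^ 3 / E ^ 2 + x ^ ((9 : ℝ) / 5) + E ^ 2) ^ ((1 : ℝ) / 6) ≤ 6 * (x * W) := by
    rw [a5]
    calc x ^ ((1 : ℝ) / 5) * W * x ^ ((1 : ℝ) / 2) *
        (x ^ 3 / E ^ 2 + x ^ ((9 : ℝ) / 5) + E ^ 2) ^ ((1 : ℝ) / 6)
        ≤ x ^ ((1 : ℝ) / 5) * W * x ^ ((1 : ℝ) / 2) * (6 * x ^ ((3 : ℝ) / 10)) :=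
          mul_le_mul_of_nonneg_left a4 (by positivity)
      _ = 6 * (x ^ ((1 : ℝ) / 5) * x ^ ((1 : ℝ) / 2) * x ^ ((3 : ℝ) / 10)) * W := by ring
      _ = 6 * (x * W) := by rw [a6]; ring
  have f2 : (x ^ ((3 : ℝ) / 10) * (L ^ C')⁻¹) * (x ^ ((1 : ℝ) / 4) * E ^ ((1 : ℝ) / 2) +
      x ^ ((1 : ℝ) / 2)) ≤ 2 * (x * W) := by
    calc (x ^ ((3 : ℝ) / 10) * (L ^ C')⁻¹) * (x ^ ((1 : ℝ) / 4) * E ^ ((1 : ℝ) / 2) +
        x ^ ((1 : ℝ) / 2))
        ≤ (x ^ ((3 : ℝ) / 10) * W) * (x ^ ((1 : ℝ) / 4) * x ^ ((9 : ℝ) / 20) +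
          x ^ ((1 : ℝ) / 2)) := by gcongr
      _ = (x ^ ((3 : ℝ) / 10) * (x ^ ((1 : ℝ) / 4) * x ^ ((9 : ℝ) / 20)) +
          x ^ ((3 : ℝ) / 10) * x ^ ((1 : ℝ) / 2)) * W := by ring
      _ ≤ (x + x) * W := by
          refine mul_le_mul_of_nonneg_right ?_ hW0.le
          rw [a8]
          linarith
      _ = 2 * (x * W) := by ring
  have f3 : L ^ c * W ≤ L ^ (-(U + 2)) := by
    rw [hW, ← Real.rpow_add hL0]
    exact Real.rpow_le_rpow_of_exponent_le hL (by linarith)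
  have hLc : 0 < L ^ c := by positivity
  calc L ^ c * ((x ^ ((3 : ℝ) / 10) * (L ^ C')⁻¹) ^ ((2 : ℝ) / 3) * x ^ ((1 : ℝ) / 2) *
        (x ^ 3 / E ^ 2 + x ^ ((9 : ℝ) / 5) + E ^ 2) ^ ((1 : ℝ) / 6) +
      (x ^ ((3 : ℝ) / 10) * (L ^ C')⁻¹) * (x ^ ((1 : ℝ) / 4) * E ^ ((1 : ℝ) / 2) +
        x ^ ((1 : ℝ) / 2)))
      ≤ L ^ c * (6 * (x * W) + 2 * (x * W)) :=
        mul_le_mul_of_nonneg_left (add_le_add f1 f2) hLc.le
    _ = 8 * (x * (L ^ c * W)) := by ring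
    _ ≤ 8 * (x * L ^ (-(U + 2))) := by gcongr

theorem tLrv (h1 : OrhStmt) (h2 : KcvStmt) (h3 : RtkStmt) (h4 : MidStmt) : LrvStmt := by
  classical
  intro A B U hA hB hU
  obtain ⟨K, hK1, hK⟩ := h2 A hA
  obtain ⟨C1, hC1, hR⟩ := h3 A K hA hK1
  obtain ⟨c2, C2, hc2, hC2, hM⟩ := h4 A hA
  obtain ⟨x1, hx1⟩ := Lrv_ev (B := B)
  have hK0 : (0 : ℝ) < K := by exact_mod_cast hK1
  obtain ⟨C', hC'1, hC'2⟩ : ∃ C' : ℝ, 2 * K * (U + 5) ≤ C' ∧ 3 / 2 * (c2 + U + 5) ≤ C' :=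
    ⟨max (2 * K * (U + 5)) (3 / 2 * (c2 + U + 5)), le_max_left _ _, le_max_right _ _⟩
  have hC'0 : 0 < C' := by
    have : 0 < 2 * K * (U + 5) := by positivity
    linarith
  have hC20 : 0 ≤ (2 * A + 1) * (K + 1) * (C1 + 8 * C2) := by positivity
  refine ⟨C' + 2 * B + (2 * A + 1) * (K + 1) * (C1 + 8 * C2), max x1 3, by positivity,
    le_max_right _ _, ?_⟩
  intro x S H y hx hS
  have hx3 : 3 ≤ x := le_trans (le_max_right _ _) hx
  have hxx1 : x1 ≤ x := le_trans (le_max_left _ _) hx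
  have hL1 := Lrv_log hx3
  have hLB := hx1 x hxx1 hx3
  set L := Real.log x with hL
  have hL0 : 0 < L := by linarith
  have hx0 : 0 < x := by linarith
  -- the choice of k
  have hκ : ∀ d e : ℕ, ∃ k : ℕ, k ≤ K ∧ (1 ≤ k → d ∈ S → e ∣ d → Real.sqrt x / L ^ B < e →
      ((H d).index : ℝ) ^ (2 * k - 1) * L ^ C' ≤ min (e : ℝ) (x ^ k / e)) ∧
      (k = 0 → d ∈ S → e ∣ d → Real.sqrt x / L ^ B < e →
        x ^ ((7 : ℝ) / 10) ≤ e ∧ (e : ℝ) ≤ x ^ ((9 : ℝ) / 10) ∧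
          ((H d).index : ℝ) * L ^ C' ≤ x ^ ((3 : ℝ) / 10)) := by
    intro d e
    by_cases hde : d ∈ S ∧ e ∣ d ∧ Real.sqrt x / L ^ B < e
    · obtain ⟨a1, a2, a3⟩ := hde
      obtain ⟨b1, b2, b3, b4, b5⟩ := hS d a1
      have e1 : 1 ≤ e := Nat.pos_of_dvd_of_pos a2 b1
      have e2 : (e : ℝ) ≤ x ^ A := by
        have : (e : ℝ) ≤ d := by exact_mod_cast Nat.le_of_dvd b1 a2
        linarith
      have e3 : ((H d).index : ℝ) * L ^ (C' + 2 * B) ≤ indexBd x e := by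
        refine le_trans ?_ (b5 e a2)
        refine mul_le_mul_of_nonneg_left ?_ (Nat.cast_nonneg _)
        refine Real.rpow_le_rpow_of_exponent_le hL1 ?_
        linarith
      rcases hK C' B x e (H d).index L hC'0.le hB.le hx3 hL1 (Nat.cast_nonneg _)
        (by exact_mod_cast e1) a3.le e2 hLB e3 with ⟨k, k1, k2, k3⟩ | ⟨k1, k2, k3⟩
      · exact ⟨k, k2, fun _ _ _ _ => k3, fun k0 => absurd k0 (by omega)⟩
      · exact ⟨0, Nat.zero_le _, fun k0 => absurd k0 (by omega), fun _ _ _ _ => ⟨k1, k2, k3⟩⟩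
    · exact ⟨0, Nat.zero_le _, fun k0 => absurd k0 (by omega),
        fun _ a1 a2 a3 => absurd ⟨a1, a2, a3⟩ hde⟩
  choose κ hκ2 hκ3 hκ4 using hκ
  set Jm : ℕ := ⌊2 * A * L⌋₊ + 1 with hJm
  set P : Finset (ℕ × ℕ) := (range Jm) ×ˢ (range (K + 1)) with hP
  set F : (d : ℕ) → Finset (DirichletCharacter ℂ d) := fun d => (XX d (H d)).filter
    (fun χ => 1 < χ.conductor ∧ Real.sqrt x / L ^ B < (χ.conductor : ℝ)) with hF
  have hFm : ∀ d, ∀ χ ∈ F d, 1 < χ.conductor ∧ Real.sqrt x / L ^ B < (χ.conductor : ℝ) :=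
    fun d χ hχ => (Finset.mem_filter.1 hχ).2
  let g : (d : ℕ) → DirichletCharacter ℂ d → ℕ × ℕ := fun d χ =>
    (Nat.log 2 (χ.conductor - 1), κ d χ.conductor)
  have hj : ∀ d, ∀ χ ∈ F d, 2 ^ (Nat.log 2 (χ.conductor - 1)) < χ.conductor ∧
      χ.conductor ≤ 2 * 2 ^ (Nat.log 2 (χ.conductor - 1)) := by
    intro d χ hχ
    have e1 := (hFm d χ hχ).1
    have e2 := Nat.pow_log_le_self 2 (by omega : χ.conductor - 1 ≠ 0)
    have e3 := Nat.lt_pow_succ_log_self (by norm_num : 1 < 2) (χ.conductor - 1)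
    rw [pow_succ] at e3
    constructor
    · omega
    · omega
  have hmaps : ∀ d ∈ S, ∀ χ ∈ F d, g d χ ∈ P := by
    intro d hd χ hχ
    obtain ⟨b1, b2, b3, b4, b5⟩ := hS d hd
    rw [hP, Finset.mem_product, Finset.mem_range, Finset.mem_range]
    refine ⟨?_, Nat.lt_succ_of_le (hκ2 _ _)⟩
    have e1 := (hj d χ hχ).1
    have e2 : χ.conductor ≤ d := Nat.le_of_dvd b1 χ.conductor_dvd_level
    have e3 : (2 : ℝ) ^ (Nat.log 2 (χ.conductor - 1)) ≤ x ^ A := by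
      have a1 : ((2 ^ (Nat.log 2 (χ.conductor - 1)) : ℕ) : ℝ) ≤ (d : ℝ) := by
        exact_mod_cast e1.le.trans e2
      push_cast at a1
      linarith
    have e4 := Real.log_le_log (by positivity) e3
    rw [Real.log_pow, Real.log_rpow hx0, ← hL] at e4
    have e5 : (1 / 2 : ℝ) ≤ Real.log 2 := by
      have := Real.log_two_gt_d9
      linarith
    have e6 : ((Nat.log 2 (χ.conductor - 1) : ℕ) : ℝ) * (1 / 2) ≤
        ((Nat.log 2 (χ.conductor - 1) : ℕ) : ℝ) * Real.log 2 :=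
      mul_le_mul_of_nonneg_left e5 (Nat.cast_nonneg _)
    change Nat.log 2 (χ.conductor - 1) < Jm
    rw [hJm, Nat.lt_succ_iff]
    refine Nat.le_floor ?_
    linarith
  have hcard : ∀ d ∈ S, (XX d (H d)).card = (H d).index := fun d hd => (h1 d (H d) (hS d hd).1).1
  -- one block
  have hcard2 : ∀ (jk : ℕ × ℕ), ∀ d ∈ S,
      (((F d).filter (fun χ => g d χ = jk)).card : ℝ) ≤ ((H d).index : ℝ) := by
    intro jk d hd
    rw [← hcard d hd]
    exact_mod_cast Finset.card_le_card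
      ((Finset.filter_subset _ _).trans (Finset.filter_subset _ _))
  have hblock : ∀ jk ∈ P, ∑ d ∈ S, (1 / (d.totient : ℝ)) *
      ∑ χ ∈ (F d).filter (fun χ => g d χ = jk), ‖PC χ.primitiveCharacter ⌊y d⌋₊‖ ≤
      (C1 + 8 * C2) * (x * L ^ (-(U + 2))) := by
    rintro ⟨j, k⟩ hjk
    rw [hP, Finset.mem_product, Finset.mem_range, Finset.mem_range] at hjk
    simp only at hjk
    have hxL : 0 < x * L ^ (-(U + 2)) := by positivity
    rcases Nat.eq_zero_or_pos k with hk0 | hk0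
    · -- the middle class
      subst hk0
      by_cases hemp : ∀ d ∈ S, (F d).filter (fun χ => g d χ = (j, 0)) = ∅
      · have z1 : ∑ d ∈ S, (1 / (d.totient : ℝ)) *
            ∑ χ ∈ (F d).filter (fun χ => g d χ = (j, 0)), ‖PC χ.primitiveCharacter ⌊y d⌋₊‖ = 0 := by
          refine Finset.sum_eq_zero fun d hd => ?_
          rw [hemp d hd, Finset.sum_empty, mul_zero]
        rw [z1]
        positivity
      · push Not at hemp
        obtain ⟨d0, hd0, hne⟩ := hemp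
        obtain ⟨χ0, hχ0⟩ := hne
        have key : ∀ d ∈ S, ∀ χ ∈ (F d).filter (fun χ => g d χ = (j, 0)),
            2 ^ j < χ.conductor ∧ χ.conductor ≤ 2 * 2 ^ j ∧ x ^ ((7 : ℝ) / 10) ≤ χ.conductor ∧
            (χ.conductor : ℝ) ≤ x ^ ((9 : ℝ) / 10) ∧
            ((H d).index : ℝ) * L ^ C' ≤ x ^ ((3 : ℝ) / 10) := by
          intro d hd χ hχ
          rw [Finset.mem_filter] at hχ
          obtain ⟨c1, c2⟩ := hχ
          have c3 : Nat.log 2 (χ.conductor - 1) = j := congrArg Prod.fst c2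
          have c4 : κ d χ.conductor = 0 := congrArg Prod.snd c2
          have c5 := hj d χ c1
          rw [c3] at c5
          have c6 := hκ4 d χ.conductor c4 hd χ.conductor_dvd_level (hFm d χ c1).2
          exact ⟨c5.1, c5.2, c6.1, c6.2.1, c6.2.2⟩
        obtain ⟨t1, t2, t3, t4, t5⟩ := key d0 hd0 χ0 hχ0
        have hE1 : ((2 ^ j : ℕ) : ℝ) ≤ x ^ ((9 : ℝ) / 10) := by
          have : ((2 ^ j : ℕ) : ℝ) ≤ (χ0.conductor : ℝ) := by exact_mod_cast t1.le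
          linarith
        have hE0 : x ^ ((7 : ℝ) / 10) / 2 ≤ ((2 ^ j : ℕ) : ℝ) := by
          have : (χ0.conductor : ℝ) ≤ 2 * ((2 ^ j : ℕ) : ℝ) := by exact_mod_cast t2
          linarith
        have hLC : 0 < L ^ C' := by positivity
        have hmid := hM x (x ^ ((3 : ℝ) / 10) * (L ^ C')⁻¹) (2 ^ j) S
          (fun d => (F d).filter (fun χ => g d χ = (j, 0))) y hx3 (by positivity)
          Nat.one_le_two_pow
          (fun d hd => by
            obtain ⟨b1, b2, b3, b4, b5⟩ := hS d hd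
            exact ⟨b1, b2, by linarith, b4⟩)
          (fun d hd χ hχ => ⟨(key d hd χ hχ).1, (key d hd χ hχ).2.1⟩)
          (fun d hd => by
            rcases Finset.eq_empty_or_nonempty ((F d).filter (fun χ => g d χ = (j, 0))) with
              he | ⟨χ, hχ⟩
            · simp only [he, Finset.card_empty, Nat.cast_zero]
              positivity
            · have u1 := (key d hd χ hχ).2.2.2.2
              have u2 := hcard2 (j, 0) d hd
              rw [← div_eq_mul_inv, le_div_iff₀ hLC]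
              exact (mul_le_mul_of_nonneg_right u2 hLC.le).trans u1)
        refine hmid.trans ?_
        rw [← hL]
        have hfin := Lrv_mid (x := x) (L := L) (C' := C') (c := c2) (U := U)
          (E := ((2 ^ j : ℕ) : ℝ)) hx3 hL1 hC'0.le hE0 hE1 (by linarith)
        rw [mul_assoc]
        refine (mul_le_mul_of_nonneg_left hfin hC2.le).trans ?_
        have : 0 ≤ C1 * (x * L ^ (-(U + 2))) := by positivity
        linarith
    · have hb : ∑ d ∈ S, (1 / (d.totient : ℝ)) *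
          ∑ χ ∈ (F d).filter (fun χ => g d χ = (j, k)), ‖PC χ.primitiveCharacter ⌊y d⌋₊‖ ≤
          C1 * (x * L ^ (3 - C' / (2 * K))) := by
        refine hR C' x k (2 ^ j) S (fun d => (F d).filter (fun χ => g d χ = (j, k))) y hC'0.le hx3
          hk0 (by omega) Nat.one_le_two_pow ?_ ?_
        · intro d hd
          obtain ⟨b1, b2, b3, b4, b5⟩ := hS d hd
          exact ⟨b1, b2, by linarith, b4⟩
        · intro d hd χ hχ
          rw [Finset.mem_filter] at hχ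
          obtain ⟨c1, c2⟩ := hχ
          have c3 : Nat.log 2 (χ.conductor - 1) = j := congrArg Prod.fst c2
          have c4 : κ d χ.conductor = k := congrArg Prod.snd c2
          have c5 := hj d χ c1
          rw [c3] at c5
          refine ⟨c5.1, c5.2, ?_⟩
          have c6 := hκ3 d χ.conductor (by rw [c4]; exact hk0) hd χ.conductor_dvd_level
            (hFm d χ c1).2
          rw [c4] at c6
          refine le_trans ?_ c6
          refine mul_le_mul_of_nonneg_right ?_ (by positivity)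
          exact pow_le_pow_left₀ (Nat.cast_nonneg _) (hcard2 (j, k) d hd) _
      refine hb.trans ?_
      have e1 : 3 - C' / (2 * K) ≤ -(U + 2) := by
        have : U + 5 ≤ C' / (2 * K) := by
          rw [le_div_iff₀ (by positivity)]
          linarith
        linarith
      have e2 : L ^ (3 - C' / (2 * K)) ≤ L ^ (-(U + 2)) :=
        Real.rpow_le_rpow_of_exponent_le hL1 e1
      calc C1 * (x * L ^ (3 - C' / (2 * K))) ≤ C1 * (x * L ^ (-(U + 2))) := by gcongr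
        _ ≤ (C1 + 8 * C2) * (x * L ^ (-(U + 2))) := by
          refine mul_le_mul_of_nonneg_right ?_ hxL.le
          linarith
  have htotal : ∑ d ∈ S, (1 / (d.totient : ℝ)) *
      ∑ χ ∈ F d, ‖PC χ.primitiveCharacter ⌊y d⌋₊‖ ≤
      (Jm * (K + 1) : ℝ) * ((C1 + 8 * C2) * (x * L ^ (-(U + 2)))) := by
    have a1 : ∑ d ∈ S, (1 / (d.totient : ℝ)) * ∑ χ ∈ F d, ‖PC χ.primitiveCharacter ⌊y d⌋₊‖ =
        ∑ jk ∈ P, ∑ d ∈ S, (1 / (d.totient : ℝ)) *
          ∑ χ ∈ (F d).filter (fun χ => g d χ = jk), ‖PC χ.primitiveCharacter ⌊y d⌋₊‖ := by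
      rw [Finset.sum_comm]
      refine Finset.sum_congr rfl fun d hd => ?_
      rw [← Finset.mul_sum]
      congr 1
      exact (Finset.sum_fiberwise_of_maps_to (hmaps d hd) _).symm
    rw [a1]
    refine (Finset.sum_le_sum hblock).trans (le_of_eq ?_)
    rw [Finset.sum_const, nsmul_eq_mul, hP, Finset.card_product, Finset.card_range,
      Finset.card_range]
    push_cast
    rfl
  refine htotal.trans ?_
  have hJm' : (Jm : ℝ) ≤ (2 * A + 1) * L := by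
    rw [hJm]
    push_cast
    have := Nat.floor_le (by positivity : 0 ≤ 2 * A * L)
    linarith
  have hLe : L * L ^ (-(U + 2)) ≤ (L ^ U)⁻¹ := by
    have a1 : L * L ^ (-(U + 2)) = L ^ (1 + -(U + 2)) := by
      rw [Real.rpow_add hL0, Real.rpow_one]
    rw [a1, ← Real.rpow_neg hL0.le]
    exact Real.rpow_le_rpow_of_exponent_le hL1 (by linarith)
  calc (Jm * (K + 1) : ℝ) * ((C1 + 8 * C2) * (x * L ^ (-(U + 2))))
      ≤ ((2 * A + 1) * L * (K + 1)) * ((C1 + 8 * C2) * (x * L ^ (-(U + 2)))) := by gcongr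
    _ = ((2 * A + 1) * (K + 1) * (C1 + 8 * C2)) * (x * (L * L ^ (-(U + 2)))) := by ring
    _ ≤ ((2 * A + 1) * (K + 1) * (C1 + 8 * C2)) * (x * (L ^ U)⁻¹) := by gcongr
    _ ≤ (C' + 2 * B + (2 * A + 1) * (K + 1) * (C1 + 8 * C2)) * (x / L ^ U) := by
      rw [← div_eq_mul_inv]
      refine mul_le_mul_of_nonneg_right ?_ (by positivity)
      linarith

end Pool.Agent.Lib.CO
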