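import Pool.Agent.Lib.CO.Spec
import Pool.Agent.Lib.EH.Basic

/-!
MP_00e23e_nt, directory Lib/CO: the pointwise inequality for the error term of a coset.
-/

namespace Pool.Agent.Lib.CO

open Finset Pool.Agent.Lib.BV Pool.Agent.Results.MP_00e23e_nt

private lemma Pw_sum (h1 : OrhStmt) (y : ℝ) (d : ℕ) (hd : 1 ≤ d) (H : Subgroup (ZMod d)ˣ) (l : (ZMod d)ˣ) :
    ∑ χ ∈ XX d H, χ ((l⁻¹ : (ZMod d)ˣ) : ZMod d) * PC χ ⌊y⌋₊ =
      (H.index : ℂ) * (cosetCount y d H l : ℂ) := by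
  classical
  have h2 : ∀ χ ∈ XX d H, χ ((l⁻¹ : (ZMod d)ˣ) : ZMod d) * PC χ ⌊y⌋₊ =
      ∑ p ∈ (Icc 1 ⌊y⌋₊).filter Nat.Prime, χ ((l⁻¹ : (ZMod d)ˣ) : ZMod d) * χ (p : ZMod d) := by
    intro χ _
    rw [PC, Finset.mul_sum]
  rw [Finset.sum_congr rfl h2, Finset.sum_comm]
  have h3 : ∀ p ∈ (Icc 1 ⌊y⌋₊).filter Nat.Prime,
      ∑ χ ∈ XX d H, χ ((l⁻¹ : (ZMod d)ˣ) : ZMod d) * χ (p : ZMod d) =
      if (∃ h ∈ H, (p : ZMod d) = ((l * h : (ZMod d)ˣ) : ZMod d)) then (H.index : ℂ) else 0 := by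
    intro p _
    split_ifs with h
    · exact ((h1 d H hd).2 l p).1 h
    · exact ((h1 d H hd).2 l p).2 h
  rw [Finset.sum_congr rfl h3, ← Finset.sum_filter, Finset.sum_const, Finset.filter_filter, nsmul_eq_mul,
    mul_comm]
  rfl

private lemma Pw_err (h1 : OrhStmt) (y : ℝ) (d : ℕ) (hd : 1 ≤ d) (H : Subgroup (ZMod d)ˣ) (l : (ZMod d)ˣ) :
    |cosetErr y d H l| = (1 / (d.totient : ℝ)) *
      ‖∑ χ ∈ XX d H, χ ((l⁻¹ : (ZMod d)ˣ) : ZMod d) * PC χ ⌊y⌋₊ - (li y : ℂ)‖ := by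
  classical
  have : NeZero d := ⟨by omega⟩
  have h2 : (H.index : ℝ) * (Nat.card H : ℝ) = (d.totient : ℝ) := by
    have h := H.index_mul_card
    rw [Nat.card_eq_fintype_card (α := (ZMod d)ˣ), ZMod.card_units_eq_totient] at h
    exact_mod_cast h
  have hphi : (0 : ℝ) < d.totient := by exact_mod_cast Nat.totient_pos.2 (by omega)
  have hH : (Nat.card H : ℝ) ≠ 0 := by
    intro h
    rw [h, mul_zero] at h2
    exact hphi.ne h2
  rw [Pw_sum h1 y d hd H l]
  have h3 : (H.index : ℂ) * (cosetCount y d H l : ℂ) - (li y : ℂ) =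
      (((H.index : ℝ) * (cosetCount y d H l : ℝ) - li y : ℝ) : ℂ) := by
    push_cast
    rfl
  rw [h3, Complex.norm_real, Real.norm_eq_abs]
  have h4 : cosetErr y d H l = (1 / (d.totient : ℝ)) *
      ((H.index : ℝ) * (cosetCount y d H l : ℝ) - li y) := by
    rw [cosetErr, ← h2]
    have hi : (H.index : ℝ) ≠ 0 := by
      intro h
      rw [h, zero_mul] at h2
      exact hphi.ne h2
    field_simp
  rw [h4, abs_mul, abs_of_nonneg (by positivity)]

private lemma Pw_one (y : ℝ) (d : ℕ) (hd : 1 ≤ d) (l : (ZMod d)ˣ) :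
    ‖(1 : DirichletCharacter ℂ d) ((l⁻¹ : (ZMod d)ˣ) : ZMod d) * PC (1 : DirichletCharacter ℂ d) ⌊y⌋₊ -
      (li y : ℂ)‖ ≤ |npr y - li y| + 2 * Real.log d := by
  classical
  rw [MulChar.one_apply_coe, one_mul]
  have h1 : PC (1 : DirichletCharacter ℂ d) ⌊y⌋₊ =
      ((((Icc 1 ⌊y⌋₊).filter Nat.Prime).filter (fun p => ¬ p ∣ d)).card : ℂ) := by
    rw [PC, Finset.card_filter, Nat.cast_sum]
    refine Finset.sum_congr rfl fun p hp => ?_
    have hp' : p.Prime := (Finset.mem_filter.1 hp).2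
    by_cases h : p ∣ d
    · have hu : ¬ IsUnit (p : ZMod d) := by
        rw [ZMod.isUnit_iff_coprime, hp'.coprime_iff_not_dvd]
        exact fun h' => h' h
      rw [MulChar.map_nonunit _ hu]
      simp [h]
    · have hu : IsUnit (p : ZMod d) := by
        rw [ZMod.isUnit_iff_coprime, hp'.coprime_iff_not_dvd]
        exact h
      rw [MulChar.one_apply hu]
      simp [h]
  have h2 : (((Icc 1 ⌊y⌋₊).filter Nat.Prime).filter (fun p => p ∣ d)).card +
      (((Icc 1 ⌊y⌋₊).filter Nat.Prime).filter (fun p => ¬ p ∣ d)).card =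
      ((Icc 1 ⌊y⌋₊).filter Nat.Prime).card := Finset.card_filter_add_card_filter_not _
  have h3 : (((Icc 1 ⌊y⌋₊).filter Nat.Prime).filter (fun p => p ∣ d)).card ≤ d.primeFactors.card := by
    refine Finset.card_le_card fun p hp => ?_
    rw [Finset.mem_filter, Finset.mem_filter] at hp
    exact Nat.mem_primeFactors.2 ⟨hp.1.2, hp.2, by omega⟩
  have h4 : (d.primeFactors.card : ℝ) ≤ 2 * Real.log d := Pool.Agent.Lib.EH.card_primeFactors_le hd
  set A := (((Icc 1 ⌊y⌋₊).filter Nat.Prime).filter (fun p => p ∣ d)).card with hA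
  set B := (((Icc 1 ⌊y⌋₊).filter Nat.Prime).filter (fun p => ¬ p ∣ d)).card with hB
  have h5 : npr y = (A : ℝ) + (B : ℝ) := by
    rw [npr, ← h2]
    push_cast
    rfl
  have h6 : (A : ℝ) ≤ d.primeFactors.card := by exact_mod_cast h3
  rw [h1]
  have h7 : ((B : ℂ) - (li y : ℂ)) = (((B : ℝ) - li y : ℝ) : ℂ) := by push_cast; rfl
  rw [h7, Complex.norm_real, Real.norm_eq_abs]
  have h8 : (B : ℝ) - li y = (npr y - li y) - (A : ℝ) := by rw [h5]; ring
  rw [h8]
  refine (abs_sub _ _).trans ?_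
  rw [abs_of_nonneg (Nat.cast_nonneg A : (0 : ℝ) ≤ (A : ℝ))]
  linarith

theorem tPw (h1 : OrhStmt) (h2 : MobStmt) : PwStmt := by
  classical
  intro y R d H l hy hd
  have : NeZero d := ⟨by omega⟩
  rw [Pw_err h1 y d hd H l]
  refine mul_le_mul_of_nonneg_left ?_ (by positivity)
  set a : DirichletCharacter ℂ d → ℂ := fun χ => χ ((l⁻¹ : (ZMod d)ˣ) : ZMod d) * PC χ ⌊y⌋₊ with ha
  have hc0 : ∀ χ : DirichletCharacter ℂ d, χ.conductor ≠ 0 := fun χ => χ.conductor_ne_zero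
  -- splitting
  have hsplit : ∑ χ ∈ XX d H, a χ = ∑ χ ∈ (XX d H).filter (fun χ => χ.conductor = 1), a χ +
      ∑ χ ∈ (XX d H).filter (fun χ => 1 < χ.conductor ∧ (χ.conductor : ℝ) ≤ R), a χ +
      ∑ χ ∈ (XX d H).filter (fun χ => 1 < χ.conductor ∧ R < (χ.conductor : ℝ)), a χ := by
    rw [Finset.sum_filter, Finset.sum_filter, Finset.sum_filter, ← Finset.sum_add_distrib,
      ← Finset.sum_add_distrib]
    refine Finset.sum_congr rfl fun χ _ => ?_
    have h0 := hc0 χ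
    by_cases h3 : χ.conductor = 1
    · simp [h3]
    · have h4 : 1 < χ.conductor := by omega
      by_cases h5 : (χ.conductor : ℝ) ≤ R
      · simp [h3, h4, h5, not_lt.2 h5]
      · simp [h3, h4, h5, not_le.1 h5]
  have hone : (XX d H).filter (fun χ => χ.conductor = 1) = {1} := by
    ext χ
    rw [Finset.mem_filter, Finset.mem_singleton]
    constructor
    · rintro ⟨_, h⟩
      exact DirichletCharacter.eq_one_iff_conductor_eq_one.2 h
    · rintro rfl
      refine ⟨?_, DirichletCharacter.eq_one_iff_conductor_eq_one.1 rfl⟩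
      simp only [XX, Finset.mem_filter, Finset.mem_univ, true_and]
      exact fun h _ => MulChar.one_apply_coe h
  have hmid : ‖∑ χ ∈ (XX d H).filter (fun χ => 1 < χ.conductor ∧ (χ.conductor : ℝ) ≤ R), a χ‖ ≤
      ∑ e ∈ d.divisors.filter (fun e : ℕ => 1 < e ∧ (e : ℝ) ≤ R), ∑ b ∈ e.divisors,
        ((b.totient : ℝ) * maxErr y b + (H.index : ℝ) * (2 * Real.log d)) := by
    have h3 : ∑ χ ∈ (XX d H).filter (fun χ => 1 < χ.conductor ∧ (χ.conductor : ℝ) ≤ R), a χ =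
        ∑ e ∈ d.divisors.filter (fun e : ℕ => 1 < e ∧ (e : ℝ) ≤ R),
          ∑ χ ∈ (XX d H).filter (fun χ => χ.conductor = e), a χ := by
      rw [← Finset.sum_fiberwise_of_maps_to (g := fun χ : DirichletCharacter ℂ d => χ.conductor)
        (t := d.divisors.filter (fun e : ℕ => 1 < e ∧ (e : ℝ) ≤ R))]
      · refine Finset.sum_congr rfl fun e he => Finset.sum_congr ?_ fun _ _ => rfl
        rw [Finset.mem_filter] at he
        ext χ
        rw [Finset.mem_filter, Finset.mem_filter, Finset.mem_filter]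
        constructor
        · rintro ⟨⟨h4, _⟩, h5⟩
          exact ⟨h4, h5⟩
        · rintro ⟨h4, h5⟩
          refine ⟨⟨h4, ?_⟩, h5⟩
          rw [h5]
          exact he.2
      · intro χ hχ
        rw [Finset.mem_filter] at hχ
        rw [Finset.mem_filter]
        exact ⟨Nat.mem_divisors.2 ⟨χ.conductor_dvd_level, NeZero.ne d⟩, hχ.2⟩
    rw [h3]
    refine (norm_sum_le _ _).trans (Finset.sum_le_sum fun e he => ?_)
    rw [Finset.mem_filter] at he
    have h4 := h2 y d e H l hy hd (Nat.dvd_of_mem_divisors he.1) he.2.1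
    refine le_trans (le_of_eq ?_) h4
    congr 1
  have hlast : ‖∑ χ ∈ (XX d H).filter (fun χ => 1 < χ.conductor ∧ R < (χ.conductor : ℝ)), a χ‖ ≤
      ∑ χ ∈ (XX d H).filter (fun χ => 1 < χ.conductor ∧ R < (χ.conductor : ℝ)), ‖PC χ ⌊y⌋₊‖ := by
    refine (norm_sum_le _ _).trans (Finset.sum_le_sum fun χ _ => ?_)
    rw [ha, norm_mul]
    exact mul_le_of_le_one_left (norm_nonneg _) (DirichletCharacter.norm_le_one χ _)
  have hfirst := Pw_one y d hd l
  rw [hsplit, hone, Finset.sum_singleton]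
  have h9 : a 1 + ∑ χ ∈ (XX d H).filter (fun χ => 1 < χ.conductor ∧ (χ.conductor : ℝ) ≤ R), a χ +
      ∑ χ ∈ (XX d H).filter (fun χ => 1 < χ.conductor ∧ R < (χ.conductor : ℝ)), a χ - (li y : ℂ) =
      (a 1 - (li y : ℂ)) +
      ∑ χ ∈ (XX d H).filter (fun χ => 1 < χ.conductor ∧ (χ.conductor : ℝ) ≤ R), a χ +
      ∑ χ ∈ (XX d H).filter (fun χ => 1 < χ.conductor ∧ R < (χ.conductor : ℝ)), a χ := by ring
  rw [h9]
  refine (norm_add₃_le).trans ?_
  have h10 : ∀ (s : Finset ℕ) (t : Finset (DirichletCharacter ℂ d)), s = d.divisors.filter (fun e : ℕ => 1 < e ∧ (e : ℝ) ≤ R) →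
      t = (XX d H).filter (fun χ => 1 < χ.conductor ∧ R < (χ.conductor : ℝ)) →
      ‖a 1 - (li y : ℂ)‖ +
      ‖∑ χ ∈ (XX d H).filter (fun χ => 1 < χ.conductor ∧ (χ.conductor : ℝ) ≤ R), a χ‖ +
      ‖∑ χ ∈ (XX d H).filter (fun χ => 1 < χ.conductor ∧ R < (χ.conductor : ℝ)), a χ‖ ≤
      |npr y - li y| + 2 * Real.log d +
        ∑ e ∈ s, ∑ b ∈ e.divisors,
        ((b.totient : ℝ) * maxErr y b + (H.index : ℝ) * (2 * Real.log d)) + ∑ χ ∈ t, ‖PC χ ⌊y⌋₊‖ := by
    rintro s t rfl rfl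
    exact add_le_add (add_le_add hfirst hmid) hlast
  refine h10 _ _ ?_ ?_
  · ext e
    simp only [Finset.mem_filter]
  · ext χ
    simp only [Finset.mem_filter]

end Pool.Agent.Lib.CO
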