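import Pool.Agent.Lib.BV.SpecD
import Pool.Agent.Lib.BV.SpecL
import Pool.Agent.Lib.CO.Defs

/-!
MP_00e23e_nt, directory Lib/CO (architect helper9; paper proof: note 4535): the Elliott-Halberstam
inequality for cosets of subgroups of index up to x^(1/4), at every level x^A.

RULES. Module X: file Pool/Agent/Lib/CO/X.lean, first line `import Pool.Agent.Lib.CO.Spec` (plus the library
files named in the docstring), then `namespace Pool.Agent.Lib.CO` and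
`open Finset Pool.Agent.Lib.BV Pool.Agent.Results.MP_00e23e_nt`, private lemmas with names starting with X_,
final theorem `theorem tX (h1 : AStmt) ... : XStmt`; the statements listed under Uses are hypotheses of
your theorem, in this order. The docstring contains a complete proof. Never use congr!. Every module
below 60 s. Library facts which may be imported instead of assumed: Pool.Agent.Lib.BV.Tot, Inj, Lpc, Lsm etc.
are available as tTot, tInj, tLpc, tLsm ... (files Pool/Agent/Lib/BV/X.lean); EH.Basic has li_nonneg, li_le,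
le_maxErr, exists_maxErr, maxErr_nonneg, maxErr_le, card_primeFactors_le (namespace Pool.Agent.Lib.EH or
similar, see the file).
-/

namespace Pool.Agent.Lib.CO

open Finset Pool.Agent.Lib.BV Pool.Agent.Results.MP_00e23e_nt

open Classical in
/-- the characters mod d that are trivial on H -/
noncomputable def XX (d : ℕ) (H : Subgroup (ZMod d)ˣ) : Finset (DirichletCharacter ℂ d) :=
  univ.filter (fun χ => ∀ h ∈ H, χ (h : ZMod d) = 1)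

/-- the sum of χ over the primes up to Y -/
noncomputable def PC {q : ℕ} (χ : DirichletCharacter ℂ q) (Y : ℕ) : ℂ :=
  ∑ p ∈ (Icc 1 Y).filter Nat.Prime, χ (p : ZMod q)

/-- the sum of χ over the primes of the dyadic block (i 2^j, (i+1) 2^j] -/
noncomputable def PB {q : ℕ} (χ : DirichletCharacter ℂ q) (j i : ℕ) : ℂ :=
  ∑ p ∈ (Ioc (i * 2 ^ j) ((i + 1) * 2 ^ j)).filter Nat.Prime, χ (p : ZMod q)

/-- the sum of the 2k-th powers of the block sums, all levels j < J -/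
noncomputable def ZZ (J k : ℕ) {q : ℕ} (χ : DirichletCharacter ℂ q) : ℝ :=
  ∑ j ∈ range J, ∑ i ∈ range (2 ^ (J - j)), ‖PB χ j i‖ ^ (2 * k)

/-! ### Part 1: characters of a subgroup -/

/-- Module Orh (theorem tOrh; orthogonality for cosets). Uses: nothing.
Proof. Put G = (ZMod e)ˣ. A character is determined by its restriction to the units (MulChar.equivToUnitHom), and
for g ∈ G: S(g) = ∑_{χ ∈ XX e K} χ(g). If g ∈ K every term is 1, S(g) = card. If g ∉ K there is χ1 ∈ XX e K with χ1(g) ≠ 1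
(Mathlib, GroupTheory/FiniteAbelian/Duality: forall_monoidHom_apply_eq_one_iff; ℂ has enough roots of unity), and
χ ↦ χ1 χ permutes XX e K, so χ1(g) S(g) = S(g), S(g) = 0. Sum over g ∈ G: ∑_g S(g) = card * |K|; exchanging the sums, it
is ∑_χ ∑_g χ(g) = |G| (only χ = 1 contributes, MulChar.sum_eq_zero_of_ne_one or sum over units), so
card = |G|/|K| = K.index. Second part: if n is not coprime to e then χ(n) = 0 and (n : ZMod e) is not a unit, so it is not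
of the form l h. If n is coprime to e, (n : ZMod e) = g for a unit g, the sum is S(l⁻¹ g), and l⁻¹ g ∈ K iff n = l h, h ∈ K. -/
def OrhStmt : Prop :=
  ∀ (e : ℕ) (K : Subgroup (ZMod e)ˣ), 1 ≤ e → (XX e K).card = K.index ∧
    ∀ (l : (ZMod e)ˣ) (n : ℕ),
      ((∃ h ∈ K, (n : ZMod e) = ((l * h : (ZMod e)ˣ) : ZMod e)) →
        ∑ χ ∈ XX e K, χ ((l⁻¹ : (ZMod e)ˣ) : ZMod e) * χ (n : ZMod e) = (K.index : ℂ)) ∧
      ((¬ ∃ h ∈ K, (n : ZMod e) = ((l * h : (ZMod e)ˣ) : ZMod e)) →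
        ∑ χ ∈ XX e K, χ ((l⁻¹ : (ZMod e)ˣ) : ZMod e) * χ (n : ZMod e) = 0)

/-- Module Map (theorem tMap; the characters whose conductor divides e). Uses: nothing.
Proof. ψ ↦ changeLevel h ψ is injective (DirichletCharacter.changeLevel_injective, NeZero d), changeLevel h ψ (u) = ψ of the
image of u for units u (changeLevel_def / changeLevel_eq_cast_of_dvd), so it is trivial on H iff ψ is trivial on the
image of H under ZMod.unitsMap h; its conductor is that of ψ (conductor_changeLevel), a divisor of e. Conversely if the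
conductor of χ divides e then χ factors through e (mem_conductorSet_iff_conductor_dvd), χ = changeLevel h ψ. So it is
a bijection of XX e (H.map ..) onto the filter (Finset.sum_bij or sum_image). -/
def MapStmt : Prop :=
  ∀ (d e : ℕ) (h : e ∣ d) (H : Subgroup (ZMod d)ˣ) (F : DirichletCharacter ℂ d → ℂ), 1 ≤ d →
    ∑ χ ∈ (XX d H).filter (fun χ => χ.conductor ∣ e), F χ =
      ∑ ψ ∈ XX e (H.map (ZMod.unitsMap h)), F (DirichletCharacter.changeLevel h ψ)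

/-- Module Cls (theorem tCls; the mean over a coset). Uses: nothing.
Proof. K is finite and nonempty. A prime p ≤ y with (p : ZMod e) = l h for an h ∈ K: h is unique, so cosetCount y e K l =
∑_{h ∈ K} primeCount y e a_h, where a_h ∈ [1, e] is a representative of l h coprime to e ((l h).val.val, or e itself if
e = 1; (p : ZMod e) = (a_h : ZMod e) iff p ≡ a_h mod e, ZMod.natCast_eq_natCast_iff). Hence cosetErr = (1/|K|) ∑_{h ∈ K}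
(primeCount y e a_h - li y/φ(e)) = (1/|K|) ∑_h err y e a_h, and each |err y e a_h| ≤ maxErr y e (EH.le_maxErr). -/
def ClsStmt : Prop :=
  ∀ (y : ℝ) (e : ℕ) (K : Subgroup (ZMod e)ˣ) (l : (ZMod e)ˣ), 1 ≤ e → |cosetErr y e K l| ≤ maxErr y e

/-- Module Ae (theorem tAe; characters with conductor dividing e). Uses: Orh, Map, Cls.
Proof. K = H.map (ZMod.unitsMap h), l' = ZMod.unitsMap h l. By Map the sum is ∑_{ψ ∈ XX e K} ψ(l'⁻¹) ∑_{p ≤ y, p ∤ d} ψ(p)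
(changeLevel h ψ (p) = ψ(p) if p is coprime to d, and 0 otherwise). By Orh it is K.index * N1 with N1 the number of primes
p ≤ y, p ∤ d, with p ∈ l' K mod e. N1 = cosetCount y e K l' - (primes among them that divide d), at most
d.primeFactors.card ≤ 2 log d (EH.card_primeFactors_le). K.index * |K| = φ(e) (Subgroup.index_mul_card,
ZMod.card_units_eq_totient), so K.index * cosetCount - li y = φ(e) cosetErr y e K l', of absolute value ≤ φ(e) maxErr y e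
by Cls. Finally K.index ≤ H.index: K.index divides H.index as unitsMap is surjective (ZMod.unitsMap_surjective,
Subgroup.index_map_dvd or index_map_of_surjective), H.index ≠ 0 (finite group). -/
def AeStmt : Prop :=
  ∀ (y : ℝ) (d e : ℕ) (H : Subgroup (ZMod d)ˣ) (l : (ZMod d)ˣ), 2 ≤ y → 1 ≤ d → e ∣ d →
    ‖∑ χ ∈ (XX d H).filter (fun χ => χ.conductor ∣ e), χ ((l⁻¹ : (ZMod d)ˣ) : ZMod d) * PC χ ⌊y⌋₊ - (li y : ℂ)‖ ≤
      (e.totient : ℝ) * maxErr y e + (H.index : ℝ) * (2 * Real.log d)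

/-- Module Mob (theorem tMob; characters with conductor e). Uses: Ae.
Proof. f(n) = the sum over the χ ∈ XX d H of conductor n, g(n) = the sum over those whose conductor divides n;
g(n) = ∑_{i | n} f(i) for n ≥ 1 (conductors are ≥ 1), so f(e) = ∑_{(a,b), a b = e} μ(a) g(b)
(ArithmeticFunction.sum_eq_iff_sum_mul_moebius_eq), and ∑_{a | e} μ(a) = 0 for e > 1 gives
f(e) = ∑_{(a,b)} μ(a) (g(b) - li y). |μ| ≤ 1 and Ae for each b | e (b | d). -/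
def MobStmt : Prop :=
  ∀ (y : ℝ) (d e : ℕ) (H : Subgroup (ZMod d)ˣ) (l : (ZMod d)ˣ), 2 ≤ y → 1 ≤ d → e ∣ d → 1 < e →
    ‖∑ χ ∈ (XX d H).filter (fun χ => χ.conductor = e), χ ((l⁻¹ : (ZMod d)ˣ) : ZMod d) * PC χ ⌊y⌋₊‖ ≤
      ∑ b ∈ e.divisors, ((b.totient : ℝ) * maxErr y b + (H.index : ℝ) * (2 * Real.log d))

/-- Module Pw (theorem tPw; the pointwise inequality). Uses: Orh, Mob.
Proof. By Orh cosetCount y d H l = (1/index) ∑_{χ ∈ XX d H} χ(l⁻¹) PC χ ⌊y⌋, index * |H| = φ(d), so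
cosetErr = (1/φ(d)) (∑_χ χ(l⁻¹) PC χ ⌊y⌋ - li y). Split the χ by the conductor (≥ 1, divides d). Conductor 1 is χ = 1
(DirichletCharacter.eq_one_iff_conductor_eq_one), PC 1 ⌊y⌋ = npr y - #{p ≤ y, p | d} and #{p | d} ≤ 2 log d. Conductors
1 < e, e ≤ R: Mob for each e. The others: |χ(l⁻¹)| ≤ 1. -/
def PwStmt : Prop :=
  ∀ (y R : ℝ) (d : ℕ) (H : Subgroup (ZMod d)ˣ) (l : (ZMod d)ˣ), 2 ≤ y → 1 ≤ d →
    |cosetErr y d H l| ≤ (1 / (d.totient : ℝ)) * (|npr y - li y| + 2 * Real.log d +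
      ∑ e ∈ d.divisors.filter (fun e : ℕ => 1 < e ∧ (e : ℝ) ≤ R), ∑ b ∈ e.divisors,
        ((b.totient : ℝ) * maxErr y b + (H.index : ℝ) * (2 * Real.log d)) +
      ∑ χ ∈ (XX d H).filter (fun χ => 1 < χ.conductor ∧ R < (χ.conductor : ℝ)), ‖PC χ ⌊y⌋₊‖)

/-! ### Part 2: sums over the moduli -/

/-- Module Sma (theorem tSma). Uses: nothing (BV.tTot may be imported: ∑_{d ≤ D} 1/φ(d) ≤ (1 + log D)²).
Proof. The triples (d, e, b), d ≤ D, b | e | d, e ≤ R, are (b g f, b g, b) with b ≤ R, g, f ≤ D (e = b g, d = e f; if b > D there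
are none). φ(b g f) ≥ φ(b) φ(g) φ(f) (Nat.totient_super_multiplicative), F ≥ 0. So the sum is at most
∑_{b ≤ R} F(b) (∑_{g ≤ D} 1/φ(g)) (∑_{f ≤ D} 1/φ(f)) ≤ (1 + log D)^4 ∑ F(b). -/
def SmaStmt : Prop :=
  ∀ (D R : ℕ) (F : ℕ → ℝ), 1 ≤ D → (∀ b, 0 ≤ F b) →
    ∑ d ∈ Icc 1 D, (1 / (d.totient : ℝ)) * ∑ e ∈ d.divisors.filter (fun e : ℕ => e ≤ R), ∑ b ∈ e.divisors,
      (b.totient : ℝ) * F b ≤ (1 + Real.log D) ^ 4 * ∑ b ∈ Icc 1 R, F b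

/-- Module Smb2 (theorem tSmb2). Uses: nothing.
Proof. By induction on j: ∑_{d ≤ D} τ(d)^j/d ≤ (1 + log D)^(2^j): j = 0 harmonic_le_one_add_log; step: τ(d)^(j+1)/d =
∑_{a b = d} τ(a b)^j/(a b) and τ(a b) ≤ τ(a) τ(b), so the sum is ≤ (∑_{a ≤ D} τ(a)^j/a)². Moreover d ≤ τ(d) φ(d)
(d = ∑_{k | d} φ(k), Nat.sum_totient, φ(k) ≤ φ(d)), so 1/φ(d) ≤ τ(d)/d. With j = 3: the claim. -/
def Smb2Stmt : Prop :=
  ∀ D : ℕ, 1 ≤ D → ∑ d ∈ Icc 1 D, (d.divisors.card : ℝ) ^ 2 / (d.totient : ℝ) ≤ (1 + Real.log D) ^ 8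

open Classical in
/-- Module Trs (theorem tTrs; from characters mod d to primitive characters). Uses: nothing (BV.tTot may be
imported; compare the proofs of Lib/BV/Inj.lean part (1) and Lib/BV/Prm.lean).
Proof. For fixed d the map χ ↦ (conductor, primitive character) is injective into the pairs (e, ψ), e | d, c e, ψ ∈ prim e,
F ≥ 0: the inner sum is ≤ ∑_{e | d, c e} ∑_{ψ ∈ prim e} F e ψ. d = e f, φ(d) ≥ φ(e) φ(f), e, f ≤ D: the total is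
≤ ∑_e (1/φ(e)) ∑_ψ F e ψ ∑_{f ≤ D} 1/φ(f). -/
def TrsStmt : Prop :=
  ∀ (D : ℕ) (c : ℕ → Prop) (F : (e : ℕ) → DirichletCharacter ℂ e → ℝ), 1 ≤ D → (∀ e χ, 0 ≤ F e χ) →
    ∑ d ∈ Icc 1 D, (1 / (d.totient : ℝ)) *
        ∑ χ ∈ univ.filter (fun χ : DirichletCharacter ℂ d => c χ.conductor), F χ.conductor χ.primitiveCharacter ≤
      (1 + Real.log D) ^ 2 *
        ∑ e ∈ (Icc 1 D).filter c, (1 / (e.totient : ℝ)) * ∑ ψ ∈ prim e, F e ψ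

/-- Module Hol (theorem tHol; weighted power mean). Uses: nothing.
Proof. W = ∑ w. If W = 0 all w are 0 and both sides are 0 (n ≥ 1). Otherwise Jensen with weights w/W
(Real.pow_arith_mean_le_arith_mean_pow): ((1/W) ∑ w a)^n ≤ (1/W) ∑ w a^n, multiply by W^n. -/
def HolStmt : Prop :=
  ∀ (ι : Type) (s : Finset ι) (w a : ι → ℝ) (n : ℕ), 1 ≤ n → (∀ i ∈ s, 0 ≤ w i) → (∀ i ∈ s, 0 ≤ a i) →
    (∑ i ∈ s, w i * a i) ^ n ≤ (∑ i ∈ s, w i) ^ (n - 1) * ∑ i ∈ s, w i * a i ^ n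

/-! ### Part 3: moments -/

/-- Module Chn (theorem tChn; chaining). Uses: nothing.
Proof. (a) For every J and Y < 2^J and f : ℕ → ℂ there are i_j < 2^(J-j) and δ_j ∈ {0,1} (j < J) with
∑_{n ∈ Ioc 0 Y} f n = ∑_{j < J} δ_j ∑_{n ∈ Ioc (i_j 2^j) ((i_j + 1) 2^j)} f n: δ_j = the j-th binary digit of Y,
i_j = 2 ⌊Y/2^(j+1)⌋ (Y with the digits ≤ j removed, divided by 2^j). By induction on J: Y = 2^J δ + Y', Y' < 2^J ... or split
off the lowest digit: Y = 2 Y' + δ, f'(n) = f(2n-1) + f(2n), the block (i 2^j, (i+1) 2^j] of f' is the block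
(i 2^(j+1), (i+1) 2^(j+1)] of f. (b) With f = χ on primes: ‖PC χ Y‖ ≤ ∑_{j<J} ‖PB χ j i_j‖, power mean
(inner_le... / Real.pow_sum_div_card_le_sum_pow / HolStmt with w = 1): ‖PC χ Y‖^(2k) ≤ J^(2k-1) ∑_j ‖PB χ j i_j‖^(2k) ≤
J^(2k-1) ZZ. (J = 0: Y = 0, PC = 0, k ≥ 1.) -/
def ChnStmt : Prop :=
  ∀ (q : ℕ) (χ : DirichletCharacter ℂ q) (J k Y : ℕ), 1 ≤ k → Y < 2 ^ J →
    ‖PC χ Y‖ ^ (2 * k) ≤ (J : ℝ) ^ (2 * k - 1) * ZZ J k χ

/-- Module Pwk (theorem tPwk; powers of a prime polynomial). Uses: nothing.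
Proof. (∑_{p ∈ T} χ(p))^k = ∑_{v : Fin k → T} χ(∏ v_i) (Finset.sum_pow' or prod_univ_sum), every product is ≤ N^k and ≥ 1.
b n = the number of v with ∏ v_i = n. b n ≤ k!: two v with the same product are permutations of each other (unique
factorization: the multiset of the v_i is the multiset of prime factors of n), so b n ≤ the number of arrangements of
one multiset of size k ≤ k! (e.g. v = v0 ∘ σ for a permutation σ of Fin k; or by induction on k: b_{k+1}(n) =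
∑_{p ∈ T, p | n} b_k(n/p) is ≤ (k+1) k! because n with b_{k+1}(n) ≠ 0 has at most k+1 prime factors). ∑_n b n = |T|^k, so
∑ (b n)² ≤ k! ∑ b n = k! |T|^k. -/
def PwkStmt : Prop :=
  ∀ (T : Finset ℕ) (N k : ℕ), (∀ p ∈ T, p.Prime ∧ p ≤ N) → 1 ≤ k → ∃ b : ℕ → ℂ,
    (∀ (q : ℕ) (χ : DirichletCharacter ℂ q),
      (∑ p ∈ T, χ (p : ZMod q)) ^ k = ∑ n ∈ Icc 1 (N ^ k), b n * χ (n : ZMod q)) ∧
    ∑ n ∈ Icc 1 (N ^ k), ‖b n‖ ^ 2 ≤ (k.factorial : ℝ) * (T.card : ℝ) ^ k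

/-- Module Lsk (theorem tLsk; large sieve for the moments). Uses: LsmStmt (SpecA of Lib/BV), Pwk.
Proof. For j < J, i < 2^(J-j): the block (i 2^j, (i+1) 2^j] lies in [1, 2^J] and has at most 2^j primes; Pwk with N = 2^J gives
b with ‖PB χ j i‖^(2k) = ‖∑_{n ≤ 2^(Jk)} b n χ(n)‖², and Lsm: the sum over q and χ ∈ prim q (weights q/φ(q)) is
≤ 20 ((2^J)^k + Q²) k! 2^(jk). Sum over i: 2^(J-j) 2^(jk) = 2^(J + j(k-1)) ≤ 2^(Jk) (k ≥ 1, j ≤ J). Sum over j < J: factor J. -/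
def LskStmt : Prop :=
  ∀ Q J k : ℕ, 1 ≤ Q → 1 ≤ k →
    ∑ q ∈ Icc 2 Q, (q : ℝ) / (q.totient : ℝ) * ∑ χ ∈ prim q, ZZ J k χ ≤
      20 * (((2 : ℝ) ^ J) ^ k + (Q : ℝ) ^ 2) * ((k.factorial : ℝ) * (J * ((2 : ℝ) ^ J) ^ k))

/-- Module Blo (theorem tBlo; one dyadic block of conductors). Uses: Chn, Lsk, Trs, Hol.
Proof. Index set: the pairs (d, χ), d ∈ S, χ ∈ X d (a sigma finset, or Hol twice), weights w = 1/φ(d), n = 2k. ∑ w ≤
B ∑_{d ≤ D} 1/φ(d) ≤ B (1 + log D)² (tTot). By Chn a^(2k) ≤ J^(2k-1) ZZ J k (χ*), χ* the primitive character. ∑ w ZZ(χ*) is by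
Trs (c e = (E < e ∧ e ≤ 2E), F = ZZ J k; X d is a subset of the χ with c (conductor)) at most (1 + log D)²
∑_{E < e ≤ 2E} (1/φ(e)) ∑_{prim e} ZZ, and 1/φ(e) ≤ (1/E) e/φ(e), e ≥ 2; Lsk with Q = 2E. Together
(B (1 + log D)²)^(2k-1) J^(2k-1) (1 + log D)² (1/E) 20 ((2^J)^k + 4E²) k! J (2^J)^k. -/
def BloStmt : Prop :=
  ∀ (D J k E : ℕ) (B : ℝ) (S : Finset ℕ) (X : (d : ℕ) → Finset (DirichletCharacter ℂ d)) (Y : ℕ → ℕ),
    1 ≤ D → S ⊆ Icc 1 D → 1 ≤ k → 1 ≤ E → 0 ≤ B → (∀ d ∈ S, Y d < 2 ^ J) →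
    (∀ d ∈ S, ∀ χ ∈ X d, E < χ.conductor ∧ χ.conductor ≤ 2 * E) → (∀ d ∈ S, ((X d).card : ℝ) ≤ B) →
    (∑ d ∈ S, (1 / (d.totient : ℝ)) * ∑ χ ∈ X d, ‖PC χ.primitiveCharacter (Y d)‖) ^ (2 * k) ≤
      B ^ (2 * k - 1) * (1 + Real.log D) ^ (4 * k) * (J : ℝ) ^ (2 * k) *
        (20 * (k.factorial : ℝ) * ((2 : ℝ) ^ J) ^ k) * ((((2 : ℝ) ^ J) ^ k + 4 * (E : ℝ) ^ 2) / E)

/-! ### Part 4: parameters and assembly -/

/-- Module Kch (theorem tKch; the choice of k). Uses: nothing.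
Proof. K = ⌊2A + 1/2⌋ + 2. L ≥ 1 throughout. indexBound is a maximum of three terms. (i) m L^(C+2B) ≤ x/e: k = 1; m L^C ≤ x/e = x^1/e,
and m L^C ≤ L^(-2B) x/e ≤ e because e² ≥ x/L^(2B). (ii) m L^(C+2B) ≤ min(e, x²/e)^(1/3): k = 2, m³ L^C ≤ (m L^(C+2B))³ ≤ min(e, x²/e).
(iii) m L^(C+2B) ≤ x^(1/4): e = x^b with 1/4 ≤ b ≤ A (e ≥ √x/L^B ≥ x^(1/4)), k = ⌊2b + 1/2⌋, so 1 ≤ k ≤ K and
2b - 1/2 ≤ k ≤ 2b + 1/2; m^(2k-1) L^C ≤ (m L^(C+2B))^(2k-1) ≤ x^((2k-1)/4) = x^(k/2 - 1/4), and k/2 - 1/4 ≤ b, k/2 - 1/4 ≤ k - b. -/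
def KchStmt : Prop :=
  ∀ A : ℝ, 0 < A → ∃ K : ℕ, 1 ≤ K ∧ ∀ C B x e m L : ℝ, 0 ≤ C → 0 ≤ B → 3 ≤ x → 1 ≤ L → 0 ≤ m → 1 ≤ e →
    Real.sqrt x / L ^ B ≤ e → e ≤ x ^ A → L ^ B ≤ x ^ ((1 : ℝ) / 4) → m * L ^ (C + 2 * B) ≤ indexBound x e →
    ∃ k : ℕ, 1 ≤ k ∧ k ≤ K ∧ m ^ (2 * k - 1) * L ^ C ≤ min e (x ^ k / e)

/-- Module Rtk (theorem tRtk; one block, final form). Uses: Blo.
Proof. Put L = log x ≥ 1, B0 = (L^(-C) min(2E, x^k/E))^(1/(2k-1)), so B0^(2k-1) = L^(-C) min(2E, x^k/E), and the hypothesis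
on m gives card X d ≤ B0 (if X d is nonempty: (card)^(2k-1) L^C ≤ min(e, x^k/e) for some e in (E, 2E], which is
≤ min(2E, x^k/E); if it is empty card = 0). J = the number with 2^(J-1) ≤ x < 2^J (Nat.find; Nat.log 2 ⌊x⌋ + 1): 2^J ≤ 2x, J ≤
2 L + 1 ≤ 3L. Blo with D = ⌊x^A⌋, Y d = ⌊y d⌋ < 2^J: T^(2k) ≤ L^(-C) (min(2E, x^k/E)/E) ((2x)^k + 4E²) (20 k! (2x)^k) (1 + A L)^(4k)
(3L)^(2k), and (min(2E, x^k/E)/E)((2x)^k + 4E²) ≤ 2 (2x)^k + 4 x^k ≤ 6 (2x)^k. So T^(2k) ≤ 120 k! 4^k x^(2k) (1+A)^(4k) 3^(2k) L^(6k-C);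
take the 2k-th root: T ≤ C1 x L^(3 - C/(2k)) ≤ C1 x L^(3 - C/(2K)), C1 = max over k ≤ K (or 120 K! 36^K (1+A)^(4K), ≥ 1,
whose root is ≤ itself). -/
def RtkStmt : Prop :=
  ∀ (A : ℝ) (K : ℕ), 0 < A → 1 ≤ K → ∃ C1 : ℝ, 0 < C1 ∧ ∀ (C x : ℝ) (k E : ℕ) (S : Finset ℕ)
    (X : (d : ℕ) → Finset (DirichletCharacter ℂ d)) (y : ℕ → ℝ), 0 ≤ C → 3 ≤ x → 1 ≤ k → k ≤ K → 1 ≤ E →
    (∀ d ∈ S, 1 ≤ d ∧ (d : ℝ) ≤ x ^ A ∧ 0 ≤ y d ∧ y d ≤ x) →
    (∀ d ∈ S, ∀ χ ∈ X d, E < χ.conductor ∧ χ.conductor ≤ 2 * E ∧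
      ((X d).card : ℝ) ^ (2 * k - 1) * (Real.log x) ^ C ≤ min (χ.conductor : ℝ) (x ^ k / χ.conductor)) →
    ∑ d ∈ S, (1 / (d.totient : ℝ)) * ∑ χ ∈ X d, ‖PC χ.primitiveCharacter ⌊y d⌋₊‖ ≤
      C1 * (x * (Real.log x) ^ (3 - C / (2 * K)))

/-- Module Lrg (theorem tLrg; all large conductors). Uses: Orh, Kch, Rtk.
Proof. K from Kch, C1 from Rtk, C' = 2K(U + 5), constant C = max(C' + 2B, constants below), x0 such that (log x)^B ≤ x^(1/4) and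
log x ≥ 1 for x ≥ x0 (x0 ≥ 3, isLittleO_log_rpow_atTop). For d ∈ S and e | d let κ(d,e) ≤ K be the k of Kch
for m = (H d).index, L = log x, C' (chosen if e ≥ √x/(log x)^B; else 1). Each χ in the sum has conductor e | d, 1 < e ≤ x^A,
e > √x/(log x)^B, lies in (2^j, 2^(j+1)] for exactly one j (2^j < e ≤ x^A, so j ≤ A log x/log 2 ≤ 2 A log x) and has
one k = κ(d,e) ∈ [1,K]. For every (j,k) Rtk with X d = those χ, E = 2^j; card X d ≤ card XX = index (Orh), so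
(card)^(2k-1) (log x)^C' ≤ index^(2k-1) (log x)^C' ≤ min(e, x^k/e). The total is ≤ (2 A log x + 1) K C1 x (log x)^(3 - C'/(2K)) ≤
(2A+1) K C1 x (log x)^(4 - U - 5) ≤ const x/(log x)^U. -/
def LrgStmt : Prop :=
  ∀ A B U : ℝ, 0 < A → 0 < B → 0 < U → ∃ C x0 : ℝ, 0 < C ∧ 3 ≤ x0 ∧ ∀ (x : ℝ) (S : Finset ℕ)
    (H : (d : ℕ) → Subgroup (ZMod d)ˣ) (y : ℕ → ℝ), x0 ≤ x →
    (∀ d ∈ S, 1 ≤ d ∧ (d : ℝ) ≤ x ^ A ∧ 2 ≤ y d ∧ y d ≤ x ∧
      ∀ e : ℕ, e ∣ d → ((H d).index : ℝ) * (Real.log x) ^ C ≤ indexBound x e) →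
    ∑ d ∈ S, (1 / (d.totient : ℝ)) *
      ∑ χ ∈ (XX d (H d)).filter
          (fun χ => 1 < χ.conductor ∧ Real.sqrt x / (Real.log x) ^ B < (χ.conductor : ℝ)),
        ‖PC χ.primitiveCharacter ⌊y d⌋₊‖ ≤ C * (x / (Real.log x) ^ U)

/-- Module Sml (theorem tSml; small conductors). Uses: Sma, FinStmt (SpecD of Lib/BV).
Proof. B = U + 6, L = log x, R = ⌊√x/L^B⌋ (≥ 1, x large), D = ⌊x^A⌋. If S is empty trivial. For b let y*(b) ∈ {y d : d ∈ S} be such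
that maxErr (y*(b)) b is the maximum of maxErr (y d) b over d ∈ S (Finset.exists_max_image), F(b) = maxErr (y*(b)) b ≥ 0. The sum
is at most the left side of Sma (extend S to Icc 1 D, terms ≥ 0; e ≤ √x/L^B iff e ≤ R), ≤ (1 + A L)^4 ∑_{b ≤ R} F(b). Fin with U + 4,
D = R: (R L ≤ √x since B ≥ 1, L ≥ 1): ∑ F(b) ≤ C (x/L^(U+4) + √x R log Kf loglog Kf), R ≥ √x/(2 L^B), Kf = 16 + √x/(R L) ≤
16 + 2 L^B ≤ 18 L^B, so log Kf ≤ log 18 + B log L ≤ C_B L and loglog Kf ≤ log Kf ≤ C_B L: √x R log Kf loglog Kf ≤ C x L^(2 - B) =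
C x/L^(U+4). (1 + A L)^4 ≤ (1+A)^4 L^4. -/
def SmlStmt : Prop :=
  ∀ A U : ℝ, 0 < A → 0 < U → ∃ B C x0 : ℝ, 0 < B ∧ 0 < C ∧ 16 ≤ x0 ∧ ∀ (x : ℝ) (S : Finset ℕ) (y : ℕ → ℝ),
    x0 ≤ x → (∀ d ∈ S, 1 ≤ d ∧ (d : ℝ) ≤ x ^ A ∧ 2 ≤ y d ∧ y d ≤ x) →
    ∑ d ∈ S, (1 / (d.totient : ℝ)) *
      ∑ e ∈ d.divisors.filter (fun e : ℕ => 1 < e ∧ (e : ℝ) ≤ Real.sqrt x / (Real.log x) ^ B),
        ∑ b ∈ e.divisors,
        (b.totient : ℝ) * maxErr (y d) b ≤ C * (x / (Real.log x) ^ U)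

/-- Module Dvs (theorem tDvs; terms with the index). Uses: Smb2.
Proof. C = U + 10 + 4A(1 + A)^8. For d ∈ S, with e = d: m = index satisfies m L^C ≤ indexBound x d ≤ x/d + x^(1/3) (min(d, x²/d) ≤ x, so the cube root
is ≤ x^(1/3); x^(1/4) ≤ x^(1/3); a maximum of nonnegative terms is ≤ their sum without the smallest). log d ≤ A L.
(1/φ(d)) τ(d)² m 2 log d ≤ 2 A L · L^(-C) (x/d + x^(1/3)) τ(d)²/φ(d) ≤ 4 A L^(1-C) x τ(d)²/φ(d) (d ≥ 1, x^(1/3) ≤ x). Sum by Smb2: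
≤ 4 A L^(1-C) x (1 + A L)^8 ≤ 4 A (1+A)^8 x L^(9-C). -/
def DvsStmt : Prop :=
  ∀ A U : ℝ, 0 < A → 0 < U → ∃ C : ℝ, 0 < C ∧ ∀ (x : ℝ) (S : Finset ℕ) (m : ℕ → ℝ), 3 ≤ x →
    (∀ d ∈ S, 1 ≤ d ∧ (d : ℝ) ≤ x ^ A ∧ 0 ≤ m d ∧ m d * (Real.log x) ^ C ≤ indexBound x d) →
    ∑ d ∈ S, (1 / (d.totient : ℝ)) * ((d.divisors.card : ℝ) ^ 2 * (m d * (2 * Real.log d))) ≤
      C * (x / (Real.log x) ^ U)

/-- Module Trc (theorem tTrc; the trivial character). Uses: MtmStmt, TotStmt (SpecD, SpecA / B of Lib/BV).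
Proof. Mtm with A = U + 2: |npr y - li y| ≤ C x/L^(U+2). 2 log d ≤ 2 A L ≤ C x/L^(U+2) (x ≥ 16; L^(U+3)/x is bounded). Tot with
D = ⌊x^A⌋: ∑_{d ∈ S} 1/φ(d) ≤ (1 + A L)² ≤ (1+A)² L². -/
def TrcStmt : Prop :=
  ∀ A U : ℝ, 0 < A → 0 < U → ∃ C : ℝ, 0 < C ∧ ∀ (x : ℝ) (S : Finset ℕ) (y : ℕ → ℝ), 16 ≤ x →
    (∀ d ∈ S, 1 ≤ d ∧ (d : ℝ) ≤ x ^ A ∧ 2 ≤ y d ∧ y d ≤ x) →
    ∑ d ∈ S, (1 / (d.totient : ℝ)) * (|npr (y d) - li (y d)| + 2 * Real.log d) ≤ C * (x / (Real.log x) ^ U)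

/-- Module Asm (theorem tAsm; the final theorem). Uses: Orh, Cls, Pw, LpcStmt (SpecL of Lib/BV), Lrg, Sml, Dvs, Trc.
Proof. B from Sml (for A, U), constants C1 (Sml), C2, x2 (Lrg for A, B, U), C3 (Dvs), C4 (Trc), x0 = the maximum of 16, x1, x2.
x ≥ x0, and C ≥ C2, C3 (so that (log x)^C ≥ (log x)^C2 etc., log x ≥ 1): for every d ∈ S Pw with R = √x/(log x)^B. In the last sum
‖PC χ Y‖ ≤ ‖PC χ* Y‖ + 2 log d (Lpc), and the number of χ is ≤ card XX = index. The inner double sum is split: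
∑_{e} ∑_{b | e} index 2 log d ≤ τ(d)² index 2 log d (e | d, e.divisors ⊆ d.divisors). Since τ(d)² ≥ 1 the terms
index 2 log d of Lpc are also ≤ τ(d)² index 2 log d. So the sum over d ∈ S is at most Trc + Sml + 2 Dvs + Lrg.
3 ≤ x < x0: |cosetErr| ≤ maxErr ≤ 2 y d ≤ 2 x0 (Cls, EH.maxErr_le), S has at most x0^A elements, and x/(log x)^U ≥
3/(log x0)^U (log x ≥ 1): choose C ≥ 2 x0^(A+1) (log x0)^U. The final C is the maximum (or the sum) of all the constants; note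
that a larger C only makes the hypothesis stronger and the conclusion weaker (log x ≥ 1 as x ≥ 3 > e). -/
def AsmStmt : Prop :=
  ∀ A U : ℝ, 0 < A → 0 < U → ∃ C : ℝ, ∀ (x : ℝ) (S : Finset ℕ) (H : (d : ℕ) → Subgroup (ZMod d)ˣ)
    (l : (d : ℕ) → (ZMod d)ˣ) (y : ℕ → ℝ), 3 ≤ x →
    (∀ d ∈ S, 1 ≤ d ∧ (d : ℝ) ≤ x ^ A ∧ 2 ≤ y d ∧ y d ≤ x ∧
      ∀ e : ℕ, e ∣ d → ((H d).index : ℝ) * (Real.log x) ^ C ≤ indexBound x e) →
    ∑ d ∈ S, |cosetErr (y d) d (H d) (l d)| ≤ C * (x / (Real.log x) ^ U)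

end Pool.Agent.Lib.CO
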