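import Pool.Agent.Lib.CO.Spec
import Pool.Agent.Lib.CO.DefsV

/-!
MP_00e23e_nt, directory Lib/CO, part V (architect helper9): the index up to x^(3/10) (instead of x^(1/4)) for all
moduli d ≤ x^(11/10). New input: for conductors between x^(7/10) and x^(9/10) Vaughan's identity and THIRD moments
|M N|^3 = |M² N| |M N²| of the bilinear pieces (neither first nor second powers of the prime polynomial reach
x^(3/10) there), the Polya-Vinogradov inequality for the type I sums, and an exact separation of the variables in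
m n ≤ Y by dyadic blocks, uniform in Y.
Rules as in Spec.lean: module X is the file Pool/Agent/Lib/CO/X.lean, first line
`import Pool.Agent.Lib.CO.SpecV`, namespace Pool.Agent.Lib.CO,
`open Finset Pool.Agent.Lib.BV Pool.Agent.Results.MP_00e23e_nt`, final theorem `theorem tX (h1 : ..) ... : XStmt`.
-/

namespace Pool.Agent.Lib.CO

open Finset Pool.Agent.Lib.BV Pool.Agent.Results.MP_00e23e_nt

/-- Vaughan's coefficient: sum of μ(r) Λ(s) over r s = b, r ≤ z, s ≤ z -/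
noncomputable def vg (z b : ℕ) : ℝ :=
  ∑ w ∈ b.divisorsAntidiagonal,
    if w.1 ≤ z ∧ w.2 ≤ z then (ArithmeticFunction.moebius w.1 : ℝ) * ArithmeticFunction.vonMangoldt w.2 else 0

/-- Vaughan's coefficient: sum of μ(r) over r | m, r > z -/
noncomputable def vh (z m : ℕ) : ℝ :=
  ∑ r ∈ m.divisors, if z < r then (ArithmeticFunction.moebius r : ℝ) else 0

/-- Λ(n) for n > z -/
noncomputable def vl (z n : ℕ) : ℝ := if z < n then ArithmeticFunction.vonMangoldt n else 0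

/-- the sum of a over the dyadic block (i 2^j, (i+1) 2^j] -/
noncomputable def BS (a : ℕ → ℂ) (j i : ℕ) : ℂ := ∑ m ∈ Ioc (i * 2 ^ j) ((i + 1) * 2 ^ j), a m

/-- the sum of the squares of the block sums of level j in (0, 2^J] -/
noncomputable def VV (a : ℕ → ℂ) (J j : ℕ) : ℝ := ∑ i ∈ range (2 ^ (J - j)), ‖BS a j i‖ ^ 2

/-- a times χ -/
noncomputable def tw (a : ℕ → ℂ) {q : ℕ} (χ : DirichletCharacter ℂ q) (m : ℕ) : ℂ := a m * χ (m : ZMod q)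

/-- bilinear form on the box [M, 2M) × [N, 2N) with the condition m n ≤ Y -/
noncomputable def BL (a b : ℕ → ℂ) (M N Y : ℕ) {q : ℕ} (χ : DirichletCharacter ℂ q) : ℂ :=
  ∑ m ∈ Ico M (2 * M), ∑ n ∈ (Ico N (2 * N)).filter (fun n => m * n ≤ Y), tw a χ m * tw b χ n

/-- the sum of Λ(n) χ(n), n ≤ Y -/
noncomputable def PS {q : ℕ} (χ : DirichletCharacter ℂ q) (Y : ℕ) : ℂ :=
  ∑ n ∈ Icc 1 Y, ((ArithmeticFunction.vonMangoldt n : ℝ) : ℂ) * χ (n : ZMod q)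

/-! ### Vaughan's identity and type I sums -/

/-- Module Vau (theorem tVau; Vaughan's identity). Uses: nothing.
Proof. For n ≥ 1 the numbers A = [n ≤ z] Λ(n), B = ∑_{b c = n, b ≤ z} μ(b) log c, C = ∑_{b c = n} vg z b,
D = ∑_{m s = n} vh z m vl z s satisfy Λ(n) = A + B - C + D: with μ = μ_≤ + μ_>, Λ = Λ_≤ + Λ_> (cut at z), convolution
identities μ * 1 = [n = 1], Λ * 1 = log give D = (μ_> * 1) * Λ_> = (μ - μ_≤) * 1 * (Λ - Λ_≤) =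
Λ - Λ_≤ - μ_≤ * log + μ_≤ * Λ_≤ * 1 (ArithmeticFunction: vonMangoldt_mul_zeta, moebius_mul_coe_zeta,
vonMangoldt * ζ = log; work in the ring ArithmeticFunction ℝ). Multiply by f(n), f multiplicative for all pairs, sum over
1 ≤ n ≤ Y and exchange the sums (pairs b c ≤ Y: c ≤ Y/b); vg z b = 0 for b > z² so the sum over b may be restricted to
b ≤ z² (for z² > Y the inner sums are empty). -/
def VauStmt : Prop :=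
  ∀ (z Y : ℕ) (f : ℕ → ℂ), 1 ≤ z → (∀ m n : ℕ, f (m * n) = f m * f n) →
    ∑ n ∈ Icc 1 Y, ((ArithmeticFunction.vonMangoldt n : ℝ) : ℂ) * f n =
      ∑ n ∈ (Icc 1 Y).filter (fun n => n ≤ z), ((ArithmeticFunction.vonMangoldt n : ℝ) : ℂ) * f n +
      ∑ b ∈ Icc 1 z, ((ArithmeticFunction.moebius b : ℝ) : ℂ) * f b *
        ∑ c ∈ Icc 1 (Y / b), ((Real.log c : ℝ) : ℂ) * f c -
      ∑ b ∈ Icc 1 (z ^ 2), ((vg z b : ℝ) : ℂ) * f b * ∑ c ∈ Icc 1 (Y / b), f c +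
      ∑ m ∈ Icc 1 Y, ∑ n ∈ Icc 1 (Y / m), (((vh z m : ℝ) : ℂ) * f m) * (((vl z n : ℝ) : ℂ) * f n)

/-- Module Vgb (theorem tVgb; bounds for the coefficients). Uses: nothing.
Proof. |vg z b| ≤ ∑_{s | b} Λ(s) = log b (ArithmeticFunction.vonMangoldt_sum, |μ| ≤ 1, Λ ≥ 0); b > z²: r s = b excludes
r, s ≤ z. |vh z m| ≤ number of divisors; m ≤ z: no divisor r > z. -/
def VgbStmt : Prop :=
  ∀ z b : ℕ, 1 ≤ b → |vg z b| ≤ Real.log b ∧ (z ^ 2 < b → vg z b = 0) ∧ |vh z b| ≤ (b.divisors.card : ℝ) ∧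
    (b ≤ z → vh z b = 0) ∧ 0 ≤ vl z b ∧ vl z b ≤ Real.log b

/-- Module Pv (theorem tPv; Polya-Vinogradov). Uses: GauStmt (SpecA of Lib/BV).
Proof. By Gau χ(n) G = ∑_{b < q, (b,q)=1} χ⁻¹(b) e(n b/q), |G|² = q. Sum over 1 ≤ n ≤ N: the geometric sum
∑_{n ≤ N} e(n b/q) has norm ≤ 1/|sin(π b/q)| ≤ q/(2 min(b, q-b)) (ee is e(t) = exp(2 π i t), see EH3.LS1;
|sin(π t)| ≥ 2t for 0 ≤ t ≤ 1/2). So √q |∑ χ(n)| ≤ ∑_{b=1}^{q-1} q/(2 min(b, q-b)) ≤ q ∑_{b ≤ q/2} 1/b ≤ q (1 + log q)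
(harmonic_le_one_add_log). Second part: Abel summation ∑_{n ≤ N} log n χ(n) = log N S(N) - ∑_{n<N} S(n) (log(n+1) - log n),
the total is ≤ 2 log N max |S|. -/
def PvStmt : Prop :=
  ∀ (q N : ℕ) (χ : DirichletCharacter ℂ q), 2 ≤ q → χ.IsPrimitive →
    ‖∑ n ∈ Icc 1 N, χ (n : ZMod q)‖ ≤ Real.sqrt q * (1 + Real.log q) ∧
    ‖∑ n ∈ Icc 1 N, ((Real.log n : ℝ) : ℂ) * χ (n : ZMod q)‖ ≤ 2 * Real.log N * (Real.sqrt q * (1 + Real.log q))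

/-- Module Dcp (theorem tDcp; decomposition of the sum of Λ χ). Uses: Vau, Vgb, Pv.
Proof. z = ⌊x^(1/5)⌋ ≥ 1, z1 = ⌊x^(1/4)⌋ ≥ z, L = log x ≥ 1, V = √q (1 + log q) ≥ 1, f = χ in Vau, four sums. First: at most
z terms ≤ L: ≤ x^(1/4) L V. Second: Pv: ≤ z 2 L V ≤ 2 x^(1/4) L V. Third, b ≤ z1: |vg| ≤ log b ≤ L: ≤ x^(1/4) L V. Third, z1 < b ≤ z²:
this is ∑_{m} ∑_{n ≤ Y/m} a2 m χ(m) χ(n) with a2 m = [z1 < m] vg z m, cut into the boxes [2^i, 2^(i+1)) × [2^j, 2^(j+1)),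
i, j < J (m, n ≤ Y ≤ x < 2^J). A box with 2^i 2^j > x is empty (m n ≤ Y ≤ x). A nonzero term has m ≥ z1 + 1 > x^(1/4), so
n ≤ x/m < x^(3/4) and 2^j ≤ n ≤ x^(4/5); m ≤ z² ≤ x^(2/5) (vg = 0 otherwise), 2^i ≤ x^(4/5). Fourth: the same with vh z m
(m ≥ z + 1 > x^(1/5)) and vl z n (n ≥ z + 1 > x^(1/5)), so m, n < x^(4/5). -/
def DcpStmt : Prop :=
  ∀ (x : ℝ) (q Y J : ℕ) (χ : DirichletCharacter ℂ q), 3 ≤ x → 2 ≤ q → χ.IsPrimitive → (Y : ℝ) ≤ x →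
    x < (2 : ℝ) ^ J →
    ‖PS χ Y‖ ≤ 4 * (x ^ ((1 : ℝ) / 4) * Real.log x * (Real.sqrt q * (1 + Real.log q))) +
      ∑ i ∈ range J, ∑ j ∈ range J,
        if (2 : ℝ) ^ i ≤ x ^ ((4 : ℝ) / 5) ∧ (2 : ℝ) ^ j ≤ x ^ ((4 : ℝ) / 5) ∧ (2 : ℝ) ^ i * 2 ^ j ≤ x then
          ‖BL (fun m => ((vh ⌊x ^ ((1 : ℝ) / 5)⌋₊ m : ℝ) : ℂ)) (fun n => ((vl ⌊x ^ ((1 : ℝ) / 5)⌋₊ n : ℝ) : ℂ))
              (2 ^ i) (2 ^ j) Y χ‖ +
            ‖BL (fun m => if ⌊x ^ ((1 : ℝ) / 4)⌋₊ < m then ((vg ⌊x ^ ((1 : ℝ) / 5)⌋₊ m : ℝ) : ℂ) else 0)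
              (fun _ => 1) (2 ^ i) (2 ^ j) Y χ‖
        else 0

/-! ### Separation of the variables -/

/-- Module Ivd (theorem tIvd; intervals as unions of dyadic blocks). Uses: nothing.
Proof. Induction on J. J = 0: v ≤ 1, the interval is empty or (0, 1] (level 0, i = 0). Step J + 1, u < v (u = v: all s empty):
s 0 contains i = u if u is odd (the element u + 1) and i = v - 1 if v is odd (the element v); they are different as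
u < v and, if equal to the same i = u = v - 1, u odd and v odd is impossible. Put u' = ⌈u/2⌉, v' = ⌊v/2⌋ ≤ 2^J; u' ≤ v' (if u is odd
and v = u + 1 then u' = v'). The remaining interval (2u', 2v'] is handled by induction with f'(n) = f(2n-1) + f(2n), for which
BS f' j i = BS f (j+1) i: s (j+1) = s' j. -/
def IvdStmt : Prop :=
  ∀ J u v : ℕ, u ≤ v → v ≤ 2 ^ J → ∃ s : ℕ → Finset ℕ, (∀ j, (s j).card ≤ 2) ∧
    (∀ j, ∀ i ∈ s j, u ≤ i * 2 ^ j ∧ (i + 1) * 2 ^ j ≤ v) ∧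
    ∀ f : ℕ → ℂ, ∑ n ∈ Ioc u v, f n = ∑ j ∈ range (J + 1), ∑ i ∈ s j, BS f j i

/-- Module Sep (theorem tSep; separation of variables, uniform in Y). Uses: Ivd.
Proof. t(m) = min(2^J, Y/m) (natural division), non-increasing in m ≥ 1; the left side is the norm of
∑_{m} A m ∑_{n ∈ Ioc 0 t(m)} B n. Canonical decomposition of initial intervals: ∑_{n ∈ Ioc 0 t} B n = ∑_{j ≤ J} δ_j(t) BS B j (i_j(t)),
δ_j(t) = the j-th binary digit of t, i_j(t) = 2 ⌊t/2^(j+1)⌋ (t ≤ 2^J; by induction as in module Chn of Spec.lean). For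
fixed j and i the set {m ∈ [1,2^J] : δ_j(t(m)) = 1, i_j(t(m)) = i} = {m : (i+1) 2^j ≤ t(m) < (i+2) 2^j} (i even) is an
interval Ioc u_i v_i (t is monotone), and for different i these intervals are disjoint. So the sum is
∑_{j ≤ J} ∑_i BS B j i ∑_{m ∈ Ioc u_i v_i} A m, and by Ivd ∑_{m ∈ Ioc u_i v_i} A m = ∑_{j' ≤ J} ∑_{i' ∈ s_(j,i) j'} BS A j' i', at most two
i' per level, blocks inside Ioc u_i v_i, hence for fixed j, j' the sets s_(j,i) j' of different i are disjoint (blocks are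
nonempty). Cauchy-Schwarz: ∑_i |BS B j i| ∑_{i' ∈ s} |BS A j' i'| ≤ (VV B J j)^(1/2) (∑_i 2 ∑_{i' ∈ s} |BS A j' i'|²)^(1/2) ≤
2 (VV B J j)^(1/2) (VV A J j')^(1/2). (i < 2^(J-j) for the i that occur, i' < 2^(J-j') as the blocks lie in (0, 2^J].) -/
def SepStmt : Prop :=
  ∀ (J Y : ℕ) (A B : ℕ → ℂ),
    ‖∑ m ∈ Icc 1 (2 ^ J), ∑ n ∈ (Icc 1 (2 ^ J)).filter (fun n => m * n ≤ Y), A m * B n‖ ≤
      2 * ∑ j ∈ range (J + 1), ∑ k ∈ range (J + 1), Real.sqrt (VV A J k) * Real.sqrt (VV B J j)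

/-! ### Third moments -/

/-- Module Tau (theorem tTau). Uses: nothing (compare module Smb2).
Proof. Induction on j: ∑_{n ≤ X} τ(n)^j/n ≤ (1 + log X)^(2^j) (j = 0: harmonic_le_one_add_log; step: τ(n)^(j+1)/n =
∑_{a b = n} τ(a b)^j/(a b), τ(a b) ≤ τ(a) τ(b)), then τ(n)^j ≤ X τ(n)^j/n for n ≤ X. -/
def TauStmt : Prop :=
  ∀ j X : ℕ, 1 ≤ X → ∑ n ∈ Icc 1 X, (n.divisors.card : ℝ) ^ j ≤ (X : ℝ) * (1 + Real.log X) ^ (2 ^ j)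

/-- Module Cub (theorem tCub; third moments by the large sieve). Uses: LsmStmt (SpecA of Lib/BV), Tau.
Proof. (VV (tw a χ) J j)² VV (tw b χ) J k = ∑ over (i1, i2, i3) of |BS (tw a χ) j i1 · BS (tw a χ) j i2 · BS (tw b χ) k i3|², and the
product of the three sums is ∑_n c(n) χ(n), c(n) = c_{i1,i2,i3}(n) = the sum of a(m1) a(m2) b(n1) over m1 m2 n1 = n with m1, m2, n1
in the blocks; n ≤ 2M · 2M · 2N = 8 M² N =: X. Lsm with N = X: the left side is ≤ 20 (X + Q²) ∑_{i1,i2,i3} ∑_n |c(n)|² ≤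
20 (X + Q²) ∑_n (∑_{i1,i2,i3} |c(n)|)² ≤ 20 (X + Q²) ∑_n (∑_{m1 m2 n1 = n} |a(m1)| |a(m2)| |b(n1)|)² (blocks of one level are
disjoint). The inner sum is ≤ Lc³ τ(n)³ τ(n)² (τ of a divisor of n is ≤ τ(n), and the number of (m1, m2) with m1 | n,
m2 | n is ≤ τ(n)²), so ∑_n ≤ Lc^6 ∑_{n ≤ X} τ(n)^10 ≤ Lc^6 X (1 + log X)^1024 by Tau. -/
def CubStmt : Prop :=
  ∀ (Q J j k M N : ℕ) (a b : ℕ → ℂ) (Lc : ℝ), 1 ≤ Q → 1 ≤ M → 1 ≤ N → 0 ≤ Lc →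
    (∀ m, a m ≠ 0 → 1 ≤ m ∧ m ≤ 2 * M) → (∀ n, b n ≠ 0 → 1 ≤ n ∧ n ≤ 2 * N) →
    (∀ m, ‖a m‖ ≤ Lc * (m.divisors.card : ℝ)) → (∀ n, ‖b n‖ ≤ Lc * (n.divisors.card : ℝ)) →
    ∑ q ∈ Icc 2 Q, (q : ℝ) / (q.totient : ℝ) *
        ∑ χ ∈ prim q, (VV (tw a χ) J j) ^ 2 * VV (tw b χ) J k ≤
      20 * (8 * (M : ℝ) ^ 2 * N + (Q : ℝ) ^ 2) *
        (Lc ^ 6 * (8 * (M : ℝ) ^ 2 * N * (1 + Real.log (8 * (M : ℝ) ^ 2 * N)) ^ 1024))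

/-- Module Hlt (theorem tHlt; Hoelder). Uses: Hol.
Proof. h = √u √v. Hol with n = 3: (∑ w h)³ ≤ (∑ w)² ∑ w h³, h³ = √(u² v) √(u v²), Cauchy-Schwarz: (∑ w h³)² ≤
(∑ w u² v) (∑ w u v²). Square the first inequality. -/
def HltStmt : Prop :=
  ∀ (ι : Type) (s : Finset ι) (w u v : ι → ℝ), (∀ i ∈ s, 0 ≤ w i) → (∀ i ∈ s, 0 ≤ u i) → (∀ i ∈ s, 0 ≤ v i) →
    (∑ i ∈ s, w i * (Real.sqrt (u i) * Real.sqrt (v i))) ^ 6 ≤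
      (∑ i ∈ s, w i) ^ 4 * ((∑ i ∈ s, w i * (u i ^ 2 * v i)) * ∑ i ∈ s, w i * (v i ^ 2 * u i))

/-- Module Box (theorem tBox; one box of the bilinear sums). Uses: Trs, Sep, Cub, Hlt.
Proof. L = log x ≥ 1, D = ⌊x^A⌋ ≥ 1. Replace a, b by their restrictions a', b' to Ico M 2M, Ico N 2N. J = the least number with
2M ≤ 2^J and 2N ≤ 2^J; 2^J ≤ 4 x, J + 1 ≤ 6 L. BL is the sum of Sep with A = tw a' χ*, B = tw b' χ* (terms outside the box are 0), so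
‖BL‖ ≤ 2 ∑_{j,k ≤ J} √(VV (tw a' χ*) J k) √(VV (tw b' χ*) J j). For fixed j, k Hlt with the pairs (d, χ), w = 1/φ(d):
∑ w ≤ B (1 + log D)² (tTot), and ∑ w u² v ≤ (1 + log D)² (1/E) ∑_{q ∈ Icc 2 (2E)} (q/φ(q)) ∑_prim u² v by Trs (c e = (E < e ∧ e ≤ 2E);
for q > E: 1/φ(q) ≤ (1/E) q/φ(q)); Cub with Q = 2E, Lc = 2 L, once for (a', b') and once for (b', a'). With 8 M² N, 8 M N² ≤ 8 x²
and 1 + log D ≤ (1 + A) L, 1 + log(8 x²) ≤ 6 L: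
T_(j,k)^6 ≤ (B (1+A)² L²)^4 ((1+A)² L²)² E^(-2) 400 (8M²N + 4E²)(8MN² + 4E²) (2L)^12 64 (MN)³ (6L)^2048, and
(8M²N + 4E²)(8MN² + 4E²) = 64 (MN)³ + 32 E² MN (M+N) + 16 E⁴ ≤ 64 (x³ + E² x^(9/5) + E⁴) (M + N ≤ 2 x^(4/5)), (MN)³ ≤ x³. Take the
sixth root and multiply by 2 (J+1)² ≤ 72 L². -/
def BoxStmt : Prop :=
  ∀ A : ℝ, 0 < A → ∃ c C1 : ℝ, 0 < c ∧ 0 < C1 ∧ ∀ (x B : ℝ) (E M N : ℕ) (S : Finset ℕ)
    (X : (d : ℕ) → Finset (DirichletCharacter ℂ d)) (Y : ℕ → ℕ) (a b : ℕ → ℂ), 3 ≤ x → 0 ≤ B → 1 ≤ E →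
    1 ≤ M → 1 ≤ N → (M : ℝ) ≤ x ^ ((4 : ℝ) / 5) → (N : ℝ) ≤ x ^ ((4 : ℝ) / 5) → (M : ℝ) * N ≤ x →
    (∀ m ∈ Ico M (2 * M), ‖a m‖ ≤ 2 * Real.log x * (m.divisors.card : ℝ)) →
    (∀ n ∈ Ico N (2 * N), ‖b n‖ ≤ 2 * Real.log x * (n.divisors.card : ℝ)) →
    (∀ d ∈ S, 1 ≤ d ∧ (d : ℝ) ≤ x ^ A) →
    (∀ d ∈ S, ∀ χ ∈ X d, E < χ.conductor ∧ χ.conductor ≤ 2 * E) → (∀ d ∈ S, ((X d).card : ℝ) ≤ B) →
    ∑ d ∈ S, (1 / (d.totient : ℝ)) * ∑ χ ∈ X d, ‖BL a b M N (Y d) χ.primitiveCharacter‖ ≤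
      C1 * (Real.log x) ^ c * (B ^ ((2 : ℝ) / 3) * x ^ ((1 : ℝ) / 2) *
        (x ^ 3 / (E : ℝ) ^ 2 + x ^ ((9 : ℝ) / 5) + (E : ℝ) ^ 2) ^ ((1 : ℝ) / 6))

/-! ### From Λ to primes, and the middle range -/

/-- Module Abl (theorem tAbl; from Λ to primes, with the maximum over Y inside). Uses: nothing.
Proof. θ(χ, Y) = ∑_{p ≤ Y} log p χ(p). |PS χ Y - θ(χ, Y)| ≤ ∑_{n ≤ Y, n not prime} Λ(n) = ψ(Y) - θ(Y) ≤ C0 √Y log Y (Mathlib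
Chebyshev file: psi - theta, e.g. Chebyshev.abs_psi_sub_theta_le_sqrt_mul_log, or crude: prime powers p^k, k ≥ 2).
Abel: for Y ≥ 2 PC χ Y = θ(χ,Y)/log Y + ∑_{n=2}^{Y-1} θ(χ,n) (1/log n - 1/log(n+1)) (Y ≤ 1: PC = 0). So with
δ_n = 1/log n - 1/log(n+1) ≥ 0, ∑ δ_n ≤ 1/log 2: ∑ w ‖PC χ* (Y d)‖ ≤ (1/log 2) ∑ w |θ(χ*, Y d)| +
∑_{2 ≤ n ≤ Xm} δ_n ∑_{d, n < Y d} w |θ(χ*, n)|, and each of these sums over (d, χ) is ≤ G' := G + C0 √Xm log Xm ∑ w (take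
Y' d = Y d, resp. Y' d = n if n < Y d and 0 otherwise, PS χ 0 = 0). Total ≤ (2/log 2) G' ≤ 3 G'. -/
def AblStmt : Prop :=
  ∃ C0 : ℝ, 0 < C0 ∧ ∀ (S : Finset ℕ) (X : (d : ℕ) → Finset (DirichletCharacter ℂ d)) (G : ℝ) (Xm : ℕ)
    (Y : ℕ → ℕ), (∀ d ∈ S, Y d ≤ Xm) →
    (∀ Y' : ℕ → ℕ, (∀ d ∈ S, Y' d ≤ Xm) →
      ∑ d ∈ S, (1 / (d.totient : ℝ)) * ∑ χ ∈ X d, ‖PS χ.primitiveCharacter (Y' d)‖ ≤ G) →
    ∑ d ∈ S, (1 / (d.totient : ℝ)) * ∑ χ ∈ X d, ‖PC χ.primitiveCharacter (Y d)‖ ≤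
      3 * (G + C0 * (Real.sqrt Xm * Real.log Xm) * ∑ d ∈ S, (1 / (d.totient : ℝ)) * ((X d).card : ℝ))

/-- Module Mid (theorem tMid; the middle range). Uses: Vgb, Dcp, Box, Abl.
Proof. L = log x ≥ 1. Abl with Xm = ⌊x⌋, Y d = ⌊y d⌋. For every Y' ≤ Xm: Dcp with q = conductor of χ (2 ≤ q ≤ 2E, the primitive
character is primitive), J = the least with x < 2^J (J ≤ 3 L). ∑ w ≤ B (1 + log D)² ≤ B (1+A)² L² (tTot). First term of Dcp: √q ≤ √(2E),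
1 + log q ≤ 1 + log(x^A) ≤ (1+A) L (q ≤ d ≤ x^A): total ≤ C L^5 B x^(1/4) E^(1/2). Boxes: at most J² of them, for each
Box with the two pairs of coefficients: |vh| ≤ τ, |vl| ≤ log n ≤ log(2 x^(4/5)) ≤ 2 L, |vg| ≤ log m ≤ 2 L, 1 ≤ 2 L τ (Vgb; τ ≥ 1).
The term of Abl: C0 √x L ∑ w ≤ C L^3 B x^(1/2). -/
def MidStmt : Prop :=
  ∀ A : ℝ, 0 < A → ∃ c C1 : ℝ, 0 < c ∧ 0 < C1 ∧ ∀ (x B : ℝ) (E : ℕ) (S : Finset ℕ)
    (X : (d : ℕ) → Finset (DirichletCharacter ℂ d)) (y : ℕ → ℝ), 3 ≤ x → 0 ≤ B → 1 ≤ E →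
    (∀ d ∈ S, 1 ≤ d ∧ (d : ℝ) ≤ x ^ A ∧ 0 ≤ y d ∧ y d ≤ x) →
    (∀ d ∈ S, ∀ χ ∈ X d, E < χ.conductor ∧ χ.conductor ≤ 2 * E) → (∀ d ∈ S, ((X d).card : ℝ) ≤ B) →
    ∑ d ∈ S, (1 / (d.totient : ℝ)) * ∑ χ ∈ X d, ‖PC χ.primitiveCharacter ⌊y d⌋₊‖ ≤
      C1 * (Real.log x) ^ c * (B ^ ((2 : ℝ) / 3) * x ^ ((1 : ℝ) / 2) *
          (x ^ 3 / (E : ℝ) ^ 2 + x ^ ((9 : ℝ) / 5) + (E : ℝ) ^ 2) ^ ((1 : ℝ) / 6) +
        B * (x ^ ((1 : ℝ) / 4) * (E : ℝ) ^ ((1 : ℝ) / 2) + x ^ ((1 : ℝ) / 2)))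

/-! ### Parameters and assembly -/

/-- Module Kcv (theorem tKcv; the choice of the method). Uses: Kch.
Proof. K = max(K of Kch, 2). indexBd x e is the maximum of x/e, min(e, x²/e)^(1/3) and [x^(3/10) or x^(1/4)]. If
m L^(C+2B) ≤ x/e or ≤ min(..)^(1/3) or (e > x^(11/10) and ≤ x^(1/4)), then m L^(C+2B) ≤ indexBound x e and Kch applies. Otherwise
e ≤ x^(11/10) and m L^(C+2B) ≤ x^(3/10). If e ≤ x^(7/10): k = 1: m L^C ≤ x^(3/10) ≤ x/e and m L^C ≤ x^(3/10) L^(-2B) ≤ √x L^(-B) ≤ e.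
If x^(7/10) < e ≤ x^(9/10): the second alternative. If x^(9/10) < e ≤ x^(11/10): k = 2: m³ L^C ≤ (m L^(C+2B))³ ≤ x^(9/10) ≤ e, x²/e. -/
def KcvStmt : Prop :=
  ∀ A : ℝ, 0 < A → ∃ K : ℕ, 1 ≤ K ∧ ∀ C B x e m L : ℝ, 0 ≤ C → 0 ≤ B → 3 ≤ x → 1 ≤ L → 0 ≤ m → 1 ≤ e →
    Real.sqrt x / L ^ B ≤ e → e ≤ x ^ A → L ^ B ≤ x ^ ((1 : ℝ) / 4) → m * L ^ (C + 2 * B) ≤ indexBd x e →
    (∃ k : ℕ, 1 ≤ k ∧ k ≤ K ∧ m ^ (2 * k - 1) * L ^ C ≤ min e (x ^ k / e)) ∨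
    (x ^ ((7 : ℝ) / 10) ≤ e ∧ e ≤ x ^ ((9 : ℝ) / 10) ∧ m * L ^ C ≤ x ^ ((3 : ℝ) / 10))

/-- Module Lrv (theorem tLrv; all large conductors, form with indexBd). Uses: Orh, Kcv, Rtk, Mid.
Proof. As LrgStmt (module Lrg; copy its proof), with one more class κ(d,e) = mid. For the class mid and E = 2^j: some e ∈ (E, 2E] with
x^(7/10) ≤ e ≤ x^(9/10) (otherwise the class is empty), so x^(7/10)/2 ≤ E ≤ x^(9/10); card X d ≤ index ≤ B0 := x^(3/10) L^(-C'); Mid: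
≤ C1 L^c (L^(-2C'/3) x^(1/5) x^(1/2) (4 x^(8/5) + 2 x^(9/5))^(1/6) + L^(-C') x^(3/10) (x^(1/4) x^(9/20) + x^(1/2))) ≤ 4 C1 L^(c - 2C'/3) x.
C' = max(2K(U + 5), (3/2)(c + U + 5)). -/
def LrvStmt : Prop :=
  ∀ A B U : ℝ, 0 < A → 0 < B → 0 < U → ∃ C x0 : ℝ, 0 < C ∧ 3 ≤ x0 ∧ ∀ (x : ℝ) (S : Finset ℕ)
    (H : (d : ℕ) → Subgroup (ZMod d)ˣ) (y : ℕ → ℝ), x0 ≤ x →
    (∀ d ∈ S, 1 ≤ d ∧ (d : ℝ) ≤ x ^ A ∧ 2 ≤ y d ∧ y d ≤ x ∧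
      ∀ e : ℕ, e ∣ d → ((H d).index : ℝ) * (Real.log x) ^ C ≤ indexBd x e) →
    ∑ d ∈ S, (1 / (d.totient : ℝ)) *
      ∑ χ ∈ (XX d (H d)).filter
          (fun χ => 1 < χ.conductor ∧ Real.sqrt x / (Real.log x) ^ B < (χ.conductor : ℝ)),
        ‖PC χ.primitiveCharacter ⌊y d⌋₊‖ ≤ C * (x / (Real.log x) ^ U)

/-- Module Dvv (theorem tDvv; terms with the index, form with indexBd). Uses: Smb2.
Proof. As DvsStmt (module Dvs; copy its proof): indexBd x d ≤ x/d + x^(1/3) because x^(3/10), x^(1/4) ≤ x^(1/3). -/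
def DvvStmt : Prop :=
  ∀ A U : ℝ, 0 < A → 0 < U → ∃ C : ℝ, 0 < C ∧ ∀ (x : ℝ) (S : Finset ℕ) (m : ℕ → ℝ), 3 ≤ x →
    (∀ d ∈ S, 1 ≤ d ∧ (d : ℝ) ≤ x ^ A ∧ 0 ≤ m d ∧ m d * (Real.log x) ^ C ≤ indexBd x d) →
    ∑ d ∈ S, (1 / (d.totient : ℝ)) * ((d.divisors.card : ℝ) ^ 2 * (m d * (2 * Real.log d))) ≤
      C * (x / (Real.log x) ^ U)

/-- Module Asv (theorem tAsv; the final theorem, form with indexBd). Uses: Orh, Cls, Pw, LpcStmt (SpecL of Lib/BV),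
Lrv, Sml, Dvv, Trc.
Proof. As AsmStmt (module Asm; copy its proof with indexBd, Lrv, Dvv in place of indexBound, Lrg, Dvs). -/
def AsvStmt : Prop :=
  ∀ A U : ℝ, 0 < A → 0 < U → ∃ C : ℝ, ∀ (x : ℝ) (S : Finset ℕ) (H : (d : ℕ) → Subgroup (ZMod d)ˣ)
    (l : (d : ℕ) → (ZMod d)ˣ) (y : ℕ → ℝ), 3 ≤ x →
    (∀ d ∈ S, 1 ≤ d ∧ (d : ℝ) ≤ x ^ A ∧ 2 ≤ y d ∧ y d ≤ x ∧
      ∀ e : ℕ, e ∣ d → ((H d).index : ℝ) * (Real.log x) ^ C ≤ indexBd x e) →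
    ∑ d ∈ S, |cosetErr (y d) d (H d) (l d)| ≤ C * (x / (Real.log x) ^ U)

end Pool.Agent.Lib.CO
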