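import Pool.Agent.Lib.CO.SpecV
import Pool.Agent.Lib.CO.DefsW

/-!
MP_00e23e_nt, directory Lib/CO, part W (architect helper9): the final form, for ALL sets B_d of residue classes that
are invariant under a subgroup H_d (unions of cosets), with the density |B_d|/φ(d) = 1/D_d and the index m_d of H_d as
two parameters. It contains Bombieri-Vinogradov, Barban-Davenport-Halberstam (k = 1, H_d = 1) and the coset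
theorems of parts 1 and V (D = m).
Rules as in Spec.lean: module X is the file Pool/Agent/Lib/CO/X.lean, first line
`import Pool.Agent.Lib.CO.SpecW`, namespace Pool.Agent.Lib.CO,
`open Finset Pool.Agent.Lib.BV Pool.Agent.Results.MP_00e23e_nt`, final theorem `theorem tX (h1 : ..) ... : XStmt`.
Most modules are variants of finished modules of parts 1 and V (named in the docstrings): copy and adapt.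
-/

namespace Pool.Agent.Lib.CO

open Finset Pool.Agent.Lib.BV Pool.Agent.Results.MP_00e23e_nt

/-- the absolute value of the Fourier coefficient of the normalised indicator function of B -/
noncomputable def bet {d : ℕ} (B : Finset (ZMod d)ˣ) (χ : DirichletCharacter ℂ d) : ℝ :=
  ‖∑ b ∈ B, χ ((b⁻¹ : (ZMod d)ˣ) : ZMod d)‖ / (B.card : ℝ)

/-- Module Prv (theorem tPrv; Parseval). Uses: nothing.
Proof. bet ≤ 1: each term has norm ≤ 1. ∑ over all χ mod d of |∑_{b ∈ B} χ(b⁻¹)|² = ∑_{b,b'} ∑_χ χ(b⁻¹) χ(b') =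
φ(d) |B| (DirichletCharacter.sum_char_inv_mul_char_eq; conj χ(b⁻¹) = χ(b), compare Lib/BV/Ort.lean); XX d H is a subset of
all characters; divide by |B|². -/
def PrvStmt : Prop :=
  ∀ (d : ℕ) (H : Subgroup (ZMod d)ˣ) (B : Finset (ZMod d)ˣ), 1 ≤ d → B.Nonempty →
    (∀ χ : DirichletCharacter ℂ d, bet B χ ≤ 1) ∧
    ∑ χ ∈ XX d H, bet B χ ^ 2 ≤ (d.totient : ℝ) / (B.card : ℝ)

/-- Module Pww (theorem tPww; the pointwise inequality for invariant sets; compare module Pw). Uses: Orh, Mob.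
Proof. For b ∈ B by Orh ∑_{χ ∈ XX d H} χ(b⁻¹) PC χ ⌊y⌋ = index · #{p ≤ y : p ∈ b H mod d}. Sum over b ∈ B: a prime p with class
g is counted for the b ∈ B ∩ g H, all of g H if g ∈ B and none otherwise (B is invariant): |H| times if g ∈ B. index |H| =
φ(d). So φ(d) setCount = ∑_b ∑_χ χ(b⁻¹) PC χ ⌊y⌋ and setErr = (1/φ(d)) ((1/|B|) ∑_b ∑_χ χ(b⁻¹) PC χ ⌊y⌋ - li y). Split the χ by the
conductor: conductor 1 is χ = 1, PC 1 ⌊y⌋ = npr y - #{p ≤ y, p | d}. For 1 < e ≤ R and every b ∈ B: Mob with l = b, then the mean over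
b. The others: |(1/|B|) ∑_b χ(b⁻¹)| = bet B χ. -/
def PwwStmt : Prop :=
  ∀ (y R : ℝ) (d : ℕ) (H : Subgroup (ZMod d)ˣ) (B : Finset (ZMod d)ˣ), 2 ≤ y → 1 ≤ d → B.Nonempty →
    (∀ b ∈ B, ∀ h ∈ H, b * h ∈ B) →
    |setErr y d B| ≤ (1 / (d.totient : ℝ)) * (|npr y - li y| + 2 * Real.log d +
      ∑ e ∈ d.divisors.filter (fun e : ℕ => 1 < e ∧ (e : ℝ) ≤ R), ∑ b ∈ e.divisors,
        ((b.totient : ℝ) * maxErr y b + (H.index : ℝ) * (2 * Real.log d)) +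
      ∑ χ ∈ (XX d H).filter (fun χ => 1 < χ.conductor ∧ R < (χ.conductor : ℝ)), bet B χ * ‖PC χ ⌊y⌋₊‖)

/-- Module Blw (theorem tBlw; one dyadic block with weights; compare module Blo). Uses: Chn, Lsk, Trs, Hol.
Proof. t_d = ∑_χ f ‖P‖. For each d: t_d² ≤ (∑ f²) (∑ ‖P‖²) (Cauchy-Schwarz), (∑ ‖P‖²)^k ≤ card^(k-1) ∑ ‖P‖^(2k) (power mean), so
t_d^(2k) ≤ (∑ f²)^k card^(k-1) ∑_χ ‖P‖^(2k) ≤ R ∑_χ ‖P‖^(2k). Hol over d ∈ S with w = 1/φ(d), n = 2k, ∑ w ≤ (1 + log D)²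
(tTot): T^(2k) ≤ (1 + log D)^(4k-2) R ∑_d w ∑_χ ‖P‖^(2k), and the last double sum is bounded as in Blo (Blo_moment: Chn, Trs,
Lsk): J^(2k-1) (1 + log D)² (1/E) 20 ((2^J)^k + 4E²) k! J (2^J)^k. -/
def BlwStmt : Prop :=
  ∀ (D J k E : ℕ) (R : ℝ) (S : Finset ℕ) (X : (d : ℕ) → Finset (DirichletCharacter ℂ d)) (Y : ℕ → ℕ)
    (f : (d : ℕ) → DirichletCharacter ℂ d → ℝ),
    1 ≤ D → S ⊆ Icc 1 D → 1 ≤ k → 1 ≤ E → 0 ≤ R → (∀ d ∈ S, Y d < 2 ^ J) → (∀ d χ, 0 ≤ f d χ) →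
    (∀ d ∈ S, ∀ χ ∈ X d, E < χ.conductor ∧ χ.conductor ≤ 2 * E) →
    (∀ d ∈ S, (∑ χ ∈ X d, f d χ ^ 2) ^ k * ((X d).card : ℝ) ^ (k - 1) ≤ R) →
    (∑ d ∈ S, (1 / (d.totient : ℝ)) * ∑ χ ∈ X d, f d χ * ‖PC χ.primitiveCharacter (Y d)‖) ^ (2 * k) ≤
      R * (1 + Real.log D) ^ (4 * k) * (J : ℝ) ^ (2 * k) *
        (20 * (k.factorial : ℝ) * ((2 : ℝ) ^ J) ^ k) * ((((2 : ℝ) ^ J) ^ k + 4 * (E : ℝ) ^ 2) / E)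

/-- Module Rtw (theorem tRtw; one block with weights, final form; compare module Rtk). Uses: Blw.
Proof. As Rtk with R = L^(-C) min(2E, x^k/E) in place of B0^(2k-1) (for d with X d empty the left side of the hypothesis of
Blw is 0: 0^k = 0). The rest of the computation is the same. -/
def RtwStmt : Prop :=
  ∀ (A : ℝ) (K : ℕ), 0 < A → 1 ≤ K → ∃ C1 : ℝ, 0 < C1 ∧ ∀ (C x : ℝ) (k E : ℕ) (S : Finset ℕ)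
    (X : (d : ℕ) → Finset (DirichletCharacter ℂ d)) (y : ℕ → ℝ) (f : (d : ℕ) → DirichletCharacter ℂ d → ℝ),
    0 ≤ C → 3 ≤ x → 1 ≤ k → k ≤ K → 1 ≤ E → (∀ d χ, 0 ≤ f d χ) →
    (∀ d ∈ S, 1 ≤ d ∧ (d : ℝ) ≤ x ^ A ∧ 0 ≤ y d ∧ y d ≤ x) →
    (∀ d ∈ S, ∀ χ ∈ X d, E < χ.conductor ∧ χ.conductor ≤ 2 * E ∧
      (∑ ψ ∈ X d, f d ψ ^ 2) ^ k * ((X d).card : ℝ) ^ (k - 1) * (Real.log x) ^ C ≤
        min (χ.conductor : ℝ) (x ^ k / χ.conductor)) →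
    ∑ d ∈ S, (1 / (d.totient : ℝ)) * ∑ χ ∈ X d, f d χ * ‖PC χ.primitiveCharacter ⌊y d⌋₊‖ ≤
      C1 * (x * (Real.log x) ^ (3 - C / (2 * K)))

/-- Module Hlw (theorem tHlw; Hoelder inequalities). Uses: Hol.
Proof. (i) h = √u √v. Cauchy-Schwarz: (∑ f h)² ≤ (∑ f²)(∑ h²). (∑ h²)² ≤ (∑ h)(∑ h³) and (∑ h)² ≤ card ∑ h² give
(∑ h²)³ ≤ card (∑ h³)² (if ∑ h² = 0 trivial), and h³ = √(u² v) √(v² u), (∑ h³)² ≤ (∑ u² v)(∑ v² u). (ii) Hol with n = 3: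
(∑ w t)³ ≤ (∑ w)² ∑ w t³, t³ ≤ √R √a √b (t^6 ≤ R a b), (∑ w √a √b)² ≤ (∑ w a)(∑ w b). -/
def HlwStmt : Prop :=
  (∀ (ι : Type) (s : Finset ι) (f u v : ι → ℝ), (∀ i ∈ s, 0 ≤ f i) → (∀ i ∈ s, 0 ≤ u i) → (∀ i ∈ s, 0 ≤ v i) →
    (∑ i ∈ s, f i * (Real.sqrt (u i) * Real.sqrt (v i))) ^ 6 ≤
      (∑ i ∈ s, f i ^ 2) ^ 3 * (s.card : ℝ) * ((∑ i ∈ s, u i ^ 2 * v i) * ∑ i ∈ s, v i ^ 2 * u i)) ∧
  (∀ (ι : Type) (s : Finset ι) (w t a b : ι → ℝ) (R : ℝ), 0 ≤ R → (∀ i ∈ s, 0 ≤ w i) → (∀ i ∈ s, 0 ≤ t i) →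
    (∀ i ∈ s, 0 ≤ a i) → (∀ i ∈ s, 0 ≤ b i) → (∀ i ∈ s, t i ^ 6 ≤ R * (a i * b i)) →
    (∑ i ∈ s, w i * t i) ^ 6 ≤ R * (∑ i ∈ s, w i) ^ 4 * ((∑ i ∈ s, w i * a i) * ∑ i ∈ s, w i * b i))

/-- Module Bxw (theorem tBxw; one box with weights; compare module Box). Uses: Trs, Sep, Cub, Hlw.
Proof. As Box: ‖BL‖ ≤ 2 ∑_{j,k ≤ J} √u √v with u = VV (tw a' χ*) J k, v = VV (tw b' χ*) J j. For fixed j, k and d: t_d =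
∑_χ f √u √v, by Hlw (i) t_d^6 ≤ (∑ f²)³ card (∑_χ u² v)(∑_χ v² u) ≤ R a_d b_d; Hlw (ii) over d with w = 1/φ(d):
T_(j,k)^6 ≤ R (∑ w)^4 (∑ w a_d)(∑ w b_d), ∑ w ≤ (1 + log D)², and ∑_d w a_d, ∑_d w b_d are bounded by Trs and Cub exactly as in Box.
The rest is the same with R in place of B^4. -/
def BxwStmt : Prop :=
  ∀ A : ℝ, 0 < A → ∃ c C1 : ℝ, 0 < c ∧ 0 < C1 ∧ ∀ (x R : ℝ) (E M N : ℕ) (S : Finset ℕ)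
    (X : (d : ℕ) → Finset (DirichletCharacter ℂ d)) (Y : ℕ → ℕ) (a b : ℕ → ℂ)
    (f : (d : ℕ) → DirichletCharacter ℂ d → ℝ), 3 ≤ x → 0 ≤ R → 1 ≤ E →
    1 ≤ M → 1 ≤ N → (M : ℝ) ≤ x ^ ((4 : ℝ) / 5) → (N : ℝ) ≤ x ^ ((4 : ℝ) / 5) → (M : ℝ) * N ≤ x →
    (∀ m ∈ Ico M (2 * M), ‖a m‖ ≤ 2 * Real.log x * (m.divisors.card : ℝ)) →
    (∀ n ∈ Ico N (2 * N), ‖b n‖ ≤ 2 * Real.log x * (n.divisors.card : ℝ)) →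
    (∀ d χ, 0 ≤ f d χ) → (∀ d ∈ S, 1 ≤ d ∧ (d : ℝ) ≤ x ^ A) →
    (∀ d ∈ S, ∀ χ ∈ X d, E < χ.conductor ∧ χ.conductor ≤ 2 * E) →
    (∀ d ∈ S, (∑ χ ∈ X d, f d χ ^ 2) ^ 3 * ((X d).card : ℝ) ≤ R) →
    ∑ d ∈ S, (1 / (d.totient : ℝ)) * ∑ χ ∈ X d, f d χ * ‖BL a b M N (Y d) χ.primitiveCharacter‖ ≤
      C1 * (Real.log x) ^ c * (R ^ ((1 : ℝ) / 6) * x ^ ((1 : ℝ) / 2) *
        (x ^ 3 / (E : ℝ) ^ 2 + x ^ ((9 : ℝ) / 5) + (E : ℝ) ^ 2) ^ ((1 : ℝ) / 6))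

/-- Module Abw (theorem tAbw; from Λ to primes with weights; compare module Abl). Uses: nothing.
Proof. The same as Abl with the weight f d χ ≥ 0 inserted (the total weight is ∑ (1/φ(d)) ∑_χ f). -/
def AbwStmt : Prop :=
  ∃ C0 : ℝ, 0 < C0 ∧ ∀ (S : Finset ℕ) (X : (d : ℕ) → Finset (DirichletCharacter ℂ d))
    (f : (d : ℕ) → DirichletCharacter ℂ d → ℝ) (G : ℝ) (Xm : ℕ) (Y : ℕ → ℕ), (∀ d χ, 0 ≤ f d χ) →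
    (∀ d ∈ S, Y d ≤ Xm) →
    (∀ Y' : ℕ → ℕ, (∀ d ∈ S, Y' d ≤ Xm) →
      ∑ d ∈ S, (1 / (d.totient : ℝ)) * ∑ χ ∈ X d, f d χ * ‖PS χ.primitiveCharacter (Y' d)‖ ≤ G) →
    ∑ d ∈ S, (1 / (d.totient : ℝ)) * ∑ χ ∈ X d, f d χ * ‖PC χ.primitiveCharacter (Y d)‖ ≤
      3 * (G + C0 * (Real.sqrt Xm * Real.log Xm) * ∑ d ∈ S, (1 / (d.totient : ℝ)) * ∑ χ ∈ X d, f d χ)

/-- Module Mdw (theorem tMdw; the middle range with weights; compare module Mid). Uses: Vgb, Dcp, Bxw, Abw.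
Proof. As Mid; the total weight is ∑_d (1/φ(d)) ∑_χ f ≤ R1 (1 + log D)² (replaces B (1 + log D)²). -/
def MdwStmt : Prop :=
  ∀ A : ℝ, 0 < A → ∃ c C1 : ℝ, 0 < c ∧ 0 < C1 ∧ ∀ (x R R1 : ℝ) (E : ℕ) (S : Finset ℕ)
    (X : (d : ℕ) → Finset (DirichletCharacter ℂ d)) (y : ℕ → ℝ) (f : (d : ℕ) → DirichletCharacter ℂ d → ℝ),
    3 ≤ x → 0 ≤ R → 0 ≤ R1 → 1 ≤ E → (∀ d χ, 0 ≤ f d χ) →
    (∀ d ∈ S, 1 ≤ d ∧ (d : ℝ) ≤ x ^ A ∧ 0 ≤ y d ∧ y d ≤ x) →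
    (∀ d ∈ S, ∀ χ ∈ X d, E < χ.conductor ∧ χ.conductor ≤ 2 * E) →
    (∀ d ∈ S, (∑ χ ∈ X d, f d χ ^ 2) ^ 3 * ((X d).card : ℝ) ≤ R ∧ ∑ χ ∈ X d, f d χ ≤ R1) →
    ∑ d ∈ S, (1 / (d.totient : ℝ)) * ∑ χ ∈ X d, f d χ * ‖PC χ.primitiveCharacter ⌊y d⌋₊‖ ≤
      C1 * (Real.log x) ^ c * (R ^ ((1 : ℝ) / 6) * x ^ ((1 : ℝ) / 2) *
          (x ^ 3 / (E : ℝ) ^ 2 + x ^ ((9 : ℝ) / 5) + (E : ℝ) ^ 2) ^ ((1 : ℝ) / 6) +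
        R1 * (x ^ ((1 : ℝ) / 4) * (E : ℝ) ^ ((1 : ℝ) / 2) + x ^ ((1 : ℝ) / 2)))

/-- Module Kcw (theorem tKcw; the choice of the method). Uses: nothing.
Proof. K = ⌈2A⌉ + 1. L^(4C) ≥ L^C ≥ 1. First alternative of Adm, k ≤ K: take k. k > K: take K: D^K m^(K-1) L^C ≤ D^k m^(k-1) L^(4C) ≤ e
(D, m ≥ 1) and x^K/e ≥ x^(K-A) ≥ x^A ≥ e. Second alternative: if e ≥ x^(7/10) done. If e < x^(7/10): D⁴ L^(4C) ≤ D³ m L^(4C) ≤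
x^(6/5) (D ≤ m), so D L^C ≤ x^(3/10); k = 1: x^(3/10) ≤ x/e, and e ≥ √x/L^B ≥ x^(1/2-1/5). -/
def KcwStmt : Prop :=
  ∀ A : ℝ, 0 < A → ∃ K : ℕ, 1 ≤ K ∧ ∀ C B x e m D L : ℝ, 0 ≤ C → 0 ≤ B → 3 ≤ x → 1 ≤ L → 1 ≤ D → D ≤ m → 1 ≤ e →
    Real.sqrt x / L ^ B ≤ e → e ≤ x ^ A → L ^ B ≤ x ^ ((1 : ℝ) / 5) → Adm x (L ^ (4 * C)) e m D →
    (∃ k : ℕ, 1 ≤ k ∧ k ≤ K ∧ D ^ k * m ^ (k - 1) * L ^ C ≤ min e (x ^ k / e)) ∨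
    (x ^ ((7 : ℝ) / 10) ≤ e ∧ D ^ 3 * m * L ^ C ≤ min (x ^ ((6 : ℝ) / 5)) (x ^ 3 / e ^ 2) ∧
      D * m * e * L ^ C ≤ x ^ ((3 : ℝ) / 2))

/-- Module Lgw (theorem tLgw; all large conductors; compare modules Lrg, Lrv). Uses: Orh, Kcw, Rtw, Mdw.
Proof. K from Kcw, C1 from Rtw, c, C2 from Mdw, C' = max(2K(U + 5), 6(c + U + 5)), C = 4C' + B + (constants of the conclusion), x0 with
log x ≥ 1 and (log x)^B ≤ x^(1/5) for x ≥ x0. L = log x, m = index, D = Dd d. For e | d with e > √x/L^B: √x < e L^B ≤ e L^C, so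
Adm x (L^C) e m D, hence Adm x (L^(4C')) e m D (monotone in L, everything ≥ 0), and Kcw gives the class κ(d,e) ∈ {1..K} or mid (a
choice). Split the (d, χ) by the j with 2^j < cond ≤ 2^(j+1) (at most 2 A L + 1 values) and by the class. Class k: Rtw with
X d = the χ of this class: (∑ f²)^k card^(k-1) L^C' ≤ D^k m^(k-1) L^C' ≤ min(e, x^k/e) (card ≤ card XX = m by Orh):
≤ C1 x L^(3 - C'/(2K)). Class mid, E = 2^j < e ≤ 2E, e ≥ x^(7/10): R = L^(-C') min(x^(6/5), x³/E²), R1 = (L^(-C') x^(3/2)/E)^(1/2):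
(∑ f²)³ card ≤ D³ m ≤ R, ∑ f ≤ (card ∑ f²)^(1/2) ≤ (m D)^(1/2) ≤ R1. Since E ≥ x^(7/10)/2: x³/E² ≤ 4 x^(8/5), and
R x³ (x³/E² + x^(9/5) + E²) ≤ L^(-C') (5 x^6 + x^6), R1 x^(1/4) E^(1/2) = L^(-C'/2) x, R1 x^(1/2) ≤ 2 L^(-C'/2) x: Mdw gives
≤ 6 C2 L^(c - C'/6) x. Sum over the (2AL + 1)(K + 1) classes: ≤ const x/L^U. -/
def LgwStmt : Prop :=
  ∀ A B U : ℝ, 0 < A → 0 < B → 0 < U → ∃ C x0 : ℝ, 0 < C ∧ 3 ≤ x0 ∧ ∀ (x : ℝ) (S : Finset ℕ)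
    (H : (d : ℕ) → Subgroup (ZMod d)ˣ) (Dd : ℕ → ℝ) (f : (d : ℕ) → DirichletCharacter ℂ d → ℝ) (y : ℕ → ℝ),
    x0 ≤ x → (∀ d χ, 0 ≤ f d χ) →
    (∀ d ∈ S, 1 ≤ d ∧ (d : ℝ) ≤ x ^ A ∧ 2 ≤ y d ∧ y d ≤ x ∧ 1 ≤ Dd d ∧ Dd d ≤ ((H d).index : ℝ) ∧
      ∑ χ ∈ XX d (H d), f d χ ^ 2 ≤ Dd d ∧
      ∀ e : ℕ, e ∣ d → Real.sqrt x < (e : ℝ) * (Real.log x) ^ C →
        Adm x ((Real.log x) ^ C) e ((H d).index : ℝ) (Dd d)) →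
    ∑ d ∈ S, (1 / (d.totient : ℝ)) *
      ∑ χ ∈ (XX d (H d)).filter
          (fun χ => 1 < χ.conductor ∧ Real.sqrt x / (Real.log x) ^ B < (χ.conductor : ℝ)),
        f d χ * ‖PC χ.primitiveCharacter ⌊y d⌋₊‖ ≤ C * (x / (Real.log x) ^ U)

/-- Module Dvw (theorem tDvw; terms with the index; compare module Dvs). Uses: Smb2.
Proof. L = log x ≥ 1. Claim: m d ≤ x/L^C + x^(9/10). If d ≤ x^(9/10): m d ≤ φ(d) ≤ d. Otherwise √x < d L^C, use Adm with e = d: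
k = 1: L^C ≤ D L^C ≤ x/d, so m d ≤ d ≤ x/L^C. k = 2: m L^C ≤ min(d, x²/d) ≤ x. k ≥ 3: m^(k-1) ≤ min(d, x^k/d) ≤ x^(k/2), so
m ≤ x^(k/(2(k-1))) ≤ x^(3/4). Second alternative: m d ≤ x^(3/2), so m ≤ x^(6/10). Then with log d ≤ A L and Smb2 (D = ⌊x^A⌋) the sum is
≤ (x/L^C + x^(9/10)) 2 A L (1 + A L)^8 ≤ 2 A (1+A)^8 (x L^(9-C) + x^(9/10) L^9); take C ≥ U + 9 and ≥ the bound of
2 A (1+A)^8 (1 + sup_x L^(9+U) x^(-1/10)). -/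
def DvwStmt : Prop :=
  ∀ A U : ℝ, 0 < A → 0 < U → ∃ C : ℝ, 0 < C ∧ ∀ (x : ℝ) (S : Finset ℕ) (m Dd : ℕ → ℝ), 3 ≤ x →
    (∀ d ∈ S, 1 ≤ d ∧ (d : ℝ) ≤ x ^ A ∧ 1 ≤ m d ∧ m d ≤ (d.totient : ℝ) ∧ 1 ≤ Dd d ∧
      (Real.sqrt x < (d : ℝ) * (Real.log x) ^ C → Adm x ((Real.log x) ^ C) d (m d) (Dd d))) →
    ∑ d ∈ S, (1 / (d.totient : ℝ)) * ((d.divisors.card : ℝ) ^ 2 * (m d * (2 * Real.log d))) ≤
      C * (x / (Real.log x) ^ U)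

/-- Module Asw (theorem tAsw; the final theorem; compare module Asm). Uses: Orh, Prv, Pww, LpcStmt (SpecL of Lib/BV), Lgw,
Sml, Dvw, Trc.
Proof. As Asm. Dd d = φ(d)/|B d|: 1 ≤ Dd (|B| ≤ φ(d)) and Dd ≤ index (B contains a coset b H, so |B| ≥ |H| = φ(d)/index). B from Sml,
R = √x/(log x)^B. For every d Pww; in the last sum ‖PC χ Y‖ ≤ ‖PC χ* Y‖ + 2 log d (Lpc) and bet ≤ 1, the number of χ is ≤ card XX =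
index (Orh): this costs index 2 log d ≤ τ(d)² index 2 log d. Lgw with f d χ = bet (B d) χ and Prv. Dvw with m d = index (1 ≤ index ≤
φ(d); index divides the order of the group). C larger than the constants of Lgw, Dvw: the hypothesis for C implies the one for a
smaller C' ≤ C (√x < e L^C' implies √x < e L^C, and Adm x (L^C) implies Adm x (L^C')). 3 ≤ x < x0: |setErr| ≤ y + li y ≤ 3 x0
(setCount ≤ y, |B| ≥ 1; EH: li y ≤ 2 y), S has at most x0^A elements. -/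
def AswStmt : Prop :=
  ∀ A U : ℝ, 0 < A → 0 < U → ∃ C : ℝ, ∀ (x : ℝ) (S : Finset ℕ) (H : (d : ℕ) → Subgroup (ZMod d)ˣ)
    (B : (d : ℕ) → Finset (ZMod d)ˣ) (y : ℕ → ℝ), 3 ≤ x →
    (∀ d ∈ S, 1 ≤ d ∧ (d : ℝ) ≤ x ^ A ∧ 2 ≤ y d ∧ y d ≤ x ∧ (B d).Nonempty ∧
      (∀ b ∈ B d, ∀ h ∈ H d, b * h ∈ B d) ∧
      ∀ e : ℕ, e ∣ d → Real.sqrt x < (e : ℝ) * (Real.log x) ^ C →
        Adm x ((Real.log x) ^ C) e ((H d).index : ℝ) ((d.totient : ℝ) / ((B d).card : ℝ))) →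
    ∑ d ∈ S, |setErr (y d) d (B d)| ≤ C * (x / (Real.log x) ^ U)

end Pool.Agent.Lib.CO
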