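import Pool.Agent.Lib.CO.SpecV

/-! MP_00e23e_nt, Lib/CO, module Vau: Vaughan's identity for sums of Λ f, f completely multiplicative. -/

namespace Pool.Agent.Lib.CO

open Finset Pool.Agent.Lib.BV Pool.Agent.Results.MP_00e23e_nt

/-- the function A cut to the n ≤ z -/
private noncomputable def Vau_lo (z : ℕ) (A : ArithmeticFunction ℝ) : ArithmeticFunction ℝ :=
  ⟨fun n => if n ≤ z then A n else 0, by simp⟩

/-- the function A cut to the n > z -/
private noncomputable def Vau_hi (z : ℕ) (A : ArithmeticFunction ℝ) : ArithmeticFunction ℝ :=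
  ⟨fun n => if z < n then A n else 0, by simp⟩

private lemma Vau_lo_apply (z : ℕ) (A : ArithmeticFunction ℝ) (n : ℕ) :
    Vau_lo z A n = if n ≤ z then A n else 0 := rfl

private lemma Vau_hi_apply (z : ℕ) (A : ArithmeticFunction ℝ) (n : ℕ) :
    Vau_hi z A n = if z < n then A n else 0 := rfl

private lemma Vau_split (z : ℕ) (A : ArithmeticFunction ℝ) : A = Vau_lo z A + Vau_hi z A := by
  ext n
  rw [ArithmeticFunction.add_apply, Vau_lo_apply, Vau_hi_apply]
  by_cases h : n ≤ z
  · rw [if_pos h, if_neg (by omega), add_zero]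
  · rw [if_neg h, if_pos (by omega), zero_add]

private lemma Vau_sub_apply (A B : ArithmeticFunction ℝ) (n : ℕ) : (A - B) n = A n - B n := by
  have h : ((A - B) + B) n = A n := by rw [sub_add_cancel]
  rw [ArithmeticFunction.add_apply] at h
  linarith

/-- the function A f -/
private noncomputable def Vau_tw (f : ℕ → ℂ) (A : ArithmeticFunction ℝ) : ArithmeticFunction ℂ :=
  ⟨fun n => ((A n : ℝ) : ℂ) * f n, by simp⟩

private lemma Vau_tw_apply (f : ℕ → ℂ) (A : ArithmeticFunction ℝ) (n : ℕ) :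
    Vau_tw f A n = ((A n : ℝ) : ℂ) * f n := rfl

private lemma Vau_tw_mul (f : ℕ → ℂ) (hf : ∀ m n : ℕ, f (m * n) = f m * f n) (A B : ArithmeticFunction ℝ) :
    Vau_tw f (A * B) = Vau_tw f A * Vau_tw f B := by
  ext n
  rw [Vau_tw_apply, ArithmeticFunction.mul_apply, ArithmeticFunction.mul_apply, Complex.ofReal_sum,
    Finset.sum_mul]
  refine Finset.sum_congr rfl fun x hx => ?_
  rw [Vau_tw_apply, Vau_tw_apply, ← (Nat.mem_divisorsAntidiagonal.mp hx).1, hf, Complex.ofReal_mul]
  ring

private lemma Vau_sum (f : ℕ → ℂ) (hf : ∀ m n : ℕ, f (m * n) = f m * f n) (A B : ArithmeticFunction ℝ)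
    (Y : ℕ) :
    ∑ n ∈ Icc 1 Y, (((A * B) n : ℝ) : ℂ) * f n =
      ∑ b ∈ Icc 1 Y, (((A b : ℝ) : ℂ) * f b) * ∑ c ∈ Icc 1 (Y / b), ((B c : ℝ) : ℂ) * f c := by
  have h := ArithmeticFunction.sum_Ioc_mul_eq_sum_sum (Vau_tw f A) (Vau_tw f B) Y
  rw [← Vau_tw_mul f hf] at h
  exact h

/-- a sum over b ≤ Y of terms that vanish for b > w, and for b > Y -/
private lemma Vau_cut (Y w : ℕ) (g : ℕ → ℂ) (h1 : ∀ b, w < b → g b = 0) (h2 : ∀ b, Y < b → g b = 0) :
    ∑ b ∈ Icc 1 Y, g b = ∑ b ∈ Icc 1 w, g b := by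
  have e1 : ∑ b ∈ Icc 1 Y, g b = ∑ b ∈ Icc 1 (max Y w), g b := by
    apply Finset.sum_subset
    · exact Finset.Icc_subset_Icc le_rfl (le_max_left _ _)
    · intro b hb hn
      apply h2
      rw [Finset.mem_Icc] at hb hn
      omega
  have e2 : ∑ b ∈ Icc 1 w, g b = ∑ b ∈ Icc 1 (max Y w), g b := by
    apply Finset.sum_subset
    · exact Finset.Icc_subset_Icc le_rfl (le_max_right _ _)
    · intro b hb hn
      apply h1
      rw [Finset.mem_Icc] at hb hn
      omega
  rw [e1, e2]

private lemma Vau_vg (z b : ℕ) :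
    (Vau_lo z (ArithmeticFunction.moebius : ArithmeticFunction ℝ) *
      Vau_lo z ArithmeticFunction.vonMangoldt) b = vg z b := by
  rw [ArithmeticFunction.mul_apply, vg]
  refine Finset.sum_congr rfl fun x _ => ?_
  rw [Vau_lo_apply, Vau_lo_apply, ArithmeticFunction.intCoe_apply]
  by_cases h1 : x.1 ≤ z
  · by_cases h2 : x.2 ≤ z
    · rw [if_pos h1, if_pos h2, if_pos ⟨h1, h2⟩]
    · have h3 : ¬ (x.1 ≤ z ∧ x.2 ≤ z) := fun h => h2 h.2
      rw [if_neg h2, if_neg h3, mul_zero]
  · have h3 : ¬ (x.1 ≤ z ∧ x.2 ≤ z) := fun h => h1 h.1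
    rw [if_neg h1, if_neg h3, zero_mul]

private lemma Vau_vh (z m : ℕ) :
    (Vau_hi z (ArithmeticFunction.moebius : ArithmeticFunction ℝ) *
      (ArithmeticFunction.zeta : ArithmeticFunction ℝ)) m = vh z m := by
  rw [ArithmeticFunction.coe_mul_zeta_apply, vh]
  refine Finset.sum_congr rfl fun r _ => ?_
  rw [Vau_hi_apply, ArithmeticFunction.intCoe_apply]

private lemma Vau_vl (z n : ℕ) : Vau_hi z ArithmeticFunction.vonMangoldt n = vl z n := rfl

private lemma Vau_id (z : ℕ) :
    (ArithmeticFunction.vonMangoldt : ArithmeticFunction ℝ) =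
      Vau_lo z ArithmeticFunction.vonMangoldt +
        Vau_lo z (ArithmeticFunction.moebius : ArithmeticFunction ℝ) * ArithmeticFunction.log -
        (Vau_lo z (ArithmeticFunction.moebius : ArithmeticFunction ℝ) *
          Vau_lo z ArithmeticFunction.vonMangoldt) * (ArithmeticFunction.zeta : ArithmeticFunction ℝ) +
        (Vau_hi z (ArithmeticFunction.moebius : ArithmeticFunction ℝ) *
          (ArithmeticFunction.zeta : ArithmeticFunction ℝ)) * Vau_hi z ArithmeticFunction.vonMangoldt := by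
  have h1 := Vau_split z (ArithmeticFunction.moebius : ArithmeticFunction ℝ)
  have h2 := Vau_split z ArithmeticFunction.vonMangoldt
  have h3 : ((ArithmeticFunction.moebius : ArithmeticFunction ℝ)) *
      (ArithmeticFunction.zeta : ArithmeticFunction ℝ) = 1 := ArithmeticFunction.coe_moebius_mul_coe_zeta
  have h4 : ArithmeticFunction.vonMangoldt * (ArithmeticFunction.zeta : ArithmeticFunction ℝ) =
      ArithmeticFunction.log := ArithmeticFunction.vonMangoldt_mul_zeta
  have h1' : Vau_hi z (ArithmeticFunction.moebius : ArithmeticFunction ℝ) =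
      (ArithmeticFunction.moebius : ArithmeticFunction ℝ) -
        Vau_lo z (ArithmeticFunction.moebius : ArithmeticFunction ℝ) := by
    rw [eq_sub_iff_add_eq, add_comm]; exact h1.symm
  have h2' : Vau_hi z ArithmeticFunction.vonMangoldt =
      ArithmeticFunction.vonMangoldt - Vau_lo z ArithmeticFunction.vonMangoldt := by
    rw [eq_sub_iff_add_eq, add_comm]; exact h2.symm
  rw [h1', h2', ← h4]
  generalize Vau_lo z (ArithmeticFunction.moebius : ArithmeticFunction ℝ) = a at *
  generalize Vau_lo z ArithmeticFunction.vonMangoldt = b at *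
  generalize (ArithmeticFunction.moebius : ArithmeticFunction ℝ) = m at *
  generalize (ArithmeticFunction.zeta : ArithmeticFunction ℝ) = s at *
  generalize (ArithmeticFunction.vonMangoldt : ArithmeticFunction ℝ) = l at *
  have e : (m - a) * s * (l - b) = (m * s) * l - (m * s) * b - a * (l * s) + a * b * s := by ring
  rw [e, h3]
  ring

theorem tVau : VauStmt := by
  intro z Y f hz hf
  have hid := Vau_id z
  have hsum : ∑ n ∈ Icc 1 Y, ((ArithmeticFunction.vonMangoldt n : ℝ) : ℂ) * f n =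
      ∑ n ∈ Icc 1 Y, ((Vau_lo z ArithmeticFunction.vonMangoldt n : ℝ) : ℂ) * f n +
      ∑ n ∈ Icc 1 Y, (((Vau_lo z (ArithmeticFunction.moebius : ArithmeticFunction ℝ) *
        ArithmeticFunction.log) n : ℝ) : ℂ) * f n -
      ∑ n ∈ Icc 1 Y, ((((Vau_lo z (ArithmeticFunction.moebius : ArithmeticFunction ℝ) *
          Vau_lo z ArithmeticFunction.vonMangoldt) *
            (ArithmeticFunction.zeta : ArithmeticFunction ℝ)) n : ℝ) : ℂ) * f n +
      ∑ n ∈ Icc 1 Y, ((((Vau_hi z (ArithmeticFunction.moebius : ArithmeticFunction ℝ) *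
          (ArithmeticFunction.zeta : ArithmeticFunction ℝ)) *
            Vau_hi z ArithmeticFunction.vonMangoldt) n : ℝ) : ℂ) * f n := by
    rw [← Finset.sum_add_distrib, ← Finset.sum_sub_distrib, ← Finset.sum_add_distrib]
    refine Finset.sum_congr rfl fun n _ => ?_
    have h := congrArg (fun A : ArithmeticFunction ℝ => ((A n : ℝ) : ℂ)) hid
    simp only [ArithmeticFunction.add_apply, Vau_sub_apply, Complex.ofReal_add,
      Complex.ofReal_sub] at h
    rw [h]
    ring
  rw [hsum]
  refine congrArg₂ (· + ·) (congrArg₂ (· - ·) (congrArg₂ (· + ·) ?_ ?_) ?_) ?_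
  · rw [Finset.sum_filter]
    refine Finset.sum_congr rfl fun n _ => ?_
    rw [Vau_lo_apply]
    by_cases h : n ≤ z
    · rw [if_pos h, if_pos h]
    · rw [if_neg h, if_neg h, Complex.ofReal_zero, zero_mul]
  · rw [Vau_sum f hf, Vau_cut Y z]
    · refine Finset.sum_congr rfl fun b hb => ?_
      rw [Vau_lo_apply, if_pos (Finset.mem_Icc.mp hb).2, ArithmeticFunction.intCoe_apply]
      rfl
    · intro b hb
      rw [Vau_lo_apply, if_neg (by omega), Complex.ofReal_zero, zero_mul, zero_mul]
    · intro b hb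
      rw [Nat.div_eq_of_lt hb, Finset.Icc_eq_empty (by norm_num), Finset.sum_empty, mul_zero]
  · rw [Vau_sum f hf, Vau_cut Y (z ^ 2)]
    · refine Finset.sum_congr rfl fun b hb => ?_
      rw [Vau_vg]
      congr 1
      refine Finset.sum_congr rfl fun c hc => ?_
      rw [ArithmeticFunction.natCoe_apply, ArithmeticFunction.zeta_apply,
        if_neg (by have := (Finset.mem_Icc.mp hc).1; omega)]
      simp
    · intro b hb
      rw [Vau_vg]
      have h0 : vg z b = 0 := by
        rw [vg]
        refine Finset.sum_eq_zero fun w hw => ?_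
        rw [if_neg]
        rintro ⟨h1, h2⟩
        have h3 := (Nat.mem_divisorsAntidiagonal.mp hw).1
        have h4 : w.1 * w.2 ≤ z * z := Nat.mul_le_mul h1 h2
        rw [h3] at h4
        rw [pow_two] at hb
        omega
      rw [h0, Complex.ofReal_zero, zero_mul, zero_mul]
    · intro b hb
      rw [Nat.div_eq_of_lt hb, Finset.Icc_eq_empty (by norm_num), Finset.sum_empty, mul_zero]
  · rw [Vau_sum f hf]
    refine Finset.sum_congr rfl fun m _ => ?_
    rw [Finset.mul_sum]
    refine Finset.sum_congr rfl fun n _ => ?_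
    rw [Vau_vh, Vau_vl]

end Pool.Agent.Lib.CO
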